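import Pool.Agent.N582.ASCore

/-!
# Decompositions and Hamiltonian cycles in digraphs with all in-degrees equal to two

`p v true`, `p v false` are the two predecessors of a vertex `v ≠ z`. A further vertex `z` receives
an arc from every other vertex and has arcs to two vertices `w₁`, `w₂`.
-/

set_option autoImplicit false

namespace Pool.Agent.N582.AS

open Finset

variable {V : Type*}

/-- the arcs of the digraph -/
def arcD (z w₁ w₂ : V) (p : V → Bool → V) (u v : V) : Prop :=
  (v ≠ z ∧ ∃ b, u = p v b) ∨ (v = z ∧ u ≠ z) ∨ (u = z ∧ (v = w₁ ∨ v = w₂))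

/-- the choice `c` of predecessors is a Hamiltonian cycle of the digraph without `z` -/
def Ham (z : V) (p : V → Bool → V) (c : V → Bool) : Prop :=
  (∀ x y, x ≠ z → y ≠ z → p x (c x) = p y (c y) → x = y) ∧
    ∀ T : Set V, z ∉ T → T.Nonempty → (∀ v ∈ T, p v (c v) ∈ T) → ∀ v, v ≠ z → v ∈ T

/-- the arcs as a finite set -/
noncomputable def arcSet [Fintype V] (A : V → V → Prop) : Finset (V × V) := by
  classical exact univ.filter fun a => A a.1 a.2

theorem mem_arcSet [Fintype V] {A : V → V → Prop} {a : V × V} : a ∈ arcSet A ↔ A a.1 a.2 := by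
  classical
  unfold arcSet
  simp

theorem card_arcD_le [Fintype V] (z w₁ w₂ : V) (p : V → Bool → V) :
    #(arcSet (arcD z w₁ w₂ p)) ≤ 3 * (Fintype.card V - 1) + 2 := by
  classical
  have hsub : arcSet (arcD z w₁ w₂ p) ⊆
      ((univ.erase z) ×ˢ (univ : Finset Bool)).image (fun q => (p q.1 q.2, q.1)) ∪
        ((univ.erase z).image (fun u => (u, z)) ∪ {(z, w₁), (z, w₂)}) := by
    rintro ⟨u, v⟩ h
    rw [mem_arcSet] at h
    rw [mem_union, mem_union, mem_image, mem_image]
    rcases h with ⟨hv, b, hb⟩ | ⟨hv, hu⟩ | ⟨hu, hv⟩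
    · left
      refine ⟨(v, b), by simpa using hv, ?_⟩
      rw [Prod.mk.injEq]
      exact ⟨hb.symm, rfl⟩
    · right; left
      refine ⟨u, by simpa using hu, ?_⟩
      rw [Prod.mk.injEq]
      exact ⟨rfl, hv.symm⟩
    · right; right
      simp only at hu hv
      subst hu
      rcases hv with rfl | rfl <;> simp
  refine (card_le_card hsub).trans ?_
  refine (card_union_le _ _).trans ?_
  have h1 : #(((univ.erase z) ×ˢ (univ : Finset Bool)).image (fun q => (p q.1 q.2, q.1))) ≤
      (Fintype.card V - 1) * 2 := by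
    refine card_image_le.trans ?_
    rw [card_product, card_erase_of_mem (mem_univ _), card_univ, card_univ, Fintype.card_bool]
  have h2 := card_union_le ((univ.erase z).image (fun u => (u, z))) {(z, w₁), (z, w₂)}
  have h3 : #((univ.erase z).image (fun u => (u, z))) ≤ Fintype.card V - 1 := by
    refine card_image_le.trans ?_
    rw [card_erase_of_mem (mem_univ _), card_univ]
  have h4 : #({(z, w₁), (z, w₂)} : Finset (V × V)) ≤ 2 := card_le_two
  omega

theorem card_bip_le [Fintype V] {A : V → V → Prop} (h : (bip A).Connected) :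
    2 * Fintype.card V ≤ #(arcSet A) + 1 := by
  classical
  have h1 := h.card_vert_le_card_edgeSet_add_one
  rw [Nat.card_sum, Nat.card_eq_fintype_card] at h1
  have h2 : Nat.card (bip A).edgeSet ≤ #(arcSet A) := by
    rw [← Fintype.card_coe, ← Nat.card_eq_fintype_card]
    refine Nat.card_le_card_of_surjective (fun a : {a // a ∈ arcSet A} =>
      (⟨s(Sum.inl a.1.1, Sum.inr a.1.2), ?_⟩ : (bip A).edgeSet)) ?_
    · rw [SimpleGraph.mem_edgeSet]
      exact bip_lr.2 (mem_arcSet.1 a.2)
    · rintro ⟨e, he⟩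
      induction e using Sym2.ind with
      | _ x y =>
        rw [SimpleGraph.mem_edgeSet] at he
        rcases he with ⟨v, w, rfl, rfl, hvw⟩ | ⟨v, w, rfl, rfl, hvw⟩
        · exact ⟨⟨(v, w), mem_arcSet.2 hvw⟩, rfl⟩
        · refine ⟨⟨(v, w), mem_arcSet.2 hvw⟩, ?_⟩
          rw [Subtype.mk.injEq]
          exact Sym2.eq_swap
  omega

/-- If `z` can be reached from everywhere and the set `T` is closed under predecessors, it contains
everything. -/
theorem closed_pred {A : V → V → Prop} (hA : Strong A) {T : Set V} {t : V} (ht : t ∈ T)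
    (h : ∀ a b, A a b → b ∈ T → a ∈ T) (x : V) : x ∈ T := by
  have := hA x t
  induction this using Relation.ReflTransGen.head_induction_on with
  | refl => exact ht
  | head h1 _ ih => exact h _ _ h1 ih

variable {z w₁ w₂ : V} {p : V → Bool → V}

theorem ham_of_decomposable (hp1 : ∀ v, v ≠ z → ∀ b, p v b ≠ z)
    (hp2 : ∀ v, v ≠ z → ∀ b, p v b ≠ v) (hw₁ : w₁ ≠ z) (hw₂ : w₂ ≠ z)
    (h : Decomposable (arcD z w₁ w₂ p)) : ∃ c, Ham z p c := by
  classical
  obtain ⟨A₁, A₂, hA₁, hA₂, hdis, hanti, hstr⟩ := h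
  have hf : Finite V := Nat.finite_of_card_ne_zero (by have := hanti.1; omega)
  have : Fintype V := Fintype.ofFinite V
  have h3 : 3 ≤ Fintype.card V := by
    have := hanti.1
    rwa [Nat.card_eq_fintype_card] at this
  have hcon := connected_of_antistrong hanti
  have hirr : ∀ v, ¬ arcD z w₁ w₂ p v v := by
    rintro v (⟨hv, b, hb⟩ | ⟨hv, hv'⟩ | ⟨hv, hv'⟩)
    · exact hp2 v hv b hb.symm
    · exact hv' hv
    · rcases hv' with rfl | rfl
      · exact hw₁ hv
      · exact hw₂ hv
  -- counting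
  have c1 := card_bip_le hcon
  have c2 := card_arcD_le z w₁ w₂ p
  have c3 : #(arcSet A₁) + #(arcSet A₂) ≤ #(arcSet (arcD z w₁ w₂ p)) := by
    rw [← card_union_of_disjoint]
    · refine card_le_card fun a ha => ?_
      rw [mem_union, mem_arcSet, mem_arcSet] at ha
      rw [mem_arcSet]
      exact ha.elim (hA₁ _ _) (hA₂ _ _)
    · rw [Finset.disjoint_left]
      intro a ha ha'
      exact hdis _ _ ⟨mem_arcSet.1 ha, mem_arcSet.1 ha'⟩
  have c4 : #(arcSet A₂) ≤ Fintype.card V := by omega
  have hother : ∀ v : V, ∃ y, y ≠ v := by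
    intro v
    have : Nontrivial V := Fintype.one_lt_card_iff_nontrivial.1 (by omega)
    exact exists_ne v
  have hout : ∀ v, ∃ y, A₂ v y := by
    intro v
    obtain ⟨y, hy⟩ := hother v
    rcases Relation.ReflTransGen.cases_head (hstr v y) with rfl | ⟨x, hx, -⟩
    · exact absurd rfl hy
    · exact ⟨x, hx⟩
  have hin : ∀ v, ∃ y, A₂ y v := by
    intro v
    obtain ⟨y, hy⟩ := hother v
    rcases Relation.ReflTransGen.cases_tail (hstr y v) with rfl | ⟨x, -, hx⟩
    · exact absurd rfl hy
    · exact ⟨x, hx⟩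
  choose σ hσ using hout
  choose ρ hρ using hin
  have huσ : ∀ a b, A₂ a b → b = σ a := by
    have hsub : univ.image (fun v => (v, σ v)) ⊆ arcSet A₂ := by
      intro a ha
      obtain ⟨v, -, rfl⟩ := mem_image.1 ha
      exact mem_arcSet.2 (hσ v)
    have hc : #(univ.image (fun v => (v, σ v))) = Fintype.card V := by
      rw [card_image_of_injective _ (fun x y h => (Prod.mk.inj h).1), card_univ]
    have heq := eq_of_subset_of_card_le hsub (by omega)
    intro a b hab
    have : (a, b) ∈ univ.image (fun v => (v, σ v)) := by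
      rw [heq]
      exact mem_arcSet.2 hab
    obtain ⟨v, -, hv⟩ := mem_image.1 this
    rw [Prod.mk.injEq] at hv
    obtain ⟨rfl, rfl⟩ := hv
    rfl
  have huρ : ∀ a b, A₂ a b → a = ρ b := by
    have hsub : univ.image (fun v => (ρ v, v)) ⊆ arcSet A₂ := by
      intro a ha
      obtain ⟨v, -, rfl⟩ := mem_image.1 ha
      exact mem_arcSet.2 (hρ v)
    have hc : #(univ.image (fun v => (ρ v, v))) = Fintype.card V := by
      rw [card_image_of_injective _ (fun x y h => (Prod.mk.inj h).2), card_univ]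
    have heq := eq_of_subset_of_card_le hsub (by omega)
    intro a b hab
    have : (a, b) ∈ univ.image (fun v => (ρ v, v)) := by
      rw [heq]
      exact mem_arcSet.2 hab
    obtain ⟨v, -, hv⟩ := mem_image.1 this
    rw [Prod.mk.injEq] at hv
    obtain ⟨rfl, rfl⟩ := hv
    rfl
  have hρσ : ∀ v, ρ (σ v) = v := fun v => (huρ _ _ (hσ v)).symm
  have hσρ : ∀ v, σ (ρ v) = v := fun v => (huσ _ _ (hρ v)).symm
  have hne : ∀ a b, A₂ a b → a ≠ b := by
    rintro a b hab rfl
    exact hirr a (hA₂ _ _ hab)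
  set u := ρ z with hu
  set w := σ z with hw
  have huz : u ≠ z := hne _ _ (hρ z)
  have hwz : w ≠ z := (hne _ _ (hσ z)).symm
  have hzw : w = w₁ ∨ w = w₂ := by
    rcases hA₂ _ _ (hσ z) with ⟨-, b, hb⟩ | ⟨hv, -⟩ | ⟨-, hv⟩
    · exact absurd hb.symm (hp1 _ hwz b)
    · exact absurd hv hwz
    · exact hv
  have hzout : ∀ a, A₁ z a → a ≠ w ∧ (a = w₁ ∨ a = w₂) := by
    intro a ha
    refine ⟨fun h => hdis _ _ ⟨ha, h ▸ hσ z⟩, ?_⟩
    rcases hA₁ _ _ ha with ⟨hv, b, hb⟩ | ⟨-, hv⟩ | ⟨-, hv⟩
    · exact absurd hb.symm (hp1 _ hv b)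
    · exact absurd rfl hv
    · exact hv
  -- the vertex before `z` is a predecessor of the vertex after `z`
  have key : ∃ b, u = p w b := by
    by_contra hc
    push Not at hc
    have hnw : ¬ arcD z w₁ w₂ p u w := by
      rintro (⟨-, b, hb⟩ | ⟨h, -⟩ | ⟨h, -⟩)
      · exact hc b hb
      · exact hwz h
      · exact huz h
    let S : Set (V ⊕ V) := {x | x = .inl u ∨ (∃ a, x = .inr a ∧ A₁ u a) ∨
      (x = .inl z ∧ ∃ a, A₁ z a ∧ A₁ u a)}
    have hclosed : ∀ x y, (bip A₁).Adj x y → x ∈ S → y ∈ S := by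
      rintro x y hxy (rfl | ⟨a, rfl, ha⟩ | ⟨rfl, a, hza, hua⟩)
      · rcases y with y | y
        · exact absurd hxy bip_ll
        · exact Or.inr (Or.inl ⟨y, rfl, bip_lr.1 hxy⟩)
      · rcases y with v | v
        · have hva : A₁ v a := bip_rl.1 hxy
          by_cases hvu : v = u
          · subst hvu
            exact Or.inl rfl
          by_cases hvz : v = z
          · subst hvz
            exact Or.inr (Or.inr ⟨rfl, a, hva, ha⟩)
          exfalso
          have haz : a ≠ z := by
            rintro rfl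
            exact hdis _ _ ⟨ha, hρ _⟩
          have haw : a ≠ w := by
            rintro rfl
            exact hnw (hA₁ _ _ ha)
          have hya : A₂ (ρ a) a := hρ a
          have hyz : ρ a ≠ z := by
            intro h
            rw [h] at hya
            exact haw (huσ _ _ hya)
          have hyu : ρ a ≠ u := by
            intro h
            rw [h] at hya
            have := huσ _ _ hya
            rw [hσρ] at this
            exact haz this
          have hyv : ρ a ≠ v := by
            intro h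
            rw [h] at hya
            exact hdis _ _ ⟨hva, hya⟩
          have hpr : ∀ x, x ≠ z → arcD z w₁ w₂ p x a → ∃ b, x = p a b := by
            rintro x hx (⟨-, b, hb⟩ | ⟨h, -⟩ | ⟨h, -⟩)
            · exact ⟨b, hb⟩
            · exact absurd h haz
            · exact absurd h hx
          obtain ⟨b1, hb1⟩ := hpr u huz (hA₁ _ _ ha)
          obtain ⟨b2, hb2⟩ := hpr v hvz (hA₁ _ _ hva)
          obtain ⟨b3, hb3⟩ := hpr _ hyz (hA₂ _ _ hya)
          have n12 : b1 ≠ b2 := by
            rintro rfl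
            exact hvu (hb2.trans hb1.symm)
          have n13 : b1 ≠ b3 := by
            rintro rfl
            exact hyu (hb3.trans hb1.symm)
          have n23 : b2 ≠ b3 := by
            rintro rfl
            exact hyv (hb3.trans hb2.symm)
          revert n12 n13 n23
          cases b1 <;> cases b2 <;> cases b3 <;> simp
        · exact absurd hxy bip_rr
      · rcases y with v | v
        · exact absurd hxy bip_ll
        · have hzv : A₁ z v := bip_lr.1 hxy
          obtain ⟨h1, h2⟩ := hzout v hzv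
          obtain ⟨h3, h4⟩ := hzout a hza
          have hva : v = a := by
            rcases hzw with h | h
            · rcases h2 with h2 | h2
              · exact absurd (h2.trans h.symm) h1
              · rcases h4 with h4 | h4
                · exact absurd (h4.trans h.symm) h3
                · exact h2.trans h4.symm
            · rcases h2 with h2 | h2
              · rcases h4 with h4 | h4
                · exact h2.trans h4.symm
                · exact absurd (h4.trans h.symm) h3
              · exact absurd (h2.trans h.symm) h1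
          exact Or.inr (Or.inl ⟨v, rfl, hva ▸ hua⟩)
    have hall : ∀ x y, (bip A₁).Reachable x y → x ∈ S → y ∈ S := by
      rintro x y ⟨q⟩ hx
      induction q with
      | nil => exact hx
      | cons hadj _ ih => exact ih (hclosed _ _ hadj hx)
    have hz := hall _ _ (hcon.preconnected (.inl u) (.inr z)) (Or.inl rfl)
    rcases hz with h | ⟨a, h, ha⟩ | ⟨h, -⟩
    · cases h
    · cases h
      exact hdis _ _ ⟨ha, hρ z⟩
    · cases h
  obtain ⟨b0, hb0⟩ := key
  have hc : ∀ v, ∃ b, v ≠ z → p v b = if v = w then u else ρ v := by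
    intro v
    by_cases hvz : v = z
    · exact ⟨true, fun h => absurd hvz h⟩
    by_cases hvw : v = w
    · refine ⟨b0, fun _ => ?_⟩
      rw [if_pos hvw, hvw, ← hb0]
    · rcases hA₂ _ _ (hρ v) with ⟨-, b, hb⟩ | ⟨h, -⟩ | ⟨h, -⟩
      · refine ⟨b, fun _ => ?_⟩
        rw [if_neg hvw, hb]
      · exact absurd h hvz
      · exfalso
        apply hvw
        rw [hw, ← h, hσρ]
  choose c hc using hc
  refine ⟨c, ?_, ?_⟩
  · intro x y hx hy hxy
    rw [hc x hx, hc y hy] at hxy
    by_cases h1 : x = w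
    · by_cases h2 : y = w
      · rw [h1, h2]
      · rw [if_pos h1, if_neg h2] at hxy
        exfalso
        apply hy
        rw [← hσρ y, ← hxy, hu, hσρ]
    · by_cases h2 : y = w
      · rw [if_neg h1, if_pos h2] at hxy
        exfalso
        apply hx
        rw [← hσρ x, hxy, hu, hσρ]
      · rw [if_neg h1, if_neg h2] at hxy
        rw [← hσρ x, hxy, hσρ]
  · intro T hzT ⟨t, ht⟩ hT v hv
    by_cases hwT : w ∈ T
    · have huT : u ∈ T := by
        have := hT w hwT
        rwa [hc w hwz, if_pos rfl] at this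
      have := closed_pred hstr (T := T ∪ {z}) (t := t) (Or.inl ht) (fun a b hab hb => by
        rcases hb with hb | hb
        · by_cases hbw : b = w
          · right
            rw [Set.mem_singleton_iff, huρ _ _ hab, hbw, hw, hρσ]
          · left
            have h1 : b ≠ z := fun h => hzT (h ▸ hb)
            have := hT b hb
            rw [hc b h1, if_neg hbw] at this
            rwa [huρ _ _ hab]
        · left
          rw [Set.mem_singleton_iff] at hb
          rw [huρ _ _ hab, hb]
          exact huT) v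
      exact this.resolve_right hv
    · have := closed_pred hstr (T := T) (t := t) ht (fun a b hab hb => by
        have h1 : b ≠ z := fun h => hzT (h ▸ hb)
        have h2 : b ≠ w := fun h => hwT (h ▸ hb)
        have := hT b hb
        rw [hc b h1, if_neg h2] at this
        rwa [huρ _ _ hab]) z
      exact absurd this hzT

theorem decomposable_of_ham (h3 : 3 ≤ Nat.card V) (hp1 : ∀ v, v ≠ z → ∀ b, p v b ≠ z)
    (hp3 : ∀ v, v ≠ z → p v true ≠ p v false) (hw₁ : w₁ ≠ z) (hw₂ : w₂ ≠ z) (hw : w₁ ≠ w₂)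
    (h : ∃ c, Ham z p c) : Decomposable (arcD z w₁ w₂ p) := by
  classical
  obtain ⟨c, -, hT⟩ := h
  let π : V → V := fun v => p v (c v)
  have hπ : ∀ v, v ≠ z → π v ≠ z := fun v hv => hp1 v hv _
  let A₂ : V → V → Prop := fun a v => (v ≠ z ∧ v ≠ w₁ ∧ a = π v) ∨ (v = w₁ ∧ a = z) ∨
    (v = z ∧ a = π w₁)
  let A₁ : V → V → Prop := fun a v => arcD z w₁ w₂ p a v ∧ ¬ A₂ a v
  have hA₂ : ∀ a v, A₂ a v → arcD z w₁ w₂ p a v := by
    rintro a v (⟨h1, -, h2⟩ | ⟨h1, h2⟩ | ⟨h1, h2⟩)
    · exact Or.inl ⟨h1, c v, h2⟩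
    · exact Or.inr (Or.inr ⟨h2, Or.inl h1⟩)
    · exact Or.inr (Or.inl ⟨h1, h2 ▸ hπ _ hw₁⟩)
  refine ⟨A₁, A₂, fun _ _ h => h.1, hA₂, fun _ _ h => h.1.2 h.2, ?_, ?_⟩
  · refine antistrong_of_connected h3 ?_
    -- everything is connected with `inr z`
    have hub : ∀ v, v ≠ z → v ≠ π w₁ → (bip A₁).Reachable (.inl v) (.inr z) := by
      intro v hv hv'
      refine (bip_lr.2 ⟨Or.inr (Or.inl ⟨rfl, hv⟩), ?_⟩).reachable
      rintro (⟨h1, -⟩ | ⟨h1, -⟩ | ⟨-, h1⟩)
      · exact h1 rfl
      · exact hw₁ h1.symm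
      · exact hv' h1
    have hne : ∀ x, x ≠ z → p x (!(c x)) ≠ π x := by
      intro x hx
      have h1 : π x = p x (c x) := rfl
      rw [h1]
      cases h2 : c x
      · exact hp3 x hx
      · exact (hp3 x hx).symm
    have hoth : ∀ x, x ≠ z → (bip A₁).Reachable (.inr x) (.inl (p x (!(c x)))) := by
      intro x hx
      refine (bip_rl.2 ⟨Or.inl ⟨hx, _, rfl⟩, ?_⟩).reachable
      rintro (⟨-, -, h1⟩ | ⟨-, h1⟩ | ⟨h1, -⟩)
      · exact hne x hx h1
      · exact hp1 x hx _ h1
      · exact hx h1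
    have hw1 : (bip A₁).Reachable (.inr w₁) (.inr z) :=
      (hoth w₁ hw₁).trans (hub _ (hp1 _ hw₁ _) (hne _ hw₁))
    have hu : (bip A₁).Reachable (.inl (π w₁)) (.inr z) := by
      refine SimpleGraph.Reachable.trans (bip_lr.2 ⟨Or.inl ⟨hw₁, _, rfl⟩, ?_⟩).reachable hw1
      rintro (⟨-, h1, -⟩ | ⟨-, h1⟩ | ⟨h1, -⟩)
      · exact h1 rfl
      · exact hπ _ hw₁ h1
      · exact hw₁ h1
    have hinl : ∀ v, v ≠ z → (bip A₁).Reachable (.inl v) (.inr z) := by
      intro v hv
      by_cases h : v = π w₁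
      · rw [h]
        exact hu
      · exact hub v hv h
    have hinr : ∀ v, (bip A₁).Reachable (.inr v) (.inr z) := by
      intro v
      by_cases hv : v = z
      · rw [hv]
      · exact (hoth v hv).trans (hinl _ (hp1 _ hv _))
    have hz : (bip A₁).Reachable (.inl z) (.inr z) := by
      refine SimpleGraph.Reachable.trans
        (bip_lr.2 ⟨Or.inr (Or.inr ⟨rfl, Or.inr rfl⟩), ?_⟩).reachable (hinr w₂)
      rintro (⟨-, -, h1⟩ | ⟨h1, -⟩ | ⟨h1, -⟩)
      · exact hπ _ hw₂ h1.symm
      · exact hw h1.symm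
      · exact hw₂ h1
    have hall : ∀ a, (bip A₁).Reachable a (.inr z) := by
      rintro (v | v)
      · by_cases hv : v = z
        · rw [hv]
          exact hz
        · exact hinl v hv
      · exact hinr v
    have : Nonempty (V ⊕ V) := ⟨.inr z⟩
    exact ⟨fun a b => (hall a).trans (hall b).symm⟩
  · intro x y
    have hpred : ∀ v, v ≠ z → Relation.ReflTransGen A₂ v y → Relation.ReflTransGen A₂ (π v) y := by
      intro v hv h
      by_cases hvw : v = w₁
      · subst hvw
        have h1 : A₂ z v := Or.inr (Or.inl ⟨rfl, rfl⟩)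
        have h2 : A₂ (π v) z := Or.inr (Or.inr ⟨rfl, rfl⟩)
        exact Relation.ReflTransGen.head h2 (Relation.ReflTransGen.head h1 h)
      · exact Relation.ReflTransGen.head (Or.inl ⟨hv, hvw, rfl⟩) h
    have hne : ∃ v, v ≠ z ∧ Relation.ReflTransGen A₂ v y := by
      by_cases hy : y = z
      · exact ⟨π w₁, hπ _ hw₁, Relation.ReflTransGen.single (Or.inr (Or.inr ⟨hy, rfl⟩))⟩
      · exact ⟨y, hy, Relation.ReflTransGen.refl⟩
    have hall := hT {v | v ≠ z ∧ Relation.ReflTransGen A₂ v y} (fun h => h.1 rfl) hne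
      (fun v hv => ⟨hπ v hv.1, hpred v hv.1 hv.2⟩)
    by_cases hx : x = z
    · rw [hx]
      exact Relation.ReflTransGen.head (Or.inr (Or.inl ⟨rfl, rfl⟩)) (hall w₁ hw₁).2
    · exact (hall x hx).2

theorem decomposable_iff (h3 : 3 ≤ Nat.card V) (hp1 : ∀ v, v ≠ z → ∀ b, p v b ≠ z)
    (hp2 : ∀ v, v ≠ z → ∀ b, p v b ≠ v)
    (hp3 : ∀ v, v ≠ z → p v true ≠ p v false) (hw₁ : w₁ ≠ z) (hw₂ : w₂ ≠ z) (hw : w₁ ≠ w₂) :
    Decomposable (arcD z w₁ w₂ p) ↔ ∃ c, Ham z p c :=
  ⟨ham_of_decomposable hp1 hp2 hw₁ hw₂, decomposable_of_ham h3 hp1 hp3 hw₁ hw₂ hw⟩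

end Pool.Agent.N582.AS
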