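import Pool.Agent.N582.ASDefs

/-!
# Decompositions into an antistrong and a strongly connected subdigraph: a reduction
-/

set_option autoImplicit false

namespace Pool.Agent.N582.AS

open Finset

variable {V : Type*}

/-- the bipartite representation -/
def bip (A : V → V → Prop) : SimpleGraph (V ⊕ V) where
  Adj x y := (∃ v w, x = .inl v ∧ y = .inr w ∧ A v w) ∨ (∃ v w, y = .inl v ∧ x = .inr w ∧ A v w)
  symm := ⟨fun x y h => h.symm⟩
  loopless := ⟨by
    rintro x (⟨v, w, h1, h2, -⟩ | ⟨v, w, h1, h2, -⟩) <;> (rw [h1] at h2; cases h2)⟩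

theorem bip_lr {A : V → V → Prop} {v w : V} : (bip A).Adj (.inl v) (.inr w) ↔ A v w := by
  constructor
  · rintro (⟨a, b, h1, h2, h⟩ | ⟨a, b, h1, h2, h⟩)
    · cases h1; cases h2; exact h
    · cases h1
  · exact fun h => Or.inl ⟨v, w, rfl, rfl, h⟩

theorem bip_rl {A : V → V → Prop} {v w : V} : (bip A).Adj (.inr w) (.inl v) ↔ A v w :=
  (SimpleGraph.adj_comm _ _ _).trans bip_lr

theorem bip_ll {A : V → V → Prop} {v w : V} : ¬ (bip A).Adj (.inl v) (.inl w) := by
  rintro (⟨a, b, h1, h2, h⟩ | ⟨a, b, h1, h2, h⟩)
  · cases h2
  · cases h2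

theorem bip_rr {A : V → V → Prop} {v w : V} : ¬ (bip A).Adj (.inr v) (.inr w) := by
  rintro (⟨a, b, h1, h2, h⟩ | ⟨a, b, h1, h2, h⟩)
  · cases h1
  · cases h1

/-- A forward antidirected trail is a path in the bipartite representation. -/
theorem reach_of_trail {A : V → V → Prop} {x y : V} (h : ForwardTrail A x y) :
    (bip A).Reachable (.inl x) (.inr y) := by
  obtain ⟨m, w, h0, h1, h2, -⟩ := h
  have key : ∀ i ≤ 2 * m, (bip A).Reachable (.inl (w 0))
      (if Even (i + 1) then .inl (w (i + 1)) else .inr (w (i + 1))) := by
    intro i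
    induction i with
    | zero =>
      intro _
      have := h2 0 (Nat.zero_le _)
      rw [arcAt, if_pos (by decide)] at this
      rw [if_neg (by decide)]
      exact (bip_lr.2 this).reachable
    | succ i ih =>
      intro hi
      refine (ih (by omega)).trans ?_
      have := h2 (i + 1) hi
      rw [arcAt] at this
      by_cases he : Even (i + 1)
      · rw [if_pos he] at this ⊢
        rw [if_neg (by rw [Nat.even_add_one]; exact not_not.2 he)]
        exact (bip_lr.2 this).reachable
      · rw [if_neg he] at this ⊢
        rw [if_pos (by rw [Nat.even_add_one]; exact he)]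
        exact (bip_rl.2 this).reachable
  have := key (2 * m) le_rfl
  rw [if_neg (by rw [Nat.even_add_one]; simp), h0, h1] at this
  exact this

/-- An antistrong digraph has a connected bipartite representation. -/
theorem connected_of_antistrong {A : V → V → Prop} (h : Antistrong A) : (bip A).Connected := by
  obtain ⟨h3, ht⟩ := h
  have hf : Finite V := Nat.finite_of_card_ne_zero (by omega)
  have : Fintype V := Fintype.ofFinite V
  rw [Nat.card_eq_fintype_card] at h3
  have hex : ∀ x y : V, ∃ z, z ≠ x ∧ z ≠ y := by
    classical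
    intro x y
    by_contra hc
    push Not at hc
    have : (univ : Finset V) ⊆ {x, y} := by
      intro z _
      rw [mem_insert, mem_singleton]
      by_cases h1 : z = x
      · exact Or.inl h1
      · exact Or.inr (hc z h1)
    have := card_le_card this
    rw [card_univ] at this
    have := this.trans card_le_two
    omega
  have hne : Nonempty V := by
    rw [← Fintype.card_pos_iff]
    omega
  have lr : ∀ x y : V, (bip A).Reachable (.inl x) (.inr y) := by
    intro x y
    by_cases hxy : x = y
    · subst hxy
      obtain ⟨y, hy, -⟩ := hex x x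
      obtain ⟨z, hz1, hz2⟩ := hex x y
      exact ((reach_of_trail (ht x y (Ne.symm hy))).trans
        (reach_of_trail (ht z y hz2)).symm).trans (reach_of_trail (ht z x hz1))
    · exact reach_of_trail (ht x y hxy)
  obtain ⟨v0⟩ := hne
  have : Nonempty (V ⊕ V) := ⟨.inl v0⟩
  refine ⟨fun a b => ?_⟩
  have h0 : ∀ a, (bip A).Reachable (.inl v0) a := by
    intro a
    rcases a with a | a
    · exact (lr v0 v0).trans (lr a v0).symm
    · exact lr v0 a
  exact (h0 a).symm.trans (h0 b)

/-- A digraph with a connected bipartite representation is antistrong. -/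
theorem antistrong_of_connected {A : V → V → Prop} (h3 : 3 ≤ Nat.card V)
    (h : (bip A).Connected) : Antistrong A := by
  refine ⟨h3, fun x y _ => ?_⟩
  obtain ⟨p, hp⟩ := (h.preconnected (.inl x) (.inr y)).exists_isPath
  have side : ∀ i ≤ p.length, (Even i → ∃ v, p.getVert i = .inl v) ∧
      (¬ Even i → ∃ v, p.getVert i = .inr v) := by
    intro i
    induction i with
    | zero =>
      intro _
      exact ⟨fun _ => ⟨x, p.getVert_zero⟩, fun h => absurd (by decide) h⟩
    | succ i ih =>
      intro hi
      obtain ⟨h1, h2⟩ := ih (by omega)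
      have hadj := p.adj_getVert_succ (i := i) (by omega)
      constructor
      · intro he
        rw [Nat.even_add_one] at he
        obtain ⟨v, hv⟩ := h2 he
        rw [hv] at hadj
        rcases hq : p.getVert (i + 1) with w | w
        · exact ⟨w, rfl⟩
        · rw [hq] at hadj
          exact absurd hadj bip_rr
      · intro he
        rw [Nat.even_add_one, not_not] at he
        obtain ⟨v, hv⟩ := h1 he
        rw [hv] at hadj
        rcases hq : p.getVert (i + 1) with w | w
        · rw [hq] at hadj
          exact absurd hadj bip_ll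
        · exact ⟨w, rfl⟩
  have hodd : ¬ Even p.length := by
    intro he
    obtain ⟨v, hv⟩ := (side p.length le_rfl).1 he
    rw [p.getVert_length] at hv
    cases hv
  obtain ⟨m, hm⟩ := Nat.not_even_iff_odd.1 hodd
  let w : ℕ → V := fun i => Sum.elim id id (p.getVert i)
  have hwe : ∀ i ≤ p.length, Even i → p.getVert i = .inl (w i) := by
    intro i hi he
    obtain ⟨v, hv⟩ := (side i hi).1 he
    simp only [w, hv, Sum.elim_inl, id]
  have hwo : ∀ i ≤ p.length, ¬ Even i → p.getVert i = .inr (w i) := by
    intro i hi he
    obtain ⟨v, hv⟩ := (side i hi).2 he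
    simp only [w, hv, Sum.elim_inr, id]
  have hinj : ∀ i ≤ p.length, ∀ j ≤ p.length, p.getVert i = p.getVert j → i = j := by
    intro i hi j hj hij
    exact (hp.getVert_injOn hi hj hij)
  refine ⟨m, w, ?_, ?_, ?_, ?_⟩
  · simp only [w, p.getVert_zero, Sum.elim_inl, id]
  · rw [← hm]
    simp only [w, p.getVert_length, Sum.elim_inr, id]
  · intro i hi
    have hadj := p.adj_getVert_succ (i := i) (by omega)
    rw [arcAt]
    by_cases he : Even i
    · rw [if_pos he]
      rw [hwe i (by omega) he, hwo (i + 1) (by omega) (by rw [Nat.even_add_one, not_not]; exact he)]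
        at hadj
      exact bip_lr.1 hadj
    · rw [if_neg he]
      rw [hwo i (by omega) he, hwe (i + 1) (by omega) (by rw [Nat.even_add_one]; exact he)]
        at hadj
      exact bip_rl.1 hadj
  · intro i hi j hj hij
    have ev : ∀ i ≤ 2 * m, ∀ j ≤ 2 * m, Even i → arcAt w i = arcAt w j → i = j ∨
        (¬ Even j ∧ i = j + 1 ∧ i + 1 = j) := by
      intro i hi j hj he hij
      rw [arcAt, if_pos he] at hij
      by_cases hj' : Even j
      · rw [arcAt, if_pos hj', Prod.mk.injEq] at hij
        left
        refine hinj i (by omega) j (by omega) ?_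
        rw [hwe i (by omega) he, hwe j (by omega) hj', hij.1]
      · rw [arcAt, if_neg hj', Prod.mk.injEq] at hij
        right
        refine ⟨hj', hinj i (by omega) (j + 1) (by omega) ?_,
          hinj (i + 1) (by omega) j (by omega) ?_⟩
        · rw [hwe i (by omega) he, hwe (j + 1) (by omega) (by rw [Nat.even_add_one]; exact hj'),
            hij.1]
        · rw [hwo (i + 1) (by omega) (by rw [Nat.even_add_one, not_not]; exact he),
            hwo j (by omega) hj', hij.2]
    by_cases he : Even i
    · rcases ev i hi j hj he hij with h | ⟨-, h1, h2⟩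
      · exact h
      · omega
    · by_cases hj' : Even j
      · rcases ev j hj i hi hj' hij.symm with h | ⟨-, h1, h2⟩
        · exact h.symm
        · omega
      · rw [arcAt, if_neg he, arcAt, if_neg hj', Prod.mk.injEq] at hij
        refine hinj i (by omega) j (by omega) ?_
        rw [hwo i (by omega) he, hwo j (by omega) hj', hij.2]

end Pool.Agent.N582.AS
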