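import Mathlib

/-!
# Antistrong and strongly connected digraphs: definitions
-/

set_option autoImplicit false

namespace Pool.Agent.N582.AS

/-- The arc used in the `i`-th step of the walk `w 0, w 1, …` if the arcs of the walk are
alternately forward and backward and the first one is forward. -/
def arcAt {V : Type*} (w : ℕ → V) (i : ℕ) : V × V :=
  if Even i then (w i, w (i + 1)) else (w (i + 1), w i)

/-- The digraph with the arcs `A` has a forward antidirected trail from `x` to `y`: a walk
`w 0, …, w (2 m + 1)` which repeats no arc, whose arcs alternate between forward and backward, and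
whose first and last arcs are forward. -/
def ForwardTrail {V : Type*} (A : V → V → Prop) (x y : V) : Prop :=
  ∃ (m : ℕ) (w : ℕ → V), w 0 = x ∧ w (2 * m + 1) = y ∧
    (∀ i ≤ 2 * m, A (arcAt w i).1 (arcAt w i).2) ∧
    ∀ i ≤ 2 * m, ∀ j ≤ 2 * m, arcAt w i = arcAt w j → i = j

/-- The digraph with vertex set `V` and arcs `A` is antistrong: it has at least three vertices and
a forward antidirected trail from `x` to `y` for every pair of distinct vertices `x, y`. -/
def Antistrong {V : Type*} (A : V → V → Prop) : Prop :=
  3 ≤ Nat.card V ∧ ∀ x y, x ≠ y → ForwardTrail A x y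

/-- The digraph with arcs `A` is strongly connected. -/
def Strong {V : Type*} (A : V → V → Prop) : Prop :=
  ∀ x y, Relation.ReflTransGen A x y

/-- The digraph with arcs `A` has two arc-disjoint spanning subdigraphs, the first one antistrong
and the second one strongly connected. -/
def Decomposable {V : Type*} (A : V → V → Prop) : Prop :=
  ∃ A₁ A₂ : V → V → Prop, (∀ u v, A₁ u v → A u v) ∧ (∀ u v, A₂ u v → A u v) ∧
    (∀ u v, ¬ (A₁ u v ∧ A₂ u v)) ∧ Antistrong A₁ ∧ Strong A₂

/-- The arcs of the digraph given by a list of vertices and a list of arcs; loops and arcs between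
numbers which are not vertices are ignored. -/
def arcs (I : List ℕ × List (ℕ × ℕ)) (u v : {v : ℕ // v ∈ I.1}) : Prop :=
  u ≠ v ∧ ((u : ℕ), (v : ℕ)) ∈ I.2

end Pool.Agent.N582.AS
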