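import Pool.Agent.N582.ASSat
import Pool.Agent.NPC.Sat2
import Pool.Agent.H671R2.PolyAuto

/-!
# Decompositions into an antistrong and a strongly connected subdigraph: NP-hardness
-/

set_option autoImplicit false

namespace Pool.Agent.N582.AS

open Pool.Agent.NPC

/-- a formula with three literals per clause -/
abbrev Fml : Type := List (Lit ℕ × Lit ℕ × Lit ℕ)

/-- the literals of a list of clauses -/
def fl (φ : Fml) : List (Bool × ℕ) := φ.flatMap fun c => [c.1, c.2.1, c.2.2]

/-- the literals of the tautological clauses -/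
def dl (n : ℕ) : List (Bool × ℕ) :=
  (List.range n).flatMap fun x => [(true, x), (true, x), (false, x)]

/-- the list of the occurrences of literals -/
def occ (φ : Fml) : List (Bool × ℕ) := fl φ ++ dl (3 * φ.length)

theorem flatMap3_getD {α β : Type} (l : List α) (F : α → List β) (hF : ∀ a, (F a).length = 3)
    (d : β) (a0 : α) : ∀ i < l.length, ∀ r < 3,
      (l.flatMap F).getD (3 * i + r) d = (F (l.getD i a0)).getD r d := by
  induction l with
  | nil => intro i hi; simp at hi
  | cons a l ih =>
    intro i hi r hr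
    rw [List.flatMap_cons]
    cases i with
    | zero =>
      rw [List.getD_append _ _ _ _ (by rw [hF]; omega)]
      simp
    | succ i =>
      rw [List.getD_append_right _ _ _ _ (by rw [hF]; omega), hF, List.getD_cons_succ]
      rw [List.length_cons] at hi
      rw [← ih i (by omega) r hr]
      congr 1
      omega

theorem flatMap3_length {α β : Type} (l : List α) (F : α → List β) (hF : ∀ a, (F a).length = 3) :
    (l.flatMap F).length = 3 * l.length := by
  induction l with
  | nil => rfl
  | cons a l ih =>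
    rw [List.flatMap_cons, List.length_append, ih, hF, List.length_cons]
    omega

theorem fl_length (φ : Fml) : (fl φ).length = 3 * φ.length :=
  flatMap3_length _ _ fun _ => rfl

theorem dl_length (n : ℕ) : (dl n).length = 3 * n := by
  unfold dl
  rw [flatMap3_length _ _ fun _ => rfl, List.length_range]

theorem occ_length (φ : Fml) : (occ φ).length = 12 * φ.length := by
  unfold occ
  rw [List.length_append, fl_length, dl_length]
  omega

/-- the literal of an occurrence -/
def lt (φ : Fml) (k : ℕ) : Bool × ℕ := (occ φ).getD k (true, 0)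

theorem lt_fl {φ : Fml} {i : ℕ} (hi : i < φ.length) :
    lt φ (3 * i) = (φ.getD i default).1 ∧ lt φ (3 * i + 1) = (φ.getD i default).2.1 ∧
      lt φ (3 * i + 2) = (φ.getD i default).2.2 := by
  have h : ∀ r < 3, lt φ (3 * i + r) =
      [(φ.getD i default).1, (φ.getD i default).2.1, (φ.getD i default).2.2].getD r (true, 0) := by
    intro r hr
    unfold lt occ
    rw [List.getD_append _ _ _ _ (by rw [fl_length]; omega)]
    exact flatMap3_getD φ (fun c => [c.1, c.2.1, c.2.2]) (fun _ => rfl) _ default i hi r hr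
  exact ⟨h 0 (by norm_num), h 1 (by norm_num), h 2 (by norm_num)⟩

theorem lt_dl {φ : Fml} {x : ℕ} (hx : x < 3 * φ.length) :
    lt φ (3 * φ.length + 3 * x) = (true, x) ∧ lt φ (3 * φ.length + 3 * x + 1) = (true, x) ∧
      lt φ (3 * φ.length + 3 * x + 2) = (false, x) := by
  have h : ∀ r < 3, lt φ (3 * φ.length + 3 * x + r) =
      [(true, x), (true, x), (false, x)].getD r (true, 0) := by
    intro r hr
    unfold lt occ
    rw [List.getD_append_right _ _ _ _ (by rw [fl_length]; omega), fl_length,
      show 3 * φ.length + 3 * x + r - 3 * φ.length = 3 * x + r by omega]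
    unfold dl
    rw [flatMap3_getD (List.range (3 * φ.length))
      (fun x => [(true, x), (true, x), (false, x)]) (fun _ => rfl) _ 0 x
      (by rw [List.length_range]; exact hx) r hr]
    have : (List.range (3 * φ.length)).getD x 0 = x := by
      rw [List.getD_eq_getElem _ _ (by rw [List.length_range]; exact hx), List.getElem_range]
    rw [this]
  exact ⟨h 0 (by norm_num), h 1 (by norm_num), h 2 (by norm_num)⟩

/-- the last element of a list which satisfies a condition -/
theorem last_spec (P : ℕ → Bool) (n : ℕ) :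
    (∀ j, (((List.range n).filter P).reverse).head? = some j →
      j < n ∧ P j = true ∧ ∀ i, j < i → i < n → P i = false) ∧
    ((((List.range n).filter P).reverse).head? = none → ∀ j < n, P j = false) := by
  induction n with
  | zero => simp
  | succ n ih =>
    rw [List.range_succ, List.filter_append, List.reverse_append]
    cases h : P n with
    | true =>
      rw [List.filter_cons_of_pos (by exact h)]
      simp only [List.filter_nil, List.reverse_cons, List.reverse_nil, List.nil_append,
        List.cons_append, List.head?_cons, Option.some.injEq, reduceCtorEq, false_implies,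
        and_true]
      rintro j rfl
      exact ⟨Nat.lt_succ_self _, h, fun i h1 h2 => by omega⟩
    | false =>
      rw [List.filter_cons_of_neg (by simp [h])]
      simp only [List.filter_nil, List.reverse_nil, List.nil_append]
      refine ⟨fun j hj => ?_, fun hn j hj => ?_⟩
      · obtain ⟨h1, h2, h3⟩ := ih.1 j hj
        refine ⟨by omega, h2, fun i hi hi' => ?_⟩
        by_cases hin : i = n
        · rw [hin, h]
        · exact h3 i hi (by omega)
      · by_cases hjn : j = n
        · rw [hjn, h]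
        · exact ih.2 hn j (by omega)

/-- the previous occurrence of the same literal -/
def pvs (φ : Fml) (k : ℕ) : Option ℕ :=
  (((List.range (occ φ).length).filter (fun j => decide (j < k) &&
    decide ((occ φ).getD j (true, 0) = (occ φ).getD k (true, 0)))).reverse).head?

theorem pvs_spec {φ : Fml} {k : ℕ} (hk : k < 12 * φ.length) :
    (∀ j, pvs φ k = some j → j < k ∧ lt φ j = lt φ k ∧ ∀ i, j < i → i < k → lt φ i ≠ lt φ k) ∧
    (pvs φ k = none → ∀ j < k, lt φ j ≠ lt φ k) := by
  obtain ⟨h1, h2⟩ := last_spec (fun j => decide (j < k) &&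
    decide ((occ φ).getD j (true, 0) = (occ φ).getD k (true, 0))) (occ φ).length
  rw [occ_length] at h1 h2
  unfold pvs
  rw [occ_length]
  constructor
  · intro j hj
    obtain ⟨-, h4, h5⟩ := h1 j hj
    rw [Bool.and_eq_true, decide_eq_true_eq, decide_eq_true_eq] at h4
    refine ⟨h4.1, h4.2, fun i hi hi' he => ?_⟩
    have := h5 i hi (by omega)
    rw [Bool.and_eq_false_iff, decide_eq_false_iff_not, decide_eq_false_iff_not] at this
    rcases this with h | h
    · exact h hi'
    · exact h he
  · intro hn j hj he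
    have := h2 hn j (by omega)
    rw [Bool.and_eq_false_iff, decide_eq_false_iff_not, decide_eq_false_iff_not] at this
    rcases this with h | h
    · exact h hj
    · exact h he

theorem k_cases {M k : ℕ} (hk : k < 12 * M) :
    (∃ i < M, k = 3 * i ∨ k = 3 * i + 1 ∨ k = 3 * i + 2) ∨
    ∃ x < 3 * M, k = 3 * M + 3 * x ∨ k = 3 * M + 3 * x + 1 ∨ k = 3 * M + 3 * x + 2 := by
  by_cases h : k < 3 * M
  · exact Or.inl ⟨k / 3, by omega, by omega⟩
  · exact Or.inr ⟨(k - 3 * M) / 3, by omega, by omega⟩

theorem lt_var {φ : Fml} (hb : Bounded3 φ) {k : ℕ} (hk : k < 12 * φ.length) :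
    (lt φ k).2 < 3 * φ.length := by
  rcases k_cases hk with ⟨i, hi, h⟩ | ⟨x, hx, h⟩
  · obtain ⟨h1, h2, h3⟩ := lt_fl hi
    have hmem : φ.getD i default ∈ φ := by
      rw [List.getD_eq_getElem _ _ hi]
      exact List.getElem_mem hi
    obtain ⟨b1, b2, b3⟩ := hb _ hmem
    rcases h with rfl | rfl | rfl
    · rw [h1]; exact b1
    · rw [h2]; exact b2
    · rw [h3]; exact b3
  · obtain ⟨h1, h2, h3⟩ := lt_dl hx
    rcases h with rfl | rfl | rfl
    · rw [h1]; exact hx
    · rw [h2]; exact hx
    · rw [h3]; exact hx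

/-- the system of occurrences -/
def sys (φ : Fml) (hb : Bounded3 φ) (hφ : φ ≠ []) : Sys where
  q := 4 * φ.length
  B := 3 * φ.length
  l := lt φ
  pv := pvs φ
  L := fun s i => 3 * φ.length + 3 * i + (if s then 1 else 2)
  hB := by
    have := List.length_pos_of_ne_nil hφ
    omega
  hl := fun k hk => lt_var hb (by omega)
  hL1 := fun s i hi => by split_ifs <;> omega
  hL2 := fun s i hi => by
    obtain ⟨h1, h2, h3⟩ := lt_dl hi
    cases s
    · exact h3
    · exact h2
  hL3 := fun s i hi k hk h => by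
    have hk' : k < 12 * φ.length := by omega
    by_cases hk3 : k < 3 * φ.length
    · omega
    · rcases k_cases hk' with ⟨j, hj, h'⟩ | ⟨x, hx, h'⟩
      · omega
      · obtain ⟨h1, h2, h3⟩ := lt_dl hx
        rcases h' with rfl | rfl | rfl
        · rw [h1, Prod.mk.injEq] at h
          obtain ⟨rfl, rfl⟩ := h
          simp
        · rw [h2, Prod.mk.injEq] at h
          obtain ⟨rfl, rfl⟩ := h
          simp
        · rw [h3, Prod.mk.injEq] at h
          obtain ⟨rfl, rfl⟩ := h
          simp
  hpv1 := fun k hk => (pvs_spec (by omega)).1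
  hpv2 := fun k hk => (pvs_spec (by omega)).2

theorem sat_iff {φ : Fml} (hb : Bounded3 φ) (hφ : φ ≠ []) :
    (∃ τ, (sys φ hb hφ).Sat τ) ↔ SAT3 φ := by
  constructor
  · rintro ⟨τ, h⟩
    refine ⟨τ, fun c hc => ?_⟩
    obtain ⟨i, hi, hic⟩ := List.getElem_of_mem hc
    obtain ⟨h1, h2, h3⟩ := lt_fl hi
    have := h (3 * i) (by change 3 * i < 3 * (4 * φ.length); omega)
    have e1 : rot (3 * i) = 3 * i + 1 := by unfold rot; omega
    have e2 : rti (3 * i) = 3 * i + 2 := by unfold rti; omega
    rw [e1, e2] at this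
    have e3 : φ.getD i default = c := by rw [List.getD_eq_getElem _ _ hi, hic]
    change τ (lt φ _).2 = (lt φ _).1 ∨ τ (lt φ _).2 = (lt φ _).1 ∨ τ (lt φ _).2 = (lt φ _).1 at this
    rw [h1, h2, h3, e3] at this
    exact this
  · rintro ⟨τ, h⟩
    refine ⟨τ, fun k hk => ?_⟩
    change k < 3 * (4 * φ.length) at hk
    change τ (lt φ _).2 = (lt φ _).1 ∨ τ (lt φ _).2 = (lt φ _).1 ∨ τ (lt φ _).2 = (lt φ _).1
    have key : ∀ j, (τ (lt φ (3 * j)).2 = (lt φ (3 * j)).1 ∨
        τ (lt φ (3 * j + 1)).2 = (lt φ (3 * j + 1)).1 ∨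
        τ (lt φ (3 * j + 2)).2 = (lt φ (3 * j + 2)).1) → k / 3 = j →
        (τ (lt φ k).2 = (lt φ k).1 ∨ τ (lt φ (rot k)).2 = (lt φ (rot k)).1 ∨
        τ (lt φ (rti k)).2 = (lt φ (rti k)).1) := by
      intro j hj hkj
      have hc : (k = 3 * j ∧ rot k = 3 * j + 1 ∧ rti k = 3 * j + 2) ∨
          (k = 3 * j + 1 ∧ rot k = 3 * j + 2 ∧ rti k = 3 * j) ∨
          (k = 3 * j + 2 ∧ rot k = 3 * j ∧ rti k = 3 * j + 1) := by
        unfold rot rti
        omega
      rcases hc with ⟨h1, h2, h3⟩ | ⟨h1, h2, h3⟩ | ⟨h1, h2, h3⟩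
      · rw [h2, h3, h1]
        exact hj
      · rw [h2, h3, h1]
        tauto
      · rw [h2, h3, h1]
        tauto
    rcases k_cases (M := φ.length) (k := k) (by omega) with ⟨i, hi, h'⟩ | ⟨x, hx, h'⟩
    · refine key i ?_ (by omega)
      obtain ⟨h1, h2, h3⟩ := lt_fl hi
      rw [h1, h2, h3]
      refine h _ ?_
      rw [List.getD_eq_getElem _ _ hi]
      exact List.getElem_mem hi
    · refine key (φ.length + x) ?_ (by omega)
      obtain ⟨h1, h2, h3⟩ := lt_dl hx
      rw [show 3 * (φ.length + x) = 3 * φ.length + 3 * x by ring, h1, h2, h3]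
      cases τ x <;> simp

/-- the number of the vertex `z` -/
def zn (φ : Fml) : ℕ := 27 * φ.length

/-- the vertex from which the list of occurrences of a literal enters the port `k` -/
def srcf (φ : Fml) (k : ℕ) : ℕ :=
  (pvs φ k).elim (24 * φ.length + (lt φ k).2) (fun j => 2 * j + 1)

/-- the predecessors -/
def pf (φ : Fml) (v : ℕ) (b : Bool) : ℕ :=
  if v < 24 * φ.length then
    if v % 2 = 0 then (if b then 2 * rot (v / 2) else srcf φ (v / 2))
    else (if b then 2 * (v / 2) else 2 * rti (v / 2) + 1)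
  else 2 * (3 * φ.length + 3 * ((v - 24 * φ.length + (3 * φ.length - 1)) % (3 * φ.length)) +
    (if b then 1 else 2)) + 1

/-- the instance -/
def inst (φ : Fml) : List ℕ × List (ℕ × ℕ) :=
  (List.range (zn φ + 1),
    (List.range (zn φ)).flatMap (fun v => [(pf φ v true, v), (pf φ v false, v), (v, zn φ)]) ++
      [(zn φ, 24 * φ.length), (zn φ, 0)])

theorem pf_eq {φ : Fml} (hb : Bounded3 φ) (hφ : φ ≠ []) (v : ℕ) (b : Bool) :
    pf φ v b = (sys φ hb hφ).p v b := by
  unfold pf Sys.p
  change _ = if v < 6 * (4 * φ.length) then _ else _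
  rw [show 6 * (4 * φ.length) = 24 * φ.length by ring]
  have h1 : srcf φ (v / 2) = (sys φ hb hφ).src (v / 2) := by
    unfold srcf Sys.src
    change (pvs φ (v / 2)).elim _ _ = match pvs φ (v / 2) with
      | none => 6 * (4 * φ.length) + (lt φ (v / 2)).2
      | some j => 2 * j + 1
    cases pvs φ (v / 2) with
    | none =>
      change 24 * φ.length + _ = 6 * (4 * φ.length) + _
      omega
    | some j => rfl
  rw [h1]
  unfold Sys.ix
  change _ = if v < 24 * φ.length then _ else 2 * (3 * φ.length + 3 *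
    ((v - 6 * (4 * φ.length) + (3 * φ.length - 1)) % (3 * φ.length)) + _) + 1
  rw [show 6 * (4 * φ.length) = 24 * φ.length by ring]

theorem zn_eq {φ : Fml} (hb : Bounded3 φ) (hφ : φ ≠ []) : zn φ = (sys φ hb hφ).z := by
  unfold zn Sys.z
  change _ = 6 * (4 * φ.length) + 3 * φ.length
  ring

/-- the vertices -/
abbrev Vt (φ : Fml) : Type := {v : ℕ // v ∈ (inst φ).1}

theorem mem_V {φ : Fml} {v : ℕ} : v ∈ (inst φ).1 ↔ v ≤ zn φ := by
  change v ∈ List.range (zn φ + 1) ↔ _
  rw [List.mem_range]
  omega

theorem inst_iff {φ : Fml} (hb : Bounded3 φ) (hφ : φ ≠ []) :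
    Decomposable (arcs (inst φ)) ↔ SAT3 φ := by
  classical
  have hM := List.length_pos_of_ne_nil hφ
  rw [← sat_iff hb hφ, ← Sys.ham_iff]
  set S := sys φ hb hφ with hS
  have hz : zn φ = S.z := zn_eq hb hφ
  have hpf : ∀ v b, pf φ v b = S.p v b := fun v b => pf_eq hb hφ v b
  have hplt : ∀ v < zn φ, ∀ b, pf φ v b < zn φ := by
    intro v hv b
    rw [hz] at hv ⊢
    rw [hpf]
    exact Sys.p_lt hv b
  let zt : Vt φ := ⟨zn φ, mem_V.2 le_rfl⟩
  let w1 : Vt φ := ⟨24 * φ.length, mem_V.2 (by unfold zn; omega)⟩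
  let w2 : Vt φ := ⟨0, mem_V.2 (Nat.zero_le _)⟩
  let P : Vt φ → Bool → Vt φ := fun v b =>
    if h : pf φ v b ∈ (inst φ).1 then ⟨pf φ v b, h⟩ else zt
  have hlt : ∀ v : Vt φ, v ≠ zt → (v : ℕ) < zn φ := by
    intro v hv
    have h1 := mem_V.1 v.2
    have h2 : (v : ℕ) ≠ zn φ := fun h => hv (Subtype.ext h)
    omega
  have hPv : ∀ v : Vt φ, v ≠ zt → ∀ b, ((P v b : Vt φ) : ℕ) = pf φ v b := by
    intro v hv b
    have h1 := hplt v (hlt v hv) b
    simp only [P]
    rw [dif_pos (mem_V.2 h1.le)]
  have harc : arcs (inst φ) = arcD zt w1 w2 P := by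
    funext u v
    apply propext
    unfold arcs arcD
    have hmem : ((u : ℕ), (v : ℕ)) ∈ (inst φ).2 ↔
        (∃ x < zn φ, ((u : ℕ) = pf φ x true ∧ (v : ℕ) = x) ∨ ((u : ℕ) = pf φ x false ∧ (v : ℕ) = x)
          ∨ ((u : ℕ) = x ∧ (v : ℕ) = zn φ)) ∨
        ((u : ℕ) = zn φ ∧ (v : ℕ) = 24 * φ.length) ∨ ((u : ℕ) = zn φ ∧ (v : ℕ) = 0) := by
      change ((u : ℕ), (v : ℕ)) ∈ (List.range (zn φ)).flatMap _ ++ _ ↔ _
      simp only [List.mem_append, List.mem_flatMap, List.mem_range, List.mem_cons,
        List.not_mem_nil, or_false, Prod.mk.injEq]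
    rw [hmem]
    have hne : ∀ {a b : Vt φ}, a = b ↔ (a : ℕ) = (b : ℕ) := fun {a b} => Subtype.ext_iff
    constructor
    · rintro ⟨huv, ⟨x, hx, ⟨h1, h2⟩ | ⟨h1, h2⟩ | ⟨h1, h2⟩⟩ | ⟨h1, h2⟩ | ⟨h1, h2⟩⟩
      · have hv : v ≠ zt := by
          intro h
          rw [hne] at h
          change (v : ℕ) = zn φ at h
          omega
        exact Or.inl ⟨hv, true, hne.2 (by rw [hPv v hv, h1, h2])⟩
      · have hv : v ≠ zt := by
          intro h
          rw [hne] at h
          change (v : ℕ) = zn φ at h
          omega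
        exact Or.inl ⟨hv, false, hne.2 (by rw [hPv v hv, h1, h2])⟩
      · refine Or.inr (Or.inl ⟨hne.2 h2, fun h => ?_⟩)
        rw [hne] at h
        change (u : ℕ) = zn φ at h
        omega
      · exact Or.inr (Or.inr ⟨hne.2 h1, Or.inl (hne.2 h2)⟩)
      · exact Or.inr (Or.inr ⟨hne.2 h1, Or.inr (hne.2 h2)⟩)
    · rintro (⟨hv, b, hb'⟩ | ⟨hv, hu⟩ | ⟨hu, hv⟩)
      · have h1 := hlt v hv
        rw [hne, hPv v hv] at hb'
        refine ⟨?_, Or.inl ⟨v, h1, ?_⟩⟩
        · intro h
          rw [hne, hb', hpf] at h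
          exact Sys.p_ne (S := S) (by rw [← hz]; exact h1) b h
        · cases b
          · exact Or.inr (Or.inl ⟨hb', rfl⟩)
          · exact Or.inl ⟨hb', rfl⟩
      · refine ⟨fun h => hu (h.trans hv), Or.inl ⟨u, hlt u hu, Or.inr (Or.inr ⟨rfl, ?_⟩)⟩⟩
        rw [hv]
      · have h1 : (u : ℕ) = zn φ := by rw [hu]
        rcases hv with rfl | rfl
        · refine ⟨fun h => ?_, Or.inr (Or.inl ⟨h1, rfl⟩)⟩
          rw [hne] at h
          change (u : ℕ) = 24 * φ.length at h
          unfold zn at h1
          omega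
        · refine ⟨fun h => ?_, Or.inr (Or.inr ⟨h1, rfl⟩)⟩
          rw [hne] at h
          change (u : ℕ) = 0 at h
          unfold zn at h1
          omega
  have hcard : 3 ≤ Nat.card (Vt φ) := by
    have : Nat.card (Vt φ) = zn φ + 1 := by
      have e : Vt φ = {v : ℕ // v ∈ Finset.range (zn φ + 1)} := by
        simp only [Vt, mem_V, Finset.mem_range, Nat.lt_succ_iff]
      rw [e, Nat.card_eq_fintype_card, Fintype.card_coe, Finset.card_range]
    rw [this]
    unfold zn
    omega
  rw [harc, decomposable_iff hcard]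
  · -- the Hamiltonian cycles
    rw [← hz]
    constructor
    · rintro ⟨c, h1, h2⟩
      let c' : ℕ → Bool := fun v => if h : v ∈ (inst φ).1 then c ⟨v, h⟩ else true
      have hc' : ∀ v : Vt φ, c' v = c v := by
        intro v
        simp only [c']
        rw [dif_pos v.2]
      refine ⟨c', ?_, ?_⟩
      · intro x hx y hy hxy
        have hx' : (⟨x, mem_V.2 hx.le⟩ : Vt φ) ≠ zt := fun h => by
          rw [Subtype.mk.injEq] at h
          omega
        have hy' : (⟨y, mem_V.2 hy.le⟩ : Vt φ) ≠ zt := fun h => by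
          rw [Subtype.mk.injEq] at h
          omega
        have := h1 _ _ hx' hy' (Subtype.ext (by
          rw [hPv _ hx', hPv _ hy', ← hc', ← hc', hpf, hpf]
          exact hxy))
        exact congrArg Subtype.val this
      · intro T hT hTn hTc v hv
        obtain ⟨t, ht⟩ := hTn
        have := h2 {x | (x : ℕ) ∈ T} (fun h => by
            have := hT _ h
            exact absurd this (lt_irrefl _))
          ⟨⟨t, mem_V.2 (hT t ht).le⟩, ht⟩ (fun x hx => by
            have hx' : x ≠ zt := fun h => by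
              have := hT _ hx
              rw [h] at this
              exact absurd this (lt_irrefl _)
            change ((P x (c x) : Vt φ) : ℕ) ∈ T
            rw [hPv _ hx', ← hc', hpf]
            exact hTc _ hx) ⟨v, mem_V.2 hv.le⟩ (fun h => by
              rw [Subtype.mk.injEq] at h
              omega)
        exact this
    · rintro ⟨c, h1, h2⟩
      refine ⟨fun v => c v, ?_, ?_⟩
      · intro x y hx hy hxy
        have := congrArg Subtype.val hxy
        rw [hPv _ hx, hPv _ hy, hpf, hpf] at this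
        exact Subtype.ext (h1 _ (hlt x hx) _ (hlt y hy) this)
      · intro T hzT ⟨t, ht⟩ hTc v hv
        have := h2 (Subtype.val '' T) (by
            rintro _ ⟨x, hx, rfl⟩
            exact hlt x (fun h => hzT (h ▸ hx))) ⟨_, t, ht, rfl⟩ (by
            rintro _ ⟨x, hx, rfl⟩
            have hx' : x ≠ zt := fun h => hzT (h ▸ hx)
            refine ⟨_, hTc x hx, ?_⟩
            rw [hPv _ hx', hpf]) v (hlt v hv)
        obtain ⟨x, hx, hxv⟩ := this
        rwa [Subtype.ext hxv] at hx
  · intro v hv b h
    have := congrArg Subtype.val h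
    rw [hPv _ hv] at this
    have h2 := hplt v (hlt v hv) b
    change pf φ v b = zn φ at this
    omega
  · intro v hv b h
    have := congrArg Subtype.val h
    rw [hPv _ hv, hpf] at this
    exact Sys.p_ne (S := S) (by rw [← hz]; exact hlt v hv) b this
  · intro v hv h
    have := congrArg Subtype.val h
    rw [hPv _ hv, hPv _ hv, hpf, hpf] at this
    exact Sys.p_tf (S := S) (by rw [← hz]; exact hlt v hv) this
  · intro h
    rw [Subtype.mk.injEq] at h
    unfold zn at h
    omega
  · intro h
    rw [Subtype.mk.injEq] at h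
    unfold zn at h
    omega
  · intro h
    rw [Subtype.mk.injEq] at h
    omega

end Pool.Agent.N582.AS
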