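import Pool.Agent.N582.ASMain

/-!
# The reduction is computable in polynomial time
-/

set_option autoImplicit false

namespace Pool.Agent.N582.AS

open Pool.Agent.NPC

theorem poly_occ {α : Type} [TEnc α] {f : α → Fml} (hf : Poly f) : Poly (fun a => occ (f a)) := by
  have h1 : Poly (fun a => fl (f a)) := by
    unfold fl
    fun_prop
  have h2 : Poly (fun a => dl (3 * (f a).length)) := by
    have hr : Poly (fun a => List.range (3 * (f a).length)) :=
      ((UPoly.const 3).mul (UPoly.length hf)).range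
    unfold dl
    fun_prop
  unfold occ
  fun_prop

theorem poly_lt {α : Type} [TEnc α] {f : α → Fml} {k : α → ℕ} (hf : Poly f) (hk : Poly k) :
    Poly (fun a => lt (f a) (k a)) := by
  have h1 := poly_occ hf
  unfold lt
  fun_prop

theorem poly_pvs {α : Type} [TEnc α] {f : α → Fml} {k : α → ℕ} (hf : Poly f) (hk : Poly k) :
    Poly (fun a => pvs (f a) (k a)) := by
  have h1 := poly_occ hf
  have hr : Poly (fun a => List.range (occ (f a)).length) := (UPoly.length h1).range
  have h2 : Poly (fun q : α × ℕ => (occ (f q.1)).getD q.2 (true, 0)) :=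
    NPC.Poly.getD (d := fun _ => (true, 0)) (h1.comp (NPC.Poly.fst NPC.Poly.id))
      (NPC.Poly.snd NPC.Poly.id) (NPC.Poly.const _)
  have h3 : Poly (fun q : α × ℕ => (occ (f q.1)).getD (k q.1) (true, 0)) :=
    NPC.Poly.getD (d := fun _ => (true, 0)) (h1.comp (NPC.Poly.fst NPC.Poly.id))
      (hk.comp (NPC.Poly.fst NPC.Poly.id)) (NPC.Poly.const _)
  have h4 : Poly (fun q : α × ℕ => decide (q.2 < k q.1)) :=
    NPC.Poly.decide_lt (NPC.Poly.snd NPC.Poly.id) (hk.comp (NPC.Poly.fst NPC.Poly.id))
  unfold pvs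
  exact NPC.Poly.head? (NPC.Poly.reverse (NPC.Poly.filter (p := fun a j => decide (j < k a) &&
    decide ((occ (f a)).getD j (true, 0) = (occ (f a)).getD (k a) (true, 0))) hr
    (NPC.Poly.and h4 (NPC.Poly.dec_eq h2 h3))))

theorem poly_srcf {α : Type} [TEnc α] {f : α → Fml} {k : α → ℕ} (hf : Poly f) (hk : Poly k) :
    Poly (fun a => srcf (f a) (k a)) := by
  have h1 := poly_lt hf hk
  have h2 := poly_pvs hf hk
  unfold srcf
  fun_prop

theorem poly_pf {α : Type} [TEnc α] {f : α → Fml} {v : α → ℕ} {b : α → Bool} (hf : Poly f)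
    (hv : Poly v) (hb : Poly b) : Poly (fun a => pf (f a) (v a) (b a)) := by
  have h1 := poly_srcf hf (k := fun a => v a / 2) (by fun_prop)
  unfold pf rot rti
  fun_prop

theorem poly_inst : Poly inst := by
  have hz : UPoly (fun φ : Fml => zn φ) := (UPoly.const 27).mul (UPoly.length NPC.Poly.id)
  have hr1 : Poly (fun φ : Fml => List.range (zn φ + 1)) := (hz.add (UPoly.const 1)).range
  have hr2 : Poly (fun φ : Fml => List.range (zn φ)) := hz.range
  have h1 : Poly (fun q : Fml × ℕ => pf q.1 q.2 true) :=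
    poly_pf (NPC.Poly.fst NPC.Poly.id) (NPC.Poly.snd NPC.Poly.id) (NPC.Poly.const _)
  have h2 : Poly (fun q : Fml × ℕ => pf q.1 q.2 false) :=
    poly_pf (NPC.Poly.fst NPC.Poly.id) (NPC.Poly.snd NPC.Poly.id) (NPC.Poly.const _)
  have h3 : Poly (fun φ : Fml => zn φ) := hz.toPoly
  unfold inst
  fun_prop

/-- The problem of the decomposition into an antistrong and a strongly connected spanning
subdigraph is hard. -/
theorem hardI_decomposable :
    HardI (fun I : List ℕ × List (ℕ × ℕ) => Decomposable (arcs I)) :=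
  (hardPr_SAT3b.trans (Pr' := fun _ => True) poly_inst (fun _ _ => trivial)
    (fun _ h => (inst_iff h.2.1 h.2.2).symm)).toHardI

end Pool.Agent.N582.AS
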