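import Pool.Agent.N582.ASAbs

/-!
# Hamiltonian cycles in digraphs with all in-degrees equal to two: satisfiability
-/

set_option autoImplicit false

namespace Pool.Agent.N582.AS

/-- Hamiltonian cycles, for vertices `0, …, z - 1` -/
def HamN (z : ℕ) (p : ℕ → Bool → ℕ) : Prop :=
  ∃ c : ℕ → Bool, (∀ x < z, ∀ y < z, p x (c x) = p y (c y) → x = y) ∧
    ∀ T : Set ℕ, (∀ v ∈ T, v < z) → T.Nonempty → (∀ v ∈ T, p v (c v) ∈ T) → ∀ v < z, v ∈ T

/-- the next port of the same clause -/
def rot (k : ℕ) : ℕ := 3 * (k / 3) + (k % 3 + 1) % 3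

/-- the previous port of the same clause -/
def rti (k : ℕ) : ℕ := 3 * (k / 3) + (k % 3 + 2) % 3

theorem rot_div (k : ℕ) : rot k / 3 = k / 3 := by unfold rot; omega
theorem rti_div (k : ℕ) : rti k / 3 = k / 3 := by unfold rti; omega
theorem rti_rot (k : ℕ) : rti (rot k) = k := by unfold rti rot; omega
theorem rot_rti (k : ℕ) : rot (rti k) = k := by unfold rti rot; omega
theorem rti_rti (k : ℕ) : rti (rti k) = rot k := by unfold rti rot; omega
theorem rot_rot (k : ℕ) : rot (rot k) = rti k := by unfold rti rot; omega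
theorem rot_ne (k : ℕ) : rot k ≠ k := by unfold rot; omega
theorem rti_ne (k : ℕ) : rti k ≠ k := by unfold rti; omega
theorem rot_lt {k q : ℕ} (h : k < 3 * q) : rot k < 3 * q := by unfold rot; omega
theorem rti_lt {k q : ℕ} (h : k < 3 * q) : rti k < 3 * q := by unfold rti; omega

/-- occurrences of literals in clauses with three literals -/
structure Sys where
  /-- the number of clauses -/
  q : ℕ
  /-- the number of variables -/
  B : ℕ
  /-- the literals -/
  l : ℕ → Bool × ℕ
  /-- the previous occurrence of the same literal -/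
  pv : ℕ → Option ℕ
  /-- the last occurrence of a literal -/
  L : Bool → ℕ → ℕ
  hB : 0 < B
  hl : ∀ k < 3 * q, (l k).2 < B
  hL1 : ∀ s, ∀ i < B, L s i < 3 * q
  hL2 : ∀ s, ∀ i < B, l (L s i) = (s, i)
  hL3 : ∀ s, ∀ i < B, ∀ k < 3 * q, l k = (s, i) → k ≤ L s i
  hpv1 : ∀ k < 3 * q, ∀ j, pv k = some j → j < k ∧ l j = l k ∧ ∀ i, j < i → i < k → l i ≠ l k
  hpv2 : ∀ k < 3 * q, pv k = none → ∀ j < k, l j ≠ l k

namespace Sys

variable (S : Sys)

/-- the vertex from which the list of occurrences of a literal enters the port `k` -/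
def src (k : ℕ) : ℕ :=
  match S.pv k with
  | none => 6 * S.q + (S.l k).2
  | some j => 2 * j + 1

/-- the previous variable -/
def ix (v : ℕ) : ℕ := (v - 6 * S.q + (S.B - 1)) % S.B

/-- the predecessors -/
def p (v : ℕ) (b : Bool) : ℕ :=
  if v < 6 * S.q then
    if v % 2 = 0 then (if b then 2 * rot (v / 2) else S.src (v / 2))
    else (if b then 2 * (v / 2) else 2 * rti (v / 2) + 1)
  else 2 * S.L b (S.ix v) + 1

/-- the number of the vertices -/
def z : ℕ := 6 * S.q + S.B

variable {S}

theorem src_none {k : ℕ} (h : S.pv k = none) : S.src k = 6 * S.q + (S.l k).2 := by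
  unfold src
  rw [h]

theorem src_some {k j : ℕ} (h : S.pv k = some j) : S.src k = 2 * j + 1 := by
  unfold src
  rw [h]

theorem ix_lt (v : ℕ) : S.ix v < S.B := Nat.mod_lt _ S.hB

theorem pe_true {k : ℕ} (hk : k < 3 * S.q) : S.p (2 * k) true = 2 * rot k := by
  unfold p
  rw [if_pos (by omega), if_pos (by omega), if_pos rfl]
  congr 2
  omega

theorem pe_false {k : ℕ} (hk : k < 3 * S.q) : S.p (2 * k) false = S.src k := by
  unfold p
  rw [if_pos (by omega), if_pos (by omega), if_neg (by simp)]
  congr 1
  omega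

theorem pt_true {k : ℕ} (hk : k < 3 * S.q) : S.p (2 * k + 1) true = 2 * k := by
  unfold p
  rw [if_pos (by omega), if_neg (by omega), if_pos rfl]
  omega

theorem pt_false {k : ℕ} (hk : k < 3 * S.q) : S.p (2 * k + 1) false = 2 * rti k + 1 := by
  unfold p
  rw [if_pos (by omega), if_neg (by omega), if_neg (by simp)]
  congr 3
  omega

theorem ps {i : ℕ} (b : Bool) : S.p (6 * S.q + i) b = 2 * S.L b (S.ix (6 * S.q + i)) + 1 := by
  unfold p
  rw [if_neg (by omega)]

theorem cases_v {v : ℕ} (hv : v < S.z) :
    (∃ k < 3 * S.q, v = 2 * k) ∨ (∃ k < 3 * S.q, v = 2 * k + 1) ∨ ∃ i < S.B, v = 6 * S.q + i := by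
  unfold z at hv
  by_cases h : v < 6 * S.q
  · by_cases h2 : v % 2 = 0
    · exact Or.inl ⟨v / 2, by omega, by omega⟩
    · exact Or.inr (Or.inl ⟨v / 2, by omega, by omega⟩)
  · exact Or.inr (Or.inr ⟨v - 6 * S.q, by omega, by omega⟩)

theorem src_cases {k : ℕ} (hk : k < 3 * S.q) :
    (∃ i < S.B, S.src k = 6 * S.q + i) ∨ ∃ j < 3 * S.q, S.src k = 2 * j + 1 := by
  cases h : S.pv k with
  | none => exact Or.inl ⟨_, S.hl k hk, src_none h⟩
  | some j =>
    have := (S.hpv1 k hk j h).1
    exact Or.inr ⟨j, by omega, src_some h⟩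

theorem src_ne_even {k j : ℕ} (hk : k < 3 * S.q) (hj : j < 3 * S.q) : S.src k ≠ 2 * j := by
  rcases src_cases hk with ⟨i, hi, h⟩ | ⟨i, hi, h⟩
  · omega
  · omega

theorem src_lt {k : ℕ} (hk : k < 3 * S.q) : S.src k < S.z := by
  unfold z
  rcases src_cases hk with ⟨i, hi, h⟩ | ⟨i, hi, h⟩
  · omega
  · omega

theorem p_lt {v : ℕ} (hv : v < S.z) (b : Bool) : S.p v b < S.z := by
  rcases cases_v hv with ⟨k, hk, rfl⟩ | ⟨k, hk, rfl⟩ | ⟨i, hi, rfl⟩
  · cases b
    · rw [pe_false hk]
      exact src_lt hk
    · rw [pe_true hk]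
      have := rot_lt hk
      unfold z
      omega
  · cases b
    · rw [pt_false hk]
      have := rti_lt hk
      unfold z
      omega
    · rw [pt_true hk]
      unfold z
      omega
  · rw [ps]
    have := S.hL1 b _ (ix_lt (6 * S.q + i))
    unfold z
    omega

theorem p_ne {v : ℕ} (hv : v < S.z) (b : Bool) : S.p v b ≠ v := by
  rcases cases_v hv with ⟨k, hk, rfl⟩ | ⟨k, hk, rfl⟩ | ⟨i, hi, rfl⟩
  · cases b
    · rw [pe_false hk]
      exact src_ne_even hk hk
    · rw [pe_true hk]
      have := rot_ne k
      omega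
  · cases b
    · rw [pt_false hk]
      have := rti_ne k
      omega
    · rw [pt_true hk]
      omega
  · rw [ps]
    have := S.hL1 b _ (ix_lt (6 * S.q + i))
    omega

theorem p_tf {v : ℕ} (hv : v < S.z) : S.p v true ≠ S.p v false := by
  rcases cases_v hv with ⟨k, hk, rfl⟩ | ⟨k, hk, rfl⟩ | ⟨i, hi, rfl⟩
  · rw [pe_false hk, pe_true hk]
    exact (src_ne_even hk (rot_lt hk)).symm
  · rw [pt_false hk, pt_true hk]
    omega
  · rw [ps, ps]
    intro h
    have h1 := S.hL2 true _ (ix_lt (6 * S.q + i))
    have h2 := S.hL2 false _ (ix_lt (6 * S.q + i))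
    have h3 : S.L true (S.ix (6 * S.q + i)) = S.L false (S.ix (6 * S.q + i)) := by omega
    rw [h3, h2] at h1
    simp at h1

/-- each clause has a true literal -/
def Sat (S : Sys) (τ : ℕ → Bool) : Prop :=
  ∀ k < 3 * S.q, τ (S.l k).2 = (S.l k).1 ∨ τ (S.l (rot k)).2 = (S.l (rot k)).1 ∨
    τ (S.l (rti k)).2 = (S.l (rti k)).1

theorem sat_of_ham (h : HamN S.z S.p) : ∃ τ, S.Sat τ := by
  classical
  obtain ⟨c, hinj, hT⟩ := h
  have step : ∀ k < 3 * S.q, c (2 * k) = false → ∀ j, S.pv k = some j → c (2 * j) = false := by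
    intro k hk hc j hj
    obtain ⟨h1, -, -⟩ := S.hpv1 k hk j hj
    have hj' : j < 3 * S.q := h1.trans hk
    by_contra hcj
    rw [Bool.not_eq_false] at hcj
    have e1 : S.p (2 * k) (c (2 * k)) = 2 * j + 1 := by
      rw [hc, pe_false hk, src_some hj]
    have e2 : S.p (2 * j) (c (2 * j)) = 2 * rot j := by
      rw [hcj, pe_true hj']
    have hr := rot_lt hj'
    cases hct : c (2 * rot j + 1) with
    | true =>
      have e3 : S.p (2 * rot j + 1) (c (2 * rot j + 1)) = 2 * rot j := by
        rw [hct, pt_true hr]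
      have := hinj (2 * j) (by unfold z; omega) (2 * rot j + 1) (by unfold z; omega)
        (e2.trans e3.symm)
      omega
    | false =>
      have e3 : S.p (2 * rot j + 1) (c (2 * rot j + 1)) = 2 * j + 1 := by
        rw [hct, pt_false hr, rti_rot]
      have := hinj (2 * k) (by unfold z; omega) (2 * rot j + 1) (by unfold z; omega)
        (e1.trans e3.symm)
      omega
  have first : ∀ k, k < 3 * S.q → c (2 * k) = false →
      ∃ k0 < 3 * S.q, S.l k0 = S.l k ∧ S.pv k0 = none ∧ c (2 * k0) = false := by
    intro k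
    induction k using Nat.strong_induction_on with
    | _ k ih =>
      intro hk hc
      cases hj : S.pv k with
      | none => exact ⟨k, hk, rfl, hj, hc⟩
      | some j =>
        obtain ⟨h1, h2, -⟩ := S.hpv1 k hk j hj
        obtain ⟨k0, h3, h4, h5⟩ := ih j h1 (h1.trans hk) (step k hk hc j hj)
        exact ⟨k0, h3, h4.trans h2, h5⟩
  let τ : ℕ → Bool := fun i =>
    decide (∃ k0 < 3 * S.q, S.l k0 = (true, i) ∧ S.pv k0 = none ∧ c (2 * k0) = false)
  have good : ∀ k < 3 * S.q, c (2 * k) = false → τ (S.l k).2 = (S.l k).1 := by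
    intro k hk hc
    obtain ⟨k0, h1, h2, h3, h4⟩ := first k hk hc
    cases hs : (S.l k).1 with
    | true =>
      rw [decide_eq_true_eq]
      refine ⟨k0, h1, ?_, h3, h4⟩
      rw [h2, ← hs]
    | false =>
      rw [decide_eq_false_iff_not]
      rintro ⟨k1, h5, h6, h7, h8⟩
      have e1 : S.p (2 * k0) (c (2 * k0)) = 6 * S.q + (S.l k).2 := by
        rw [h4, pe_false h1, src_none h3, h2]
      have e2 : S.p (2 * k1) (c (2 * k1)) = 6 * S.q + (S.l k).2 := by
        rw [h8, pe_false h5, src_none h7, h6]
      have := hinj (2 * k0) (by unfold z; omega) (2 * k1) (by unfold z; omega) (e1.trans e2.symm)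
      have h9 : k0 = k1 := by omega
      rw [← h9, h2] at h6
      rw [h6] at hs
      simp at hs
  refine ⟨τ, fun k hk => ?_⟩
  by_contra hc
  push Not at hc
  obtain ⟨h1, h2, h3⟩ := hc
  have g : ∀ k < 3 * S.q, τ (S.l k).2 ≠ (S.l k).1 → S.p (2 * k) (c (2 * k)) = 2 * rot k := by
    intro k hk h
    cases hc : c (2 * k) with
    | true => rw [pe_true hk]
    | false => exact absurd (good k hk hc) h
  have := hT {2 * k, 2 * rot k, 2 * rti k} (by
      rintro v (rfl | rfl | rfl)
      · unfold z; omega
      · have := rot_lt hk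
        unfold z; omega
      · have := rti_lt hk
        unfold z; omega) ⟨_, Or.inl rfl⟩ (by
      rintro v (rfl | rfl | rfl)
      · rw [g k hk h1]
        exact Or.inr (Or.inl rfl)
      · rw [g _ (rot_lt hk) h2, rot_rot]
        exact Or.inr (Or.inr rfl)
      · rw [g _ (rti_lt hk) h3, rot_rti]
        exact Or.inl rfl) 1 (by unfold z; omega)
  simp only [Set.mem_insert_iff, Set.mem_singleton_iff] at this
  omega

theorem ham_of_sat {τ : ℕ → Bool} (hs : S.Sat τ) : HamN S.z S.p := by
  classical
  let tr : ℕ → Bool := fun k => decide (τ (S.l k).2 = (S.l k).1)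
  have htr : ∀ k, tr k = true ↔ τ (S.l k).2 = (S.l k).1 := fun k => decide_eq_true_iff
  have htrl : ∀ j k, S.l j = S.l k → tr j = tr k := by
    intro j k h
    simp only [tr, h]
  let c : ℕ → Bool := fun v =>
    if v < 6 * S.q then (if v % 2 = 0 then !(tr (v / 2)) else tr (rti (v / 2))) else τ (S.ix v)
  have ce : ∀ k < 3 * S.q, c (2 * k) = !(tr k) := by
    intro k hk
    simp only [c]
    rw [if_pos (by omega), if_pos (by omega)]
    congr 2
    omega
  have ct : ∀ k < 3 * S.q, c (2 * k + 1) = tr (rti k) := by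
    intro k hk
    simp only [c]
    rw [if_pos (by omega), if_neg (by omega)]
    congr 2
    omega
  have cs : ∀ i, c (6 * S.q + i) = τ (S.ix (6 * S.q + i)) := by
    intro i
    simp only [c]
    rw [if_neg (by omega)]
  have e1 : ∀ k < 3 * S.q, tr k = true → S.p (2 * k) (c (2 * k)) = S.src k := by
    intro k hk h
    rw [ce k hk, h, Bool.not_true, pe_false hk]
  have e2 : ∀ k < 3 * S.q, tr k = false → S.p (2 * k) (c (2 * k)) = 2 * rot k := by
    intro k hk h
    rw [ce k hk, h, Bool.not_false, pe_true hk]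
  have t1 : ∀ k < 3 * S.q, tr (rti k) = true → S.p (2 * k + 1) (c (2 * k + 1)) = 2 * k := by
    intro k hk h
    rw [ct k hk, h, pt_true hk]
  have t2 : ∀ k < 3 * S.q, tr (rti k) = false →
      S.p (2 * k + 1) (c (2 * k + 1)) = 2 * rti k + 1 := by
    intro k hk h
    rw [ct k hk, h, pt_false hk]
  let LL : ℕ → ℕ := fun i => S.L (τ i) i
  have s1 : ∀ i, S.p (6 * S.q + i) (c (6 * S.q + i)) = 2 * LL (S.ix (6 * S.q + i)) + 1 := by
    intro i
    rw [cs, ps]
  have hLL : ∀ i < S.B, S.l (LL i) = (τ i, i) := fun i hi => S.hL2 _ i hi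
  have hLLlt : ∀ i < S.B, LL i < 3 * S.q := fun i hi => S.hL1 _ i hi
  have htL : ∀ i < S.B, tr (LL i) = true := by
    intro i hi
    rw [htr, hLL i hi]
  have hB := S.hB
  have hix : ∀ i < S.B, ∀ j < S.B, S.ix (6 * S.q + i) = S.ix (6 * S.q + j) → i = j := by
    intro i hi j hj h
    unfold ix at h
    rw [Nat.add_sub_cancel_left, Nat.add_sub_cancel_left] at h
    by_cases h0 : i = 0
    · by_cases h1 : j = 0
      · omega
      · rw [h0, Nat.zero_add, Nat.mod_eq_of_lt (by omega),
          show j + (S.B - 1) = (j - 1) + S.B by omega, Nat.add_mod_right,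
          Nat.mod_eq_of_lt (by omega)] at h
        omega
    · by_cases h1 : j = 0
      · rw [h1, Nat.zero_add, Nat.mod_eq_of_lt (by omega : S.B - 1 < S.B),
          show i + (S.B - 1) = (i - 1) + S.B by omega, Nat.add_mod_right,
          Nat.mod_eq_of_lt (by omega)] at h
        omega
      · rw [show j + (S.B - 1) = (j - 1) + S.B by omega, Nat.add_mod_right,
          show i + (S.B - 1) = (i - 1) + S.B by omega, Nat.add_mod_right,
          Nat.mod_eq_of_lt (by omega), Nat.mod_eq_of_lt (by omega)] at h
        omega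
  -- injectivity
  have iee : ∀ k < 3 * S.q, ∀ k' < 3 * S.q,
      S.p (2 * k) (c (2 * k)) = S.p (2 * k') (c (2 * k')) → k = k' := by
    intro k hk k' hk' h
    cases h1 : tr k with
    | true =>
      cases h2 : tr k' with
      | true =>
        rw [e1 k hk h1, e1 k' hk' h2] at h
        rw [htr] at h1 h2
        cases h3 : S.pv k with
        | none =>
          rw [src_none h3] at h
          cases h4 : S.pv k' with
          | none =>
            rw [src_none h4] at h
            have h5 : (S.l k).2 = (S.l k').2 := by omega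
            have h6 : S.l k = S.l k' := Prod.ext (by rw [← h1, ← h2, h5]) h5
            rcases lt_trichotomy k k' with h7 | h7 | h7
            · exact absurd h6 (S.hpv2 k' hk' h4 k h7)
            · exact h7
            · exact absurd h6.symm (S.hpv2 k hk h3 k' h7)
          | some j' =>
            rw [src_some h4] at h
            have := (S.hpv1 k' hk' j' h4).1
            omega
        | some j =>
          rw [src_some h3] at h
          cases h4 : S.pv k' with
          | none =>
            rw [src_none h4] at h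
            have := (S.hpv1 k hk j h3).1
            omega
          | some j' =>
            rw [src_some h4] at h
            have hjj : j = j' := by omega
            subst hjj
            obtain ⟨a1, a2, a3⟩ := S.hpv1 k hk j h3
            obtain ⟨b1, b2, b3⟩ := S.hpv1 k' hk' j h4
            rcases lt_trichotomy k k' with h7 | h7 | h7
            · exact absurd (a2.symm.trans b2) (b3 k a1 h7)
            · exact h7
            · exact absurd (b2.symm.trans a2) (a3 k' b1 h7)
      | false =>
        rw [e1 k hk h1, e2 k' hk' h2] at h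
        exact absurd h (src_ne_even hk (rot_lt hk'))
    | false =>
      cases h2 : tr k' with
      | true =>
        rw [e2 k hk h1, e1 k' hk' h2] at h
        exact absurd h.symm (src_ne_even hk' (rot_lt hk))
      | false =>
        rw [e2 k hk h1, e2 k' hk' h2] at h
        have h3 : rot k = rot k' := by omega
        rw [← rti_rot k, h3, rti_rot]
  have iet : ∀ k < 3 * S.q, ∀ k' < 3 * S.q,
      S.p (2 * k) (c (2 * k)) ≠ S.p (2 * k' + 1) (c (2 * k' + 1)) := by
    intro k hk k' hk' h
    cases h1 : tr k with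
    | true =>
      rw [e1 k hk h1] at h
      cases h2 : tr (rti k') with
      | true =>
        rw [t1 k' hk' h2] at h
        exact src_ne_even hk hk' h
      | false =>
        rw [t2 k' hk' h2] at h
        cases h3 : S.pv k with
        | none =>
          rw [src_none h3] at h
          have := rti_lt hk'
          omega
        | some j =>
          rw [src_some h3] at h
          have h4 : j = rti k' := by omega
          have h5 := (S.hpv1 k hk j h3).2.1
          have := htrl _ _ h5
          rw [h4, h2, h1] at this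
          cases this
    | false =>
      rw [e2 k hk h1] at h
      cases h2 : tr (rti k') with
      | true =>
        rw [t1 k' hk' h2] at h
        have h3 : k' = rot k := by omega
        rw [h3, rti_rot, h1] at h2
        cases h2
      | false =>
        rw [t2 k' hk' h2] at h
        omega
  have ies : ∀ k < 3 * S.q, ∀ i < S.B,
      S.p (2 * k) (c (2 * k)) ≠ S.p (6 * S.q + i) (c (6 * S.q + i)) := by
    intro k hk i hi h
    rw [s1] at h
    have hb : S.ix (6 * S.q + i) < S.B := ix_lt _
    cases h1 : tr k with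
    | true =>
      rw [e1 k hk h1] at h
      cases h3 : S.pv k with
      | none =>
        rw [src_none h3] at h
        have := hLLlt _ hb
        omega
      | some j =>
        rw [src_some h3] at h
        have h4 : j = LL (S.ix (6 * S.q + i)) := by omega
        obtain ⟨a1, a2, -⟩ := S.hpv1 k hk j h3
        rw [h4, hLL _ hb] at a2
        have := S.hL3 _ _ hb k hk a2.symm
        have h5 : S.L (τ (S.ix (6 * S.q + i))) (S.ix (6 * S.q + i)) =
          LL (S.ix (6 * S.q + i)) := rfl
        omega
    | false =>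
      rw [e2 k hk h1] at h
      omega
  have itt : ∀ k < 3 * S.q, ∀ k' < 3 * S.q,
      S.p (2 * k + 1) (c (2 * k + 1)) = S.p (2 * k' + 1) (c (2 * k' + 1)) → k = k' := by
    intro k hk k' hk' h
    cases h1 : tr (rti k) with
    | true =>
      rw [t1 k hk h1] at h
      cases h2 : tr (rti k') with
      | true =>
        rw [t1 k' hk' h2] at h
        omega
      | false =>
        rw [t2 k' hk' h2] at h
        omega
    | false =>
      rw [t2 k hk h1] at h
      cases h2 : tr (rti k') with
      | true =>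
        rw [t1 k' hk' h2] at h
        omega
      | false =>
        rw [t2 k' hk' h2] at h
        have h3 : rti k = rti k' := by omega
        rw [← rot_rti k, h3, rot_rti]
  have its : ∀ k < 3 * S.q, ∀ i < S.B,
      S.p (2 * k + 1) (c (2 * k + 1)) ≠ S.p (6 * S.q + i) (c (6 * S.q + i)) := by
    intro k hk i hi h
    rw [s1] at h
    have hb : S.ix (6 * S.q + i) < S.B := ix_lt _
    cases h1 : tr (rti k) with
    | true =>
      rw [t1 k hk h1] at h
      omega
    | false =>
      rw [t2 k hk h1] at h
      have h2 : rti k = LL (S.ix (6 * S.q + i)) := by omega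
      rw [h2, htL _ hb] at h1
      cases h1
  have iss : ∀ i < S.B, ∀ j < S.B,
      S.p (6 * S.q + i) (c (6 * S.q + i)) = S.p (6 * S.q + j) (c (6 * S.q + j)) → i = j := by
    intro i hi j hj h
    rw [s1, s1] at h
    have h1 : LL (S.ix (6 * S.q + i)) = LL (S.ix (6 * S.q + j)) := by omega
    have h2 := hLL _ (ix_lt (S := S) (6 * S.q + i))
    rw [h1, hLL _ (ix_lt (S := S) (6 * S.q + j)), Prod.mk.injEq] at h2
    exact hix i hi j hj h2.2.symm
  have hinj : ∀ x < S.z, ∀ y < S.z, S.p x (c x) = S.p y (c y) → x = y := by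
    intro x hx y hy h
    rcases cases_v hx with ⟨k, hk, rfl⟩ | ⟨k, hk, rfl⟩ | ⟨i, hi, rfl⟩
    · rcases cases_v hy with ⟨k', hk', rfl⟩ | ⟨k', hk', rfl⟩ | ⟨i', hi', rfl⟩
      · rw [iee k hk k' hk' h]
      · exact absurd h (iet k hk k' hk')
      · exact absurd h (ies k hk i' hi')
    · rcases cases_v hy with ⟨k', hk', rfl⟩ | ⟨k', hk', rfl⟩ | ⟨i', hi', rfl⟩
      · exact absurd h.symm (iet k' hk' k hk)
      · rw [itt k hk k' hk' h]
      · exact absurd h (its k hk i' hi')
    · rcases cases_v hy with ⟨k', hk', rfl⟩ | ⟨k', hk', rfl⟩ | ⟨i', hi', rfl⟩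
      · exact absurd h.symm (ies k' hk' i hi)
      · exact absurd h.symm (its k' hk' i hi)
      · rw [iss i hi i' hi' h]
  -- closed sets
  have main : ∀ T : Set ℕ, (∀ v ∈ T, v < S.z) → T.Nonempty → (∀ v ∈ T, S.p v (c v) ∈ T) →
      6 * S.q ∈ T := by
    intro T hTz hTn hT
    have fA : ∀ k < 3 * S.q, tr k = true → 2 * k + 1 ∈ T → 2 * k ∈ T := by
      intro k hk h hk1
      have h1 := hT _ hk1
      cases h2 : tr (rti k) with
      | true => rwa [t1 k hk h2] at h1
      | false =>
        rw [t2 k hk h2] at h1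
        have hr := rti_lt hk
        have h3 := hT _ h1
        cases h4 : tr (rot k) with
        | true =>
          rw [t1 _ hr (by rw [rti_rti]; exact h4)] at h3
          have h5 := hT _ h3
          rw [e2 _ hr h2, rot_rti] at h5
          exact h5
        | false =>
          rw [t2 _ hr (by rw [rti_rti]; exact h4), rti_rti] at h3
          have hr' := rot_lt hk
          have h5 := hT _ h3
          rw [t1 _ hr' (by rw [rti_rot]; exact h)] at h5
          have h6 := hT _ h5
          rw [e2 _ hr' h4, rot_rot] at h6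
          have h7 := hT _ h6
          rw [e2 _ hr h2, rot_rti] at h7
          exact h7
    have fB : ∀ k, k < 3 * S.q → tr k = true → 2 * k ∈ T → 6 * S.q + (S.l k).2 ∈ T := by
      intro k
      induction k using Nat.strong_induction_on with
      | _ k ih =>
        intro hk h hkT
        have h1 := hT _ hkT
        rw [e1 k hk h] at h1
        cases h2 : S.pv k with
        | none => rwa [src_none h2] at h1
        | some j =>
          rw [src_some h2] at h1
          obtain ⟨a1, a2, -⟩ := S.hpv1 k hk j h2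
          have h3 : tr j = true := (htrl _ _ a2).trans h
          rw [← a2]
          exact ih j a1 (a1.trans hk) h3 (fA j (a1.trans hk) h3 h1)
    have hsat : ∀ k < 3 * S.q, tr k = true ∨ tr (rot k) = true ∨ tr (rti k) = true := by
      intro k hk
      rw [htr, htr, htr]
      exact hs k hk
    have fC : ∀ k < 3 * S.q, 2 * k ∈ T → ∃ i < S.B, 6 * S.q + i ∈ T := by
      intro k hk hkT
      have hr := rot_lt hk
      have hr' := rti_lt hk
      cases h1 : tr k with
      | true => exact ⟨_, S.hl k hk, fB k hk h1 hkT⟩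
      | false =>
        have h2 := hT _ hkT
        rw [e2 k hk h1] at h2
        cases h3 : tr (rot k) with
        | true => exact ⟨_, S.hl _ hr, fB _ hr h3 h2⟩
        | false =>
          have h4 := hT _ h2
          rw [e2 _ hr h3, rot_rot] at h4
          have h5 : tr (rti k) = true := by
            rcases hsat k hk with h | h | h
            · rw [h1] at h; cases h
            · rw [h3] at h; cases h
            · exact h
          exact ⟨_, S.hl _ hr', fB _ hr' h5 h4⟩
    have fD : ∀ k < 3 * S.q, 2 * k + 1 ∈ T → ∃ i < S.B, 6 * S.q + i ∈ T := by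
      intro k hk hkT
      have hr := rot_lt hk
      have hr' := rti_lt hk
      have h1 := hT _ hkT
      cases h2 : tr (rti k) with
      | true =>
        rw [t1 k hk h2] at h1
        exact fC k hk h1
      | false =>
        rw [t2 k hk h2] at h1
        have h3 := hT _ h1
        cases h4 : tr (rot k) with
        | true =>
          rw [t1 _ hr' (by rw [rti_rti]; exact h4)] at h3
          exact fC _ hr' h3
        | false =>
          have h5 : tr k = true := by
            rcases hsat k hk with h | h | h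
            · exact h
            · rw [h4] at h; cases h
            · rw [h2] at h; cases h
          exact fC k hk (fA k hk h5 hkT)
    have fE : ∀ i < S.B, 6 * S.q + i ∈ T → 6 * S.q + S.ix (6 * S.q + i) ∈ T := by
      intro i hi hiT
      have h1 := hT _ hiT
      rw [s1] at h1
      have hb : S.ix (6 * S.q + i) < S.B := ix_lt _
      have h2 := fB _ (hLLlt _ hb) (htL _ hb) (fA _ (hLLlt _ hb) (htL _ hb) h1)
      rwa [hLL _ hb] at h2
    have fF : ∃ i < S.B, 6 * S.q + i ∈ T := by
      obtain ⟨v, hv⟩ := hTn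
      rcases cases_v (hTz v hv) with ⟨k, hk, rfl⟩ | ⟨k, hk, rfl⟩ | ⟨i, hi, rfl⟩
      · exact fC k hk hv
      · exact fD k hk hv
      · exact ⟨i, hi, hv⟩
    obtain ⟨i, hi, hiT⟩ := fF
    have down : ∀ i, i < S.B → 6 * S.q + i ∈ T → 6 * S.q ∈ T := by
      intro i
      induction i with
      | zero => exact fun _ h => h
      | succ i ih =>
        intro hi h
        have h1 := fE (i + 1) hi h
        have h2 : S.ix (6 * S.q + (i + 1)) = i := by
          unfold ix
          rw [Nat.add_sub_cancel_left, show i + 1 + (S.B - 1) = i + S.B by omega,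
            Nat.add_mod_right, Nat.mod_eq_of_lt (by omega)]
        rw [h2] at h1
        exact ih (by omega) h1
    exact down i hi hiT
  refine ⟨c, hinj, ?_⟩
  intro T hTz hTn hT v hv
  by_contra hvT
  have h0 := main T hTz hTn hT
  have hfin : T.Finite := (Set.finite_Iio S.z).subset hTz
  have hsurj : Set.SurjOn (fun v => S.p v (c v)) T T :=
    ((hfin.injOn_iff_bijOn_of_mapsTo (f := fun v => S.p v (c v)) hT).1
      (fun x hx y hy h => hinj x (hTz x hx) y (hTz y hy) h)).surjOn
  have h1 := main {v | v < S.z ∧ v ∉ T} (fun v hv => hv.1) ⟨v, hv, hvT⟩ (by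
    rintro x ⟨hx, hxT⟩
    refine ⟨p_lt hx _, fun h => ?_⟩
    obtain ⟨y, hy, hyx⟩ := hsurj h
    have := hinj y (hTz y hy) x hx hyx
    exact hxT (this ▸ hy))
  exact h1.2 h0

theorem ham_iff : HamN S.z S.p ↔ ∃ τ, S.Sat τ :=
  ⟨sat_of_ham, fun ⟨_, h⟩ => ham_of_sat h⟩

end Sys

end Pool.Agent.N582.AS
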