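import Pool.Agent.N582.BSRed

/-!
# Equations in one variable over `BS(1, β)`: the solutions
-/

set_option autoImplicit false

namespace Pool.Agent.N582.BS

/-! ### The normal form -/

section normal

variable {β : ℤ}

/-- The generator `a`. -/
def ga (β : ℤ) : BS1 β := PresentedGroup.of 0
/-- The generator `t`. -/
def gt (β : ℤ) : BS1 β := PresentedGroup.of 1

theorem rel_eq (β : ℤ) : gt β * ga β * (gt β)⁻¹ = ga β ^ β := by
  have h2 : PresentedGroup.mk {relBS β 0} (relBS β 0) = 1 :=
    PresentedGroup.one_of_mem (Set.mem_singleton _)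
  unfold relBS at h2
  simp only [map_mul, map_inv, map_zpow] at h2
  exact mul_inv_eq_one.1 h2

theorem t_pow_a (k : ℕ) (x : ℤ) : gt β ^ k * ga β ^ x = ga β ^ (β ^ k * x) * gt β ^ k :=
  conj_pow' (rel_eq β) k x

theorem a_t_inv (k : ℕ) (x : ℤ) :
    ga β ^ x * (gt β ^ k)⁻¹ = (gt β ^ k)⁻¹ * ga β ^ (β ^ k * x) := by
  rw [eq_inv_mul_iff_mul_eq, ← mul_assoc, t_pow_a]
  group

/-- The elements `t^(-i) a^j t^l`. -/
def nf (β : ℤ) (i : ℕ) (j : ℤ) (l : ℕ) : BS1 β := (gt β ^ i)⁻¹ * ga β ^ j * gt β ^ l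

theorem exists_nf (g : BS1 β) : ∃ (i l : ℕ) (j : ℤ), g = nf β i j l := by
  let H : Subgroup (BS1 β) :=
    { carrier := {g | ∃ (i l : ℕ) (j : ℤ), g = nf β i j l}
      one_mem' := ⟨0, 0, 0, by simp [nf]⟩
      mul_mem' := by
        rintro x y ⟨i, l, j, rfl⟩ ⟨i', l', j', rfl⟩
        unfold nf
        rcases le_total i' l with h | h
        · obtain ⟨d, rfl⟩ := Nat.exists_eq_add_of_le h
          refine ⟨i, d + l', j + β ^ d * j', ?_⟩
          have h1 : gt β ^ (i' + d) * (gt β ^ i')⁻¹ = gt β ^ d := by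
            rw [add_comm i' d, pow_add, mul_assoc, mul_inv_cancel, mul_one]
          calc (gt β ^ i)⁻¹ * ga β ^ j * gt β ^ (i' + d) * ((gt β ^ i')⁻¹ * ga β ^ j' * gt β ^ l')
              = (gt β ^ i)⁻¹ * ga β ^ j * ((gt β ^ (i' + d) * (gt β ^ i')⁻¹) * ga β ^ j') *
                  gt β ^ l' := by group
            _ = (gt β ^ i)⁻¹ * ga β ^ j * (ga β ^ (β ^ d * j') * gt β ^ d) * gt β ^ l' := by
                rw [h1, t_pow_a]
            _ = (gt β ^ i)⁻¹ * (ga β ^ j * ga β ^ (β ^ d * j')) * (gt β ^ d * gt β ^ l') := by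
                group
            _ = _ := by rw [← zpow_add, ← pow_add]
        · obtain ⟨d, rfl⟩ := Nat.exists_eq_add_of_le h
          refine ⟨i + d, l', β ^ d * j + j', ?_⟩
          have h1 : gt β ^ l * (gt β ^ (l + d))⁻¹ = (gt β ^ d)⁻¹ := by
            rw [add_comm l d, pow_add, mul_inv_rev, ← mul_assoc, mul_inv_cancel, one_mul]
          have h2 : (gt β ^ i)⁻¹ * (gt β ^ d)⁻¹ = (gt β ^ (i + d))⁻¹ := by
            rw [add_comm i d, pow_add, mul_inv_rev]
          calc (gt β ^ i)⁻¹ * ga β ^ j * gt β ^ l * ((gt β ^ (l + d))⁻¹ * ga β ^ j' * gt β ^ l')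
              = (gt β ^ i)⁻¹ * (ga β ^ j * (gt β ^ l * (gt β ^ (l + d))⁻¹)) * ga β ^ j' *
                  gt β ^ l' := by simp only [mul_assoc]
            _ = ((gt β ^ i)⁻¹ * (gt β ^ d)⁻¹) * (ga β ^ (β ^ d * j) * ga β ^ j') * gt β ^ l' := by
                rw [h1, a_t_inv]
                simp only [mul_assoc]
            _ = _ := by rw [h2, ← zpow_add]
      inv_mem' := by
        rintro x ⟨i, l, j, rfl⟩
        refine ⟨l, i, -j, ?_⟩
        unfold nf
        rw [mul_inv_rev, mul_inv_rev, inv_inv, zpow_neg, mul_assoc] }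
  have h1 : ∀ j : Fin (0 + 2), PresentedGroup.of j ∈ H := by
    intro j
    have hj : j = 0 ∨ j = 1 := by
      rcases j with ⟨j, hj⟩
      rcases (by omega : j = 0 ∨ j = 1) with rfl | rfl
      · exact Or.inl rfl
      · exact Or.inr rfl
    rcases hj with rfl | rfl
    · exact ⟨0, 0, 1, by simp [nf, ga]⟩
    · exact ⟨0, 1, 0, by simp [nf, gt]⟩
  exact PresentedGroup.generated_by _ H h1 g

end normal

/-! ### The action on the rational numbers -/

section action

variable {β : ℤ}

theorem addRightQ_zpow (x : ℚ) (k : ℤ) :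
    (Equiv.addRight x : Equiv.Perm ℚ) ^ k = Equiv.addRight ((k : ℚ) * x) := by
  let φ : Multiplicative ℚ →* Equiv.Perm ℚ :=
    MonoidHom.mk' (fun a => Equiv.addRight (Multiplicative.toAdd a)) (fun a b => by
      ext z
      simp only [Equiv.coe_addRight, Equiv.Perm.coe_mul, Function.comp, toAdd_mul]
      ring)
  have h1 : φ (Multiplicative.ofAdd x) = Equiv.addRight x := rfl
  rw [← h1, ← map_zpow, ← ofAdd_zsmul]
  have h2 : φ (Multiplicative.ofAdd (k • x)) = Equiv.addRight (k • x) := rfl
  rw [h2, zsmul_eq_mul]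

/-- The action of `BS(1, β)` on `ℚ`. -/
def affQ (U : ℚˣ) (hU : (U : ℚ) = (β : ℚ)) : BS1 β →* Equiv.Perm ℚ :=
  PresentedGroup.toGroup
    (f := fun i : Fin (0 + 2) => if i = 0 then (Equiv.addRight 1 : Equiv.Perm ℚ)
      else Units.mulLeft U) (by
    intro x hx
    rw [Set.mem_singleton_iff] at hx
    subst hx
    unfold relBS
    simp only [map_mul, map_inv, map_zpow, FreeGroup.lift_apply_of]
    have e1 : (1 : Fin (0 + 2)) ≠ 0 := by simp
    simp only [if_true, if_neg e1]
    rw [mul_inv_eq_one, addRightQ_zpow]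
    ext z
    simp only [Equiv.Perm.coe_mul, Function.comp, Equiv.coe_addRight, Units.mulLeft_apply,
      mul_one]
    have h2 : ((Units.mulLeft U)⁻¹ : Equiv.Perm ℚ) z = ((U⁻¹ : ℚˣ) : ℚ) * z := rfl
    rw [h2, mul_add, ← mul_assoc, Units.mul_inv, one_mul, mul_one, hU])

theorem affQ_a (U : ℚˣ) (hU : (U : ℚ) = (β : ℚ)) (y : ℚ) : affQ U hU (ga β) y = y + 1 := by
  unfold affQ ga
  rw [PresentedGroup.toGroup.of]
  rfl

theorem affQ_t (U : ℚˣ) (hU : (U : ℚ) = (β : ℚ)) (y : ℚ) : affQ U hU (gt β) y = β * y := by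
  unfold affQ gt
  rw [PresentedGroup.toGroup.of]
  have e1 : (1 : Fin (0 + 2)) ≠ 0 := by simp
  simp only [if_neg e1, Units.mulLeft_apply, hU]

theorem affQ_a_zpow (U : ℚˣ) (hU : (U : ℚ) = (β : ℚ)) (j : ℤ) (y : ℚ) :
    affQ U hU (ga β ^ j) y = y + j := by
  have h1 : affQ U hU (ga β) = Equiv.addRight 1 := by
    ext z
    rw [affQ_a]
    rfl
  rw [map_zpow, h1, addRightQ_zpow]
  simp

theorem affQ_t_pow (U : ℚˣ) (hU : (U : ℚ) = (β : ℚ)) (l : ℕ) (y : ℚ) :
    affQ U hU (gt β ^ l) y = β ^ l * y := by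
  induction l generalizing y with
  | zero => simp
  | succ l ih =>
    rw [pow_succ, map_mul, Equiv.Perm.mul_apply, affQ_t, ih]
    ring

theorem affQ_nf (U : ℚˣ) (hU : (U : ℚ) = (β : ℚ)) (hβ : (β : ℚ) ≠ 0) (i : ℕ) (j : ℤ) (l : ℕ)
    (y : ℚ) : affQ U hU (nf β i j l) y = ((β : ℚ) ^ i)⁻¹ * (β ^ l * y + j) := by
  unfold nf
  rw [map_mul, map_mul, Equiv.Perm.mul_apply, Equiv.Perm.mul_apply, affQ_t_pow, affQ_a_zpow,
    map_inv, Equiv.Perm.inv_eq_iff_eq, affQ_t_pow, ← mul_assoc, mul_inv_cancel₀ (pow_ne_zero _ hβ),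
    one_mul]

theorem expHom_a : expHom β (ga β) = 1 := expHom_zero
theorem expHom_t : expHom β (gt β) = Multiplicative.ofAdd 1 := expHom_one

theorem expHom_nf (i : ℕ) (j : ℤ) (l : ℕ) :
    Multiplicative.toAdd (expHom β (nf β i j l)) = (l : ℤ) - i := by
  have h1 : expHom β (nf β i j l) =
      (Multiplicative.ofAdd (1 : ℤ) ^ i)⁻¹ * 1 ^ j * Multiplicative.ofAdd (1 : ℤ) ^ l := by
    unfold nf
    rw [MonoidHom.map_mul, MonoidHom.map_mul, MonoidHom.map_inv, MonoidHom.map_pow,
      MonoidHom.map_pow, MonoidHom.map_zpow, expHom_a, expHom_t]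
  rw [h1]
  simp only [toAdd_mul, toAdd_inv, toAdd_pow, toAdd_zpow, toAdd_ofAdd, toAdd_one]
  simp only [smul_eq_mul, nsmul_eq_mul]
  ring

/-- the action, together with the exponent sum of `t`, is faithful -/
theorem faithful (U : ℚˣ) (hU : (U : ℚ) = (β : ℚ)) (hβ : (β : ℚ) ≠ 0) {g : BS1 β}
    (h1 : Multiplicative.toAdd (expHom β g) = 0) (h2 : affQ U hU g 0 = 0) : g = 1 := by
  obtain ⟨i, l, j, rfl⟩ := exists_nf g
  rw [expHom_nf] at h1
  rw [affQ_nf U hU hβ] at h2
  have h3 : l = i := by omega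
  subst h3
  rw [mul_zero, zero_add] at h2
  have h4 : (j : ℚ) = 0 := by
    rcases mul_eq_zero.1 h2 with h | h
    · exact absurd h (inv_ne_zero (pow_ne_zero _ hβ))
    · exact h
  have h5 : j = 0 := by exact_mod_cast h4
  subst h5
  simp [nf]

end action

/-! ### The values of words -/

/-- The letters. -/
abbrev Let : Type := Option (Fin (0 + 2)) × Bool

/-- the exponent sum of the symbol `s` -/
def es (s : Option (Fin (0 + 2))) (w : List Let) : ℤ := (w.count (s, true) : ℤ) - w.count (s, false)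

/-- the scaling part of a word -/
def sc (β z : ℚ) (w : List Let) : ℚ := β ^ (es (some 1) w) * z ^ (es none w)

/-- the translation part of a letter -/
def bl (z u : ℚ) (l : Let) : ℚ :=
  match l with
  | (none, true) => u
  | (none, false) => -(u / z)
  | (some 0, true) => 1
  | (some 0, false) => -1
  | (some 1, _) => 0

/-- the translation part of a word -/
def tr (β z u : ℚ) (w : List Let) : ℚ :=
  ∑ i ∈ Finset.range w.length, sc β z (w.take i) * bl z u (w.getD i (none, true))

theorem es_nil (s : Option (Fin (0 + 2))) : es s [] = 0 := by simp [es]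

theorem es_cons (s : Option (Fin (0 + 2))) (l : Let) (w : List Let) :
    es s (l :: w) = es s [l] + es s w := by
  unfold es
  simp only [List.count_cons, List.count_nil]
  push_cast
  ring

theorem sc_nil (β z : ℚ) : sc β z [] = 1 := by simp [sc, es_nil]

theorem sc_cons {β z : ℚ} (hβ : β ≠ 0) (hz : z ≠ 0) (l : Let) (w : List Let) :
    sc β z (l :: w) = sc β z [l] * sc β z w := by
  unfold sc
  rw [es_cons (some 1), es_cons none, zpow_add₀ hβ, zpow_add₀ hz]
  ring

theorem tr_cons {β z u : ℚ} (hβ : β ≠ 0) (hz : z ≠ 0) (l : Let) (w : List Let) :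
    tr β z u (l :: w) = bl z u l + sc β z [l] * tr β z u w := by
  unfold tr
  rw [List.length_cons, Finset.sum_range_succ', Finset.mul_sum, add_comm]
  congr 1
  · simp [sc_nil]
  · refine Finset.sum_congr rfl fun i _ => ?_
    rw [List.take_succ_cons, List.getD_cons_succ, sc_cons hβ hz, mul_assoc]

/-- the value of a word in the affine group -/
theorem ev_aff {β z u : ℚ} (hβ : β ≠ 0) (hz : z ≠ 0) (f : Option (Fin (0 + 2)) → Equiv.Perm ℚ)
    (h0 : ∀ y, f none y = z * y + u) (h1 : ∀ y, f (some 0) y = y + 1)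
    (h2 : ∀ y, f (some 1) y = β * y) (w : List Let) :
    ∀ y, ev f w y = sc β z w * y + tr β z u w := by
  induction w with
  | nil =>
    intro y
    rw [ev_nil, sc_nil]
    simp [tr]
  | cons l w ih =>
    intro y
    have h3 : ev f (l :: w) = (if l.2 = true then f l.1 else (f l.1)⁻¹) * ev f w := by
      simp [ev]
    rw [h3, Equiv.Perm.mul_apply, ih, tr_cons hβ hz, sc_cons hβ hz]
    obtain ⟨s, b⟩ := l
    have hs : s = none ∨ s = some 0 ∨ s = some 1 := by
      rcases s with _ | ⟨j, hj⟩
      · exact Or.inl rfl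
      · right
        rcases (by omega : j = 0 ∨ j = 1) with rfl | rfl
        · exact Or.inl rfl
        · exact Or.inr rfl
    rcases hs with rfl | rfl | rfl
    · cases b
      · have e1 : sc β z [((none : Option (Fin (0 + 2))), false)] = z⁻¹ := by simp [sc, es]
        simp only [Bool.false_eq_true, if_false, e1, bl]
        rw [Equiv.Perm.inv_eq_iff_eq, h0]
        field_simp
        ring
      · have e1 : sc β z [((none : Option (Fin (0 + 2))), true)] = z := by simp [sc, es]
        simp only [if_true, e1, bl, h0]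
        ring
    · cases b
      · have e1 : sc β z [((some 0 : Option (Fin (0 + 2))), false)] = 1 := by simp [sc, es]
        simp only [Bool.false_eq_true, if_false, e1, bl]
        rw [Equiv.Perm.inv_eq_iff_eq, h1]
        ring
      · have e1 : sc β z [((some 0 : Option (Fin (0 + 2))), true)] = 1 := by simp [sc, es]
        simp only [if_true, e1, bl, h1]
        ring
    · cases b
      · have e1 : sc β z [((some 1 : Option (Fin (0 + 2))), false)] = β⁻¹ := by simp [sc, es]
        simp only [Bool.false_eq_true, if_false, e1, bl]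
        rw [Equiv.Perm.inv_eq_iff_eq, h2]
        field_simp
        ring
      · have e1 : sc β z [((some 1 : Option (Fin (0 + 2))), true)] = β := by simp [sc, es]
        simp only [if_true, e1, bl, h2]
        ring

/-- the exponent sum of the value of a word -/
theorem expHom_ev {β : ℤ} (g : BS1 β) (w : List Let) :
    Multiplicative.toAdd (expHom β (evalAt (relBS β 0) g w)) =
      es (some 1) w + es none w * Multiplicative.toAdd (expHom β g) := by
  unfold evalAt
  induction w with
  | nil => simp [ev_nil, es_nil]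
  | cons l w ih =>
    have h3 : ∀ f : Option (Fin (0 + 2)) → BS1 β,
        ev f (l :: w) = (if l.2 = true then f l.1 else (f l.1)⁻¹) * ev f w := by
      intro f
      simp [ev]
    rw [h3, map_mul, toAdd_mul, ih, es_cons (some 1), es_cons none]
    obtain ⟨s, b⟩ := l
    have hs : s = none ∨ s = some 0 ∨ s = some 1 := by
      rcases s with _ | ⟨j, hj⟩
      · exact Or.inl rfl
      · right
        rcases (by omega : j = 0 ∨ j = 1) with rfl | rfl
        · exact Or.inl rfl
        · exact Or.inr rfl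
    have ea := expHom_zero (β := β)
    have et := expHom_one (β := β)
    rcases hs with rfl | rfl | rfl
    · cases b
      · simp [es]
        ring
      · simp [es]
        ring
    · cases b
      · simp [es, ea]
      · simp [es, ea]
    · cases b
      · simp [es, et]
        ring
      · simp [es, et]
        ring

end Pool.Agent.N582.BS
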