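import Mathlib

/-!
# Integer polynomials: growth, division, divisibility of values
-/

set_option autoImplicit false

namespace Pool.Agent.N582.BS

open Polynomial

/-! ### The length of a polynomial -/

/-- the sum of the absolute values of the coefficients -/
noncomputable def N1 (F : ℤ[X]) : ℤ := F.sum (fun _ a => |a|)

theorem N1_eq {F : ℤ[X]} {n : ℕ} (h : F.natDegree < n) :
    N1 F = ∑ i ∈ Finset.range n, |F.coeff i| :=
  sum_over_range' F (fun _ => abs_zero) n h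

theorem N1_nonneg (F : ℤ[X]) : 0 ≤ N1 F := by
  rw [N1_eq (Nat.lt_succ_self _)]
  exact Finset.sum_nonneg fun _ _ => abs_nonneg _

theorem N1_zero : N1 0 = 0 := by simp [N1]

theorem coeff_le_N1 (F : ℤ[X]) (i : ℕ) : |F.coeff i| ≤ N1 F := by
  rw [N1_eq (n := max F.natDegree i + 1) (by omega)]
  exact Finset.single_le_sum (f := fun i => |F.coeff i|) (fun _ _ => abs_nonneg _)
    (Finset.mem_range.2 (by omega))

theorem N1_add (F G : ℤ[X]) : N1 (F + G) ≤ N1 F + N1 G := by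
  have hF : F.natDegree < max F.natDegree G.natDegree + 1 := by omega
  have hG : G.natDegree < max F.natDegree G.natDegree + 1 := by omega
  have hFG : (F + G).natDegree < max F.natDegree G.natDegree + 1 :=
    (natDegree_add_le F G).trans_lt (Nat.lt_succ_self _)
  rw [N1_eq hF, N1_eq hG, N1_eq hFG, ← Finset.sum_add_distrib]
  refine Finset.sum_le_sum fun i _ => ?_
  rw [coeff_add]
  exact abs_add_le _ _

theorem N1_neg (F : ℤ[X]) : N1 (-F) = N1 F := by
  rw [N1_eq (F := -F) (n := F.natDegree + 1) (by rw [natDegree_neg]; omega),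
    N1_eq (F := F) (n := F.natDegree + 1) (by omega)]
  refine Finset.sum_congr rfl fun i _ => ?_
  rw [coeff_neg, abs_neg]

theorem N1_sub (F G : ℤ[X]) : N1 (F - G) ≤ N1 F + N1 G := by
  rw [sub_eq_add_neg]
  exact (N1_add _ _).trans (by rw [N1_neg])

theorem N1_sum {ι : Type} (s : Finset ι) (F : ι → ℤ[X]) : N1 (∑ i ∈ s, F i) ≤ ∑ i ∈ s, N1 (F i) := by
  classical
  induction s using Finset.induction_on with
  | empty => simp [N1_zero]
  | insert a s ha ih =>
    rw [Finset.sum_insert ha, Finset.sum_insert ha]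
    exact (N1_add _ _).trans (by linarith)

theorem N1_C_mul (a : ℤ) (F : ℤ[X]) : N1 (C a * F) ≤ |a| * N1 F := by
  rw [N1_eq (F := C a * F) (n := F.natDegree + 1)
    ((natDegree_C_mul_le a F).trans_lt (Nat.lt_succ_self _)),
    N1_eq (F := F) (n := F.natDegree + 1) (by omega), Finset.mul_sum]
  refine Finset.sum_le_sum fun i _ => ?_
  rw [coeff_C_mul, abs_mul]

theorem N1_X_pow_mul (F : ℤ[X]) (n : ℕ) : N1 (X ^ n * F) = N1 F := by
  have h1 : (X ^ n * F).natDegree < n + (F.natDegree + 1) := by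
    have := natDegree_mul_le (p := (X : ℤ[X]) ^ n) (q := F)
    have h2 := natDegree_X_pow_le (R := ℤ) n
    omega
  rw [N1_eq h1, N1_eq (F := F) (n := F.natDegree + 1) (by omega), Finset.sum_range_add]
  have h2 : ∑ i ∈ Finset.range n, |(X ^ n * F).coeff i| = 0 := by
    refine Finset.sum_eq_zero fun i hi => ?_
    have hi := Finset.mem_range.1 hi
    rw [coeff_X_pow_mul', if_neg (by omega), abs_zero]
  rw [h2, zero_add]
  refine Finset.sum_congr rfl fun i _ => ?_
  rw [add_comm n i, coeff_X_pow_mul]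

theorem N1_mul (F G : ℤ[X]) : N1 (F * G) ≤ N1 F * N1 G := by
  have h1 : F * G = ∑ i ∈ Finset.range (F.natDegree + 1), C (F.coeff i) * (X ^ i * G) := by
    conv_lhs => rw [F.as_sum_range_C_mul_X_pow, Finset.sum_mul]
    refine Finset.sum_congr rfl fun i _ => ?_
    ring
  rw [h1, N1_eq (F := F) (n := F.natDegree + 1) (by omega), Finset.sum_mul]
  refine (N1_sum _ _).trans (Finset.sum_le_sum fun i _ => ?_)
  refine (N1_C_mul _ _).trans ?_
  rw [N1_X_pow_mul]

theorem N1_C_mul_X_pow (a : ℤ) (n : ℕ) : N1 (C a * X ^ n) ≤ |a| := by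
  have h1 := N1_C_mul a (X ^ n)
  have h2 := N1_X_pow_mul (1 : ℤ[X]) n
  rw [mul_one] at h2
  have h3 : N1 (1 : ℤ[X]) = 1 := by
    rw [N1_eq (F := (1 : ℤ[X])) (n := 1) (by simp)]
    simp
  rw [h2, h3, mul_one] at h1
  exact h1

theorem one_le_N1 {F : ℤ[X]} (h : F ≠ 0) : 1 ≤ N1 F := by
  have h1 := coeff_le_N1 F F.natDegree
  have h2 : F.coeff F.natDegree ≠ 0 := leadingCoeff_ne_zero.2 h
  have h3 := Int.one_le_abs h2
  linarith

/-! ### Growth -/

theorem eval_le {F : ℤ[X]} {d : ℕ} (hd : F.natDegree ≤ d) {z : ℤ} (hz : 1 ≤ |z|) :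
    |F.eval z| ≤ N1 F * |z| ^ d := by
  rw [eval_eq_sum_range' (n := F.natDegree + 1) (by omega), N1_eq (n := F.natDegree + 1) (by omega),
    Finset.sum_mul]
  refine (Finset.abs_sum_le_sum_abs _ _).trans (Finset.sum_le_sum fun i hi => ?_)
  have hi := Finset.mem_range.1 hi
  rw [abs_mul, abs_pow]
  exact mul_le_mul_of_nonneg_left (pow_le_pow_right₀ hz (by omega)) (abs_nonneg _)

theorem le_eval {F : ℤ[X]} {d : ℕ} (hd : F.natDegree = d + 1) {z : ℤ} (hz : 1 ≤ |z|) :
    |z| ^ d * (|z| - N1 F + 1) ≤ |F.eval z| := by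
  have hF : F ≠ 0 := by
    rintro rfl
    simp at hd
  have h1 : F.eval z = F.eraseLead.eval z + F.leadingCoeff * z ^ (d + 1) := by
    conv_lhs => rw [← F.eraseLead_add_C_mul_X_pow]
    rw [eval_add, eval_mul, eval_C, eval_pow, eval_X, hd]
  have h2 : N1 F = N1 F.eraseLead + |F.leadingCoeff| := by
    rw [N1_eq (F := F) (n := d + 2) (by omega), Finset.sum_range_succ,
      N1_eq (F := F.eraseLead) (n := d + 1) (by
        have := F.eraseLead_natDegree_le
        omega)]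
    congr 1
    · refine Finset.sum_congr rfl fun i hi => ?_
      have hi := Finset.mem_range.1 hi
      rw [eraseLead_coeff_of_ne _ (by omega)]
    · rw [leadingCoeff, hd]
  have h3 : |F.eraseLead.eval z| ≤ N1 F.eraseLead * |z| ^ d :=
    eval_le (by have := F.eraseLead_natDegree_le; omega) hz
  have h4 : 1 ≤ |F.leadingCoeff| := Int.one_le_abs (leadingCoeff_ne_zero.2 hF)
  have h5 : |F.leadingCoeff * z ^ (d + 1)| = |F.leadingCoeff| * (|z| ^ d * |z|) := by
    rw [abs_mul, abs_pow, pow_succ]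
  have h6 : |F.leadingCoeff * z ^ (d + 1)| - |F.eraseLead.eval z| ≤ |F.eval z| := by
    have h7 := abs_sub_abs_le_abs_sub (F.leadingCoeff * z ^ (d + 1)) (-F.eraseLead.eval z)
    rw [abs_neg] at h7
    rw [h1]
    have h8 : F.leadingCoeff * z ^ (d + 1) - -F.eraseLead.eval z =
        F.eraseLead.eval z + F.leadingCoeff * z ^ (d + 1) := by ring
    rw [h8] at h7
    exact h7
  have h9 : 0 ≤ |z| ^ d := pow_nonneg (abs_nonneg _) _
  rw [h5] at h6
  have h10 : |z| ^ d * (|z| - N1 F + 1) ≤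
      |F.leadingCoeff| * (|z| ^ d * |z|) - N1 F.eraseLead * |z| ^ d := by
    rw [h2]
    have h11 : 0 ≤ |z| ^ d * ((|F.leadingCoeff| - 1) * (|z| + 1)) :=
      mul_nonneg h9 (mul_nonneg (by linarith) (by linarith [abs_nonneg z]))
    nlinarith
  linarith

theorem eval_ne_zero {F : ℤ[X]} (hF : F ≠ 0) {z : ℤ} (hz : N1 F ≤ |z|) : F.eval z ≠ 0 := by
  have h1 := one_le_N1 hF
  rcases Nat.eq_zero_or_pos F.natDegree with h0 | h0
  · rw [eq_C_of_natDegree_eq_zero h0, eval_C]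
    intro h
    apply hF
    rw [eq_C_of_natDegree_eq_zero h0, h, C_0]
  · obtain ⟨d, hd⟩ := Nat.exists_eq_add_of_le' h0
    intro h
    have h2 := le_eval hd (z := z) (by linarith)
    rw [h, abs_zero] at h2
    have h3 : 0 < |z| ^ d := pow_pos (by linarith) _
    have h4 : 0 < |z| ^ d * (|z| - N1 F + 1) := mul_pos h3 (by linarith)
    linarith

/-! ### Pseudo-division -/

theorem pdiv {P : ℤ[X]} (hP : P ≠ 0) : ∀ (n : ℕ) (Q : ℤ[X]), Q.degree < ((P.natDegree + n : ℕ) : ℕ) →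
    ∃ (m : ℕ) (S R : ℤ[X]), m ≤ n ∧ C (P.leadingCoeff ^ m) * Q = S * P + R ∧
      R.degree < (P.natDegree : ℕ) ∧ S.degree < (n : ℕ) ∧ N1 R ≤ (2 * N1 P) ^ n * N1 Q ∧
      N1 S ≤ n * (2 * N1 P) ^ n * N1 Q := by
  have hN := one_le_N1 hP
  have hlc : |P.leadingCoeff| ≤ N1 P := coeff_le_N1 P P.natDegree
  intro n
  induction n with
  | zero =>
    intro Q hQ
    refine ⟨0, 0, Q, le_rfl, by simp, by simpa using hQ, by simp, by simp, by simp [N1_zero]⟩
  | succ n ih =>
    intro Q hQ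
    have hNQ := N1_nonneg Q
    have hNP : (0 : ℤ) ≤ (2 * N1 P) ^ n := by positivity
    by_cases h : Q.degree < ((P.natDegree + n : ℕ) : ℕ)
    · obtain ⟨m, S, R, h1, h2, h3, h4, h5, h6⟩ := ih Q h
      have hmono : (2 * N1 P) ^ n ≤ (2 * N1 P) ^ (n + 1) :=
        pow_le_pow_right₀ (by linarith) (by omega)
      refine ⟨m, S, R, by omega, h2, h3, h4.trans (by exact_mod_cast Nat.lt_succ_self n), ?_, ?_⟩
      · exact h5.trans (mul_le_mul_of_nonneg_right hmono hNQ)
      · refine h6.trans (mul_le_mul_of_nonneg_right ?_ hNQ)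
        refine mul_le_mul ?_ hmono hNP (by positivity)
        push_cast
        linarith
    · have hcoef : ∀ i, P.natDegree + n < i → Q.coeff i = 0 := by
        intro i hi
        exact coeff_eq_zero_of_degree_lt (hQ.trans_le (by exact_mod_cast (by omega :
          P.natDegree + (n + 1) ≤ i)))
      set q := Q.coeff (P.natDegree + n) with hq
      have hqN : |q| ≤ N1 Q := coeff_le_N1 _ _
      let Q' : ℤ[X] := C P.leadingCoeff * Q - C q * (X ^ n * P)
      have hQ'c : ∀ i, P.natDegree + n ≤ i → Q'.coeff i = 0 := by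
        intro i hi
        simp only [Q', coeff_sub, coeff_C_mul, coeff_X_pow_mul']
        rw [if_pos (by omega)]
        rcases eq_or_lt_of_le hi with h1 | h1
        · rw [← h1, Nat.add_sub_cancel, ← hq]
          rw [leadingCoeff]
          ring
        · rw [hcoef i h1, coeff_eq_zero_of_natDegree_lt (p := P) (by omega)]
          ring
      have hQ' : Q'.degree < ((P.natDegree + n : ℕ) : ℕ) :=
        (degree_lt_iff_coeff_zero _ _).2 hQ'c
      have hNQ' : N1 Q' ≤ 2 * N1 P * N1 Q := by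
        have h1 := N1_sub (C P.leadingCoeff * Q) (C q * (X ^ n * P))
        have h2 := N1_C_mul P.leadingCoeff Q
        have h3 := N1_C_mul q (X ^ n * P)
        rw [N1_X_pow_mul] at h3
        have h4 : |P.leadingCoeff| * N1 Q ≤ N1 P * N1 Q := mul_le_mul_of_nonneg_right hlc hNQ
        have h5 : |q| * N1 P ≤ N1 Q * N1 P := mul_le_mul_of_nonneg_right hqN (by linarith)
        have h6 : N1 Q' ≤ N1 (C P.leadingCoeff * Q) + N1 (C q * (X ^ n * P)) := h1
        linarith
      obtain ⟨m, S, R, h1, h2, h3, h4, h5, h6⟩ := ih Q' hQ'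
      refine ⟨m + 1, S + C (P.leadingCoeff ^ m * q) * X ^ n, R, by omega, ?_, h3, ?_, ?_, ?_⟩
      · have h7 : C (P.leadingCoeff ^ (m + 1)) * Q =
            C (P.leadingCoeff ^ m) * Q' + C (P.leadingCoeff ^ m) * (C q * (X ^ n * P)) := by
          simp only [Q', pow_succ, C_mul]
          ring
        rw [h7, h2, C_mul]
        ring
      · refine (degree_add_le _ _).trans_lt (max_lt ?_ ?_)
        · exact h4.trans (by exact_mod_cast Nat.lt_succ_self n)
        · exact (degree_C_mul_X_pow_le _ _).trans_lt (by exact_mod_cast Nat.lt_succ_self n)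
      · calc N1 R ≤ (2 * N1 P) ^ n * N1 Q' := h5
          _ ≤ (2 * N1 P) ^ n * (2 * N1 P * N1 Q) := mul_le_mul_of_nonneg_left hNQ' hNP
          _ = _ := by ring
      · have h7 := N1_add S (C (P.leadingCoeff ^ m * q) * X ^ n)
        have h8 := N1_C_mul_X_pow (P.leadingCoeff ^ m * q) n
        have h9 : |P.leadingCoeff ^ m * q| ≤ (2 * N1 P) ^ (n + 1) * N1 Q := by
          rw [abs_mul, abs_pow]
          refine mul_le_mul ?_ hqN (abs_nonneg _) (by positivity)
          calc |P.leadingCoeff| ^ m ≤ (2 * N1 P) ^ m :=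
                pow_le_pow_left₀ (abs_nonneg _) (by linarith) _
            _ ≤ _ := pow_le_pow_right₀ (by linarith) (by omega)
        have h10 : n * (2 * N1 P) ^ n * N1 Q' ≤ n * (2 * N1 P) ^ (n + 1) * N1 Q := by
          calc (n : ℤ) * (2 * N1 P) ^ n * N1 Q' ≤ n * (2 * N1 P) ^ n * (2 * N1 P * N1 Q) :=
                mul_le_mul_of_nonneg_left hNQ' (by positivity)
            _ = _ := by ring
        push_cast
        linarith

/-! ### Divisibility -/

theorem dvd_of_primePow {a b : ℤ} (h : ∀ (q n : ℕ), q.Prime → ((q : ℤ) ^ n) ∣ a → ((q : ℤ) ^ n) ∣ b) :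
    a ∣ b := by
  rw [← Int.natAbs_dvd_natAbs, Nat.dvd_iff_prime_pow_dvd_dvd]
  intro q n hq hd
  have h1 : ((q : ℤ) ^ n) ∣ a := by
    rw [← Int.natAbs_dvd_natAbs]
    simpa [Int.natAbs_pow] using hd
  have h2 := h q n hq h1
  rw [← Int.natAbs_dvd_natAbs] at h2
  simpa [Int.natAbs_pow] using h2

theorem dvd_of_coprime {β a : ℤ} {q n i : ℕ} (hq : q.Prime) (hβ : ¬ (q : ℤ) ∣ β)
    (h : ((q : ℤ) ^ n) ∣ β ^ i * a) : ((q : ℤ) ^ n) ∣ a := by
  have h1 : IsCoprime ((q : ℤ) ^ n) (β ^ i) := by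
    refine IsCoprime.pow ?_
    exact (Prime.coprime_iff_not_dvd (Nat.prime_iff_prime_int.1 hq)).2 hβ
  exact h1.dvd_of_dvd_mul_left h

theorem lt_of_pow_dvd {q n m : ℕ} {a : ℤ} (hq : q.Prime) (ha : a ≠ 0) (h : ((q : ℤ) ^ n) ∣ a)
    (hm : |a| < 2 ^ m) : n < m := by
  have h1 : (q : ℤ) ^ n ≤ |a| := by
    have := Int.le_of_dvd (abs_pos.2 ha) ((dvd_abs _ _).2 h)
    exact this
  have h2 : (2 : ℤ) ^ n ≤ (q : ℤ) ^ n :=
    pow_le_pow_left₀ (by norm_num) (by exact_mod_cast hq.two_le) _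
  have h3 : (2 : ℤ) ^ n < 2 ^ m := by linarith
  exact (pow_lt_pow_iff_right₀ (by norm_num)).1 h3

theorem dvd_bound {β a c : ℤ} {i m : ℕ} (ha : a ≠ 0) (hm : |a| < 2 ^ m) (h : a ∣ β ^ i * c) :
    a ∣ β ^ m * c := by
  refine dvd_of_primePow fun q n hq hd => ?_
  by_cases hβ : (q : ℤ) ∣ β
  · have h1 := lt_of_pow_dvd hq ha hd hm
    exact Dvd.dvd.mul_right ((pow_dvd_pow_of_dvd hβ n).trans (pow_dvd_pow β h1.le)) _
  · exact Dvd.dvd.mul_left (dvd_of_coprime hq hβ (hd.trans h)) _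

theorem dvd_shift {β a c p y : ℤ} {i k : ℕ} (hp : p ≠ 0) (hk : |p| < 2 ^ k)
    (ha : a = p + β ^ k * y) (h : a ∣ β ^ i * c) : a ∣ p * c := by
  refine dvd_of_primePow fun q n hq hd => ?_
  by_cases hβ : (q : ℤ) ∣ β
  · have h0 : ∀ n, n ≤ k → (q : ℤ) ^ n ∣ a → (q : ℤ) ^ n ∣ p := by
      intro n hn hd
      have h1 : (q : ℤ) ^ n ∣ β ^ k * y :=
        Dvd.dvd.mul_right ((pow_dvd_pow_of_dvd hβ n).trans (pow_dvd_pow β hn)) _
      have h2 : p = a - β ^ k * y := by rw [ha]; ring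
      rw [h2]
      exact Dvd.dvd.sub hd h1
    rcases le_or_gt n k with hn | hn
    · exact Dvd.dvd.mul_right (h0 n hn hd) _
    · exfalso
      have h1 := h0 k le_rfl ((pow_dvd_pow _ hn.le).trans hd)
      exact absurd (lt_of_pow_dvd hq hp h1 hk) (lt_irrefl _)
  · exact Dvd.dvd.mul_left (dvd_of_coprime hq hβ (hd.trans h)) _

/-! ### Large exponents -/

theorem large {β : ℤ} (hβ : 2 ≤ |β|) {P Q : ℤ[X]} (hP : P ≠ 0) {E : ℕ} (hPE : P.natDegree ≤ E)
    (hQE : Q.natDegree ≤ E) {H : ℤ} (hPH : N1 P ≤ H) (hQH : N1 Q ≤ H) {k : ℕ}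
    (hk : H + H * ((2 * H) ^ (E + 1) * H) < 2 ^ k) {i : ℕ} {j : ℤ}
    (h : P.eval (β ^ k) * j + β ^ i * Q.eval (β ^ k) = 0) :
    ∃ (v : ℕ) (D : ℤ) (S : ℤ[X]), v ≤ E ∧ D ≠ 0 ∧ |D| ≤ H ^ (E + 1) ∧ S.degree < ((E + 1 : ℕ) : ℕ) ∧
      N1 S ≤ ((E + 1 : ℕ) : ℤ) * (2 * H) ^ (E + 1) * H ∧ C D * (X ^ v * Q) = S * P ∧
      D ∣ β ^ i * S.eval (β ^ k) := by
  set z : ℤ := β ^ k with hz
  have hH1 : 1 ≤ H := (one_le_N1 hP).trans hPH
  have hzabs : (2 : ℤ) ^ k ≤ |z| := by
    rw [hz, abs_pow]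
    exact pow_le_pow_left₀ (by norm_num) hβ k
  -- the factor `X ^ v`
  obtain ⟨P1, hP1⟩ := (X_pow_dvd_iff (n := P.natTrailingDegree) (f := P)).2
    (fun d hd => coeff_eq_zero_of_lt_natTrailingDegree hd)
  set v := P.natTrailingDegree with hv
  have hvE : v ≤ E := (natTrailingDegree_le_natDegree P).trans hPE
  have hP10 : P1 ≠ 0 := by
    rintro rfl
    rw [mul_zero] at hP1
    exact hP hP1
  have hP1N : N1 P1 = N1 P := by rw [hP1, N1_X_pow_mul]
  have hp0 : P1.coeff 0 ≠ 0 := by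
    have h1 : P.coeff v = P1.coeff 0 := by
      conv_lhs => rw [hP1]
      have := coeff_X_pow_mul P1 v 0
      rwa [zero_add] at this
    rw [← h1, hv]
    exact trailingCoeff_nonzero_iff_nonzero.2 hP
  have hW0 : 0 ≤ (2 * H) ^ (E + 1) * H := by positivity
  have hHW : H ≤ H * ((2 * H) ^ (E + 1) * H) := by
    have h1 : 1 ≤ (2 * H) ^ (E + 1) * H := by
      have h2 : 1 ≤ (2 * H) ^ (E + 1) := one_le_pow₀ (by linarith)
      nlinarith
    nlinarith
  have hWH : (2 * H) ^ (E + 1) * H ≤ H * ((2 * H) ^ (E + 1) * H) :=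
    le_mul_of_one_le_left hW0 hH1
  -- division
  obtain ⟨m, S, R, hm, hdiv, hRd, hSd, hRN, hSN⟩ := pdiv hP10 (E + 1) Q (by
    refine (degree_le_natDegree).trans_lt ?_
    exact_mod_cast (by omega : Q.natDegree < P1.natDegree + (E + 1)))
  rw [hP1N] at hRN hSN
  have hPn : 0 ≤ N1 P := N1_nonneg P
  have hQn : 0 ≤ N1 Q := N1_nonneg Q
  have hpowle : (2 * N1 P) ^ (E + 1) ≤ (2 * H) ^ (E + 1) :=
    pow_le_pow_left₀ (by linarith) (by linarith) _
  have hpow0 : 0 ≤ (2 * N1 P) ^ (E + 1) := by positivity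
  have hRW : N1 R ≤ (2 * H) ^ (E + 1) * H :=
    hRN.trans (mul_le_mul hpowle hQH hQn (by positivity))
  have hSW : N1 S ≤ ((E + 1 : ℕ) : ℤ) * (2 * H) ^ (E + 1) * H := by
    refine hSN.trans (mul_le_mul ?_ hQH hQn (by positivity))
    exact mul_le_mul_of_nonneg_left hpowle (by positivity)
  -- evaluation
  have hPz : P.eval z = z ^ v * P1.eval z := by
    conv_lhs => rw [hP1]
    rw [eval_mul, eval_pow, eval_X]
  have hdvd1 : P1.eval z ∣ β ^ i * Q.eval z := by
    refine ⟨-(z ^ v * j), ?_⟩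
    rw [hPz] at h
    linarith
  have hdivz := congrArg (eval z) hdiv
  simp only [eval_mul, eval_C, eval_add] at hdivz
  have hdvd2 : P1.eval z ∣ β ^ i * R.eval z := by
    have h1 : β ^ i * R.eval z = P1.leadingCoeff ^ m * (β ^ i * Q.eval z) -
        β ^ i * S.eval z * P1.eval z := by
      have h2 : R.eval z = P1.leadingCoeff ^ m * Q.eval z - S.eval z * P1.eval z := by linarith
      rw [h2]
      ring
    rw [h1]
    exact Dvd.dvd.sub (Dvd.dvd.mul_left hdvd1 _) (Dvd.intro_left _ rfl)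
  have hp0H : |P1.coeff 0| ≤ H := by
    have := coeff_le_N1 P1 0
    rw [hP1N] at this
    linarith
  have hdvd3 : P1.eval z ∣ P1.coeff 0 * R.eval z := by
    refine dvd_shift (β := β) (k := k) (y := P1.divX.eval z) hp0 (by linarith) ?_ hdvd2
    conv_lhs => rw [← divX_mul_X_add P1]
    rw [eval_add, eval_mul, eval_X, eval_C, ← hz]
    ring
  have hR0 : R = 0 := by
    by_contra hR
    have hRz : R.eval z ≠ 0 := eval_ne_zero hR (by linarith)
    rcases Nat.eq_zero_or_pos P1.natDegree with h0 | h0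
    · rw [h0] at hRd
      have h1 := degree_lt_iff_coeff_zero R 0
      apply hR
      ext i
      rw [(h1.1 (by exact_mod_cast hRd)) i (Nat.zero_le _), coeff_zero]
    · obtain ⟨d, hd⟩ := Nat.exists_eq_add_of_le' h0
      have h1 := le_eval hd (z := z) (by linarith [one_le_pow₀ (M₀ := ℤ) (a := 2) (by norm_num) (n := k)])
      have hRnd : R.natDegree ≤ d := by
        have h2 := (natDegree_lt_iff_degree_lt hR).2 hRd
        omega
      have h2 := eval_le hRnd (z := z) (by linarith [one_le_pow₀ (M₀ := ℤ) (a := 2) (by norm_num) (n := k)])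
      have h3 : |P1.eval z| ≤ |P1.coeff 0 * R.eval z| :=
        Int.le_of_dvd (abs_pos.2 (mul_ne_zero hp0 hRz)) ((abs_dvd_abs _ _).2 hdvd3)
      rw [abs_mul] at h3
      have hzp : 0 < |z| ^ d := pow_pos (by linarith [one_le_pow₀ (M₀ := ℤ) (a := 2) (by norm_num) (n := k)]) _
      have h4 : |P1.coeff 0| * |R.eval z| ≤ H * (((2 * H) ^ (E + 1) * H) * |z| ^ d) := by
        refine mul_le_mul hp0H (h2.trans ?_) (abs_nonneg _) (by linarith)
        exact mul_le_mul_of_nonneg_right hRW hzp.le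
      rw [hP1N] at h1
      have h5 : |z| ^ d * (|z| - N1 P + 1) ≤ |z| ^ d * (H * ((2 * H) ^ (E + 1) * H)) := by
        calc |z| ^ d * (|z| - N1 P + 1) ≤ H * (((2 * H) ^ (E + 1) * H) * |z| ^ d) := by linarith
          _ = _ := by ring
      have h6 := le_of_mul_le_mul_left h5 hzp
      linarith
  rw [hR0, add_zero] at hdiv
  rw [hR0, eval_zero, add_zero] at hdivz
  refine ⟨v, P1.leadingCoeff ^ m, S, hvE, pow_ne_zero _ (leadingCoeff_ne_zero.2 hP10), ?_, hSd,
    hSW, ?_, ?_⟩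
  · rw [abs_pow]
    have h1 : |P1.leadingCoeff| ≤ H := by
      have := coeff_le_N1 P1 P1.natDegree
      rw [hP1N] at this
      exact this.trans hPH
    calc |P1.leadingCoeff| ^ m ≤ H ^ m := pow_le_pow_left₀ (abs_nonneg _) h1 _
      _ ≤ _ := pow_le_pow_right₀ hH1 hm
  · calc C (P1.leadingCoeff ^ m) * (X ^ v * Q) = X ^ v * (C (P1.leadingCoeff ^ m) * Q) := by ring
      _ = X ^ v * (S * P1) := by rw [hdiv]
      _ = S * (X ^ v * P1) := by ring
      _ = _ := by rw [← hP1]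
  · obtain ⟨y, hy⟩ := hdvd1
    have hne : P1.eval z ≠ 0 := eval_ne_zero hP10 (by rw [hP1N]; linarith)
    refine ⟨y, ?_⟩
    apply mul_right_cancel₀ hne
    calc β ^ i * S.eval z * P1.eval z = P1.leadingCoeff ^ m * (β ^ i * Q.eval z) := by
          rw [mul_assoc, ← hdivz]
          ring
      _ = _ := by rw [hy]; ring

end Pool.Agent.N582.BS
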