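import Pool.Agent.N582.BSSol
import Pool.Agent.N582.BSZ

/-!
# Equations in one variable over `BS(1, β)`: certificates
-/

set_option autoImplicit false

namespace Pool.Agent.N582.BS

open Polynomial

/-! ### Bounds -/

/-- the number of binary digits of `|β|` -/
def s0 (β : ℤ) : ℕ := β.natAbs.size
/-- exponent for the length of the polynomials -/
def hh (β : ℤ) (L : ℕ) : ℕ := (1 + 2 * s0 β) * L
/-- exponent for the certificates -/
def MM (β : ℤ) (L : ℕ) : ℕ := (hh β L + 2) * (2 * L + 2)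
/-- bound for the small exponents -/
def K1 (β : ℤ) (L : ℕ) : ℕ := hh β L + MM β L + 1
/-- exponent of the denominator -/
def I1 (β : ℤ) (L : ℕ) : ℕ := hh β L + s0 β * K1 β L * (2 * L) + 1
/-- the point of the test of polynomial identities -/
def Z1 (β : ℤ) (L : ℕ) : ℕ := 2 * L + MM β L + hh β L + 1

theorem abs_lt_s0 (β : ℤ) : |β| < 2 ^ s0 β := by
  have h1 := Nat.lt_size_self β.natAbs
  rw [Int.abs_eq_natAbs]
  unfold s0
  exact_mod_cast h1

theorem abs_pow_le (β : ℤ) (n : ℕ) : |β ^ n| ≤ 2 ^ (s0 β * n) := by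
  rw [abs_pow, pow_mul]
  exact pow_le_pow_left₀ (abs_nonneg _) (abs_lt_s0 β).le _

theorem L_le_hh (β : ℤ) (L : ℕ) : L ≤ hh β L := by
  unfold hh
  nlinarith

/-! ### The polynomials of a word -/

/-- the coefficient of `u`, as a polynomial -/
noncomputable def PP (β : ℤ) (w : List Let) : ℤ[X] :=
  ∑ i ∈ Finset.range w.length, C (sX (w.getD i l0) * β ^ cN w i) * X ^ eN w (iX w i)

/-- the constant coefficient, as a polynomial -/
noncomputable def QQ (β : ℤ) (w : List Let) : ℤ[X] :=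
  ∑ i ∈ Finset.range w.length, C (sA (w.getD i l0) * β ^ cN w i) * X ^ eN w i

theorem eval_PP (β : ℤ) (w : List Let) (z : ℤ) : (PP β w).eval z = PV β w z := by
  unfold PP PV
  rw [eval_finsetSum]
  simp

theorem eval_QQ (β : ℤ) (w : List Let) (z : ℤ) : (QQ β w).eval z = QV β w z := by
  unfold QQ QV
  rw [eval_finsetSum]
  simp

theorem cN_le (w : List Let) (i : ℕ) : cN w i ≤ 2 * w.length := by
  unfold cN
  have := count_take_le w (some 1, true) i
  omega

theorem eN_le (w : List Let) (i : ℕ) : eN w i ≤ 2 * w.length := by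
  unfold eN
  have := count_take_le w (none, true) i
  omega

theorem sX_le (l : Let) : |sX l| ≤ 1 := by
  unfold sX
  split_ifs <;> simp

theorem sA_le (l : Let) : |sA l| ≤ 1 := by
  unfold sA
  split_ifs <;> simp

theorem natDegree_PP (β : ℤ) (w : List Let) : (PP β w).natDegree ≤ 2 * w.length := by
  unfold PP
  refine natDegree_sum_le_of_forall_le _ _ fun i _ => ?_
  exact (natDegree_C_mul_X_pow_le _ _).trans (eN_le w _)

theorem natDegree_QQ (β : ℤ) (w : List Let) : (QQ β w).natDegree ≤ 2 * w.length := by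
  unfold QQ
  refine natDegree_sum_le_of_forall_le _ _ fun i _ => ?_
  exact (natDegree_C_mul_X_pow_le _ _).trans (eN_le w _)

theorem term_le {β : ℤ} (hβ : 2 ≤ |β|) (w : List Let) {s : ℤ} (hs : |s| ≤ 1) (i : ℕ) :
    |s * β ^ cN w i| ≤ 2 ^ (2 * s0 β * w.length) := by
  rw [abs_mul, abs_pow]
  have h1 : |β| ^ cN w i ≤ |β| ^ (2 * w.length) := pow_le_pow_right₀ (by linarith) (cN_le w i)
  have h2 := abs_pow_le β (2 * w.length)
  rw [abs_pow] at h2
  have h3 : s0 β * (2 * w.length) = 2 * s0 β * w.length := by ring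
  rw [h3] at h2
  have h4 : 0 ≤ |β| ^ cN w i := pow_nonneg (abs_nonneg _) _
  calc |s| * |β| ^ cN w i ≤ 1 * |β| ^ cN w i := mul_le_mul_of_nonneg_right hs h4
    _ ≤ _ := by linarith

theorem N1_bound (β : ℤ) (w : List Let) (F : ℕ → ℤ[X])
    (hF : ∀ i, N1 (F i) ≤ 2 ^ (2 * s0 β * w.length)) :
    N1 (∑ i ∈ Finset.range w.length, F i) ≤ 2 ^ hh β w.length := by
  refine (N1_sum _ _).trans ((Finset.sum_le_sum fun i _ => hF i).trans ?_)
  rw [Finset.sum_const, Finset.card_range, nsmul_eq_mul]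
  have h1 : (w.length : ℤ) ≤ 2 ^ w.length := by exact_mod_cast Nat.lt_two_pow_self.le
  have h2 : (0 : ℤ) ≤ 2 ^ (2 * s0 β * w.length) := by positivity
  calc (w.length : ℤ) * 2 ^ (2 * s0 β * w.length) ≤ 2 ^ w.length * 2 ^ (2 * s0 β * w.length) :=
        mul_le_mul_of_nonneg_right h1 h2
    _ = _ := by
        rw [← pow_add]
        unfold hh
        congr 1
        ring

theorem N1_PP {β : ℤ} (hβ : 2 ≤ |β|) (w : List Let) : N1 (PP β w) ≤ 2 ^ hh β w.length :=
  N1_bound β w _ fun _ => (N1_C_mul_X_pow _ _).trans (term_le hβ w (sX_le _) _)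

theorem N1_QQ {β : ℤ} (hβ : 2 ≤ |β|) (w : List Let) : N1 (QQ β w) ≤ 2 ^ hh β w.length :=
  N1_bound β w _ fun _ => (N1_C_mul_X_pow _ _).trans (term_le hβ w (sA_le _) _)

/-! ### Small exponents -/

theorem val_lt {β : ℤ} (hβ : 2 ≤ |β|) {F : ℤ[X]} {L k : ℕ} (hd : F.natDegree ≤ 2 * L)
    (hN : N1 F ≤ 2 ^ hh β L) (hk : k ≤ K1 β L) : |F.eval (β ^ k)| < 2 ^ I1 β L := by
  have h1 : 1 ≤ |β ^ k| := by
    rw [abs_pow]
    exact one_le_pow₀ (by linarith)
  have h2 := eval_le hd h1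
  have h3 : |β ^ k| ^ (2 * L) ≤ 2 ^ (s0 β * K1 β L * (2 * L)) := by
    rw [pow_mul 2 (s0 β * K1 β L) (2 * L)]
    refine pow_le_pow_left₀ (abs_nonneg _) ?_ _
    refine (abs_pow_le β k).trans (pow_le_pow_right₀ (by norm_num) ?_)
    exact Nat.mul_le_mul_left _ hk
  have h4 : (2 : ℤ) ^ hh β L * 2 ^ (s0 β * K1 β L * (2 * L)) < 2 ^ I1 β L := by
    rw [← pow_add]
    exact pow_lt_pow_right₀ (by norm_num) (by unfold I1; omega)
  have h5 : N1 F * |β ^ k| ^ (2 * L) ≤ 2 ^ hh β L * 2 ^ (s0 β * K1 β L * (2 * L)) :=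
    mul_le_mul hN h3 (by positivity) (by positivity)
  linarith

/-- certificates for small exponents -/
theorem small {β : ℤ} (hβ : 2 ≤ |β|) (w : List Let) {k : ℕ} (hk : k ≤ K1 β w.length) {i : ℕ}
    {j : ℤ} (h : PV β w (β ^ k) * j + β ^ i * QV β w (β ^ k) = 0) :
    ∃ j' : ℤ, |j'| < 2 ^ ((s0 β + 1) * I1 β w.length) ∧
      PV β w (β ^ k) * j' + β ^ (I1 β w.length) * QV β w (β ^ k) = 0 := by
  have hP := val_lt hβ (natDegree_PP β w) (N1_PP hβ w) hk
  have hQ := val_lt hβ (natDegree_QQ β w) (N1_QQ hβ w) hk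
  rw [eval_PP] at hP
  rw [eval_QQ] at hQ
  have hβ0 : β ≠ 0 := by
    rintro rfl
    simp at hβ
  by_cases h0 : PV β w (β ^ k) = 0
  · refine ⟨0, by rw [abs_zero]; positivity, ?_⟩
    rw [h0, zero_mul, zero_add] at h
    have h1 := (mul_eq_zero.1 h).resolve_left (pow_ne_zero _ hβ0)
    rw [h0, h1]
    simp
  · have h1 : PV β w (β ^ k) ∣ β ^ i * QV β w (β ^ k) := ⟨-j, by linarith⟩
    obtain ⟨y, hy⟩ := dvd_bound h0 hP h1
    refine ⟨-y, ?_, by rw [hy]; ring⟩
    rw [abs_neg]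
    have h2 : |y| ≤ |β ^ I1 β w.length * QV β w (β ^ k)| := by
      rw [hy, abs_mul]
      exact le_mul_of_one_le_left (abs_nonneg _) (Int.one_le_abs h0)
    have h3 := abs_pow_le β (I1 β w.length)
    have h4 : |β ^ I1 β w.length * QV β w (β ^ k)| <
        2 ^ (s0 β * I1 β w.length) * 2 ^ I1 β w.length := by
      rw [abs_mul]
      exact mul_lt_mul' h3 hQ (abs_nonneg _) (by positivity)
    have h5 : (2 : ℤ) ^ (s0 β * I1 β w.length) * 2 ^ I1 β w.length =
        2 ^ ((s0 β + 1) * I1 β w.length) := by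
      rw [← pow_add]
      congr 1
      ring
    linarith

/-! ### Large exponents -/

theorem exp_cond (w : List Let) {k : ℕ} (hk : w.length < k)
    (h : cN w w.length + k * eN w w.length = w.length + k * w.length) :
    cN w w.length = w.length ∧ eN w w.length = w.length := by
  have h1 := cN_le w w.length
  have h2 : eN w w.length = w.length := by
    rcases lt_trichotomy (eN w w.length) w.length with h3 | h3 | h3
    · exfalso
      obtain ⟨d, hd⟩ := Nat.exists_eq_add_of_lt h3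
      have h4 : k * w.length = k * eN w w.length + k * d + k := by
        conv_lhs => rw [hd]
        ring
      have h5 : 0 ≤ k * d := Nat.zero_le _
      omega
    · exact h3
    · exfalso
      obtain ⟨d, hd⟩ := Nat.exists_eq_add_of_lt h3
      have h4 : k * eN w w.length = k * w.length + k * d + k := by
        conv_lhs => rw [hd]
        ring
      have h5 : 0 ≤ k * d := Nat.zero_le _
      omega
  rw [h2] at h
  exact ⟨by omega, h2⟩

theorem exists_small_pow (β : ℤ) {D : ℕ} (hD : 0 < D) (k : ℕ) :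
    ∃ k' ≤ D, (β : ZMod D) ^ k' = (β : ZMod D) ^ k := by
  have : NeZero D := ⟨hD.ne'⟩
  have hc : Fintype.card (ZMod D) < Fintype.card (Fin (D + 1)) := by
    rw [ZMod.card, Fintype.card_fin]
    omega
  obtain ⟨x, y, hne, hxy⟩ := Fintype.exists_ne_map_eq_of_card_lt
    (fun i : Fin (D + 1) => (β : ZMod D) ^ (i : ℕ)) hc
  obtain ⟨a, b, hab, hb, he⟩ : ∃ a b : ℕ, a < b ∧ b ≤ D ∧ (β : ZMod D) ^ a = (β : ZMod D) ^ b := by
    rcases lt_or_gt_of_ne (fun h => hne (Fin.ext h) : (x : ℕ) ≠ y) with h | h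
    · exact ⟨x, y, h, by omega, hxy⟩
    · exact ⟨y, x, h, by omega, hxy.symm⟩
  induction k using Nat.strong_induction_on with
  | _ k ih =>
    rcases le_or_gt k D with h | h
    · exact ⟨k, h, rfl⟩
    · obtain ⟨k', hk', h1⟩ := ih (a + (k - b)) (by omega)
      refine ⟨k', hk', ?_⟩
      rw [h1, pow_add, he, ← pow_add]
      congr 1
      omega

/-- value of a list of coefficients -/
def evalL (S : List ℤ) (y : ℤ) : ℤ := ∑ i ∈ Finset.range S.length, S.getD i 0 * y ^ i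

/-- the polynomial of a list -/
noncomputable def polyL (S : List ℤ) : ℤ[X] :=
  ∑ i ∈ Finset.range S.length, C (S.getD i 0) * X ^ i

theorem eval_polyL (S : List ℤ) (y : ℤ) : (polyL S).eval y = evalL S y := by
  unfold polyL evalL
  rw [eval_finsetSum]
  simp

theorem exists_list {S : ℤ[X]} {n : ℕ} (hS : S.degree < ((n + 1 : ℕ) : ℕ)) :
    ∃ l : List ℤ, l.length = n + 1 ∧ polyL l = S ∧ ∀ s ∈ l, |s| ≤ N1 S := by
  refine ⟨(List.range (n + 1)).map S.coeff, by simp, ?_, ?_⟩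
  · unfold polyL
    rw [List.length_map, List.length_range]
    have h1 : S.natDegree < n + 1 := by
      rcases eq_or_ne S 0 with rfl | h0
      · simp
      · exact (natDegree_lt_iff_degree_lt h0).2 hS
    conv_rhs => rw [S.as_sum_range_C_mul_X_pow' h1]
    refine Finset.sum_congr rfl fun i hi => ?_
    have hi := Finset.mem_range.1 hi
    congr 2
    rw [List.getD_eq_getElem _ _ (by simpa using hi)]
    simp only [List.getElem_map, List.getElem_range]
  · intro s hs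
    obtain ⟨i, _, rfl⟩ := List.mem_map.1 hs
    exact coeff_le_N1 S i

theorem evalL_modEq {S : List ℤ} {D : ℕ} {x y : ℤ} (h : (x : ZMod D) = (y : ZMod D)) :
    ((evalL S x : ℤ) : ZMod D) = ((evalL S y : ℤ) : ZMod D) := by
  unfold evalL
  push_cast
  rw [h]

/-- the conditions of a certificate of the second kind -/
def Big (β : ℤ) (w : List Let) (k D v : ℕ) (S : List ℤ) : Prop :=
  cN w w.length = w.length ∧ eN w w.length = w.length ∧ D < 2 ^ MM β w.length ∧
    S.length ≤ 2 * w.length + 1 ∧ (∀ s ∈ S, s.natAbs < 2 ^ MM β w.length) ∧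
    ((D + 1 : ℕ) : ℤ) * ((β ^ Z1 β w.length) ^ v * QV β w (β ^ Z1 β w.length)) =
      evalL S (β ^ Z1 β w.length) * PV β w (β ^ Z1 β w.length) ∧
    ((D + 1 : ℕ) : ℤ) ∣ β ^ MM β w.length * evalL S (β ^ k)

theorem W_le (β : ℤ) (L : ℕ) :
    ((2 * 2 ^ hh β L : ℤ)) ^ (2 * L + 1) * 2 ^ hh β L = 2 ^ ((1 + hh β L) * (2 * L + 1) + hh β L) := by
  have h1 : (2 * 2 ^ hh β L : ℤ) = 2 ^ (1 + hh β L) := by rw [pow_add, pow_one]
  rw [h1, ← pow_mul, ← pow_add]

/-- certificates for large exponents -/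
theorem big_complete {β : ℤ} (hβ : 2 ≤ |β|) (w : List Let) {k : ℕ} (hk : K1 β w.length ≤ k)
    (h : SolK β w k) :
    (PV β w (β ^ 0) * 0 + β ^ (I1 β w.length) * QV β w (β ^ 0) = 0 ∧
      cN w w.length + 0 * eN w w.length = w.length + 0 * w.length) ∨
    ∃ (k' D v : ℕ) (S : List ℤ), k' ≤ 2 ^ MM β w.length ∧ v ≤ 2 * w.length ∧
      Big β w k' D v S := by
  obtain ⟨hc, i, j, hij⟩ := h
  set L := w.length with hL
  have hLh := L_le_hh β L
  obtain ⟨hcN, heN⟩ := exp_cond w (k := k) (by unfold K1 at hk; omega) hc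
  have hH1 : (1 : ℤ) ≤ 2 ^ hh β L := one_le_pow₀ (by norm_num)
  have hzabs : (2 : ℤ) ^ k ≤ |β ^ k| := by
    rw [abs_pow]
    exact pow_le_pow_left₀ (by norm_num) hβ k
  have hβ0 : β ≠ 0 := by
    rintro rfl
    simp at hβ
  have hkH : (2 : ℤ) ^ hh β L ≤ 2 ^ k := pow_le_pow_right₀ (by norm_num) (by unfold K1 at hk; omega)
  by_cases hP : PP β w = 0
  · left
    have h1 : QV β w (β ^ k) = 0 := by
      rw [← eval_PP, hP, eval_zero, zero_mul, zero_add] at hij
      exact (mul_eq_zero.1 hij).resolve_left (pow_ne_zero _ hβ0)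
    have h2 : QQ β w = 0 := by
      by_contra h3
      have h4 := eval_ne_zero h3 (z := β ^ k) (by have := N1_QQ hβ w; linarith)
      rw [eval_QQ] at h4
      exact h4 h1
    refine ⟨?_, by rw [hL, hcN]; ring⟩
    rw [← eval_QQ β w, h2]
    simp
  · right
    rw [← eval_PP, ← eval_QQ] at hij
    have hMexp : (1 + hh β L) * (2 * L + 1) + hh β L + 2 * L + 3 = MM β L := by
      unfold MM
      ring
    have hkk : (2 : ℤ) ^ hh β L + 2 ^ hh β L * ((2 * 2 ^ hh β L) ^ (2 * L + 1) * 2 ^ hh β L) <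
        2 ^ k := by
      rw [W_le]
      have h1 : (1 : ℤ) + 2 ^ ((1 + hh β L) * (2 * L + 1) + hh β L) ≤ 2 ^ MM β L := by
        rw [← hMexp]
        have h2 : (1 : ℤ) ≤ 2 ^ ((1 + hh β L) * (2 * L + 1) + hh β L) := one_le_pow₀ (by norm_num)
        have h3 : (2 : ℤ) ^ ((1 + hh β L) * (2 * L + 1) + hh β L + 2 * L + 3) =
            2 ^ ((1 + hh β L) * (2 * L + 1) + hh β L) * (2 ^ (2 * L) * 8) := by
          rw [pow_add, pow_add]
          ring
        have h4 : (1 : ℤ) ≤ 2 ^ (2 * L) := one_le_pow₀ (by norm_num)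
        rw [h3]
        nlinarith
      calc (2 : ℤ) ^ hh β L + 2 ^ hh β L * 2 ^ ((1 + hh β L) * (2 * L + 1) + hh β L) =
            2 ^ hh β L * (1 + 2 ^ ((1 + hh β L) * (2 * L + 1) + hh β L)) := by ring
        _ ≤ 2 ^ hh β L * 2 ^ MM β L := mul_le_mul_of_nonneg_left h1 (by positivity)
        _ < 2 ^ k := by
            rw [← pow_add]
            exact pow_lt_pow_right₀ (by norm_num) (by unfold K1 at hk; omega)
    obtain ⟨v, D, S, hv, hD0, hDb, hSd, hSN, hid, hdvd⟩ :=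
      large hβ hP (natDegree_PP β w) (natDegree_QQ β w) (N1_PP hβ w) (N1_QQ hβ w) hkk hij
    rw [← hL] at hv hDb hSd hSN
    have hDM : |D| < 2 ^ MM β L := by
      refine hDb.trans_lt ?_
      rw [← pow_mul]
      refine pow_lt_pow_right₀ (by norm_num) ?_
      rw [← hMexp]
      have : hh β L * (2 * L + 1) ≤ (1 + hh β L) * (2 * L + 1) :=
        Nat.mul_le_mul_right _ (by omega)
      omega
    have hSM : N1 S < 2 ^ MM β L := by
      refine hSN.trans_lt ?_
      rw [mul_assoc, W_le]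
      have h1 : ((2 * L + 1 : ℕ) : ℤ) ≤ 2 ^ (2 * L) := by
        exact_mod_cast Nat.lt_two_pow_self (n := 2 * L)
      calc ((2 * L + 1 : ℕ) : ℤ) * 2 ^ ((1 + hh β L) * (2 * L + 1) + hh β L) ≤
            2 ^ (2 * L) * 2 ^ ((1 + hh β L) * (2 * L + 1) + hh β L) :=
              mul_le_mul_of_nonneg_right h1 (by positivity)
        _ < _ := by
            rw [← pow_add]
            exact pow_lt_pow_right₀ (by norm_num) (by omega)
    have hdvd2 := dvd_bound hD0 hDM hdvd
    -- sign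
    obtain ⟨D', S', hD'0, hD'M, hS'd, hS'N, hid', hdvd'⟩ : ∃ (D' : ℕ) (S' : ℤ[X]), 0 < D' ∧
        D' < 2 ^ MM β L ∧ S'.degree < ((2 * L + 1 : ℕ) : ℕ) ∧ N1 S' < 2 ^ MM β L ∧
        C (D' : ℤ) * (X ^ v * QQ β w) = S' * PP β w ∧
        (D' : ℤ) ∣ β ^ MM β L * S'.eval (β ^ k) := by
      rcases le_total 0 D with h0 | h0
      · refine ⟨D.natAbs, S, Int.natAbs_pos.2 hD0, ?_, hSd, hSM, ?_, ?_⟩
        · rw [Int.abs_eq_natAbs] at hDM
          exact_mod_cast hDM
        · rw [Int.natAbs_of_nonneg h0]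
          exact hid
        · rw [Int.natAbs_of_nonneg h0]
          exact hdvd2
      · have h1 : ((D.natAbs : ℕ) : ℤ) = -D := by
          rw [← Int.natAbs_neg, Int.natAbs_of_nonneg (by linarith)]
        refine ⟨D.natAbs, -S, Int.natAbs_pos.2 hD0, ?_, by rwa [degree_neg], by rwa [N1_neg],
          ?_, ?_⟩
        · rw [Int.abs_eq_natAbs] at hDM
          exact_mod_cast hDM
        · rw [h1, C_neg, neg_mul, neg_mul, hid]
        · rw [h1, eval_neg, mul_neg, neg_dvd, dvd_neg]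
          exact hdvd2
    obtain ⟨l, hl1, hl2, hl3⟩ := exists_list hS'd
    obtain ⟨k', hk', hkk'⟩ := exists_small_pow β hD'0 k
    refine ⟨k', D' - 1, v, l, by omega, hv, ?_⟩
    have hDD : (D' - 1 + 1 : ℕ) = D' := by omega
    refine ⟨hcN, heN, by rw [← hL]; omega, by rw [← hL, hl1], ?_, ?_, ?_⟩
    · intro s hs
      have h1 := (hl3 s hs).trans_lt hS'N
      rw [Int.abs_eq_natAbs] at h1
      rw [← hL]
      exact_mod_cast h1
    · rw [hDD]
      have h1 := congrArg (eval (β ^ Z1 β w.length)) hid'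
      simp only [eval_mul, eval_C, eval_pow, eval_X, eval_PP, eval_QQ] at h1
      rw [← hl2, eval_polyL] at h1
      exact h1
    · rw [hDD, ← hL]
      rw [← ZMod.intCast_zmod_eq_zero_iff_dvd] at hdvd' ⊢
      rw [← hl2, eval_polyL] at hdvd'
      push_cast at hdvd' ⊢
      rw [← hdvd']
      congr 1
      apply evalL_modEq
      push_cast
      exact hkk'

theorem N1_polyL {S : List ℤ} {B : ℤ} (h : ∀ s ∈ S, |s| ≤ B) : N1 (polyL S) ≤ S.length * B := by
  unfold polyL
  refine (N1_sum _ _).trans ?_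
  have h1 : ∀ i ∈ Finset.range S.length, N1 (C (S.getD i 0) * X ^ i) ≤ B := by
    intro i hi
    have hi := Finset.mem_range.1 hi
    refine (N1_C_mul_X_pow _ _).trans (h _ ?_)
    rw [List.getD_eq_getElem _ _ hi]
    exact List.getElem_mem _
  refine (Finset.sum_le_sum h1).trans ?_
  rw [Finset.sum_const, Finset.card_range, nsmul_eq_mul]

/-- certificates of the second kind are sound -/
theorem big_sound {β : ℤ} (hβ : 2 ≤ |β|) (w : List Let) {k D v : ℕ} {S : List ℤ}
    (h : Big β w k D v S) : SolK β w k := by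
  obtain ⟨hcN, heN, hD, hSl, hSb, hid, hdvd⟩ := h
  set L := w.length with hL
  refine ⟨by rw [← hL, hcN, heN], ?_⟩
  have hpoly : C ((D + 1 : ℕ) : ℤ) * (X ^ v * QQ β w) = polyL S * PP β w := by
    rw [← sub_eq_zero]
    by_contra hne
    have hval : (C ((D + 1 : ℕ) : ℤ) * (X ^ v * QQ β w) - polyL S * PP β w).eval
        (β ^ Z1 β L) = 0 := by
      rw [eval_sub, eval_mul, eval_mul, eval_mul, eval_C, eval_pow, eval_X, eval_PP, eval_QQ,
        eval_polyL, hid, sub_self]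
    refine eval_ne_zero hne (z := β ^ Z1 β L) ?_ hval
    have h1 := N1_sub (C ((D + 1 : ℕ) : ℤ) * (X ^ v * QQ β w)) (polyL S * PP β w)
    have h2 := N1_C_mul ((D + 1 : ℕ) : ℤ) (X ^ v * QQ β w)
    rw [N1_X_pow_mul] at h2
    have h3 := N1_mul (polyL S) (PP β w)
    have h4 := N1_PP hβ w
    have h5 := N1_QQ hβ w
    rw [← hL] at h4 h5
    have h6 : N1 (polyL S) ≤ 2 ^ (2 * L) * 2 ^ MM β L := by
      refine (N1_polyL (B := 2 ^ MM β L) fun s hs => ?_).trans ?_
      · have := hSb s hs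
        rw [Int.abs_eq_natAbs]
        exact_mod_cast this.le
      · refine mul_le_mul_of_nonneg_right ?_ (by positivity)
        have : S.length ≤ 2 ^ (2 * L) := by
          have := Nat.lt_two_pow_self (n := 2 * L)
          omega
        exact_mod_cast this
    have h7 : |((D + 1 : ℕ) : ℤ)| ≤ 2 ^ MM β L := by
      rw [Nat.abs_cast]
      exact_mod_cast (by omega : D + 1 ≤ 2 ^ MM β L)
    have h8 : |((D + 1 : ℕ) : ℤ)| * N1 (QQ β w) ≤ 2 ^ MM β L * 2 ^ hh β L :=
      mul_le_mul h7 h5 (N1_nonneg _) (by positivity)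
    have h9 : N1 (polyL S) * N1 (PP β w) ≤ 2 ^ (2 * L) * 2 ^ MM β L * 2 ^ hh β L :=
      mul_le_mul h6 h4 (N1_nonneg _) (by positivity)
    have h10 : (2 : ℤ) ^ MM β L * 2 ^ hh β L + 2 ^ (2 * L) * 2 ^ MM β L * 2 ^ hh β L ≤
        2 ^ Z1 β L := by
      have h11 : (2 : ℤ) ^ Z1 β L = 2 * (2 ^ (2 * L) * 2 ^ MM β L * 2 ^ hh β L) := by
        unfold Z1
        rw [pow_add, pow_add, pow_add, pow_one]
        ring
      have h12 : (1 : ℤ) ≤ 2 ^ (2 * L) := one_le_pow₀ (by norm_num)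
      have h13 : (0 : ℤ) ≤ 2 ^ MM β L * 2 ^ hh β L := by positivity
      rw [h11]
      nlinarith
    have h14 : (2 : ℤ) ^ Z1 β L ≤ |β ^ Z1 β L| := by
      rw [abs_pow]
      exact pow_le_pow_left₀ (by norm_num) hβ _
    linarith
  have hz := congrArg (eval (β ^ k)) hpoly
  simp only [eval_mul, eval_C, eval_pow, eval_X, eval_PP, eval_QQ, eval_polyL] at hz
  obtain ⟨y, hy⟩ := hdvd
  have hD0 : ((D + 1 : ℕ) : ℤ) ≠ 0 := by exact_mod_cast Nat.succ_ne_zero D
  refine ⟨MM β L + k * v, -y, ?_⟩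
  apply mul_left_cancel₀ hD0
  rw [mul_zero, pow_add, pow_mul]
  calc ((D + 1 : ℕ) : ℤ) * (PV β w (β ^ k) * -y + β ^ MM β L * (β ^ k) ^ v * QV β w (β ^ k)) =
        β ^ MM β L * (((D + 1 : ℕ) : ℤ) * ((β ^ k) ^ v * QV β w (β ^ k))) -
          PV β w (β ^ k) * (((D + 1 : ℕ) : ℤ) * y) := by ring
    _ = 0 := by
        rw [hz, ← hy]
        ring

end Pool.Agent.N582.BS
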