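import Pool.Agent.N582.BSNum
import Pool.Agent.H528R3.FD.Red

/-!
# Equations in one variable over one-relator groups: the constraints
-/

set_option autoImplicit false

namespace Pool.Agent.N582.BS

open Finset

/-- bounded powers -/
def pw (c B e : ℕ) : ℕ := B ^ min e c

/-- the cyclotomic number of an edge -/
def sq (c B : ℕ) (e : ℕ × ℕ) : ℕ :=
  (pw c B (e.1 * e.2) - 1) * (B - 1) / ((pw c B e.1 - 1) * (pw c B e.2 - 1))

/-- The modulus of a constraint: the pair `(p, 0)` stands for the vertex `p` and the pair `(p, q)`,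
`q ≠ 0`, stands for an edge. -/
def md (c B : ℕ) (e : ℕ × ℕ) : ℕ :=
  if e.2 = 0 then (pw c B e.1 - 1) / (B - 1)
  else if sq c B e % e.2 = 0 then sq c B e / e.2 else sq c B e

/-- The coefficients of the polynomial of a constraint. -/
def co (c B : ℕ) (e : ℕ × ℕ) : List ℕ :=
  if e.2 = 0 then [md c B e - B ^ 3, B + B ^ 2 + B ^ 3, md c B e - (1 + B + B ^ 2), 1]
  else (List.range (min (e.1 * e.2) c)).map
    (fun i => 1 + pw c B (e.1 * e.2 - i) + pw c B (e.1 * e.2 - i) * pw c B (e.1 * e.2 - i))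

/-- The order of `B` modulo the prime factors of the modulus. -/
def om (e : ℕ × ℕ) : ℕ := if e.2 = 0 then e.1 else e.1 * e.2

/-- The admissible constraints. -/
def GI (c B : ℕ) (e : ℕ × ℕ) : Prop :=
  (e.2 = 0 ∧ e.1.Prime ∧ B < e.1 ∧ e.1 ≤ c) ∨
    (e.1.Prime ∧ e.2.Prime ∧ B < e.1 ∧ e.1 < e.2 ∧ e.1 * e.2 ≤ c)

/-- The constraint holds for `k`. -/
def OKe (e : ℕ × ℕ) (k : ℤ) : Prop :=
  if e.2 = 0 then ∃ c : ℕ, c ≤ 2 ∧ (e.1 : ℤ) ∣ k - c
  else ∀ c : ℕ, c ≤ 2 → ¬ (((e.1 * e.2 : ℕ) : ℤ) ∣ k - c)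

theorem pw_eq {c B e : ℕ} (h : e ≤ c) : pw c B e = B ^ e := by
  unfold pw
  rw [min_eq_left h]

theorem md_vertex {c B p : ℕ} (h : p ≤ c) : md c B (p, 0) = Np B p := by
  unfold md Np
  rw [if_pos rfl, pw_eq h]

theorem sq_edge {c B p q : ℕ} (hp : 0 < p) (hq : 0 < q) (h : p * q ≤ c) :
    sq c B (p, q) = Sq B p q := by
  have h1 : p ≤ p * q := Nat.le_mul_of_pos_right _ hq
  have h2 : q ≤ p * q := Nat.le_mul_of_pos_left _ hp
  unfold sq Sq
  simp only
  rw [pw_eq h, pw_eq (h1.trans h), pw_eq (h2.trans h)]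

theorem md_edge {c B p q : ℕ} (hp : 0 < p) (hq : 0 < q) (h : p * q ≤ c) :
    md c B (p, q) = Nq B p q := by
  unfold md Nq
  simp only
  rw [if_neg hq.ne', sq_edge hp hq h]

section

variable {c B : ℕ} {e : ℕ × ℕ}

theorem om_pos (he : GI c B e) : 0 < om e := by
  rcases he with ⟨h0, hp, -, -⟩ | ⟨hp, hq, -, -, -⟩
  · unfold om
    rw [if_pos h0]
    exact hp.pos
  · unfold om
    rw [if_neg hq.pos.ne']
    exact Nat.mul_pos hp.pos hq.pos

theorem om_gt (hB : 4 ≤ B) (he : GI c B e) : 4 < om e := by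
  rcases he with ⟨h0, hp, h1, -⟩ | ⟨hp, hq, h1, -, -⟩
  · unfold om
    rw [if_pos h0]
    omega
  · unfold om
    rw [if_neg hq.pos.ne']
    have := Nat.le_mul_of_pos_right e.1 hq.pos
    omega

theorem md_order (hB : 4 ≤ B) (he : GI c B e) {r : ℕ} (hr : r.Prime) (h : r ∣ md c B e) :
    orderOf (B : ZMod r) = om e := by
  obtain ⟨p, q⟩ := e
  rcases he with ⟨h0, hp, h1, h2⟩ | ⟨hp, hq, h1, h2, h3⟩
  · simp only at h0 hp h1 h2
    subst h0
    rw [md_vertex h2] at h
    exact ord_Np (by omega) hp h1 hr h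
  · simp only at hp hq h1 h2 h3
    rw [md_edge hp.pos hq.pos h3] at h
    unfold om
    rw [if_neg hq.pos.ne']
    exact ord_Nq (by omega) hp hq h1 h2 hr h

theorem md_gt (hB : 4 ≤ B) (he : GI c B e) : 1 < md c B e := by
  obtain ⟨p, q⟩ := e
  rcases he with ⟨h0, hp, h1, h2⟩ | ⟨hp, hq, h1, h2, h3⟩
  · simp only at h0 hp h1 h2
    subst h0
    rw [md_vertex h2]
    have := Np_gt (B := B) (p := p) (by omega) (by omega)
    have h5 : 1 < B ^ 4 := Nat.one_lt_pow (by norm_num) (by omega)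
    omega
  · simp only at hp hq h1 h2 h3
    rw [md_edge hp.pos hq.pos h3]
    exact Nq_gt (by omega) hp hq h1 h2

theorem md_dvd (hB : 4 ≤ B) (he : GI c B e) : md c B e ∣ gs B (om e) := by
  obtain ⟨p, q⟩ := e
  rcases he with ⟨h0, hp, h1, h2⟩ | ⟨hp, hq, h1, h2, h3⟩
  · simp only at h0 hp h1 h2
    subst h0
    rw [md_vertex h2, Np_eq (by omega)]
    unfold om
    rw [if_pos rfl]
  · simp only at hp hq h1 h2 h3
    rw [md_edge hp.pos hq.pos h3]
    unfold om
    rw [if_neg hq.pos.ne']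
    exact Nq_dvd_pow (by omega) ((Nat.coprime_primes hp hq).2 (by omega)) hp.pos hq.pos

theorem pow_om (hB : 4 ≤ B) (he : GI c B e) {r : ℕ} (h : r ∣ md c B e) :
    (B : ZMod r) ^ om e = 1 :=
  pow_eq_one_of_dvd (by omega) (h.trans (md_dvd hB he))

theorem om_inj {e' : ℕ × ℕ} (he : GI c B e) (he' : GI c B e') (h : om e = om e') : e = e' := by
  obtain ⟨p, q⟩ := e
  obtain ⟨p', q'⟩ := e'
  unfold om at h
  simp only at h
  rcases he with ⟨h0, hp, -, -⟩ | ⟨hp, hq, -, h2, -⟩ <;>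
    rcases he' with ⟨h0', hp', -, -⟩ | ⟨hp', hq', -, h2', -⟩ <;> simp only at *
  · subst h0
    subst h0'
    simp only [if_true] at h
    rw [h]
  · subst h0
    rw [if_pos rfl, if_neg hq'.pos.ne'] at h
    exfalso
    exact Nat.not_prime_mul hp'.one_lt.ne' hq'.one_lt.ne' (h ▸ hp)
  · subst h0'
    rw [if_pos rfl, if_neg hq.pos.ne'] at h
    exfalso
    exact Nat.not_prime_mul hp.one_lt.ne' hq.one_lt.ne' (h ▸ hp')
  · rw [if_neg hq.pos.ne', if_neg hq'.pos.ne'] at h
    have h3 : p ∣ p' * q' := ⟨q, h.symm⟩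
    rcases (Nat.Prime.dvd_mul hp).1 h3 with h4 | h4
    · have h5 := (Nat.prime_dvd_prime_iff_eq hp hp').1 h4
      subst h5
      have := Nat.eq_of_mul_eq_mul_left hp.pos h
      rw [this]
    · have h5 := (Nat.prime_dvd_prime_iff_eq hp hq').1 h4
      subst h5
      have h6 : p * q = p * p' := by rw [h]; ring
      have := Nat.eq_of_mul_eq_mul_left hp.pos h6
      omega

theorem md_coprime (hB : 4 ≤ B) {e' : ℕ × ℕ} (he : GI c B e) (he' : GI c B e') (hne : e ≠ e') :
    Nat.Coprime (md c B e) (md c B e') := by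
  by_contra hcon
  obtain ⟨r, hr, hd⟩ := Nat.exists_prime_and_dvd hcon
  apply hne
  apply om_inj he he'
  rw [← md_order hB he hr (hd.trans (Nat.gcd_dvd_left _ _)),
    ← md_order hB he' hr (hd.trans (Nat.gcd_dvd_right _ _))]

/-- powers of `B` modulo the prime factors of the modulus -/
theorem unit_pow (hB : 4 ≤ B) (he : GI c B e) {r : ℕ} (hr : r.Prime) (h : r ∣ md c B e)
    (U : (ZMod r)ˣ) (hU : (U : ZMod r) = B) (k : ℤ) (a : ℕ) :
    ((U ^ k : (ZMod r)ˣ) : ZMod r) = (B : ZMod r) ^ a ↔ (om e : ℤ) ∣ k - a := by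
  have h1 : ((U ^ k : (ZMod r)ˣ) : ZMod r) = (B : ZMod r) ^ a ↔ U ^ k = U ^ (a : ℤ) := by
    rw [Units.ext_iff, zpow_natCast, Units.val_pow_eq_pow_val, hU]
  have h2 : orderOf U = om e := by
    rw [← orderOf_units, hU]
    exact md_order hB he hr h
  rw [h1, ← h2, orderOf_dvd_iff_zpow_eq_one, zpow_sub, mul_inv_eq_one]

theorem evalH_vertex {R : Type} [CommRing R] {p : ℕ} (hB : 4 ≤ B) (hp : p.Prime) (hBp : B < p)
    (hpc : p ≤ c) (h0 : ((md c B (p, 0) : ℕ) : R) = 0) (z : R) :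
    evalH (co c B (p, 0)) z = (z - 1) * (z - B) * (z - B ^ 2) := by
  have h1 := Np_gt (B := B) (p := p) (by omega) (by omega)
  rw [← md_vertex hpc] at h1
  have h2 : B ^ 3 ≤ B ^ 4 := Nat.pow_le_pow_right (by omega) (by norm_num)
  have h3 : 1 + B + B ^ 2 ≤ B ^ 3 := by
    have e3 : B ^ 3 = B * B ^ 2 := by ring
    have e2 : B ^ 2 = B * B := by ring
    nlinarith
  unfold co
  rw [if_pos rfl]
  simp only [evalH, List.foldr_cons, List.foldr_nil]
  rw [Nat.cast_sub (by omega), Nat.cast_sub (by omega), h0]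
  push_cast
  ring

theorem evalH_edge {R : Type} [CommRing R] {p q : ℕ} (hq : 0 < q) (hpq : p * q ≤ c) (z : R) :
    evalH (co c B (p, q)) z =
      VV (p * q) (B : R) 0 z + VV (p * q) (B : R) 1 z + VV (p * q) (B : R) 2 z := by
  unfold co
  rw [if_neg hq.ne', evalH_map_range]
  simp only
  rw [min_eq_left hpq]
  unfold VV
  rw [← Finset.sum_add_distrib, ← Finset.sum_add_distrib]
  refine Finset.sum_congr rfl fun i hi => ?_
  have hi := Finset.mem_range.1 hi
  rw [pw_eq (show p * q - i ≤ c by omega)]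
  push_cast
  ring

theorem sound (hB : 4 ≤ B) (he : GI c B e) {r : ℕ} (hr : r.Prime) (h : r ∣ md c B e)
    (U : (ZMod r)ˣ) (hU : (U : ZMod r) = B) (k : ℤ)
    (h0 : evalH (co c B e) ((U ^ k : (ZMod r)ˣ) : ZMod r) = 0) : OKe e k := by
  have := Fact.mk hr
  have hmd : ((md c B e : ℕ) : ZMod r) = 0 := (ZMod.natCast_eq_zero_iff _ _).2 h
  have hpow := unit_pow hB he hr h U hU
  have hgt := om_gt hB he
  have hord := md_order hB he hr h
  have hpo := pow_om hB he h
  obtain ⟨p, q⟩ := e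
  rcases he with ⟨hq0, hp, h1, h2⟩ | ⟨hp, hq, h1, h2, h3⟩
  · simp only at hq0 hp h1 h2
    subst hq0
    rw [evalH_vertex hB hp h1 h2 hmd] at h0
    unfold OKe
    rw [if_pos rfl]
    simp only
    have hom : om (p, 0) = p := by unfold om; rw [if_pos rfl]
    rw [hom] at hpow
    rcases mul_eq_zero.1 h0 with h0 | h0
    · rcases mul_eq_zero.1 h0 with h0 | h0
      · refine ⟨0, by norm_num, (hpow k 0).1 ?_⟩
        rw [pow_zero]
        exact sub_eq_zero.1 h0
      · refine ⟨1, by norm_num, (hpow k 1).1 ?_⟩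
        rw [pow_one]
        exact sub_eq_zero.1 h0
    · exact ⟨2, by norm_num, (hpow k 2).1 (sub_eq_zero.1 h0)⟩
  · simp only at hp hq h1 h2 h3
    rw [evalH_edge hq.pos h3] at h0
    unfold OKe
    rw [if_neg hq.pos.ne']
    have hom : om (p, q) = p * q := by unfold om; rw [if_neg hq.pos.ne']
    simp only
    rw [hom] at hpow hgt hord hpo
    intro a ha hdv
    have hz := (hpow k a).2 hdv
    rw [hz] at h0
    have hzm : ((B : ZMod r) ^ a) ^ (p * q) = 1 := by rw [← pow_mul, mul_comm, pow_mul, hpo, one_pow]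
    have hother : ∀ b : ℕ, b ≤ 2 → b ≠ a → VV (p * q) (B : ZMod r) b ((B : ZMod r) ^ a) = 0 := by
      intro b hb hba
      have h4 := VV_mul hpo hzm b
      rcases mul_eq_zero.1 h4 with h5 | h5
      · exfalso
        have h6 := (hpow (a : ℤ) b).1 (by
          rw [zpow_natCast, Units.val_pow_eq_pow_val, hU]
          exact sub_eq_zero.1 h5)
        have h7 : ((p * q : ℕ) : ℤ) ≤ |(a : ℤ) - b| :=
          Int.le_of_dvd (abs_pos.2 (by omega)) ((dvd_abs _ _).2 h6)
        have h8 : |(a : ℤ) - b| ≤ 2 := by rw [abs_le]; omega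
        omega
      · exact h5
    have hself := VV_self hpo a
    have hsum : ((p * q : ℕ) : ZMod r) = 0 := by
      have h9 : a = 0 ∨ a = 1 ∨ a = 2 := by omega
      rcases h9 with rfl | rfl | rfl
      · rw [hself, hother 1 (by norm_num) (by norm_num), hother 2 (by norm_num) (by norm_num)] at h0
        simpa using h0
      · rw [hself, hother 0 (by norm_num) (by norm_num), hother 2 (by norm_num) (by norm_num)] at h0
        simpa using h0
      · rw [hself, hother 0 (by norm_num) (by norm_num), hother 1 (by norm_num) (by norm_num)] at h0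
        simpa using h0
    have h10 := (ZMod.natCast_eq_zero_iff _ _).1 hsum
    have h11 := Nat.le_of_dvd (by omega) h10
    have h12 : p * q ∣ r - 1 := by
      rw [← hord]
      refine ZMod.orderOf_dvd_card_sub_one ?_
      rw [← hU]
      exact U.ne_zero
    have h13 := Nat.le_of_dvd (by have := hr.two_le; omega) h12
    have := hr.two_le
    omega

theorem pow_eq_of_dvd {R : Type} [CommRing R] {x : R} {m k a : ℕ} (hm : x ^ m = 1) (ha : a < m)
    (h : (m : ℤ) ∣ (k : ℤ) - a) : x ^ k = x ^ a := by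
  have h1 : k % m = a := by
    have h2 : (k : ℤ) % m = (a : ℤ) % m := Int.emod_eq_emod_iff_emod_sub_eq_zero.2 (Int.emod_eq_zero_of_dvd h)
    have h3 : (a : ℤ) % m = a := Int.emod_eq_of_lt (by omega) (by exact_mod_cast ha)
    rw [h3] at h2
    exact_mod_cast h2
  rw [← Nat.div_add_mod k m, pow_add, pow_mul, hm, one_pow, one_mul, h1]

end


/-! ### Completeness -/

section

variable {c B : ℕ} {e : ℕ × ℕ}

/-- `B^k - B^a` is invertible modulo the modulus of an edge -/
theorem isUnit_sub (hB : 4 ≤ B) (he : GI c B e) {k a : ℕ} (h : ¬ (om e : ℤ) ∣ (k : ℤ) - a) :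
    IsUnit ((B : ZMod (md c B e)) ^ k - (B : ZMod (md c B e)) ^ a) := by
  have h1 : (B : ZMod (md c B e)) ^ k - (B : ZMod (md c B e)) ^ a =
      (((B : ℤ) ^ k - (B : ℤ) ^ a : ℤ) : ZMod (md c B e)) := by push_cast; rfl
  rw [h1, ZMod.coe_int_isUnit_iff_isCoprime, Int.isCoprime_iff_gcd_eq_one]
  by_contra hcon
  obtain ⟨r, hr, hd⟩ := Nat.exists_prime_and_dvd hcon
  have := Fact.mk hr
  have h2 : (r : ℤ) ∣ ((md c B e : ℕ) : ℤ) :=
    (Int.natCast_dvd_natCast.2 hd).trans (Int.gcd_dvd_left _ _)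
  have h3 : (r : ℤ) ∣ (B : ℤ) ^ k - (B : ℤ) ^ a :=
    (Int.natCast_dvd_natCast.2 hd).trans (Int.gcd_dvd_right _ _)
  have h4 : r ∣ md c B e := Int.natCast_dvd_natCast.1 h2
  have hB0 : (B : ZMod r) ≠ 0 := ne_zero_of_pow (om_pos he).ne' (pow_om hB he h4)
  apply h
  refine (unit_pow hB he hr h4 (Units.mk0 (B : ZMod r) hB0) rfl (k : ℤ) a).1 ?_
  rw [zpow_natCast, Units.val_pow_eq_pow_val, Units.val_mk0, ← sub_eq_zero]
  have h5 := (ZMod.intCast_zmod_eq_zero_iff_dvd _ r).2 h3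
  push_cast at h5
  exact h5

theorem complete' (hB : 4 ≤ B) (he : GI c B e) {k : ℕ} (hk : OKe e k) :
    evalH (co c B e) ((B : ZMod (md c B e)) ^ k) = 0 := by
  have hpo := pow_om hB he (dvd_refl _)
  have hgt := om_gt hB he
  have hun := fun a : ℕ => isUnit_sub (k := k) (a := a) hB he
  have hmd : ((md c B e : ℕ) : ZMod (md c B e)) = 0 := ZMod.natCast_self _
  obtain ⟨p, q⟩ := e
  rcases he with ⟨hq0, hp, h1, h2⟩ | ⟨hp, hq, h1, h2, h3⟩
  · simp only at hq0 hp h1 h2
    subst hq0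
    rw [evalH_vertex hB hp h1 h2 hmd]
    unfold OKe at hk
    rw [if_pos rfl] at hk
    simp only at hk
    have hom : om (p, 0) = p := by unfold om; rw [if_pos rfl]
    rw [hom] at hpo hgt
    obtain ⟨a, ha, hd⟩ := hk
    have h4 := pow_eq_of_dvd (k := k) (a := a) hpo (by omega) hd
    rw [h4]
    have h9 : a = 0 ∨ a = 1 ∨ a = 2 := by omega
    rcases h9 with rfl | rfl | rfl <;> simp
  · simp only at hp hq h1 h2 h3
    rw [evalH_edge hq.pos h3]
    unfold OKe at hk
    rw [if_neg hq.pos.ne'] at hk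
    simp only at hk
    have hom : om (p, q) = p * q := by unfold om; rw [if_neg hq.pos.ne']
    rw [hom] at hpo hgt hun
    have hzm : ((B : ZMod (md c B (p, q))) ^ k) ^ (p * q) = 1 := by
      rw [← pow_mul, mul_comm, pow_mul, hpo, one_pow]
    have hall : ∀ a : ℕ, a ≤ 2 →
        VV (p * q) (B : ZMod (md c B (p, q))) a ((B : ZMod (md c B (p, q))) ^ k) = 0 := by
      intro a ha
      have h4 := VV_mul hpo hzm a
      exact (hun a (hk a ha)).mul_right_eq_zero.1 h4
    rw [hall 0 (by norm_num), hall 1 (by norm_num), hall 2 (by norm_num)]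
    simp

theorem evalH_map {R S : Type} [CommRing R] [CommRing S] (φ : R →+* S) (cs : List ℕ) (z : R) :
    φ (evalH cs z) = evalH cs (φ z) := by
  induction cs with
  | nil => simp [evalH]
  | cons a cs ih =>
    have h1 : evalH (a :: cs) z = (a : R) + z * evalH cs z := rfl
    have h2 : evalH (a :: cs) (φ z) = (a : S) + φ z * evalH cs (φ z) := rfl
    rw [h1, h2, map_add, map_mul, ih, map_natCast]

theorem complete (hB : 4 ≤ B) (he : GI c B e) {k : ℕ} (hk : OKe e k) :
    ((md c B e : ℕ) : ℤ) ∣ evalH (co c B e) ((B : ℤ) ^ k) := by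
  rw [← ZMod.intCast_zmod_eq_zero_iff_dvd]
  have h1 := evalH_map (Int.castRingHom (ZMod (md c B e))) (co c B e) ((B : ℤ) ^ k)
  simp only [eq_intCast, map_pow, Int.cast_natCast] at h1
  rw [h1]
  exact complete' hB he hk

end

/-! ### The whole system -/

/-- The list of the constraints. -/
def idx (es : List (ℕ × ℕ)) : List (ℕ × ℕ) :=
  H528R3.FD.ddup (es.flatMap (fun e => [(e.1, 0), (e.2, 0), e]))

/-- The product of the moduli. -/
def NN (c B : ℕ) (es : List (ℕ × ℕ)) : ℕ := ((idx es).map (md c B)).prod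

/-- The coefficients and the polynomials of the word. -/
def LL (c B : ℕ) (es : List (ℕ × ℕ)) : List (ℕ × List ℕ) :=
  (idx es).map (fun e => ((B - 1) * (NN c B es / md c B e), co c B e))

end Pool.Agent.N582.BS
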