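import Pool.Agent.NPC.Dec

/-!
# Equations in one variable over one-relator groups: definitions
-/

set_option autoImplicit false

namespace Pool.Agent.N582.BS

open Pool.Agent.NPC

/-- The group `⟨x_0, …, x_{n-1} | r⟩`. -/
abbrev OneRel {n : ℕ} (r : FreeGroup (Fin n)) : Type := PresentedGroup ({r} : Set (FreeGroup (Fin n)))

/-- The value of a word in a group if the symbol `a` has the value `f a`: the letter `(a, true)`
stands for `a` and the letter `(a, false)` for `a⁻¹`. -/
def ev {A H : Type} [Group H] (f : A → H) (w : List (A × Bool)) : H :=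
  (w.map (fun l => if l.2 = true then f l.1 else (f l.1)⁻¹)).prod

/-- The value of a word with constants `x_i` (the symbol `some i`) in the variable `x` (the symbol
`none`) at the element `g`. -/
def evalAt {n : ℕ} (r : FreeGroup (Fin n)) (g : OneRel r) (w : List (Option (Fin n) × Bool)) :
    OneRel r :=
  ev (fun o => match o with
    | none => g
    | some i => PresentedGroup.of i) w

/-- The single one-variable equation problem of the group `⟨x_0, …, x_{n-1} | r⟩`: the equation
`w(x) = 1` has a solution. -/
def OneVarEq {n : ℕ} (r : FreeGroup (Fin n)) (w : List (Option (Fin n) × Bool)) : Prop :=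
  ∃ g : OneRel r, evalAt r g w = 1

/-- The relator `t a t⁻¹ a⁻ᵝ`, where `a = x_0` and `t = x_1`, and where there are `m` further
generators. So `⟨x_0, …, x_{m+1} | relBS β m⟩` is the free product of the Baumslag–Solitar group
`BS(1, β)` and of a free group of rank `m`. -/
def relBS (β : ℤ) (m : ℕ) : FreeGroup (Fin (m + 2)) :=
  FreeGroup.of 1 * FreeGroup.of 0 * (FreeGroup.of 1)⁻¹ * ((FreeGroup.of 0) ^ β)⁻¹

/-- The Baumslag–Solitar group `BS(1, β) = ⟨a, t | t a t⁻¹ = aᵝ⟩`. -/
abbrev BS1 (β : ℤ) : Type := OneRel (relBS β 0)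

/-- Elements of `Fin n` are coded as natural numbers. -/
instance (n : ℕ) : TEnc (Fin n) := ⟨fun i => toT (i : ℕ), fun _ _ h => Fin.ext (TEnc.inj h)⟩

end Pool.Agent.N582.BS
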