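import Pool.Agent.N582.BSVer

/-!
# Equations in one variable over `BS(1, β)`, `|β| ≤ 1`: polynomial time
-/

set_option autoImplicit false

namespace Pool.Agent.N582.BS

open Pool.Agent.NPC

/-! ### `β = 1` and `β = -1` -/

section unit

variable {β : ℤ}

theorem zpow_parity (hβ : β * β = 1) (k : ℤ) : ∃ p : ℕ, p ≤ 1 ∧ (2 : ℤ) ∣ k - p ∧
    (β : ℚ) ^ k = (β : ℚ) ^ p := by
  have hβ0 : (β : ℚ) ≠ 0 := by
    intro h
    have : β = 0 := by exact_mod_cast h
    rw [this] at hβ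
    simp at hβ
  have h2 : (β : ℚ) ^ (2 : ℤ) = 1 := by
    have : ((β * β : ℤ) : ℚ) = 1 := by rw [hβ]; simp
    rw [zpow_two]
    exact_mod_cast this
  refine ⟨(k % 2).toNat, by omega, by omega, ?_⟩
  have h3 : k = 2 * (k / 2) + ((k % 2).toNat : ℤ) := by omega
  conv_lhs => rw [h3]
  rw [zpow_add₀ hβ0, zpow_mul, h2, one_zpow, one_mul, zpow_natCast]

/-- the value of a word at an arbitrary element, in terms of its affine map -/
theorem affQ_evalAt' (U : ℚˣ) (hU : (U : ℚ) = (β : ℚ)) (hβ : (β : ℚ) ≠ 0) (w : List Let)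
    (g : BS1 β) {z u : ℚ} (hz : z ≠ 0) (hg : ∀ y, affQ U hU g y = z * y + u) :
    affQ U hU (evalAt (relBS β 0) g w) 0 = tr β z u w := by
  unfold evalAt
  rw [ev_hom]
  rw [ev_aff (β := (β : ℚ)) (z := z) (u := u) hβ hz]
  · rw [mul_zero, zero_add]
  · exact hg
  · intro y
    exact affQ_a U hU y
  · intro y
    exact affQ_t U hU y

theorem affQ_t_zpow (U : ℚˣ) (hU : (U : ℚ) = (β : ℚ)) (hβ : (β : ℚ) ≠ 0) (k : ℤ) (y : ℚ) :
    affQ U hU (gt β ^ k) y = (β : ℚ) ^ k * y := by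
  rcases Int.eq_nat_or_neg k with ⟨n, rfl | rfl⟩
  · rw [zpow_natCast, affQ_t_pow, zpow_natCast]
  · rw [zpow_neg, zpow_natCast, map_inv, Equiv.Perm.inv_eq_iff_eq, affQ_t_pow, zpow_neg,
      zpow_natCast, ← mul_assoc, mul_inv_cancel₀ (pow_ne_zero _ hβ), one_mul]

/-- the arithmetic form for `β = ±1` -/
theorem oneVar_unit (hβ : β * β = 1) (w : List Let) :
    OneVarEq (relBS β 0) w ↔ ∃ p : ℕ, p ≤ 1 ∧
      (2 * es none w ∣ es (some 1) w + es none w * p) ∧ PV β w (β ^ p) ∣ QV β w (β ^ p) := by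
  have hβ0' : β ≠ 0 := by
    rintro rfl
    simp at hβ
  have hβ0 : (β : ℚ) ≠ 0 := by exact_mod_cast hβ0'
  let U : ℚˣ := Units.mk0 (β : ℚ) hβ0
  have hU : (U : ℚ) = (β : ℚ) := rfl
  have key : ∀ (p : ℕ) (j : ℤ), tr (β : ℚ) ((β : ℚ) ^ p) (j : ℚ) w = 0 ↔
      QV β w (β ^ p) + j * PV β w (β ^ p) = 0 := by
    intro p j
    have h3 := tr_shift (u := (j : ℚ)) hβ0 (pow_ne_zero p hβ0) w
    have hne : (β : ℚ) ^ w.length * ((β : ℚ) ^ p) ^ w.length ≠ 0 :=
      mul_ne_zero (pow_ne_zero _ hβ0) (pow_ne_zero _ (pow_ne_zero _ hβ0))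
    rw [← cast_PV, ← cast_QV] at h3
    constructor
    · intro h
      rw [h, mul_zero] at h3
      exact_mod_cast h3.symm
    · intro h
      have h4 : ((QV β w ((β : ℤ) ^ p) : ℤ) : ℚ) + (j : ℚ) * ((PV β w ((β : ℤ) ^ p) : ℤ) : ℚ) = 0 := by
        exact_mod_cast h
      rw [h4] at h3
      exact (mul_eq_zero.1 h3).resolve_left hne
  constructor
  · rintro ⟨g, hg⟩
    obtain ⟨i, l, j, rfl⟩ := exists_nf g
    have h1 := expHom_ev (nf β i j l) w
    rw [hg, expHom_nf, map_one, toAdd_one] at h1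
    obtain ⟨p, hp, hp2, hpk⟩ := zpow_parity hβ ((l : ℤ) - i)
    obtain ⟨pi, -, -, hpi⟩ := zpow_parity hβ (-(i : ℤ))
    have h2 := affQ_evalAt' U hU hβ0 w (nf β i j l) (z := (β : ℚ) ^ p)
      (u := ((β ^ pi * j : ℤ) : ℚ)) (pow_ne_zero _ hβ0) (by
        intro y
        rw [affQ_nf U hU hβ0, ← hpk, zpow_sub₀ hβ0, zpow_natCast, zpow_natCast]
        push_cast
        rw [← hpi, zpow_neg, zpow_natCast]
        field_simp)
    rw [hg, map_one, Equiv.Perm.one_apply] at h2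
    have h3 := (key p (β ^ pi * j)).1 h2.symm
    refine ⟨p, hp, ?_, ⟨-(β ^ pi * j), by linarith⟩⟩
    obtain ⟨m, hm⟩ := hp2
    have h4 : (l : ℤ) - i = p + 2 * m := by linarith
    rw [h4] at h1
    exact ⟨-m, by linarith⟩
  · rintro ⟨p, hp, ⟨m, hm⟩, ⟨j, hj⟩⟩
    refine ⟨ga β ^ (-j) * gt β ^ ((p : ℤ) - 2 * m), ?_⟩
    have hz : (β : ℚ) ^ ((p : ℤ) - 2 * m) = (β : ℚ) ^ p := by
      have h2 : (β : ℚ) ^ (2 : ℤ) = 1 := by
        have : ((β * β : ℤ) : ℚ) = 1 := by rw [hβ]; simp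
        rw [zpow_two]
        exact_mod_cast this
      rw [zpow_sub₀ hβ0, zpow_mul, h2, one_zpow, div_one, zpow_natCast]
    apply faithful U hU hβ0
    · rw [expHom_ev]
      have h1 : expHom β (ga β ^ (-j) * gt β ^ ((p : ℤ) - 2 * m)) =
          1 ^ (-j) * Multiplicative.ofAdd (1 : ℤ) ^ ((p : ℤ) - 2 * m) := by
        rw [MonoidHom.map_mul, MonoidHom.map_zpow, MonoidHom.map_zpow, expHom_a, expHom_t]
      rw [h1]
      simp only [one_zpow, one_mul, toAdd_zpow, toAdd_ofAdd, smul_eq_mul, mul_one]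
      linarith
    · rw [affQ_evalAt' U hU hβ0 w _ (z := (β : ℚ) ^ p) (u := ((-j : ℤ) : ℚ)) (pow_ne_zero _ hβ0)]
      · exact (key p (-j)).2 (by rw [hj]; ring)
      · intro y
        rw [map_mul, Equiv.Perm.mul_apply, affQ_t_zpow U hU hβ0, affQ_a_zpow, hz]

end unit

/-! ### `β = 0` -/

theorem ga_zero : ga 0 = 1 := by
  have h := rel_eq 0
  rw [zpow_zero] at h
  have h2 : gt 0 * ga 0 = gt 0 := by
    have := mul_inv_eq_one.1 h
    exact this
  exact mul_eq_left.1 h2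

theorem eq_t_zpow (g : BS1 0) : g = gt 0 ^ (Multiplicative.toAdd (expHom 0 g)) := by
  obtain ⟨i, l, j, rfl⟩ := exists_nf g
  rw [expHom_nf]
  unfold nf
  rw [ga_zero, one_zpow, mul_one, ← zpow_natCast, ← zpow_natCast, ← zpow_neg, ← zpow_add]
  congr 1
  ring

theorem oneVar_zero (w : List Let) :
    OneVarEq (relBS 0 0) w ↔ es none w ∣ es (some 1) w := by
  constructor
  · rintro ⟨g, hg⟩
    have h1 := expHom_ev g w
    rw [hg, map_one, toAdd_one] at h1
    exact ⟨-Multiplicative.toAdd (expHom 0 g), by linarith⟩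
  · rintro ⟨m, hm⟩
    refine ⟨gt 0 ^ (-m), ?_⟩
    have h1 : Multiplicative.toAdd (expHom 0 (gt 0 ^ (-m))) = -m := by
      have h2 : expHom 0 (gt 0 ^ (-m)) = Multiplicative.ofAdd (1 : ℤ) ^ (-m) := by
        rw [MonoidHom.map_zpow, expHom_t]
      rw [h2]
      simp only [toAdd_zpow, toAdd_ofAdd, smul_eq_mul, mul_one]
    have h3 := expHom_ev (gt 0 ^ (-m)) w
    rw [h1, hm] at h3
    have h4 : es none w * m + es none w * -m = 0 := by ring
    rw [h4] at h3
    rw [eq_t_zpow (evalAt (relBS 0 0) (gt 0 ^ (-m)) w), h3, zpow_zero]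

/-! ### Polynomial time -/

theorem poly_es (s : Option (Fin (0 + 2))) : NPC.Poly (fun w : List Let => es s w) := by
  have h1 : ∀ b : Bool, NPC.Poly (fun w : List Let => w.count (s, b)) := fun b =>
    (poly_count (w := fun w : List Let => w) Poly.id (i := fun w : List Let => w.length)
      (Poly.length Poly.id) (s, b)).congr fun w => by rw [List.take_length]
  exact Poly.isub (Poly.natCast (h1 true)) (Poly.natCast (h1 false))

theorem poly_dvd {α : Type} [TEnc α] {x y : α → ℤ} (hx : NPC.Poly x) (hy : NPC.Poly y) :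
    NPC.Poly (fun a => decide (x a ∣ y a)) := by
  have h1 : NPC.Poly (fun a => decide ((y a).natAbs % (x a).natAbs = 0)) :=
    Poly.decide_eq (Poly.mod (Poly.natAbs hy) (Poly.natAbs hx)) (NPC.Poly.const 0)
  refine h1.congr fun a => ?_
  rw [decide_eq_decide, ← Nat.dvd_iff_mod_eq_zero, Int.natAbs_dvd_natAbs]

/-- the test for the exponent sum `p` modulo `2` -/
def tst2 (β : ℤ) (p : ℕ) (w : List Let) : Bool :=
  decide (2 * es none w ∣ es (some 1) w + es none w * p) &&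
    decide (PV β w (β ^ p) ∣ QV β w (β ^ p))

theorem poly_tst2 (β : ℤ) (p : ℕ) : NPC.Poly (tst2 β p) := by
  unfold tst2
  exact Poly.and (poly_dvd (Poly.imul (NPC.Poly.const 2) (poly_es none))
    (Poly.iadd (poly_es (some 1)) (Poly.imul (poly_es none) (NPC.Poly.const (p : ℤ)))))
    (poly_dvd (poly_PV β Poly.id (NPC.Poly.const (β ^ p)))
      (poly_QV β Poly.id (NPC.Poly.const (β ^ p))))

/-- Let `|β| ≤ 1`. The single one-variable equation problem of `BS(1, β)` is in `P`. -/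
theorem inP {β : ℤ} (hβ : |β| ≤ 1) : InPP (OneVarEq (relBS β 0)) := by
  rcases eq_or_ne β 0 with rfl | h0
  · refine inPP_of (d := fun w => decide (es none w ∣ es (some 1) w))
      (poly_dvd (poly_es none) (poly_es (some 1))) fun w => ?_
    rw [oneVar_zero, decide_eq_true_iff]
  · have h1 : β * β = 1 := by
      have h2 := Int.one_le_abs h0
      have h3 : |β| = 1 := le_antisymm hβ h2
      have h4 : |β| * |β| = β * β := abs_mul_abs_self β
      rw [h3] at h4
      linarith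
    refine inPP_of (d := fun w => tst2 β 0 w || tst2 β 1 w)
      (Poly.or (poly_tst2 β 0) (poly_tst2 β 1)) fun w => ?_
    rw [oneVar_unit h1, Bool.or_eq_true]
    unfold tst2
    simp only [Bool.and_eq_true, decide_eq_true_iff]
    constructor
    · rintro ⟨p, hp, h⟩
      rcases (by omega : p = 0 ∨ p = 1) with rfl | rfl
      · exact Or.inl h
      · exact Or.inr h
    · rintro (h | h)
      · exact ⟨0, by omega, h⟩
      · exact ⟨1, le_rfl, h⟩

end Pool.Agent.N582.BS
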