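import Pool.Agent.N582.BSDefs
import Pool.Agent.NPC.Num

/-!
# Equations in one variable over one-relator groups: the words of the reduction and their values
-/

set_option autoImplicit false

namespace Pool.Agent.N582.BS

open Pool.Agent.NPC

/-- Digits of `n` in base `B` (with leading zeros). -/
def digs (B n : ℕ) : List ℕ := (List.range n.bits.length).map (fun i => n / B ^ i % B)

section words

variable {A : Type}

/-- `min d B` copies of `y` -/
def rep (B : ℕ) (y : List (A × Bool)) (d : ℕ) : List (A × Bool) :=
  (List.range B).flatMap (fun i => if i < d then y else [])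

/-- The word with value `y ^ n`, if conjugation by `V` is the `B`-th power and if `V'` is inverse
to `V`. -/
def wpow (B : ℕ) (V V' y : List (A × Bool)) (n : ℕ) : List (A × Bool) :=
  (digs B n).flatMap (fun d => rep B y d ++ V) ++ (digs B n).flatMap (fun _ => V')

/-- The word `U^(c_0) x U^(c_1) x ⋯ U^(c_l) x x⁻¹ ⋯ x⁻¹`. -/
def hor (B : ℕ) (V V' U x x' : List (A × Bool)) (cs : List ℕ) : List (A × Bool) :=
  cs.flatMap (fun c => wpow B V V' U c ++ x) ++ cs.flatMap (fun _ => x')

/-- The word `[V, x]^N · ∏ (hor cs)^n`, where `(n, cs)` runs through `L`. -/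
def wfull (B : ℕ) (V V' U x x' : List (A × Bool)) (N : ℕ) (L : List (ℕ × List ℕ)) :
    List (A × Bool) :=
  wpow B V V' (V ++ (x ++ (V' ++ x'))) N ++
    L.flatMap (fun p => wpow B V V' (hor B V V' U (x ++ x) (x' ++ x') p.2) p.1)

end words

/-- Value of a polynomial, given by the list of its coefficients (lowest degree first). -/
def evalH {R : Type} [CommRing R] (cs : List ℕ) (s : R) : R := cs.foldr (fun (c : ℕ) (z : R) => (c : R) + s * z) 0

/-- The value of a list of digits. -/
def valD (B : ℕ) (l : List ℕ) : ℕ := l.foldr (fun d v => d + B * v) 0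

theorem valD_range (B n : ℕ) : ∀ k : ℕ,
    valD B ((List.range k).map (fun i => n / B ^ i % B)) = n % B ^ k := by
  intro k
  induction k generalizing n with
  | zero => simp [valD, Nat.mod_one]
  | succ k ih =>
    rw [List.range_succ_eq_map, List.map_cons, List.map_map]
    have h1 : (fun i => n / B ^ i % B) ∘ Nat.succ = fun i => (n / B) / B ^ i % B := by
      funext i
      simp only [Function.comp, Nat.succ_eq_add_one, Nat.div_div_eq_div_mul, pow_succ']
    have h2 : valD B ((List.range k).map ((fun i => n / B ^ i % B) ∘ Nat.succ)) =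
        (n / B) % B ^ k := by
      rw [h1, ih]
    have h3 : valD B (n / B ^ 0 % B :: (List.range k).map ((fun i => n / B ^ i % B) ∘ Nat.succ)) =
        n / B ^ 0 % B + B * valD B ((List.range k).map ((fun i => n / B ^ i % B) ∘ Nat.succ)) :=
      rfl
    rw [h3, h2, pow_zero, Nat.div_one, pow_succ', Nat.mod_mul]

theorem valD_digs {B : ℕ} (hB : 2 ≤ B) (n : ℕ) : valD B (digs B n) = n := by
  unfold digs
  rw [valD_range, Nat.mod_eq_of_lt]
  have h1 : n < 2 ^ n.bits.length := by
    have := valB_lt n.bits
    rwa [valB_bits] at this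
  exact h1.trans_le (Nat.pow_le_pow_left hB _)

theorem digs_lt {B : ℕ} (hB : 2 ≤ B) {n d : ℕ} (hd : d ∈ digs B n) : d < B := by
  unfold digs at hd
  obtain ⟨i, _, rfl⟩ := List.mem_map.1 hd
  exact Nat.mod_lt _ (by omega)

section values

variable {A H R : Type} [Group H] [CommRing R]

theorem ev_nil (f : A → H) : ev f [] = 1 := rfl

theorem ev_append (f : A → H) (w w' : List (A × Bool)) : ev f (w ++ w') = ev f w * ev f w' := by
  simp [ev]

theorem ev_hom {K : Type} [Group K] (φ : H →* K) (f : A → H) (w : List (A × Bool)) :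
    φ (ev f w) = ev (fun a => φ (f a)) w := by
  unfold ev
  rw [map_list_prod, List.map_map]
  congr 1
  apply List.map_congr_left
  intro l _
  simp only [Function.comp]
  split_ifs <;> simp

/-- The relations used for the evaluation of the words. -/
structure Act (B : ℕ) (T : R → H) (τ γ : H) (s r : R) : Prop where
  add : ∀ x y, T (x + y) = T x * T y
  tau : ∀ x, τ * T x = T ((B : R) * x) * τ
  gam : ∀ x, γ * T x = T (s * x) * γ
  com : τ * γ * τ⁻¹ * γ⁻¹ = T r

namespace Act

variable {B : ℕ} {T : R → H} {τ γ : H} {s r : R}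

theorem zero (h : Act B T τ γ s r) : T 0 = 1 := by
  have := h.add 0 0
  rw [add_zero] at this
  exact (mul_eq_left.1 this.symm)

theorem gam2 (h : Act B T τ γ s r) (x : R) : γ * γ * T x = T (s * s * x) * (γ * γ) := by
  rw [mul_assoc γ γ, h.gam, ← mul_assoc, h.gam, mul_assoc, mul_assoc s s]

theorem ev_inv_pow (f : A → H) {V' : List (A × Bool)} {β : Type} {τ : H} (hV' : ev f V' = τ⁻¹)
    (l : List β) : ev f (l.flatMap (fun _ => V')) = (τ ^ l.length)⁻¹ := by
  induction l with
  | nil => simp [ev_nil]
  | cons b l ih =>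
    rw [List.flatMap_cons, ev_append, ih, hV', List.length_cons, pow_succ, mul_inv_rev]

theorem ev_rep (h : Act B T τ γ s r) {f : A → H} {y : List (A × Bool)} {z : R}
    (hy : ev f y = T z) (k : ℕ) (d : ℕ) :
    ev f ((List.range k).flatMap (fun i => if i < d then y else [])) = T (((min d k : ℕ) : R) * z) := by
  induction k with
  | zero => simp [ev_nil, h.zero]
  | succ k ih =>
    rw [List.range_succ, List.flatMap_append, ev_append, ih]
    by_cases hk : k < d
    · have h1 : min d k = k := by omega
      have h2 : min d (k + 1) = k + 1 := by omega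
      simp only [List.flatMap_cons, List.flatMap_nil, List.append_nil, hk, if_true, hy]
      rw [← h.add, h1, h2]
      push_cast
      congr 1
      ring
    · have h1 : min d k = d := by omega
      have h2 : min d (k + 1) = d := by omega
      simp [hk, ev_nil, h1, h2]

theorem ev_digs (h : Act B T τ γ s r) {f : A → H} {V y : List (A × Bool)} {z : R}
    (hV : ev f V = τ) (hy : ev f y = T z) (l : List ℕ) (hl : ∀ d ∈ l, d < B) :
    ev f (l.flatMap (fun d => rep B y d ++ V)) = T ((valD B l : R) * z) * τ ^ l.length := by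
  induction l with
  | nil => simp [ev_nil, h.zero, valD]
  | cons d l ih =>
    rw [List.flatMap_cons, ev_append, ih fun e he => hl e (List.mem_cons_of_mem _ he), ev_append,
      hV, List.length_cons, pow_succ']
    have hd : min d B = d := by
      have := hl d List.mem_cons_self
      omega
    have h1 : ev f (rep B y d) = T ((d : R) * z) := by
      unfold rep
      rw [h.ev_rep hy, hd]
    have key : τ * T ((valD B l : R) * z) = T ((B : R) * ((valD B l : R) * z)) * τ := h.tau _
    have h2 : valD B (d :: l) = d + B * valD B l := rfl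
    rw [h1, h2, mul_assoc (T _) τ, ← mul_assoc τ, key, ← mul_assoc, ← mul_assoc, ← h.add,
      mul_assoc]
    push_cast
    congr 2
    ring

theorem ev_wpow (hB : 2 ≤ B) (h : Act B T τ γ s r) {f : A → H} {V V' y : List (A × Bool)} {z : R}
    (hV : ev f V = τ) (hV' : ev f V' = τ⁻¹) (hy : ev f y = T z) (n : ℕ) :
    ev f (wpow B V V' y n) = T ((n : R) * z) := by
  unfold wpow
  rw [ev_append, h.ev_digs hV hy _ (fun d hd => digs_lt hB hd), ev_inv_pow f hV', valD_digs hB,
    mul_inv_cancel_right]

theorem ev_hor (hB : 2 ≤ B) (h : Act B T τ γ s r) {f : A → H} {V V' U x x' : List (A × Bool)}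
    (hV : ev f V = τ) (hV' : ev f V' = τ⁻¹) (hU : ev f U = T 1) (hx : ev f x = γ)
    (hx' : ev f x' = γ⁻¹) (cs : List ℕ) :
    ev f (hor B V V' U (x ++ x) (x' ++ x') cs) = T (evalH cs (s * s)) := by
  have h1 : ∀ cs : List ℕ, ev f (cs.flatMap (fun c => wpow B V V' U c ++ (x ++ x))) =
      T (evalH cs (s * s)) * (γ * γ) ^ cs.length := by
    intro cs
    induction cs with
    | nil => simp [ev_nil, evalH, h.zero]
    | cons c cs ih =>
      rw [List.flatMap_cons, ev_append, ih, ev_append, ev_append, hx, h.ev_wpow hB hV hV' hU,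
        List.length_cons, pow_succ', mul_assoc (T _) (γ * γ), ← mul_assoc (γ * γ), h.gam2,
        ← mul_assoc, ← mul_assoc, ← h.add, mul_assoc]
      congr 2
      simp [evalH]
  have h2 : ev f (x' ++ x') = (γ * γ)⁻¹ := by
    rw [ev_append, hx', mul_inv_rev]
  unfold hor
  rw [ev_append, h1, ev_inv_pow f h2, mul_inv_cancel_right]

theorem ev_wfull (hB : 2 ≤ B) (h : Act B T τ γ s r) {f : A → H} {V V' U x x' : List (A × Bool)}
    (hV : ev f V = τ) (hV' : ev f V' = τ⁻¹) (hU : ev f U = T 1) (hx : ev f x = γ)
    (hx' : ev f x' = γ⁻¹) (N : ℕ) (L : List (ℕ × List ℕ)) :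
    ev f (wfull B V V' U x x' N L) =
      T ((N : R) * r + (L.map (fun p => (p.1 : R) * evalH p.2 (s * s))).sum) := by
  have h1 : ∀ L : List (ℕ × List ℕ),
      ev f (L.flatMap (fun p => wpow B V V' (hor B V V' U (x ++ x) (x' ++ x') p.2) p.1)) =
        T (L.map (fun p => (p.1 : R) * evalH p.2 (s * s))).sum := by
    intro L
    induction L with
    | nil => simp [ev_nil, h.zero]
    | cons p L ih =>
      rw [List.flatMap_cons, ev_append, ih, h.ev_wpow hB hV hV' (h.ev_hor hB hV hV' hU hx hx' p.2),
        List.map_cons, List.sum_cons, h.add]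
  unfold wfull
  have h2 : ev f (V ++ (x ++ (V' ++ x'))) = T r := by
    rw [ev_append, ev_append, ev_append, hV, hV', hx, hx', ← h.com]
    group
  rw [ev_append, h1, h.ev_wpow hB hV hV' h2, h.add]

end Act

end values

/-! ### Words for the elements of the group -/

/-- A word over the generators, as a word with the variable. -/
def wd {n : ℕ} (u : FreeGroup (Fin n)) : List (Option (Fin n) × Bool) :=
  u.toWord.map (fun l => (some l.1, l.2))

theorem evalAt_wd {n : ℕ} (r : FreeGroup (Fin n)) (g : OneRel r) (u : FreeGroup (Fin n)) :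
    evalAt r g (wd u) = PresentedGroup.mk _ u := by
  have h1 : ∀ L : List (Fin n × Bool),
      evalAt r g (L.map (fun l => (some l.1, l.2))) = PresentedGroup.mk _ (FreeGroup.mk L) := by
    intro L
    induction L with
    | nil =>
      simp [evalAt, ev_nil, ← FreeGroup.one_eq_mk]
    | cons l L ih =>
      have h2 : FreeGroup.mk (l :: L) = FreeGroup.mk [l] * FreeGroup.mk L := by
        rw [FreeGroup.mul_mk]
        rfl
      rw [h2, map_mul, ← ih]
      simp only [evalAt, ev, List.map_cons, List.prod_cons]
      congr 1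
      obtain ⟨i, b⟩ := l
      cases b
      · have h3 : (FreeGroup.mk [(i, false)] : FreeGroup (Fin n)) = (FreeGroup.of i)⁻¹ := rfl
        rw [h3, map_inv]
        simp [PresentedGroup.of]
      · have h3 : (FreeGroup.mk [(i, true)] : FreeGroup (Fin n)) = FreeGroup.of i := rfl
        rw [h3]
        simp [PresentedGroup.of]
  have := h1 u.toWord
  rw [FreeGroup.mk_toWord] at this
  exact this

end Pool.Agent.N582.BS
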