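import Pool.Agent.N582.BSGroup

/-!
# Equations in one variable over one-relator groups: number theory

The moduli: for a prime `p` the number `(B^p - 1)/(B - 1)`, and for primes `p < q` the number
`(B^(pq) - 1)(B - 1)/((B^p - 1)(B^q - 1))`, divided by `q` if possible. The order of `B` modulo
each of their prime factors is `p`, `pq`.
-/

set_option autoImplicit false

namespace Pool.Agent.N582.BS

open Finset

/-- `1 + B + ⋯ + B^(n-1)` -/
def gs (B n : ℕ) : ℕ := ∑ i ∈ Finset.range n, B ^ i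

theorem gs_spec {B : ℕ} (hB : 1 ≤ B) (n : ℕ) : gs B n * (B - 1) + 1 = B ^ n := by
  obtain ⟨b, rfl⟩ := Nat.exists_eq_add_of_le' hB
  unfold gs
  simp only [Nat.add_sub_cancel]
  induction n with
  | zero => simp
  | succ n ih =>
    rw [Finset.sum_range_succ, add_mul, pow_succ]
    calc _ = ((∑ i ∈ Finset.range n, (b + 1) ^ i) * b + 1) + (b + 1) ^ n * b := by ring
      _ = _ := by rw [ih]; ring

theorem gs_sub {B : ℕ} (hB : 1 ≤ B) (n : ℕ) : B ^ n - 1 = gs B n * (B - 1) := by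
  have := gs_spec hB n
  omega

theorem gs_mul {B : ℕ} (hB : 2 ≤ B) (p q : ℕ) : gs B p * gs (B ^ p) q = gs B (p * q) := by
  have h1 := gs_sub (B := B) (by omega) p
  have h2 := gs_sub (B := B) (by omega) (p * q)
  have h3 := gs_sub (B := B ^ p) (Nat.one_le_pow _ _ (by omega)) q
  rw [← pow_mul, h2, h1] at h3
  have h4 : gs B p * gs (B ^ p) q * (B - 1) = gs B (p * q) * (B - 1) := by
    rw [h3]
    ring
  exact Nat.eq_of_mul_eq_mul_right (by omega) h4

theorem gs_coprime {B p q : ℕ} (hB : 2 ≤ B) (hpq : Nat.Coprime p q) :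
    Nat.Coprime (gs B p) (gs B q) := by
  have h1 := Nat.pow_sub_one_gcd_pow_sub_one B p q
  rw [gs_sub (by omega) p, gs_sub (by omega) q, Nat.gcd_mul_right, hpq, pow_one] at h1
  exact Nat.eq_of_mul_eq_mul_right (by omega) (h1.trans (one_mul _).symm)

theorem gs_cast {R : Type} [CommRing R] (B n : ℕ) :
    ((gs B n : ℕ) : R) = ∑ i ∈ Finset.range n, (B : R) ^ i := by
  unfold gs
  push_cast
  rfl

/-- the modulus of a vertex -/
def Np (B p : ℕ) : ℕ := (B ^ p - 1) / (B - 1)

/-- the cyclotomic number -/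
def Sq (B p q : ℕ) : ℕ := (B ^ (p * q) - 1) * (B - 1) / ((B ^ p - 1) * (B ^ q - 1))

/-- the modulus of an edge -/
def Nq (B p q : ℕ) : ℕ := if Sq B p q % q = 0 then Sq B p q / q else Sq B p q

theorem Np_eq {B : ℕ} (hB : 2 ≤ B) (p : ℕ) : Np B p = gs B p := by
  unfold Np
  rw [gs_sub (by omega), Nat.mul_div_cancel _ (by omega)]

theorem gs_pos {B n : ℕ} (hn : 0 < n) : 0 < gs B n := by
  unfold gs
  refine lt_of_lt_of_le (b := B ^ 0) (by simp) ?_
  exact Finset.single_le_sum (f := fun i => B ^ i) (fun _ _ => Nat.zero_le _)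
    (Finset.mem_range.2 hn)

theorem Sq_spec {B p q : ℕ} (hB : 2 ≤ B) (hpq : Nat.Coprime p q) (hp : 0 < p) (hq : 0 < q) :
    Sq B p q * (gs B p * gs B q) = gs B (p * q) := by
  have h1 : gs B p * gs B q ∣ gs B (p * q) := by
    refine Nat.Coprime.mul_dvd_of_dvd_of_dvd (gs_coprime hB hpq) ?_ ?_
    · exact ⟨_, (gs_mul hB p q).symm⟩
    · rw [mul_comm p q]
      exact ⟨_, (gs_mul hB q p).symm⟩
  unfold Sq
  rw [gs_sub (B := B) (by omega) p, gs_sub (B := B) (by omega) q, gs_sub (B := B) (by omega) (p * q)]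
  have h2 : gs B (p * q) * (B - 1) * (B - 1) = gs B (p * q) * ((B - 1) * (B - 1)) := by ring
  have h3 : gs B p * (B - 1) * (gs B q * (B - 1)) = gs B p * gs B q * ((B - 1) * (B - 1)) := by
    ring
  have h4 : 0 < (B - 1) * (B - 1) := Nat.mul_pos (by omega) (by omega)
  rw [h2, h3, Nat.mul_div_mul_right _ _ h4]
  exact Nat.div_mul_cancel h1

theorem Sq_left {B p q : ℕ} (hB : 2 ≤ B) (hpq : Nat.Coprime p q) (hp : 0 < p) (hq : 0 < q) :
    Sq B p q * gs B q = gs (B ^ p) q := by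
  have h1 := Sq_spec hB hpq hp hq
  have h2 := gs_mul hB p q
  have h3 : gs B p * (Sq B p q * gs B q) = gs B p * gs (B ^ p) q := by
    rw [h2, ← h1]
    ring
  exact Nat.eq_of_mul_eq_mul_left (gs_pos hp) h3

theorem Sq_right {B p q : ℕ} (hB : 2 ≤ B) (hpq : Nat.Coprime p q) (hp : 0 < p) (hq : 0 < q) :
    Sq B p q * gs B p = gs (B ^ q) p := by
  have h1 := Sq_spec hB hpq hp hq
  have h2 := gs_mul hB q p
  have h3 : gs B q * (Sq B p q * gs B p) = gs B q * gs (B ^ q) p := by
    rw [h2, mul_comm q p, ← h1]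
    ring
  exact Nat.eq_of_mul_eq_mul_left (gs_pos hq) h3

theorem Nq_dvd (B p q : ℕ) : Nq B p q ∣ Sq B p q := by
  unfold Nq
  split_ifs with h
  · exact Nat.div_dvd_of_dvd (Nat.dvd_of_mod_eq_zero h)
  · exact dvd_rfl

/-- if `B^n = 1` modulo `r` and `r` divides `1 + B^n + ⋯ + B^(n(k-1))`, then `r` divides `k` -/
theorem dvd_of_gs {B n k r : ℕ} (h : r ∣ gs (B ^ n) k) (h1 : (B : ZMod r) ^ n = 1) : r ∣ k := by
  have h2 : ((gs (B ^ n) k : ℕ) : ZMod r) = 0 := (ZMod.natCast_eq_zero_iff _ _).2 h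
  rw [gs_cast] at h2
  push_cast at h2
  rw [h1] at h2
  simp only [one_pow, Finset.sum_const, Finset.card_range, nsmul_eq_mul, mul_one] at h2
  exact (ZMod.natCast_eq_zero_iff _ _).1 h2

theorem ne_zero_of_pow {r B n : ℕ} [Fact r.Prime] (hn : n ≠ 0) (h : (B : ZMod r) ^ n = 1) :
    (B : ZMod r) ≠ 0 := by
  intro h0
  rw [h0, zero_pow hn] at h
  exact zero_ne_one h

theorem not_one_of_lt {B r : ℕ} (hB : 2 ≤ B) (hr : B < r) : (B : ZMod r) ≠ 1 := by
  intro h
  have h1 : ((B - 1 : ℕ) : ZMod r) = 0 := by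
    rw [Nat.cast_sub (by omega), h]
    simp
  have h2 := (ZMod.natCast_eq_zero_iff _ _).1 h1
  have := Nat.le_of_dvd (by omega) h2
  omega

theorem pow_eq_one_of_dvd {B n r : ℕ} (hB : 1 ≤ B) (h : r ∣ gs B n) : (B : ZMod r) ^ n = 1 := by
  have h1 := gs_spec hB n
  have h2 : ((gs B n * (B - 1) + 1 : ℕ) : ZMod r) = ((B ^ n : ℕ) : ZMod r) := by rw [h1]
  push_cast at h2
  rw [(ZMod.natCast_eq_zero_iff _ _).2 h, zero_mul, zero_add] at h2
  exact h2.symm

/-- the order modulo the prime factors of the modulus of a vertex -/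
theorem ord_Np {B p r : ℕ} (hB : 2 ≤ B) (hp : p.Prime) (hBp : B < p) (hr : r.Prime)
    (h : r ∣ Np B p) : orderOf (B : ZMod r) = p := by
  have := Fact.mk hr
  have := Fact.mk hp
  rw [Np_eq hB] at h
  refine orderOf_eq_prime (pow_eq_one_of_dvd (by omega) h) ?_
  intro h1
  have h2 : r ∣ gs (B ^ 1) p := by rwa [pow_one]
  have h3 := dvd_of_gs h2 (by rw [pow_one]; exact h1)
  have h4 := (Nat.prime_dvd_prime_iff_eq hr hp).1 h3
  subst h4
  exact not_one_of_lt hB hBp h1

theorem Np_gt {B p : ℕ} (hB : 2 ≤ B) (hp : 5 ≤ p) : B ^ 4 < Np B p := by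
  rw [Np_eq hB]
  have h1 := gs_spec (B := B) (by omega) p
  have h2 : B ^ 5 ≤ B ^ p := Nat.pow_le_pow_right (by omega) hp
  by_contra hcon
  push Not at hcon
  have h3 : gs B p * (B - 1) ≤ B ^ 4 * (B - 1) := Nat.mul_le_mul_right _ hcon
  have h4 : B ^ 5 = B ^ 4 * (B - 1) + B ^ 4 := by
    obtain ⟨b, rfl⟩ := Nat.exists_eq_add_of_le' (show 1 ≤ B by omega)
    simp only [Nat.add_sub_cancel]
    ring
  have h5 : 1 < B ^ 4 := Nat.one_lt_pow (by norm_num) (by omega)
  omega

/-- the order modulo the prime factors of the modulus of an edge -/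
theorem ord_Nq {B p q r : ℕ} (hB : 2 ≤ B) (hp : p.Prime) (hq : q.Prime) (hBp : B < p)
    (hpq : p < q) (hr : r.Prime) (h : r ∣ Nq B p q) : orderOf (B : ZMod r) = p * q := by
  have := Fact.mk hr
  have hco : Nat.Coprime p q := (Nat.coprime_primes hp hq).2 (by omega)
  have hS : r ∣ Sq B p q := h.trans (Nq_dvd _ _ _)
  have hSl := Sq_left hB hco hp.pos hq.pos
  have hSr := Sq_right hB hco hp.pos hq.pos
  have hSs := Sq_spec hB hco hp.pos hq.pos
  have h1 : (B : ZMod r) ^ (p * q) = 1 := by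
    apply pow_eq_one_of_dvd (by omega)
    rw [← hSs]
    exact Dvd.dvd.mul_right hS _
  have h2 : (B : ZMod r) ^ q ≠ 1 := by
    intro h2
    have h3 : r ∣ gs (B ^ q) p := by
      rw [← hSr]
      exact Dvd.dvd.mul_right hS _
    have h4 := (Nat.prime_dvd_prime_iff_eq hr hp).1 (dvd_of_gs h3 h2)
    subst h4
    have h5 := ZMod.pow_card_sub_one_eq_one (ne_zero_of_pow hq.ne_zero h2)
    have h6 := Nat.dvd_gcd (orderOf_dvd_of_pow_eq_one h2) (orderOf_dvd_of_pow_eq_one h5)
    have h7 : Nat.gcd q (r - 1) = 1 := by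
      have h8 : 0 < r - 1 := by have := hr.two_le; omega
      exact (Nat.Prime.coprime_iff_not_dvd hq).2 (Nat.not_dvd_of_pos_of_lt h8 (by omega))
    rw [h7, Nat.dvd_one, orderOf_eq_one_iff] at h6
    exact not_one_of_lt hB hBp h6
  have h3 : (B : ZMod r) ^ p ≠ 1 := by
    intro h3
    have h4 : r ∣ gs (B ^ p) q := by
      rw [← hSl]
      exact Dvd.dvd.mul_right hS _
    have h5 := (Nat.prime_dvd_prime_iff_eq hr hq).1 (dvd_of_gs h4 h3)
    subst h5
    unfold Nq at h
    by_cases hm : Sq B p r % r = 0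
    · rw [if_pos hm] at h
      have h6 : r ^ 2 ∣ Sq B p r := by
        obtain ⟨k, hk⟩ := h
        refine ⟨k, ?_⟩
        have := Nat.div_mul_cancel (Nat.dvd_of_mod_eq_zero hm)
        rw [← this, hk]
        ring
      have h7 : r ^ 2 ∣ gs (B ^ p) r := by
        rw [← hSl]
        exact Dvd.dvd.mul_right h6 _
      have hr2 : Odd r := by
        rcases hr.eq_two_or_odd' with h | h
        · omega
        · exact h
      have hxy : ((r : ℕ) : ℤ) ∣ (B : ℤ) ^ p - 1 := by
        rw [← ZMod.intCast_zmod_eq_zero_iff_dvd]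
        push_cast
        rw [h3, sub_self]
      have hx : ¬ ((r : ℕ) : ℤ) ∣ (B : ℤ) ^ p := by
        rw [← ZMod.intCast_zmod_eq_zero_iff_dvd]
        push_cast
        rw [h3]
        exact one_ne_zero
      have h8 := emultiplicity_geom_sum₂_eq_one (p := r) (x := (B : ℤ) ^ p) (y := 1)
        (Nat.prime_iff_prime_int.1 hr) hr2 hxy hx
      simp only [one_pow, mul_one] at h8
      have h9 : ((r : ℕ) : ℤ) ^ 2 ∣ ∑ i ∈ Finset.range r, ((B : ℤ) ^ p) ^ i := by
        have := Int.natCast_dvd_natCast.2 h7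
        rw [gs_cast] at this
        push_cast at this
        exact this
      have h10 := pow_dvd_iff_le_emultiplicity.1 h9
      rw [h8] at h10
      exact absurd h10 (by norm_num)
    · exact hm (Nat.mod_eq_zero_of_dvd hS)
  have h4 := orderOf_dvd_of_pow_eq_one h1
  obtain ⟨d1, d2, hd1, hd2, h5⟩ := (Nat.dvd_mul).1 h4
  rcases (Nat.dvd_prime hp).1 hd1 with rfl | rfl
  · exfalso
    apply h2
    rw [← orderOf_dvd_iff_pow_eq_one, ← h5, one_mul]
    exact hd2
  · rcases (Nat.dvd_prime hq).1 hd2 with rfl | rfl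
    · exfalso
      apply h3
      rw [← orderOf_dvd_iff_pow_eq_one, ← h5, mul_one]
    · exact h5.symm

theorem Nq_gt {B p q : ℕ} (hB : 2 ≤ B) (hp : p.Prime) (hq : q.Prime) (hBp : B < p) (hpq : p < q) :
    1 < Nq B p q := by
  have hco : Nat.Coprime p q := (Nat.coprime_primes hp hq).2 (by omega)
  have hSl := Sq_left hB hco hp.pos hq.pos
  have h1 : gs B q < B ^ q := by
    have := gs_spec (B := B) (by omega) q
    have h2 : gs B q * 1 ≤ gs B q * (B - 1) := Nat.mul_le_mul_left _ (by omega)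
    omega
  have h2 : B ^ (2 * q) ≤ gs (B ^ p) q := by
    have h3 : (B ^ p) ^ (q - 1) ≤ gs (B ^ p) q :=
      Finset.single_le_sum (f := fun i => (B ^ p) ^ i) (fun _ _ => Nat.zero_le _)
        (Finset.mem_range.2 (by have := hq.pos; omega))
    refine le_trans ?_ h3
    rw [← pow_mul]
    refine Nat.pow_le_pow_right (by omega) ?_
    have h5 : 3 * (q - 1) ≤ p * (q - 1) := Nat.mul_le_mul_right _ (by omega)
    omega
  have h3 : B ^ q < Sq B p q + 1 := by
    by_contra hcon
    push Not at hcon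
    have h4 : Sq B p q * gs B q ≤ (B ^ q - 1) * B ^ q := Nat.mul_le_mul (by omega) h1.le
    have h5 : 0 < B ^ q := pow_pos (by omega) _
    have h6 : (B ^ q - 1) * B ^ q < B ^ (2 * q) := by
      rw [two_mul, pow_add]
      exact Nat.mul_lt_mul_of_pos_right (by omega) h5
    omega
  have h4 : 2 * q ≤ B ^ q := by
    have h5 : 2 ^ q ≤ B ^ q := Nat.pow_le_pow_left hB _
    have h6 : q - 1 < 2 ^ (q - 1) := Nat.lt_two_pow_self
    have h7 : 2 ^ q = 2 * 2 ^ (q - 1) := by
      rw [← pow_succ']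
      congr 1
      have := hq.pos
      omega
    omega
  unfold Nq
  have hq0 := hq.two_le
  split_ifs with h
  · have : 2 ≤ Sq B p q / q := (Nat.le_div_iff_mul_le (by omega)).2 (by omega)
    omega
  · omega

theorem Nq_dvd_pow {B p q : ℕ} (hB : 2 ≤ B) (hpq : Nat.Coprime p q) (hp : 0 < p) (hq : 0 < q) :
    Nq B p q ∣ gs B (p * q) := by
  rw [← Sq_spec hB hpq hp hq]
  exact Dvd.dvd.mul_right (Nq_dvd _ _ _) _

/-! ### The polynomials -/

section poly

variable {R : Type} [CommRing R]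

theorem evalH_map_range (F : ℕ → ℕ) (m : ℕ) (z : R) :
    evalH ((List.range m).map F) z = ∑ i ∈ Finset.range m, (F i : R) * z ^ i := by
  induction m generalizing F with
  | zero => simp [evalH]
  | succ m ih =>
    rw [List.range_succ_eq_map, List.map_cons, List.map_map, Finset.sum_range_succ']
    have h1 : evalH (F 0 :: (List.range m).map (F ∘ Nat.succ)) z =
        (F 0 : R) + z * evalH ((List.range m).map (F ∘ Nat.succ)) z := rfl
    rw [h1, ih, Finset.mul_sum, pow_zero, mul_one, add_comm]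
    congr 1
    refine Finset.sum_congr rfl fun i _ => ?_
    simp only [Function.comp, Nat.succ_eq_add_one]
    ring

/-- `∑ β^(c (m - i)) z^i` -/
def VV (m : ℕ) (β : R) (c : ℕ) (z : R) : R := ∑ i ∈ Finset.range m, β ^ (c * (m - i)) * z ^ i

theorem VV_mul {m : ℕ} {β z : R} (hβ : β ^ m = 1) (hz : z ^ m = 1) (c : ℕ) :
    (z - β ^ c) * VV m β c z = 0 := by
  have h1 : (z - β ^ c) * VV m β c z = ∑ i ∈ Finset.range m,
      (β ^ (c * (m + 1 - (i + 1))) * z ^ (i + 1) - β ^ (c * (m + 1 - i)) * z ^ i) := by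
    unfold VV
    rw [Finset.mul_sum]
    refine Finset.sum_congr rfl fun i hi => ?_
    have hi := Finset.mem_range.1 hi
    have h2 : m + 1 - (i + 1) = m - i := by omega
    have h3 : m + 1 - i = m - i + 1 := by omega
    rw [h2, h3]
    ring
  rw [h1, Finset.sum_range_sub (fun i => β ^ (c * (m + 1 - i)) * z ^ i) m]
  have h4 : c * (m + 1 - 0) = m * c + c := by rw [Nat.sub_zero]; ring
  have h5 : c * (m + 1 - m) = c := by simp
  rw [h4, h5, hz, pow_add, pow_mul, hβ]
  simp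

theorem VV_self {m : ℕ} {β : R} (hβ : β ^ m = 1) (c : ℕ) : VV m β c (β ^ c) = m := by
  unfold VV
  rw [Finset.sum_congr rfl (g := fun _ => (1 : R))]
  · simp
  · intro i hi
    have hi := Finset.mem_range.1 hi
    rw [← pow_mul, ← pow_add, ← Nat.mul_add, Nat.sub_add_cancel hi.le, mul_comm, pow_mul, hβ,
      one_pow]

end poly

end Pool.Agent.N582.BS
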