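import Pool.Agent.N582.BSRed
import Pool.Agent.H671R2.PolyAuto

/-!
# Equations in one variable over one-relator groups: the reduction is computable in polynomial time
-/

set_option autoImplicit false

namespace Pool.Agent.N582.BS

open Pool.Agent.NPC Pool.Agent.H528R3.FD Pool.Agent.H528R3.FD.RedAux

section general

variable {α : Type} [TEnc α]

theorem size_mul_le (m n : ℕ) : (m * n).size ≤ m.size + n.size := by
  rw [Nat.size_le, pow_add]
  exact Nat.mul_lt_mul'' (Nat.lt_size_self m) (Nat.lt_size_self n)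

theorem poly_prod {l : α → List ℕ} (hl : NPC.Poly l) : NPC.Poly (fun a => (l a).prod) := by
  obtain ⟨r, hr⟩ := hl.sz_le
  refine (Poly.foldr (s := fun _ => 1) (F := fun _ x s => x * s) hl (NPC.Poly.const 1)
    (Poly.mul (Poly.fst (Poly.snd Poly.id)) (Poly.snd (Poly.snd Poly.id)))
    (Polynomial.C 4 * r + Polynomial.C 5) ?_).congr fun a => ?_
  · intro a k hk
    have key : ∀ l : List ℕ, (l.foldr (fun x s => x * s) 1).size ≤ sz l + 1 := by
      intro l
      induction l with
      | nil => simp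
      | cons x l ih =>
        rw [List.foldr_cons]
        set s := l.foldr (fun x s => x * s) 1
        have h1 := size_mul_le x s
        have h5 := size_le_sz x
        simp
        omega
    have h1 := sz_nat_le (((l a).drop k).foldr (fun x s => x * s) 1)
    have h2 := key ((l a).drop k)
    have h3 := Poly.sz_drop_le (l a) k
    have h4 := hr a
    simp only [Polynomial.eval_add, Polynomial.eval_mul, Polynomial.eval_C]
    omega
  · rw [List.prod_eq_foldr]

theorem upoly_min {b e : α → ℕ} (hb : UPoly b) (he : NPC.Poly e) :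
    UPoly (fun a => min (e a) (b a)) :=
  UPoly.of_le (Poly.min he hb.toPoly) hb (fun a => min_le_right _ _)

theorem poly_upow {n : α → ℕ} (hn : UPoly n) (x : ℕ) : NPC.Poly (fun a => x ^ n a) := by
  have h1 : NPC.Poly (fun a => (List.replicate (n a) ()).map (fun _ => x)) :=
    NPC.Poly.map (F := fun _ _ => x) hn (NPC.Poly.const x)
  exact (poly_prod h1).congr fun a => by simp

theorem poly_pw {c : α → ℕ} (hc : UPoly c) (B : ℕ) {e : α → ℕ} (he : NPC.Poly e) :
    NPC.Poly (fun a => pw (c a) B (e a)) := poly_upow (upoly_min hc he) B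

theorem poly_digs (B : ℕ) {n : α → ℕ} (hn : NPC.Poly n) : NPC.Poly (fun a => digs B (n a)) := by
  have hb : NPC.Poly (fun a => (n a).bits) := Poly.natBits hn
  have h1 : NPC.Poly (fun a => (List.range (n a).bits.length).map
      (fun i => n a / B ^ (min i (n a).bits.length) % B)) := by
    refine NPC.Poly.map (F := fun a i => n a / B ^ (min i (n a).bits.length) % B)
      (Poly.range_length hb) ?_
    have h2 : UPoly (fun p : α × ℕ => min p.2 (n p.1).bits.length) :=
      upoly_min (UPoly.length (hb.comp (Poly.fst Poly.id))) (Poly.snd Poly.id)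
    exact Poly.mod (Poly.div (hn.comp (Poly.fst Poly.id)) (poly_upow h2 B)) (NPC.Poly.const B)
  refine h1.congr fun a => ?_
  unfold digs
  refine List.map_congr_left fun i hi => ?_
  rw [min_eq_left (List.mem_range.1 hi).le]

variable {A : Type} [TEnc A]

theorem poly_rep (B : ℕ) {y : α → List (A × Bool)} {d : α → ℕ} (hy : NPC.Poly y)
    (hd : NPC.Poly d) : NPC.Poly (fun a => rep B (y a) (d a)) := by
  unfold rep
  refine Poly.flatMap (F := fun a i => if i < d a then y a else []) (NPC.Poly.const _) ?_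
  exact Poly.ite (p := fun p : α × ℕ => p.2 < d p.1)
    (Poly.decide_lt (Poly.snd Poly.id) (hd.comp (Poly.fst Poly.id)))
    (hy.comp (Poly.fst Poly.id)) (NPC.Poly.const [])

theorem poly_wpow (B : ℕ) (V V' : List (A × Bool)) {y : α → List (A × Bool)} {n : α → ℕ}
    (hy : NPC.Poly y) (hn : NPC.Poly n) : NPC.Poly (fun a => wpow B V V' (y a) (n a)) := by
  unfold wpow
  refine Poly.append (Poly.flatMap (F := fun a d => rep B (y a) d ++ V) (poly_digs B hn) ?_)
    (Poly.flatMap (F := fun _ _ => V') (poly_digs B hn) (NPC.Poly.const V'))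
  exact Poly.append (poly_rep B (hy.comp (Poly.fst Poly.id)) (Poly.snd Poly.id))
    (NPC.Poly.const V)

theorem poly_hor (B : ℕ) (V V' U x x' : List (A × Bool)) {cs : α → List ℕ} (hcs : NPC.Poly cs) :
    NPC.Poly (fun a => hor B V V' U x x' (cs a)) := by
  unfold hor
  refine Poly.append (Poly.flatMap (F := fun _ c => wpow B V V' U c ++ x) hcs ?_)
    (Poly.flatMap (F := fun _ _ => x') hcs (NPC.Poly.const x'))
  exact Poly.append (poly_wpow B V V' (NPC.Poly.const U) (Poly.snd Poly.id)) (NPC.Poly.const x)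

theorem poly_wfull (B : ℕ) (V V' U x x' : List (A × Bool)) {N : α → ℕ} {L : α → List (ℕ × List ℕ)}
    (hN : NPC.Poly N) (hL : NPC.Poly L) :
    NPC.Poly (fun a => wfull B V V' U x x' (N a) (L a)) := by
  have h1 : NPC.Poly (fun a => wpow B V V' (V ++ (x ++ (V' ++ x'))) (N a)) :=
    poly_wpow B V V' (y := fun _ => V ++ (x ++ (V' ++ x'))) (NPC.Poly.const _) hN
  have h2 : NPC.Poly (fun p : α × (ℕ × List ℕ) =>
      wpow B V V' (hor B V V' U (x ++ x) (x' ++ x') p.2.2) p.2.1) :=
    poly_wpow B V V' (y := fun p : α × (ℕ × List ℕ) => hor B V V' U (x ++ x) (x' ++ x') p.2.2)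
      (n := fun p : α × (ℕ × List ℕ) => p.2.1)
      (poly_hor B V V' U (x ++ x) (x' ++ x') (cs := fun p : α × (ℕ × List ℕ) => p.2.2)
        (Poly.snd (Poly.snd Poly.id)))
      (Poly.fst (Poly.snd Poly.id))
  have h3 : NPC.Poly (fun a => (L a).flatMap
      (fun p => wpow B V V' (hor B V V' U (x ++ x) (x' ++ x') p.2) p.1)) :=
    Poly.flatMap (F := fun (_ : α) (p : ℕ × List ℕ) =>
      wpow B V V' (hor B V V' U (x ++ x) (x' ++ x') p.2) p.1) hL h2
  exact Poly.append h1 h3

theorem poly_sq {c : α → ℕ} (hc : UPoly c) (B : ℕ) {e : α → ℕ × ℕ} (he : NPC.Poly e) :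
    NPC.Poly (fun a => sq (c a) B (e a)) := by
  unfold sq
  have h1 := poly_pw hc B (Poly.mul (Poly.fst he) (Poly.snd he))
  have h2 := poly_pw hc B (Poly.fst he)
  have h3 := poly_pw hc B (Poly.snd he)
  exact Poly.div (Poly.mul (Poly.sub h1 (NPC.Poly.const 1)) (NPC.Poly.const (B - 1)))
    (Poly.mul (Poly.sub h2 (NPC.Poly.const 1)) (Poly.sub h3 (NPC.Poly.const 1)))

theorem poly_md {c : α → ℕ} (hc : UPoly c) (B : ℕ) {e : α → ℕ × ℕ} (he : NPC.Poly e) :
    NPC.Poly (fun a => md (c a) B (e a)) := by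
  unfold md
  have h0 := poly_sq hc B he
  have h2 := poly_pw hc B (Poly.fst he)
  refine Poly.ite (p := fun a => (e a).2 = 0) (Poly.dec_eq (Poly.snd he) (NPC.Poly.const 0))
    (Poly.div (Poly.sub h2 (NPC.Poly.const 1)) (NPC.Poly.const (B - 1)))
    (Poly.ite (p := fun a => sq (c a) B (e a) % (e a).2 = 0)
      (Poly.dec_eq (Poly.mod h0 (Poly.snd he)) (NPC.Poly.const 0))
      (Poly.div h0 (Poly.snd he)) h0)

theorem poly_co {c : α → ℕ} (hc : UPoly c) (B : ℕ) {e : α → ℕ × ℕ} (he : NPC.Poly e) :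
    NPC.Poly (fun a => co (c a) B (e a)) := by
  unfold co
  have hm := poly_md hc B he
  refine Poly.ite (p := fun a => (e a).2 = 0) (Poly.dec_eq (Poly.snd he) (NPC.Poly.const 0))
    (Poly.cons (Poly.sub hm (NPC.Poly.const _)) (Poly.cons (NPC.Poly.const _)
      (Poly.cons (Poly.sub hm (NPC.Poly.const _)) (NPC.Poly.const [1])))) ?_
  have hpq : NPC.Poly (fun a => (e a).1 * (e a).2) := Poly.mul (Poly.fst he) (Poly.snd he)
  refine NPC.Poly.map (F := fun a i => 1 + pw (c a) B ((e a).1 * (e a).2 - i) +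
    pw (c a) B ((e a).1 * (e a).2 - i) * pw (c a) B ((e a).1 * (e a).2 - i))
    (UPoly.range (upoly_min hc hpq)) ?_
  have h3 : NPC.Poly (fun p : α × ℕ => pw (c p.1) B ((e p.1).1 * (e p.1).2 - p.2)) :=
    poly_pw (hc.comp (Poly.fst Poly.id)) B
      (Poly.sub (hpq.comp (Poly.fst Poly.id)) (Poly.snd Poly.id))
  exact Poly.add (Poly.add (NPC.Poly.const 1) h3) (Poly.mul h3 h3)

theorem poly_idx {es : α → List (ℕ × ℕ)} (hes : NPC.Poly es) :
    NPC.Poly (fun a => idx (es a)) := by
  unfold idx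
  refine poly_ddup (Poly.flatMap (F := fun _ (e : ℕ × ℕ) => [(e.1, 0), (e.2, 0), e]) hes ?_)
  have h1 : NPC.Poly (fun p : α × (ℕ × ℕ) => p.2) := Poly.snd Poly.id
  exact Poly.cons (Poly.pair (Poly.fst h1) (NPC.Poly.const 0))
    (Poly.cons (Poly.pair (Poly.snd h1) (NPC.Poly.const 0)) (Poly.cons h1 (NPC.Poly.const [])))

theorem poly_NN {c : α → ℕ} (hc : UPoly c) (B : ℕ) {es : α → List (ℕ × ℕ)} (hes : NPC.Poly es) :
    NPC.Poly (fun a => NN (c a) B (es a)) := by
  unfold NN
  refine poly_prod (NPC.Poly.map (F := fun a e => md (c a) B e) (poly_idx hes) ?_)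
  exact poly_md (hc.comp (Poly.fst Poly.id)) B (Poly.snd Poly.id)

theorem poly_LL {c : α → ℕ} (hc : UPoly c) (B : ℕ) {es : α → List (ℕ × ℕ)} (hes : NPC.Poly es) :
    NPC.Poly (fun a => LL (c a) B (es a)) := by
  unfold LL
  refine NPC.Poly.map (F := fun a e => ((B - 1) * (NN (c a) B (es a) / md (c a) B e),
    co (c a) B e)) (poly_idx hes) ?_
  have hc' : UPoly (fun p : α × (ℕ × ℕ) => c p.1) := hc.comp (Poly.fst Poly.id)
  have he : NPC.Poly (fun p : α × (ℕ × ℕ) => p.2) := Poly.snd Poly.id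
  exact Poly.pair (Poly.mul (NPC.Poly.const (B - 1))
    (Poly.div ((poly_NN hc B hes).comp (Poly.fst Poly.id)) (poly_md hc' B he)))
    (poly_co hc' B he)

theorem poly_word {n : ℕ} (v u : FreeGroup (Fin n)) (B : ℕ) {c : α → ℕ} (hc : UPoly c)
    {es : α → List (ℕ × ℕ)} (hes : NPC.Poly es) :
    NPC.Poly (fun a => word v u B (c a) (es a)) := by
  unfold word
  exact poly_wfull B _ _ _ _ _ (poly_NN hc B hes) (poly_LL hc B hes)

end general

/-! ### From graphs to admissible lists of edges -/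

/-- The bound for the primes. -/
noncomputable def bdB (B : ℕ) (E : List (ℕ × ℕ)) : ℕ := ((verts E).length + (B + 1) + 2) ^ KK

/-- The list of the admissible primes. -/
noncomputable def primesB (B : ℕ) (E : List (ℕ × ℕ)) : List ℕ :=
  (primesUpTo (bdB B E)).filter (fun p => decide (B < p))

/-- The prime attached to a vertex. -/
noncomputable def namB (B : ℕ) (E : List (ℕ × ℕ)) (x : ℕ) : ℕ :=
  (primesB B E).getD ((verts E).idxOf x) 0

/-- The admissible list of edges attached to a graph. -/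
noncomputable def redB (B : ℕ) (E : List (ℕ × ℕ)) : List (ℕ × ℕ) :=
  ddup (E.map (fun e => ordP (namB B E e.1, namB B E e.2)))

theorem le_length_primesB (B : ℕ) (E : List (ℕ × ℕ)) :
    (verts E).length ≤ (primesB B E).length := by
  have h1 := le_length ((verts E).length + (B + 1))
  have h2 := List.length_eq_length_filter_add (l := primesUpTo (bdB B E)) (fun p => decide (B < p))
  have h3 : ((primesUpTo (bdB B E)).filter (fun p => !decide (B < p))).length ≤ B + 1 := by
    have hn : ((primesUpTo (bdB B E)).filter (fun p => !decide (B < p))).Nodup :=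
      (nodup_primesUpTo _).filter _
    have hs : ((primesUpTo (bdB B E)).filter (fun p => !decide (B < p))) ⊆ List.range (B + 1) := by
      intro p hp
      have := (List.mem_filter.1 hp).2
      simp only [Bool.not_eq_true', decide_eq_false_iff_not, not_lt] at this
      exact List.mem_range.2 (by omega)
    have := (hn.subperm hs).length_le
    rwa [List.length_range] at this
  have h4 : (primesUpTo (bdB B E)).length =
      (primesB B E).length + ((primesUpTo (bdB B E)).filter (fun p => !decide (B < p))).length := h2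
  have h5 : (primesUpTo (((verts E).length + (B + 1) + 2) ^ KK)).length =
      (primesUpTo (bdB B E)).length := rfl
  omega

theorem mem_primesB {B : ℕ} {E : List (ℕ × ℕ)} {p : ℕ} (hp : p ∈ primesB B E) :
    p.Prime ∧ B < p ∧ p < bdB B E := by
  unfold primesB at hp
  obtain ⟨h1, h2⟩ := List.mem_filter.1 hp
  obtain ⟨h3, h4⟩ := mem_primesUpTo.1 h1
  exact ⟨h4.1, by simpa using h2, h3⟩

theorem nodup_primesB (B : ℕ) (E : List (ℕ × ℕ)) : (primesB B E).Nodup :=
  (nodup_primesUpTo _).filter _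

theorem idxB_lt {B : ℕ} {E : List (ℕ × ℕ)} {x : ℕ} (hx : x ∈ verts E) :
    (verts E).idxOf x < (primesB B E).length :=
  (List.idxOf_lt_length_of_mem hx).trans_le (le_length_primesB B E)

theorem namB_eq {B : ℕ} {E : List (ℕ × ℕ)} {x : ℕ} (hx : x ∈ verts E) :
    namB B E x = (primesB B E)[(verts E).idxOf x]'(idxB_lt hx) := by
  unfold namB
  rw [List.getD_eq_getElem _ _ (idxB_lt hx)]

theorem namB_mem {B : ℕ} {E : List (ℕ × ℕ)} {x : ℕ} (hx : x ∈ verts E) :
    namB B E x ∈ primesB B E := by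
  rw [namB_eq hx]
  exact List.getElem_mem _

theorem namB_inj {B : ℕ} {E : List (ℕ × ℕ)} {x y : ℕ} (hx : x ∈ verts E) (hy : y ∈ verts E)
    (h : namB B E x = namB B E y) : x = y := by
  rw [namB_eq hx, namB_eq hy, (nodup_primesB _ _).getElem_inj_iff] at h
  exact (List.idxOf_inj hx).1 h

theorem mem_redB {B : ℕ} {E : List (ℕ × ℕ)} {a : ℕ × ℕ} :
    a ∈ redB B E ↔ ∃ e ∈ E, ordP (namB B E e.1, namB B E e.2) = a := by
  unfold redB
  rw [mem_ddup, List.mem_map]

/-- The bound for the exponents. -/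
noncomputable def capB (B : ℕ) (E : List (ℕ × ℕ)) : ℕ := bdB B E * bdB B E

theorem redB_good {B : ℕ} {E : List (ℕ × ℕ)} (h : H692R2.Loopless E) :
    GE (capB B E) B (redB B E) := by
  intro a ha
  obtain ⟨e, he, rfl⟩ := mem_redB.1 ha
  obtain ⟨hv1, hv2⟩ := mem_verts he
  obtain ⟨p1, b1, c1⟩ := mem_primesB (namB_mem (B := B) hv1)
  obtain ⟨p2, b2, c2⟩ := mem_primesB (namB_mem (B := B) hv2)
  have hne : namB B E e.1 ≠ namB B E e.2 := fun hc => h e he (namB_inj hv1 hv2 hc)
  unfold ordP capB
  simp only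
  split_ifs with hlt
  · exact ⟨p1, p2, b1, hlt, Nat.mul_le_mul c1.le c2.le⟩
  · exact ⟨p2, p1, b2, by simp only; omega, Nat.mul_le_mul c2.le c1.le⟩

theorem redB_col {B : ℕ} {E : List (ℕ × ℕ)} : H692R2.Col 3 E ↔ Col3 (redB B E) := by
  classical
  constructor
  · rintro ⟨c, hc⟩
    let c' : ℕ → Fin 3 := fun p =>
      if hx : ∃ x ∈ verts E, namB B E x = p then c (Classical.choose hx) else 0
    have hc' : ∀ x ∈ verts E, c' (namB B E x) = c x := by
      intro x hx
      have h1 : ∃ y ∈ verts E, namB B E y = namB B E x := ⟨x, hx, rfl⟩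
      simp only [c']
      rw [dif_pos h1]
      have h2 := Classical.choose_spec h1
      rw [namB_inj h2.1 hx h2.2]
    refine ⟨c', fun a ha => ?_⟩
    obtain ⟨e, he, rfl⟩ := mem_redB.1 ha
    obtain ⟨hv1, hv2⟩ := mem_verts he
    unfold ordP
    simp only
    split_ifs with hlt
    · simp only
      rw [hc' _ hv1, hc' _ hv2]
      exact hc e he
    · simp only
      rw [hc' _ hv1, hc' _ hv2]
      exact (hc e he).symm
  · rintro ⟨c, hc⟩
    refine ⟨fun x => c (namB B E x), fun e he => ?_⟩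
    have h1 := hc _ (mem_redB.2 ⟨e, he, rfl⟩)
    unfold ordP at h1
    simp only at h1
    split_ifs at h1 with hlt
    · exact h1
    · exact h1.symm

theorem upoly_bdB (B : ℕ) : UPoly (bdB B) := by
  have h := UPoly.eval (UPoly.length poly_verts) ((Polynomial.X + Polynomial.C (B + 3)) ^ KK)
  refine NPC.Poly.congr h fun E => ?_
  simp only [Polynomial.eval_pow, Polynomial.eval_add, Polynomial.eval_X, Polynomial.eval_C, bdB]
  rfl

theorem poly_primesUpTo {α : Type} [TEnc α] {b : α → ℕ} (hb : UPoly b) :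
    NPC.Poly (fun a => primesUpTo (b a)) := by
  have h : NPC.Poly (fun a => (List.range (b a)).filter (fun p => tst (b a) p)) := by
    refine Poly.filter (p := fun a p => tst (b a) p) hb.range ?_
    unfold tst
    refine Poly.and (Poly.decide_eq (Poly.mod (Poly.snd Poly.id) (NPC.Poly.const 40))
      (NPC.Poly.const 3)) (Poly.and (Poly.decide_le (NPC.Poly.const 43) (Poly.snd Poly.id)) ?_)
    refine Poly.all (p := fun (x : α × ℕ) (m : ℕ) =>
      !(decide (2 ≤ m) && (decide (m < x.2) && decide (x.2 % m = 0))))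
      (hb.range.comp (Poly.fst Poly.id)) ?_
    refine Poly.not (Poly.and (Poly.decide_le (NPC.Poly.const 2) (Poly.snd Poly.id))
      (Poly.and (Poly.decide_lt (Poly.snd Poly.id) (Poly.snd (Poly.fst Poly.id)))
        (Poly.decide_eq (Poly.mod (Poly.snd (Poly.fst Poly.id)) (Poly.snd Poly.id))
          (NPC.Poly.const 0))))
  refine h.congr fun a => ?_
  unfold primesUpTo
  refine List.filter_congr fun p hp => ?_
  exact tst_eq (List.mem_range.1 hp)

theorem poly_primesB (B : ℕ) : NPC.Poly (primesB B) := by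
  unfold primesB
  exact Poly.filter (p := fun (_ : List (ℕ × ℕ)) (p : ℕ) => decide (B < p))
    (poly_primesUpTo (upoly_bdB B)) (Poly.decide_lt (NPC.Poly.const B) (Poly.snd Poly.id))

theorem poly_namB (B : ℕ) {α : Type} [TEnc α] {E : α → List (ℕ × ℕ)} {x : α → ℕ}
    (hE : NPC.Poly E) (hx : NPC.Poly x) : NPC.Poly (fun a => namB B (E a) (x a)) :=
  Poly.getD ((poly_primesB B).comp hE) (poly_idxOf (poly_verts.comp hE) hx) (NPC.Poly.const 0)

theorem poly_redB (B : ℕ) : NPC.Poly (redB B) := by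
  unfold redB
  refine poly_ddup (NPC.Poly.map (F := fun (E : List (ℕ × ℕ)) (e : ℕ × ℕ) =>
    ordP (namB B E e.1, namB B E e.2)) Poly.id ?_)
  have h1 : NPC.Poly (fun p : List (ℕ × ℕ) × (ℕ × ℕ) => namB B p.1 p.2.1) :=
    poly_namB B (Poly.fst Poly.id) (Poly.fst (Poly.snd Poly.id))
  have h2 : NPC.Poly (fun p : List (ℕ × ℕ) × (ℕ × ℕ) => namB B p.1 p.2.2) :=
    poly_namB B (Poly.fst Poly.id) (Poly.snd (Poly.snd Poly.id))
  unfold ordP
  exact Poly.ite (p := fun p : List (ℕ × ℕ) × (ℕ × ℕ) => namB B p.1 p.2.1 < namB B p.1 p.2.2)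
    (Poly.decide_lt h1 h2) (Poly.pair h1 h2) (Poly.pair h2 h1)

theorem upoly_capB (B : ℕ) : UPoly (capB B) := (upoly_bdB B).mul (upoly_bdB B)

/-! ### The theorem -/

theorem hard {β : ℤ} (hβ : 2 ≤ |β|) {n : ℕ} (r : FreeGroup (Fin n))
    (ι : BS1 β →* OneRel r) (ρ : OneRel r →* BS1 β) (h : ρ.comp ι = MonoidHom.id (BS1 β)) :
    NPHardP (OneVarEq r) := by
  obtain ⟨u, hu⟩ := PresentedGroup.mk_surjective {r} (ι (PresentedGroup.of 0))
  obtain ⟨v, hv⟩ := PresentedGroup.mk_surjective {r} (ι (PresentedGroup.of 1))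
  have h1 := H692R2.hardPr_col3.trans (Pr' := fun _ => True) (Q := OneVarEq r)
    (poly_word v u (bas β) (upoly_capB (bas β)) (poly_redB (bas β))) (fun _ _ => trivial)
    (fun E hE => by
      rw [redB_col (B := bas β), red_iff hβ r ι ρ h u v hu hv (redB_good hE)])
  exact h1.toHardI.toNPHardP

/-- The inclusion of `BS(1, β)` into its free product with a free group. -/
def incl (β : ℤ) (m : ℕ) : BS1 β →* OneRel (relBS β m) :=
  PresentedGroup.toGroup
    (f := fun i : Fin (0 + 2) => if i = 0 then PresentedGroup.of 0 else PresentedGroup.of 1) (by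
      intro x hx
      rw [Set.mem_singleton_iff] at hx
      subst hx
      have h2 : PresentedGroup.mk {relBS β m} (relBS β m) = 1 :=
        PresentedGroup.one_of_mem (Set.mem_singleton _)
      unfold relBS at h2 ⊢
      simp only [map_mul, map_inv, map_zpow, FreeGroup.lift_apply_of] at h2 ⊢
      exact h2)

/-- The retraction which kills the further generators. -/
def retr (β : ℤ) (m : ℕ) : OneRel (relBS β m) →* BS1 β :=
  PresentedGroup.toGroup
    (f := fun i : Fin (m + 2) => if i = 0 then PresentedGroup.of 0 else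
      if i = 1 then PresentedGroup.of 1 else 1) (by
      intro x hx
      rw [Set.mem_singleton_iff] at hx
      subst hx
      have h2 : PresentedGroup.mk {relBS β 0} (relBS β 0) = 1 :=
        PresentedGroup.one_of_mem (Set.mem_singleton _)
      unfold relBS at h2 ⊢
      simp only [map_mul, map_inv, map_zpow, FreeGroup.lift_apply_of] at h2 ⊢
      have e1 : (1 : Fin (m + 2)) ≠ 0 := by simp
      simp only [if_true, if_neg e1]
      exact h2)

theorem retr_incl (β : ℤ) (m : ℕ) : (retr β m).comp (incl β m) = MonoidHom.id (BS1 β) := by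
  apply PresentedGroup.ext
  intro j
  have hj : j = 0 ∨ j = 1 := by
    rcases j with ⟨j, hj⟩
    rcases (by omega : j = 0 ∨ j = 1) with rfl | rfl
    · exact Or.inl rfl
    · exact Or.inr rfl
  rcases hj with rfl | rfl
  · simp only [MonoidHom.comp_apply, incl, PresentedGroup.toGroup.of, if_true, retr,
      MonoidHom.id_apply]
  · simp only [MonoidHom.comp_apply, incl, PresentedGroup.toGroup.of, retr, MonoidHom.id_apply]
    simp

theorem hard_BS {β : ℤ} (hβ : 2 ≤ |β|) (m : ℕ) : NPHardP (OneVarEq (relBS β m)) :=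
  hard hβ _ (incl β m) (retr β m) (retr_incl β m)

end Pool.Agent.N582.BS
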