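import Pool.Agent.N582.BSSys

/-!
# Equations in one variable over one-relator groups: correctness of the reduction
-/

set_option autoImplicit false

namespace Pool.Agent.N582.BS

open Pool.Agent.H528R3.FD

/-- The base of the digits. -/
def bas (β : ℤ) : ℕ := β.natAbs ^ 2

theorem bas_cast (β : ℤ) : ((bas β : ℕ) : ℤ) = β * β := by
  unfold bas
  rw [Nat.cast_pow, Int.natCast_natAbs, sq_abs, pow_two]

theorem bas_ge {β : ℤ} (hβ : 2 ≤ |β|) : 4 ≤ bas β := by
  unfold bas
  have h1 : 2 ≤ β.natAbs := by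
    rw [Int.abs_eq_natAbs] at hβ
    omega
  calc 4 = 2 ^ 2 := by norm_num
    _ ≤ _ := Nat.pow_le_pow_left h1 2

/-- The word of the reduction. -/
def word {n : ℕ} (v u : FreeGroup (Fin n)) (B c : ℕ) (es : List (ℕ × ℕ)) :
    List (Option (Fin n) × Bool) :=
  wfull B (wd (v * v)) (wd (v * v)⁻¹) (wd u) [(none, true)] [(none, false)] (NN c B es) (LL c B es)

/-! ### Completeness -/

section complete

variable {G : Type} [Group G] {β : ℤ} {A τ : G}

theorem conj_one (h : τ * A * τ⁻¹ = A ^ β) (x : ℤ) : τ * A ^ x = A ^ (β * x) * τ := by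
  have h1 : τ * A ^ x * τ⁻¹ = A ^ (β * x) := by
    rw [← conj_zpow, h, zpow_mul]
  rw [← h1]
  group

theorem conj_pow' (h : τ * A * τ⁻¹ = A ^ β) (k : ℕ) (x : ℤ) :
    τ ^ k * A ^ x = A ^ (β ^ k * x) * τ ^ k := by
  induction k generalizing x with
  | zero => simp
  | succ k ih =>
    rw [pow_succ τ, mul_assoc, conj_one h, ← mul_assoc, ih, mul_assoc]
    congr 2
    ring

theorem act_complete (h : τ * A * τ⁻¹ = A ^ β) (k : ℕ) (y : ℤ) :
    Act (bas β) (fun x : ℤ => A ^ x) (τ * τ) (A ^ y * τ ^ k) (β ^ k)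
      ((((bas β : ℕ) : ℤ) - 1) * y) := by
  have hτ2 : ∀ x : ℤ, τ * τ * A ^ x = A ^ (β * β * x) * (τ * τ) := by
    intro x
    rw [mul_assoc τ τ, conj_one h, ← mul_assoc, conj_one h, mul_assoc, mul_assoc β β]
  constructor
  · intro x y
    exact zpow_add _ _ _
  · intro x
    rw [bas_cast]
    exact hτ2 x
  · intro x
    rw [mul_assoc, conj_pow' h, ← mul_assoc, ← mul_assoc, ← zpow_add, ← zpow_add, add_comm]
  · rw [← mul_assoc (τ * τ), hτ2 y, bas_cast]
    have h1 : A ^ (β * β * y) * (τ * τ) * τ ^ k * (τ * τ)⁻¹ * (A ^ y * τ ^ k)⁻¹ =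
        A ^ (β * β * y) * ((τ * τ) * τ ^ k * (τ * τ)⁻¹ * (τ ^ k)⁻¹) * (A ^ y)⁻¹ := by
      group
    have h2 : (τ * τ) * τ ^ k * (τ * τ)⁻¹ * (τ ^ k)⁻¹ = 1 := by
      have h3 : (τ * τ) * τ ^ k = τ ^ k * (τ * τ) := by
        rw [← pow_two, ← pow_add, ← pow_add, add_comm]
      rw [h3]
      group
    rw [h1, h2, mul_one, ← zpow_neg, ← zpow_add]
    congr 1
    ring

end complete

theorem red_complete {β : ℤ} (hβ : 2 ≤ |β|) {n : ℕ} (r : FreeGroup (Fin n))
    (u v : FreeGroup (Fin n))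
    (h : (PresentedGroup.mk {r} v) * (PresentedGroup.mk {r} u) * (PresentedGroup.mk {r} v)⁻¹ =
      (PresentedGroup.mk {r} u) ^ β) {c : ℕ} {es : List (ℕ × ℕ)} (hes : GE c (bas β) es)
    (hc : Col3 es) : OneVarEq r (word v u (bas β) c es) := by
  have hB := bas_ge hβ
  obtain ⟨k, hk⟩ := sys_complete hB hes hc
  obtain ⟨y, hy⟩ := eq_complete hB hes hk
  have hact := act_complete h k y
  refine ⟨(PresentedGroup.mk {r} u) ^ y * (PresentedGroup.mk {r} v) ^ k, ?_⟩
  have e1 := evalAt_wd r ((PresentedGroup.mk {r} u) ^ y * (PresentedGroup.mk {r} v) ^ k) (v * v)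
  have e2 := evalAt_wd r ((PresentedGroup.mk {r} u) ^ y * (PresentedGroup.mk {r} v) ^ k) (v * v)⁻¹
  have e3 := evalAt_wd r ((PresentedGroup.mk {r} u) ^ y * (PresentedGroup.mk {r} v) ^ k) u
  rw [map_mul] at e1
  rw [map_inv, map_mul] at e2
  have e3' : evalAt r ((PresentedGroup.mk {r} u) ^ y * (PresentedGroup.mk {r} v) ^ k) (wd u) =
      (PresentedGroup.mk {r} u) ^ (1 : ℤ) := by
    rw [e3, zpow_one]
  unfold evalAt at e1 e2 e3' ⊢
  unfold word
  have e4 := hact.ev_wfull (by omega) e1 e2 e3' (x := [(none, true)]) (x' := [(none, false)])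
    (by simp [ev]) (by simp [ev]) (NN c (bas β) es) (LL c (bas β) es)
  rw [e4]
  have h5 : β ^ k * β ^ k = ((bas β : ℕ) : ℤ) ^ k := by
    rw [bas_cast, mul_pow]
  rw [h5, hy, zpow_zero]


/-! ### Soundness -/

section sound

variable {β : ℤ} {r : ℕ}

/-- The generators of the affine group over `ZMod r`. -/
def affGen (r : ℕ) (m : ℕ) (U : (ZMod r)ˣ) (i : Fin (m + 2)) : Equiv.Perm (ZMod r) :=
  if i = 0 then Equiv.addRight 1 else if i = 1 then Units.mulLeft U else 1

theorem addRight_mul (x y : ZMod r) :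
    (Equiv.addRight (x + y) : Equiv.Perm (ZMod r)) = Equiv.addRight x * Equiv.addRight y := by
  ext z
  simp only [Equiv.coe_addRight, Equiv.Perm.coe_mul, Function.comp]
  ring

theorem addRight_zpow (x : ZMod r) (k : ℤ) :
    (Equiv.addRight x : Equiv.Perm (ZMod r)) ^ k = Equiv.addRight ((k : ZMod r) * x) := by
  let φ : Multiplicative (ZMod r) →* Equiv.Perm (ZMod r) :=
    MonoidHom.mk' (fun a => Equiv.addRight (Multiplicative.toAdd a)) (fun a b => addRight_mul _ _)
  have h1 : φ (Multiplicative.ofAdd x) = Equiv.addRight x := rfl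
  rw [← h1, ← map_zpow, ← ofAdd_zsmul]
  have h2 : φ (Multiplicative.ofAdd (k • x)) = Equiv.addRight (k • x) := rfl
  rw [h2, zsmul_eq_mul]

/-- The homomorphism from `BS(1, β)` to the affine group over `ZMod r`. -/
def affHom (U : (ZMod r)ˣ) (hU : (U : ZMod r) = (β : ZMod r)) :
    BS1 β →* Equiv.Perm (ZMod r) :=
  PresentedGroup.toGroup (f := affGen r 0 U) (by
    intro x hx
    rw [Set.mem_singleton_iff] at hx
    subst hx
    have h0 : affGen r 0 U 0 = Equiv.addRight 1 := rfl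
    have h1 : affGen r 0 U 1 = Units.mulLeft U := rfl
    unfold relBS
    simp only [map_mul, map_inv, map_zpow, FreeGroup.lift_apply_of, h0, h1]
    rw [mul_inv_eq_one, addRight_zpow]
    ext z
    simp only [Equiv.Perm.coe_mul, Function.comp, Equiv.coe_addRight, Units.mulLeft_apply,
      mul_one]
    have h2 : ((Units.mulLeft U)⁻¹ : Equiv.Perm (ZMod r)) z = ((U⁻¹ : (ZMod r)ˣ) : ZMod r) * z := rfl
    rw [h2, mul_add, ← mul_assoc, Units.mul_inv, one_mul, mul_one, hU])

/-- The exponent sum of `t`. -/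
def expHom (β : ℤ) : BS1 β →* Multiplicative ℤ :=
  PresentedGroup.toGroup (f := fun i : Fin (0 + 2) => if i = 0 then 1 else Multiplicative.ofAdd 1)
    (by
      intro x hx
      rw [Set.mem_singleton_iff] at hx
      subst hx
      unfold relBS
      simp)

theorem affHom_zero (U : (ZMod r)ˣ) (hU : (U : ZMod r) = (β : ZMod r)) :
    affHom U hU (PresentedGroup.of 0) = Equiv.addRight 1 := by
  unfold affHom
  rw [PresentedGroup.toGroup.of]
  rfl

theorem affHom_one (U : (ZMod r)ˣ) (hU : (U : ZMod r) = (β : ZMod r)) :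
    affHom U hU (PresentedGroup.of 1) = Units.mulLeft U := by
  unfold affHom
  rw [PresentedGroup.toGroup.of]
  rfl

theorem expHom_zero : expHom β (PresentedGroup.of 0) = 1 := by
  unfold expHom
  rw [PresentedGroup.toGroup.of]
  rfl

theorem expHom_one : expHom β (PresentedGroup.of 1) = Multiplicative.ofAdd 1 := by
  unfold expHom
  rw [PresentedGroup.toGroup.of]
  rfl

/-- the maps are affine, with the exponent sum as exponent of the linear part -/
theorem affHom_spec (U : (ZMod r)ˣ) (hU : (U : ZMod r) = (β : ZMod r)) (g : BS1 β) :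
    ∃ y : ZMod r, ∀ z, affHom U hU g z =
      ((U ^ (Multiplicative.toAdd (expHom β g)) : (ZMod r)ˣ) : ZMod r) * z + y := by
  let H : Subgroup (BS1 β) :=
    { carrier := {g | ∃ y : ZMod r, ∀ z, affHom U hU g z =
        ((U ^ (Multiplicative.toAdd (expHom β g)) : (ZMod r)ˣ) : ZMod r) * z + y}
      one_mem' := ⟨0, fun z => by simp⟩
      mul_mem' := by
        rintro a b ⟨ya, ha⟩ ⟨yb, hb⟩
        refine ⟨((U ^ (Multiplicative.toAdd (expHom β a)) : (ZMod r)ˣ) : ZMod r) * yb + ya,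
          fun z => ?_⟩
        rw [map_mul, map_mul, Equiv.Perm.mul_apply, hb, ha, toAdd_mul, zpow_add, Units.val_mul]
        ring
      inv_mem' := by
        rintro a ⟨ya, ha⟩
        refine ⟨-(((U ^ (Multiplicative.toAdd (expHom β a)))⁻¹ : (ZMod r)ˣ) : ZMod r) * ya,
          fun z => ?_⟩
        rw [map_inv, map_inv, Equiv.Perm.inv_eq_iff_eq, ha, toAdd_inv, zpow_neg]
        rw [mul_add, ← mul_assoc, Units.mul_inv, one_mul, ← mul_assoc, mul_neg, Units.mul_inv]
        ring }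
  have h1 : ∀ j : Fin (0 + 2), PresentedGroup.of j ∈ H := by
    intro j
    have hj : j = 0 ∨ j = 1 := by
      rcases j with ⟨j, hj⟩
      rcases (by omega : j = 0 ∨ j = 1) with rfl | rfl
      · exact Or.inl rfl
      · exact Or.inr rfl
    rcases hj with rfl | rfl
    · refine ⟨1, fun z => ?_⟩
      rw [affHom_zero, expHom_zero]
      simp
    · refine ⟨0, fun z => ?_⟩
      rw [affHom_one, expHom_one]
      simp
  exact PresentedGroup.generated_by _ H h1 g

theorem act_sound (U : (ZMod r)ˣ) (hU : (U : ZMod r) = (β : ZMod r)) (g : BS1 β) :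
    ∃ y : ZMod r, Act (bas β) (fun x : ZMod r => (Equiv.addRight x : Equiv.Perm (ZMod r)))
      (affHom U hU (PresentedGroup.of 1 * PresentedGroup.of 1)) (affHom U hU g)
      ((U ^ (Multiplicative.toAdd (expHom β g)) : (ZMod r)ˣ) : ZMod r) y := by
  obtain ⟨y, hy⟩ := affHom_spec U hU g
  have hb : ((bas β : ℕ) : ZMod r) = (β : ZMod r) * β := by
    have := congrArg (Int.cast (R := ZMod r)) (bas_cast β)
    push_cast at this
    exact this
  refine ⟨(β * β - 1) * y, ?_, ?_, ?_, ?_⟩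
  · intro x y
    exact addRight_mul x y
  · intro x
    ext z
    rw [map_mul, affHom_one, hb]
    simp only [Equiv.Perm.coe_mul, Function.comp, Equiv.coe_addRight, Units.mulLeft_apply, hU]
    ring
  · intro x
    ext z
    simp only [Equiv.Perm.coe_mul, Function.comp, Equiv.coe_addRight, hy]
    ring
  · rw [mul_inv_eq_iff_eq_mul, mul_inv_eq_iff_eq_mul]
    ext z
    rw [map_mul, affHom_one]
    simp only [Equiv.Perm.coe_mul, Function.comp, Equiv.coe_addRight, Units.mulLeft_apply, hy, hU]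
    ring

end sound

theorem red_sound {β : ℤ} (hβ : 2 ≤ |β|) {n : ℕ} (r : FreeGroup (Fin n))
    (u v : FreeGroup (Fin n)) (ρ : OneRel r →* BS1 β)
    (hu : ρ (PresentedGroup.mk {r} u) = PresentedGroup.of 0)
    (hv : ρ (PresentedGroup.mk {r} v) = PresentedGroup.of 1)
    {c : ℕ} {es : List (ℕ × ℕ)} (hes : GE c (bas β) es)
    (h : OneVarEq r (word v u (bas β) c es)) : Col3 es := by
  have hB := bas_ge hβ
  obtain ⟨g, hg⟩ := h
  refine sys_sound (k := Multiplicative.toAdd (expHom β (ρ g))) hB hes fun e he => ?_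
  have hGI := GI_of_mem hes he
  obtain ⟨p, hp, hpd⟩ := Nat.exists_prime_and_dvd (md_gt hB hGI).ne'
  have := Fact.mk hp
  have hb : ((bas β : ℕ) : ZMod p) = (β : ZMod p) * β := by
    have := congrArg (Int.cast (R := ZMod p)) (bas_cast β)
    push_cast at this
    exact this
  have hB0 : ((bas β : ℕ) : ZMod p) ≠ 0 := ne_zero_of_pow (om_pos hGI).ne' (pow_om hB hGI hpd)
  have hβ0 : (β : ZMod p) ≠ 0 := by
    intro h0
    rw [hb, h0, mul_zero] at hB0
    exact hB0 rfl
  let U : (ZMod p)ˣ := Units.mk0 (β : ZMod p) hβ0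
  have hU : (U : ZMod p) = (β : ZMod p) := rfl
  obtain ⟨y, hact⟩ := act_sound U hU (ρ g)
  let φ : OneRel r →* Equiv.Perm (ZMod p) := (affHom U hU).comp ρ
  have e1 := congrArg φ (evalAt_wd r g (v * v))
  have e2 := congrArg φ (evalAt_wd r g (v * v)⁻¹)
  have e3 := congrArg φ (evalAt_wd r g u)
  have e5 := congrArg φ hg
  have k1 : φ (PresentedGroup.mk {r} (v * v)) =
      affHom U hU (PresentedGroup.of 1 * PresentedGroup.of 1) := by
    simp only [φ, MonoidHom.comp_apply, map_mul, hv]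
  have k2 : φ (PresentedGroup.mk {r} (v * v)⁻¹) =
      (affHom U hU (PresentedGroup.of 1 * PresentedGroup.of 1))⁻¹ := by
    rw [map_inv, map_inv, k1]
  have k3 : φ (PresentedGroup.mk {r} u) = Equiv.addRight 1 := by
    simp only [φ, MonoidHom.comp_apply, hu, affHom_zero]
  rw [k1] at e1
  rw [k2] at e2
  rw [k3] at e3
  unfold evalAt at e1 e2 e3 e5
  rw [ev_hom] at e1 e2 e3 e5
  unfold word at e5
  have e4 := hact.ev_wfull (by omega) e1 e2 e3 (x := [(none, true)]) (x' := [(none, false)])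
    (by simp [ev, φ]) (by simp [ev, φ]) (NN c (bas β) es) (LL c (bas β) es)
  rw [e5, map_one] at e4
  have e6 := congrArg (fun π : Equiv.Perm (ZMod p) => π 0) e4
  simp only [Equiv.Perm.one_apply, Equiv.coe_addRight, zero_add] at e6
  have e7 := eq_sound hB hes he hp hpd _ y e6.symm
  have e8 : ((U ^ (Multiplicative.toAdd (expHom β (ρ g))) : (ZMod p)ˣ) : ZMod p) *
      ((U ^ (Multiplicative.toAdd (expHom β (ρ g))) : (ZMod p)ˣ) : ZMod p) =
      (((U * U) ^ (Multiplicative.toAdd (expHom β (ρ g))) : (ZMod p)ˣ) : ZMod p) := by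
    rw [← Units.val_mul, mul_zpow]
  rw [e8] at e7
  refine sound hB hGI hp hpd (U * U) ?_ _ e7
  rw [Units.val_mul, hU, hb]

theorem red_iff {β : ℤ} (hβ : 2 ≤ |β|) {n : ℕ} (r : FreeGroup (Fin n))
    (ι : BS1 β →* OneRel r) (ρ : OneRel r →* BS1 β) (h : ρ.comp ι = MonoidHom.id (BS1 β))
    (u v : FreeGroup (Fin n)) (hu : PresentedGroup.mk {r} u = ι (PresentedGroup.of 0))
    (hv : PresentedGroup.mk {r} v = ι (PresentedGroup.of 1))
    {c : ℕ} {es : List (ℕ × ℕ)} (hes : GE c (bas β) es) :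
    OneVarEq r (word v u (bas β) c es) ↔ Col3 es := by
  have h1 : ∀ x, ρ (ι x) = x := fun x => by
    have := DFunLike.congr_fun h x
    simpa using this
  constructor
  · exact red_sound hβ r u v ρ (by rw [hu, h1]) (by rw [hv, h1]) hes
  · refine red_complete hβ r u v ?_ hes
    rw [hu, hv, ← map_inv, ← map_mul, ← map_mul, ← map_zpow]
    congr 1
    have h2 : PresentedGroup.mk {relBS β 0} (relBS β 0) = 1 :=
      PresentedGroup.one_of_mem (Set.mem_singleton _)
    unfold relBS at h2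
    simp only [map_mul, map_inv, map_zpow] at h2
    exact mul_inv_eq_one.1 h2

end Pool.Agent.N582.BS
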