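import Pool.Agent.N582.BSAff

/-!
# Equations in one variable over `BS(1, β)`: arithmetic form
-/

set_option autoImplicit false

namespace Pool.Agent.N582.BS

/-- a default letter -/
abbrev l0 : Let := (none, true)

/-- the (shifted) exponent of `β` before the `i`-th letter -/
def cN (w : List Let) (i : ℕ) : ℕ :=
  w.length + (w.take i).count (some 1, true) - (w.take i).count (some 1, false)

/-- the (shifted) exponent of `z` before the `i`-th letter -/
def eN (w : List Let) (i : ℕ) : ℕ :=
  w.length + (w.take i).count (none, true) - (w.take i).count (none, false)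

/-- sign of an occurrence of the variable -/
def sX (l : Let) : ℤ := if l.1 = none then (if l.2 = true then 1 else -1) else 0

/-- sign of an occurrence of `a` -/
def sA (l : Let) : ℤ := if l.1 = some 0 then (if l.2 = true then 1 else -1) else 0

/-- the exponent of `z` which belongs to an occurrence of the variable -/
def iX (w : List Let) (i : ℕ) : ℕ := if (w.getD i l0).2 = true then i else i + 1

/-- the coefficient of `u` -/
def PV {R : Type} [CommRing R] (β : ℤ) (w : List Let) (z : R) : R :=
  ∑ i ∈ Finset.range w.length, ((sX (w.getD i l0) * β ^ cN w i : ℤ) : R) * z ^ eN w (iX w i)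

/-- the constant coefficient -/
def QV {R : Type} [CommRing R] (β : ℤ) (w : List Let) (z : R) : R :=
  ∑ i ∈ Finset.range w.length, ((sA (w.getD i l0) * β ^ cN w i : ℤ) : R) * z ^ eN w i

theorem count_take_le (w : List Let) (l : Let) (i : ℕ) : (w.take i).count l ≤ w.length :=
  List.count_le_length.trans (by rw [List.length_take]; omega)

theorem count_take_lt (w : List Let) (l : Let) {i : ℕ} (hi : i < w.length) :
    (w.take i).count l < w.length :=
  List.count_le_length.trans_lt (by rw [List.length_take]; omega)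

theorem cN_cast (w : List Let) (i : ℕ) : (cN w i : ℤ) = w.length + es (some 1) (w.take i) := by
  unfold cN es
  have := count_take_le w (some 1, false) i
  rw [Nat.cast_sub (by omega)]
  push_cast
  ring

theorem eN_cast (w : List Let) (i : ℕ) : (eN w i : ℤ) = w.length + es none (w.take i) := by
  unfold eN es
  have := count_take_le w (none, false) i
  rw [Nat.cast_sub (by omega)]
  push_cast
  ring

theorem sc_shift {β z : ℚ} (hβ : β ≠ 0) (hz : z ≠ 0) (w : List Let) (i : ℕ) :
    β ^ w.length * z ^ w.length * sc β z (w.take i) = β ^ cN w i * z ^ eN w i := by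
  unfold sc
  have h1 : β ^ cN w i = β ^ (cN w i : ℤ) := (zpow_natCast _ _).symm
  have h2 : z ^ eN w i = z ^ (eN w i : ℤ) := (zpow_natCast _ _).symm
  rw [h1, h2, cN_cast, eN_cast, zpow_add₀ hβ, zpow_add₀ hz, zpow_natCast, zpow_natCast]
  ring

theorem tr_shift {β : ℤ} {z u : ℚ} (hβ : (β : ℚ) ≠ 0) (hz : z ≠ 0) (w : List Let) :
    (β : ℚ) ^ w.length * z ^ w.length * tr β z u w = QV β w z + u * PV β w z := by
  unfold tr QV PV
  rw [Finset.mul_sum, Finset.mul_sum, ← Finset.sum_add_distrib]
  refine Finset.sum_congr rfl fun i hi => ?_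
  have hi := Finset.mem_range.1 hi
  rw [← mul_assoc, sc_shift hβ hz]
  unfold iX
  rcases hl : w.getD i l0 with ⟨s, b⟩
  have hs : s = none ∨ s = some 0 ∨ s = some 1 := by
    rcases s with _ | ⟨j, hj⟩
    · exact Or.inl rfl
    · right
      rcases (by omega : j = 0 ∨ j = 1) with rfl | rfl
      · exact Or.inl rfl
      · exact Or.inr rfl
  rcases hs with rfl | rfl | rfl
  · cases b
    · have e1 : eN w i = eN w (i + 1) + 1 := by
        have h3 : w.take (i + 1) = w.take i ++ [((none : Option (Fin (0 + 2))), false)] := by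
          rw [List.take_succ_eq_append_getElem hi]
          congr 1
          rw [List.getD_eq_getElem _ _ hi] at hl
          rw [hl]
        unfold eN
        rw [h3, List.count_append, List.count_append]
        have h4 : List.count ((none : Option (Fin (0 + 2))), true)
            [((none : Option (Fin (0 + 2))), false)] = 0 := by decide
        have h5 : List.count ((none : Option (Fin (0 + 2))), false)
            [((none : Option (Fin (0 + 2))), false)] = 1 := by decide
        rw [h4, h5]
        have := count_take_lt w (none, false) hi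
        omega
      simp only [bl, sX, sA, Bool.false_eq_true, if_false, if_true, reduceCtorEq, e1]
      push_cast
      field_simp
      ring
    · simp only [bl, sX, sA, if_true, reduceCtorEq, if_false]
      push_cast
      ring
  · cases b
    · simp only [bl, sX, sA, Bool.false_eq_true, if_false, if_true, reduceCtorEq]
      push_cast
      ring
    · simp only [bl, sX, sA, if_true, reduceCtorEq, if_false]
      push_cast
      ring
  · have e1 : ((some 1 : Option (Fin (0 + 2))) = some 0) = False := by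
      simp
    simp only [bl, sX, sA, reduceCtorEq, if_false, e1]
    push_cast
    ring

/-- `k` is the exponent sum in `t` of a solution. -/
def SolK (β : ℤ) (w : List Let) (k : ℕ) : Prop :=
  cN w w.length + k * eN w w.length = w.length + k * w.length ∧
    ∃ (i : ℕ) (j : ℤ), PV β w (β ^ k) * j + β ^ i * QV β w (β ^ k) = 0

/-- exchange of the variable and its inverse -/
def flipx (w : List Let) : List Let := w.map (fun l => if l.1 = none then (none, !l.2) else l)

theorem evalAt_flipx (β : ℤ) (g : BS1 β) (w : List Let) :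
    evalAt (relBS β 0) g⁻¹ (flipx w) = evalAt (relBS β 0) g w := by
  unfold evalAt flipx ev
  rw [List.map_map]
  congr 1
  apply List.map_congr_left
  rintro ⟨s, b⟩ _
  rcases s with _ | s
  · cases b <;> simp
  · cases b <;> simp

theorem flipx_flipx (w : List Let) : flipx (flipx w) = w := by
  unfold flipx
  rw [List.map_map]
  conv_rhs => rw [← List.map_id w]
  apply List.map_congr_left
  rintro ⟨s, b⟩ _
  rcases s with _ | s
  · simp
  · simp

section

variable {β : ℤ}

theorem cast_PV (w : List Let) (k : ℕ) :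
    ((PV β w ((β : ℤ) ^ k) : ℤ) : ℚ) = PV β w ((β : ℚ) ^ k) := by
  unfold PV
  push_cast
  rfl

theorem cast_QV (w : List Let) (k : ℕ) :
    ((QV β w ((β : ℤ) ^ k) : ℤ) : ℚ) = QV β w ((β : ℚ) ^ k) := by
  unfold QV
  push_cast
  rfl

theorem es_cond (w : List Let) (k : ℕ) :
    cN w w.length + k * eN w w.length = w.length + k * w.length ↔
      es (some 1) w + es none w * (k : ℤ) = 0 := by
  have h1 := cN_cast w w.length
  have h2 := eN_cast w w.length
  rw [List.take_length] at h1 h2
  constructor
  · intro h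
    have h3 : (cN w w.length : ℤ) + k * (eN w w.length : ℤ) = w.length + k * w.length := by
      exact_mod_cast h
    rw [h1, h2] at h3
    linarith
  · intro h
    have h3 : (cN w w.length : ℤ) + k * (eN w w.length : ℤ) = w.length + k * w.length := by
      rw [h1, h2]
      linarith
    exact_mod_cast h3

/-- the value of a word at `t^(-i) a^j t^(i+k)` -/
theorem affQ_evalAt (U : ℚˣ) (hU : (U : ℚ) = (β : ℚ)) (hβ : (β : ℚ) ≠ 0) (w : List Let)
    (i k : ℕ) (j : ℤ) :
    affQ U hU (evalAt (relBS β 0) (nf β i j (i + k)) w) 0 =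
      tr β ((β : ℚ) ^ k) (j / (β : ℚ) ^ i) w := by
  unfold evalAt
  rw [ev_hom]
  rw [ev_aff (β := (β : ℚ)) (z := (β : ℚ) ^ k) (u := j / (β : ℚ) ^ i) hβ (pow_ne_zero _ hβ)]
  · rw [mul_zero, zero_add]
  · intro y
    simp only
    rw [affQ_nf U hU hβ, pow_add]
    field_simp
  · intro y
    exact affQ_a U hU y
  · intro y
    exact affQ_t U hU y

theorem SolK_iff (hβ : (β : ℚ) ≠ 0) (w : List Let) (i k : ℕ) (j : ℤ) :
    evalAt (relBS β 0) (nf β i j (i + k)) w = 1 ↔
      cN w w.length + k * eN w w.length = w.length + k * w.length ∧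
        PV β w (β ^ k) * j + β ^ i * QV β w (β ^ k) = 0 := by
  have h1 := expHom_ev (nf β i j (i + k)) w
  rw [expHom_nf] at h1
  have hk : (((i + k : ℕ) : ℤ) - i) = k := by push_cast; ring
  rw [hk, ] at h1
  have h2 := affQ_evalAt (Units.mk0 (β : ℚ) hβ) rfl hβ w i k j
  have h3 := tr_shift (u := (j : ℚ) / (β : ℚ) ^ i) hβ (pow_ne_zero k hβ) w
  have hi : (β : ℚ) ^ i ≠ 0 := pow_ne_zero _ hβ
  have hne : (β : ℚ) ^ w.length * ((β : ℚ) ^ k) ^ w.length ≠ 0 :=
    mul_ne_zero (pow_ne_zero _ hβ) (pow_ne_zero _ (pow_ne_zero _ hβ))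
  have h4 : PV β w ((β : ℤ) ^ k) * j + β ^ i * QV β w ((β : ℤ) ^ k) = 0 ↔
      tr β ((β : ℚ) ^ k) (j / (β : ℚ) ^ i) w = 0 := by
    have h5 : PV β w ((β : ℤ) ^ k) * j + β ^ i * QV β w ((β : ℤ) ^ k) = 0 ↔
        PV β w ((β : ℚ) ^ k) * (j : ℚ) + (β : ℚ) ^ i * QV β w ((β : ℚ) ^ k) = 0 := by
      rw [← cast_PV, ← cast_QV]
      exact_mod_cast Iff.rfl
    rw [h5]
    constructor
    · intro h
      have h6 : QV β w ((β : ℚ) ^ k) + (j : ℚ) / (β : ℚ) ^ i * PV β w ((β : ℚ) ^ k) = 0 := by
        field_simp
        linarith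
      rw [h6] at h3
      exact (mul_eq_zero.1 h3).resolve_left hne
    · intro h
      rw [h, mul_zero] at h3
      have h6 : (β : ℚ) ^ i * (QV β w ((β : ℚ) ^ k) +
          (j : ℚ) / (β : ℚ) ^ i * PV β w ((β : ℚ) ^ k)) = 0 := by
        rw [← h3, mul_zero]
      field_simp at h6
      linarith
  rw [es_cond, h4, ← h1, ← h2]
  constructor
  · intro h
    rw [h]
    simp
  · rintro ⟨h5, h6⟩
    exact faithful _ rfl hβ h5 h6

theorem oneVar_iff (hβ : (β : ℚ) ≠ 0) (w : List Let) :
    OneVarEq (relBS β 0) w ↔ (∃ k : ℕ, SolK β w k) ∨ ∃ k : ℕ, SolK β (flipx w) k := by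
  have key : ∀ (w : List Let) (k : ℕ) (g : BS1 β), evalAt (relBS β 0) g w = 1 →
      Multiplicative.toAdd (expHom β g) = (k : ℤ) → SolK β w k := by
    intro w k g hg hk
    obtain ⟨i, l, j, rfl⟩ := exists_nf g
    rw [expHom_nf] at hk
    have hl : l = i + k := by omega
    subst hl
    have h1 := (SolK_iff hβ w i k j).1 hg
    exact ⟨h1.1, i, j, h1.2⟩
  constructor
  · rintro ⟨g, hg⟩
    rcases le_total 0 (Multiplicative.toAdd (expHom β g)) with h | h
    · left
      obtain ⟨k, hk⟩ := Int.eq_ofNat_of_zero_le h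
      exact ⟨k, key w k g hg hk⟩
    · right
      obtain ⟨k, hk⟩ := Int.eq_ofNat_of_zero_le (neg_nonneg.2 h)
      refine ⟨k, key (flipx w) k g⁻¹ ?_ ?_⟩
      · rw [evalAt_flipx]
        exact hg
      · rw [map_inv, toAdd_inv]
        exact hk
  · rintro (⟨k, h1, i, j, h2⟩ | ⟨k, h1, i, j, h2⟩)
    · exact ⟨_, (SolK_iff hβ w i k j).2 ⟨h1, h2⟩⟩
    · refine ⟨(nf β i j (i + k))⁻¹, ?_⟩
      rw [← evalAt_flipx, inv_inv]
      exact (SolK_iff hβ (flipx w) i k j).2 ⟨h1, h2⟩

end

end Pool.Agent.N582.BS
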