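import Pool.Agent.N582.BSCore

/-!
# Equations in one variable over one-relator groups: the system of constraints
-/

set_option autoImplicit false

namespace Pool.Agent.N582.BS

open Finset Pool.Agent.H528R3.FD

/-- The admissible lists of edges. -/
def GE (c B : ℕ) (es : List (ℕ × ℕ)) : Prop :=
  ∀ e ∈ es, e.1.Prime ∧ e.2.Prime ∧ B < e.1 ∧ e.1 < e.2 ∧ e.1 * e.2 ≤ c

theorem mem_idx {es : List (ℕ × ℕ)} {a : ℕ × ℕ} :
    a ∈ idx es ↔ ∃ e ∈ es, a = (e.1, 0) ∨ a = (e.2, 0) ∨ a = e := by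
  unfold idx
  rw [RedAux.mem_ddup]
  simp [List.mem_flatMap]

theorem GI_of_mem {c B : ℕ} {es : List (ℕ × ℕ)} (hes : GE c B es) {a : ℕ × ℕ} (ha : a ∈ idx es) :
    GI c B a := by
  obtain ⟨e, he, h⟩ := mem_idx.1 ha
  obtain ⟨hp, hq, h1, h2, h3⟩ := hes e he
  rcases h with rfl | rfl | rfl
  · exact Or.inl ⟨rfl, hp, h1, (Nat.le_mul_of_pos_right _ hq.pos).trans h3⟩
  · exact Or.inl ⟨rfl, hq, h1.trans h2, (Nat.le_mul_of_pos_left _ hp.pos).trans h3⟩
  · exact Or.inr ⟨hp, hq, h1, h2, h3⟩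

theorem uniq {p : ℕ} (hp : 4 < p) {k : ℤ} {a b : ℕ} (ha : a ≤ 2) (hb : b ≤ 2)
    (h1 : (p : ℤ) ∣ k - a) (h2 : (p : ℤ) ∣ k - b) : a = b := by
  by_contra hne
  have h3 : (p : ℤ) ∣ (a : ℤ) - b := by
    have := Int.dvd_sub h2 h1
    have h4 : k - (b : ℤ) - (k - a) = (a : ℤ) - b := by ring
    rwa [h4] at this
  have h7 : ((p : ℕ) : ℤ) ≤ |(a : ℤ) - b| :=
    Int.le_of_dvd (abs_pos.2 (by omega)) ((dvd_abs _ _).2 h3)
  have h8 : |(a : ℤ) - b| ≤ 2 := by rw [abs_le]; omega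
  omega

theorem sys_sound {c B : ℕ} (hB : 4 ≤ B) {es : List (ℕ × ℕ)} (hes : GE c B es) {k : ℤ}
    (h : ∀ e ∈ idx es, OKe e k) : Col3 es := by
  classical
  let col : ℕ → Fin 3 := fun p =>
    if (p : ℤ) ∣ k - (0 : ℕ) then 0 else if (p : ℤ) ∣ k - (1 : ℕ) then 1 else 2
  have hcol : ∀ p : ℕ, 4 < p → ∀ a : ℕ, a ≤ 2 → (p : ℤ) ∣ k - a → ((col p : Fin 3) : ℕ) = a := by
    intro p hp a ha hd
    simp only [col]
    split_ifs with h1 h2
    · have := uniq hp ha (by norm_num) hd h1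
      rw [this]
      rfl
    · have := uniq hp ha (by norm_num) hd h2
      rw [this]
      rfl
    · have h9 : a = 0 ∨ a = 1 ∨ a = 2 := by omega
      rcases h9 with rfl | rfl | rfl
      · exact absurd hd h1
      · exact absurd hd h2
      · rfl
  refine ⟨col, fun e he hc => ?_⟩
  obtain ⟨hp, hq, h1, h2, h3⟩ := hes e he
  have k1 := h (e.1, 0) (mem_idx.2 ⟨e, he, Or.inl rfl⟩)
  have k2 := h (e.2, 0) (mem_idx.2 ⟨e, he, Or.inr (Or.inl rfl)⟩)
  have k3 := h e (mem_idx.2 ⟨e, he, Or.inr (Or.inr rfl)⟩)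
  unfold OKe at k1 k2 k3
  rw [if_pos rfl] at k1 k2
  rw [if_neg hq.pos.ne'] at k3
  obtain ⟨a, ha, hda⟩ := k1
  obtain ⟨b, hb, hdb⟩ := k2
  simp only at hda hdb
  have e1 := hcol e.1 (by omega) a ha hda
  have e2 := hcol e.2 (by omega) b hb hdb
  rw [hc, e2] at e1
  subst e1
  apply k3 b hb
  have hco : Nat.Coprime e.1 e.2 := (Nat.coprime_primes hp hq).2 (by omega)
  push_cast
  exact IsCoprime.mul_dvd (Nat.isCoprime_iff_coprime.2 hco) hda hdb

theorem sys_complete {c B : ℕ} (hB : 4 ≤ B) {es : List (ℕ × ℕ)} (hes : GE c B es)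
    (h : Col3 es) : ∃ k : ℕ, ∀ e ∈ idx es, OKe e (k : ℤ) := by
  classical
  obtain ⟨col, hcol⟩ := h
  let vs : Finset ℕ := (es.flatMap (fun e => [e.1, e.2])).toFinset
  have hvs : ∀ p ∈ vs, p.Prime ∧ 4 < p := by
    intro p hp
    simp only [vs, List.mem_toFinset, List.mem_flatMap, List.mem_cons, List.not_mem_nil,
      or_false] at hp
    obtain ⟨e, he, h⟩ := hp
    obtain ⟨hp, hq, h1, h2, h3⟩ := hes e he
    rcases h with rfl | rfl
    · exact ⟨hp, by omega⟩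
    · exact ⟨hq, by omega⟩
  obtain ⟨k, hk⟩ := Nat.chineseRemainderOfFinset (fun p => ((col p : Fin 3) : ℕ)) (fun p => p) vs
    (fun p hp => (hvs p hp).1.ne_zero)
    (fun p hp q hq hne => (Nat.coprime_primes (hvs p hp).1 (hvs q hq).1).2 hne)
  have key : ∀ p ∈ vs, (p : ℤ) ∣ (k : ℤ) - ((col p : Fin 3) : ℕ) := by
    intro p hp
    exact (Nat.modEq_iff_dvd.1 (hk p hp).symm)
  have hle : ∀ p, ((col p : Fin 3) : ℕ) ≤ 2 := fun p => by have := (col p).2; omega
  refine ⟨k, fun a ha => ?_⟩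
  obtain ⟨e, he, h⟩ := mem_idx.1 ha
  obtain ⟨hp, hq, h1, h2, h3⟩ := hes e he
  have m1 : e.1 ∈ vs := by
    simp only [vs, List.mem_toFinset, List.mem_flatMap]
    exact ⟨e, he, by simp⟩
  have m2 : e.2 ∈ vs := by
    simp only [vs, List.mem_toFinset, List.mem_flatMap]
    exact ⟨e, he, by simp⟩
  rcases h with rfl | rfl | rfl
  · unfold OKe
    rw [if_pos rfl]
    exact ⟨_, hle e.1, key _ m1⟩
  · unfold OKe
    rw [if_pos rfl]
    exact ⟨_, hle e.2, key _ m2⟩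
  · unfold OKe
    rw [if_neg hq.pos.ne']
    intro b hb hd
    apply hcol a he
    have d1 : (a.1 : ℤ) ∣ (k : ℤ) - b := (by push_cast; exact Dvd.intro _ rfl :
      (a.1 : ℤ) ∣ ((a.1 * a.2 : ℕ) : ℤ)).trans hd
    have d2 : (a.2 : ℤ) ∣ (k : ℤ) - b := (by push_cast; exact Dvd.intro_left _ rfl :
      (a.2 : ℤ) ∣ ((a.1 * a.2 : ℕ) : ℤ)).trans hd
    have u1 := uniq (hvs _ m1).2 (hle _) hb (key _ m1) d1
    have u2 := uniq (hvs _ m2).2 (hle _) hb (key _ m2) d2
    exact Fin.ext (u1.trans u2.symm)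

theorem nodup_idx (es : List (ℕ × ℕ)) : (idx es).Nodup := RedAux.nodup_ddup _

theorem NN_eq (c B : ℕ) (es : List (ℕ × ℕ)) :
    NN c B es = ∏ e ∈ (idx es).toFinset, md c B e := by
  unfold NN
  exact (List.prod_toFinset _ (nodup_idx es)).symm

theorem md_dvd_NN {c B : ℕ} {es : List (ℕ × ℕ)} {e : ℕ × ℕ} (he : e ∈ idx es) :
    md c B e ∣ NN c B es := by
  rw [NN_eq]
  exact Finset.dvd_prod_of_mem _ (List.mem_toFinset.2 he)

theorem NN_div {c B : ℕ} {es : List (ℕ × ℕ)} {e : ℕ × ℕ} (he : e ∈ idx es)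
    (h0 : 0 < md c B e) :
    NN c B es / md c B e = ∏ x ∈ (idx es).toFinset.erase e, md c B x := by
  rw [NN_eq, ← Finset.mul_prod_erase _ _ (List.mem_toFinset.2 he), Nat.mul_div_cancel_left _ h0]

/-- From the equation modulo a prime factor to the constraint. -/
theorem eq_sound {c B : ℕ} (hB : 4 ≤ B) {es : List (ℕ × ℕ)} (hes : GE c B es) {e : ℕ × ℕ}
    (he : e ∈ idx es) {r : ℕ} (hr : r.Prime) (h : r ∣ md c B e) (z x : ZMod r)
    (h0 : ((NN c B es : ℕ) : ZMod r) * x +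
      ((LL c B es).map (fun p => (p.1 : ZMod r) * evalH p.2 z)).sum = 0) :
    evalH (co c B e) z = 0 := by
  classical
  have := Fact.mk hr
  have hNN : ((NN c B es : ℕ) : ZMod r) = 0 :=
    (ZMod.natCast_eq_zero_iff _ _).2 (h.trans (md_dvd_NN he))
  rw [hNN, zero_mul, zero_add] at h0
  unfold LL at h0
  rw [List.map_map, ← List.sum_toFinset _ (nodup_idx es)] at h0
  rw [Finset.sum_eq_single e] at h0
  · simp only [Function.comp] at h0
    have hGI := GI_of_mem hes he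
    have hgt := md_gt hB hGI
    have h1 : (((B - 1) * (NN c B es / md c B e) : ℕ) : ZMod r) ≠ 0 := by
      intro h2
      have h3 := (ZMod.natCast_eq_zero_iff _ _).1 h2
      rcases (Nat.Prime.dvd_mul hr).1 h3 with h4 | h4
      · have h5 : (B : ZMod r) = 1 := by
          have h6 := (ZMod.natCast_eq_zero_iff _ _).2 h4
          rw [Nat.cast_sub (by omega), Nat.cast_one] at h6
          exact sub_eq_zero.1 h6
        have h7 := md_order hB hGI hr h
        rw [h5, orderOf_one] at h7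
        have := om_gt hB hGI
        omega
      · rw [NN_div he (by omega)] at h4
        obtain ⟨a, ha, hda⟩ := (Prime.dvd_finset_prod_iff hr.prime _).1 h4
        have ha' := Finset.mem_erase.1 ha
        have hco := md_coprime hB hGI (GI_of_mem hes (List.mem_toFinset.1 ha'.2)) ha'.1.symm
        exact hr.one_lt.ne' (Nat.dvd_one.1 (hco ▸ Nat.dvd_gcd h hda))
    exact (mul_eq_zero.1 h0).resolve_left h1
  · intro a ha hne
    simp only [Function.comp]
    have ha' := List.mem_toFinset.1 ha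
    have hgt := md_gt hB (GI_of_mem hes ha')
    have h1 : r ∣ NN c B es / md c B a := by
      rw [NN_div ha' (by omega)]
      exact h.trans (Finset.dvd_prod_of_mem _ (Finset.mem_erase.2
        ⟨hne.symm, List.mem_toFinset.2 he⟩))
    have h2 : (((B - 1) * (NN c B es / md c B a) : ℕ) : ZMod r) = 0 :=
      (ZMod.natCast_eq_zero_iff _ _).2 (Dvd.dvd.mul_left h1 _)
    rw [h2, zero_mul]
  · intro h
    exact absurd (List.mem_toFinset.2 he) h

/-- From the constraints to the equation. -/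
theorem eq_complete {c B : ℕ} (hB : 4 ≤ B) {es : List (ℕ × ℕ)} (hes : GE c B es) {k : ℕ}
    (h : ∀ e ∈ idx es, OKe e (k : ℤ)) :
    ∃ y : ℤ, ((NN c B es : ℕ) : ℤ) * (((B : ℤ) - 1) * y) +
      ((LL c B es).map (fun p => (p.1 : ℤ) * evalH p.2 ((B : ℤ) ^ k))).sum = 0 := by
  classical
  have key : ((NN c B es : ℕ) : ℤ) * ((B : ℤ) - 1) ∣
      ((LL c B es).map (fun p => (p.1 : ℤ) * evalH p.2 ((B : ℤ) ^ k))).sum := by
    apply List.dvd_sum
    intro x hx
    obtain ⟨p, hp, rfl⟩ := List.mem_map.1 hx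
    unfold LL at hp
    obtain ⟨e, he, rfl⟩ := List.mem_map.1 hp
    obtain ⟨y, hy⟩ := complete hB (GI_of_mem hes he) (h e he)
    simp only
    refine ⟨y, ?_⟩
    rw [hy]
    have h1 : NN c B es / md c B e * md c B e = NN c B es := Nat.div_mul_cancel (md_dvd_NN he)
    have h2 : ((NN c B es : ℕ) : ℤ) =
        ((NN c B es / md c B e : ℕ) : ℤ) * ((md c B e : ℕ) : ℤ) := by
      exact_mod_cast h1.symm
    rw [h2]
    rw [Nat.cast_mul, Nat.cast_sub (by omega)]
    push_cast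
    ring
  obtain ⟨y, hy⟩ := key
  refine ⟨-y, ?_⟩
  rw [hy]
  ring

end Pool.Agent.N582.BS
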