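import Pool.Agent.N582.BSCert
import Pool.Agent.N582.BSPoly
import Pool.Agent.H687R2.IntPoly

/-!
# Equations in one variable over `BS(1, β)`: the problem is in NP
-/

set_option autoImplicit false

namespace Pool.Agent.N582.BS

open Pool.Agent.NPC

/-! ### Decoding of the elements of `Fin n` -/

theorem poly_finDec (n : ℕ) : NPC.Poly (fun m : ℕ => if h : m < n then some (⟨m, h⟩ : Fin n)
    else none) := by
  have h1 : NPC.Poly (fun m : ℕ => if m < n then some m else none) :=
    Poly.ite (p := fun m : ℕ => m < n) (Poly.decide_lt Poly.id (NPC.Poly.const n))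
      (Poly.some Poly.id) (NPC.Poly.const none)
  refine Poly.of_toT ((Poly.toT' h1).congr fun m => ?_)
  by_cases h : m < n
  · rw [if_pos h, dif_pos h]
    rfl
  · rw [if_neg h, dif_neg h]
    rfl

@[instance_reducible] def finDec (n : ℕ) : TDec (Fin n) :=
  TDec.of (fun i : Fin n => (i : ℕ)) (fun m : ℕ => if h : m < n then some (⟨m, h⟩ : Fin n) else none)
    (fun _ => rfl) (fun a => by simp) (fun b a h => by
      split_ifs at h with h1
      simp only [Option.some.injEq] at h
      rw [← h]) (poly_finDec n)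

instance (n : ℕ) : TDec (Fin n) := finDec n

/-! ### The verifier -/

/-- modular powers -/
def pmod (b D : ℕ) (l : List Bool) : ℕ :=
  l.foldr (fun c s => s * s * (if c = true then b else 1) % D) (1 % D)

theorem pmod_cast (b D : ℕ) (l : List Bool) :
    ((pmod b D l : ℕ) : ZMod D) = (b : ZMod D) ^ valB l := by
  induction l with
  | nil => simp [pmod]
  | cons c l ih =>
    have h1 : pmod b D (c :: l) = pmod b D l * pmod b D l * (if c = true then b else 1) % D := rfl
    rw [h1, ZMod.natCast_mod, Nat.cast_mul, Nat.cast_mul, ih, valB_cons, pow_add, two_mul, pow_add]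
    cases c
    · simp
    · simp
      ring

theorem pmod_lt {b D : ℕ} (hD : 0 < D) (l : List Bool) : pmod b D l < D := by
  cases l with
  | nil => exact Nat.mod_lt _ hD
  | cons c l => exact Nat.mod_lt _ hD

/-- the residue of `β` -/
def rsd (β : ℤ) (D : ℕ) : ℕ := (β - β / (D : ℤ) * D).toNat

theorem rsd_cast (β : ℤ) {D : ℕ} (hD : 0 < D) : ((rsd β D : ℕ) : ZMod D) = (β : ZMod D) := by
  unfold rsd
  have h1 : β - β / (D : ℤ) * D = β % D := by
    have := Int.emod_add_mul_ediv β D
    linarith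
  have h2 : 0 ≤ β % (D : ℤ) := Int.emod_nonneg _ (by omega)
  have h3 : (((β % (D : ℤ)).toNat : ℕ) : ℤ) = β % D := Int.toNat_of_nonneg h2
  rw [h1]
  have h4 : (((β % (D : ℤ)).toNat : ℕ) : ZMod D) = (((β % (D : ℤ) : ℤ)) : ZMod D) := by
    rw [← h3]
    simp
  rw [h4, ZMod.intCast_mod]

/-- the certificates -/
abbrev Cert : Type := Bool × Bool × ℕ × ℤ × ℕ × ℕ × List ℤ

/-- check of a certificate of the first kind -/
def verA (β : ℤ) (w : List Let) (k : ℕ) (j : ℤ) : Bool :=
  decide (cN w w.length + min k (K1 β w.length) * eN w w.length =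
    w.length + min k (K1 β w.length) * w.length) &&
  decide (PV β w (β ^ min k (K1 β w.length)) * j +
    β ^ I1 β w.length * QV β w (β ^ min k (K1 β w.length)) = 0)

/-- the product in the last test -/
def prd (β : ℤ) (w : List Let) (k D : ℕ) (S : List ℤ) : ℤ :=
  β ^ MM β w.length * evalL S (pmod (rsd β (D + 1)) (D + 1) k.bits : ℕ)

/-- check of a certificate of the second kind -/
def verB (β : ℤ) (w : List Let) (k D v : ℕ) (S : List ℤ) : Bool :=
  decide (cN w w.length = w.length) && (decide (eN w w.length = w.length) &&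
    (decide (D < 2 ^ MM β w.length) && (decide (S.length ≤ 2 * w.length + 1) &&
    (S.all (fun s => decide (s.natAbs < 2 ^ MM β w.length)) &&
    (decide (((D + 1 : ℕ) : ℤ) * ((β ^ Z1 β w.length) ^ min v (2 * w.length) *
      QV β w (β ^ Z1 β w.length)) = evalL S (β ^ Z1 β w.length) * PV β w (β ^ Z1 β w.length)) &&
    decide (prd β w k D S / ((D + 1 : ℕ) : ℤ) * ((D + 1 : ℕ) : ℤ) = prd β w k D S))))))

/-- the word which is used -/
def wsel (fl : Bool) (w : List Let) : List Let := if fl = true then flipx w else w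

/-- the verifier -/
def ver (β : ℤ) (p : List Let × Cert) : Bool :=
  if p.2.2.1 = true then verA β (wsel p.2.1 p.1) p.2.2.2.1 p.2.2.2.2.1
  else verB β (wsel p.2.1 p.1) p.2.2.2.1 p.2.2.2.2.2.1 p.2.2.2.2.2.2.1 p.2.2.2.2.2.2.2

theorem dvd_test (x : ℤ) (D : ℕ) :
    x / ((D + 1 : ℕ) : ℤ) * ((D + 1 : ℕ) : ℤ) = x ↔ ((D + 1 : ℕ) : ℤ) ∣ x :=
  ⟨fun h => ⟨_, by rw [mul_comm]; exact h.symm⟩, fun h => Int.ediv_mul_cancel h⟩

theorem prd_dvd (β : ℤ) (w : List Let) (k D : ℕ) (S : List ℤ) :
    ((D + 1 : ℕ) : ℤ) ∣ prd β w k D S ↔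
      ((D + 1 : ℕ) : ℤ) ∣ β ^ MM β w.length * evalL S (β ^ k) := by
  rw [← ZMod.intCast_zmod_eq_zero_iff_dvd, ← ZMod.intCast_zmod_eq_zero_iff_dvd]
  unfold prd
  have h1 : ((evalL S ((pmod (rsd β (D + 1)) (D + 1) k.bits : ℕ) : ℤ) : ℤ) : ZMod (D + 1)) =
      ((evalL S (β ^ k) : ℤ) : ZMod (D + 1)) := by
    apply evalL_modEq
    rw [Int.cast_natCast, pmod_cast, rsd_cast β (Nat.succ_pos D), valB_bits]
    push_cast
    rfl
  rw [Int.cast_mul, Int.cast_mul, h1]

theorem verA_iff (β : ℤ) (w : List Let) (k : ℕ) (j : ℤ) : verA β w k j = true ↔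
    cN w w.length + min k (K1 β w.length) * eN w w.length =
      w.length + min k (K1 β w.length) * w.length ∧
    PV β w (β ^ min k (K1 β w.length)) * j +
      β ^ I1 β w.length * QV β w (β ^ min k (K1 β w.length)) = 0 := by
  unfold verA
  rw [Bool.and_eq_true, decide_eq_true_iff, decide_eq_true_iff]

theorem verB_iff (β : ℤ) (w : List Let) (k D v : ℕ) (S : List ℤ) :
    verB β w k D v S = true ↔ Big β w k D (min v (2 * w.length)) S := by
  unfold verB Big
  simp only [Bool.and_eq_true, decide_eq_true_iff, List.all_eq_true, dvd_test, prd_dvd]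

theorem ver_sound {β : ℤ} (hβ : 2 ≤ |β|) {w : List Let} {c : Cert} (h : ver β (w, c) = true) :
    OneVarEq (relBS β 0) w := by
  have hβ0 : (β : ℚ) ≠ 0 := by
    have : β ≠ 0 := by
      rintro rfl
      simp at hβ
    exact_mod_cast this
  have key : ∃ k, SolK β (wsel c.1 w) k := by
    unfold ver at h
    simp only at h
    split_ifs at h with h1
    · rw [verA_iff] at h
      exact ⟨_, h.1, _, _, h.2⟩
    · rw [verB_iff] at h
      exact ⟨_, big_sound hβ _ h⟩
  rw [oneVar_iff hβ0]
  unfold wsel at key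
  split_ifs at key with h2
  · exact Or.inr key
  · exact Or.inl key

theorem length_flipx (w : List Let) : (flipx w).length = w.length := by
  unfold flipx
  rw [List.length_map]

theorem length_wsel (b : Bool) (w : List Let) : (wsel b w).length = w.length := by
  unfold wsel
  split_ifs
  · exact length_flipx w
  · rfl

/-- the certificates which are needed -/
def GoodC (β : ℤ) (L : ℕ) (c : Cert) : Prop :=
  c.2.2.1 ≤ K1 β L + 2 ^ MM β L ∧ c.2.2.2.1.natAbs < 2 ^ ((s0 β + 1) * I1 β L) ∧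
    c.2.2.2.2.1 < 2 ^ MM β L ∧ c.2.2.2.2.2.1 ≤ 2 * L ∧ c.2.2.2.2.2.2.length ≤ 2 * L + 1 ∧
    ∀ s ∈ c.2.2.2.2.2.2, s.natAbs < 2 ^ MM β L

theorem cert_of_SolK {β : ℤ} (hβ : 2 ≤ |β|) {w : List Let} {k : ℕ} (h : SolK β w k) :
    ∃ (ty : Bool) (k : ℕ) (j : ℤ) (D v : ℕ) (S : List ℤ),
      (∀ fl, GoodC β w.length (fl, ty, k, j, D, v, S)) ∧
      (if ty = true then verA β w k j = true else verB β w k D v S = true) := by
  have hM : 0 < 2 ^ MM β w.length := pow_pos (by norm_num) _
  have hJ : 0 < 2 ^ ((s0 β + 1) * I1 β w.length) := pow_pos (by norm_num) _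
  rcases le_or_gt (K1 β w.length) k with hk | hk
  · rcases big_complete hβ w hk h with ⟨h1, h2⟩ | ⟨k', D, v, S, hk', hv, hbig⟩
    · refine ⟨true, 0, 0, 0, 0, [], fun fl => ⟨by simp, by simpa using hJ, by simpa using hM,
        by simp, by simp, by simp⟩, ?_⟩
      rw [if_pos rfl, verA_iff]
      simp only [Nat.zero_min]
      exact ⟨h2, h1⟩
    · refine ⟨false, k', 0, D, v, S, fun fl => ⟨by simp only; omega, by simpa using hJ, ?_, hv, ?_,
        ?_⟩, ?_⟩
      · exact hbig.2.2.1
      · exact hbig.2.2.2.1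
      · exact hbig.2.2.2.2.1
      · rw [if_neg (by simp), verB_iff, min_eq_left hv]
        exact hbig
  · obtain ⟨hc, i, j, hij⟩ := h
    obtain ⟨j', hj', h1⟩ := small hβ w hk.le hij
    refine ⟨true, k, j', 0, 0, [], fun fl => ⟨by simp only; omega, ?_, by simpa using hM,
      by simp, by simp, by simp⟩, ?_⟩
    · rw [Int.abs_eq_natAbs] at hj'
      simp only
      exact_mod_cast hj'
    · rw [if_pos rfl, verA_iff, min_eq_left hk.le]
      exact ⟨hc, h1⟩

theorem ver_complete {β : ℤ} (hβ : 2 ≤ |β|) {w : List Let} (h : OneVarEq (relBS β 0) w) :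
    ∃ c : Cert, GoodC β w.length c ∧ ver β (w, c) = true := by
  have hβ0 : (β : ℚ) ≠ 0 := by
    have : β ≠ 0 := by
      rintro rfl
      simp at hβ
    exact_mod_cast this
  rw [oneVar_iff hβ0] at h
  rcases h with ⟨k, hk⟩ | ⟨k, hk⟩
  · obtain ⟨ty, k', j, D, v, S, h1, h2⟩ := cert_of_SolK hβ hk
    refine ⟨(false, ty, k', j, D, v, S), h1 false, ?_⟩
    have h3 : wsel false w = w := by simp [wsel]
    unfold ver
    simp only [h3]
    cases ty
    · simpa using h2
    · simpa using h2
  · obtain ⟨ty, k', j, D, v, S, h1, h2⟩ := cert_of_SolK hβ hk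
    have h4 := h1 true
    rw [length_flipx] at h4
    refine ⟨(true, ty, k', j, D, v, S), h4, ?_⟩
    have h3 : wsel true w = flipx w := by simp [wsel]
    unfold ver
    simp only [h3]
    cases ty
    · simpa using h2
    · simpa using h2

/-! ### Polynomial time -/

section poly

variable {α : Type} [TEnc α]

theorem upoly_len {w : α → List Let} (hw : NPC.Poly w) : UPoly (fun a => (w a).length) :=
  UPoly.length hw

theorem upoly_hh (β : ℤ) {L : α → ℕ} (hL : UPoly L) : UPoly (fun a => hh β (L a)) :=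
  UPoly.mul (UPoly.const _) hL

theorem upoly_MM (β : ℤ) {L : α → ℕ} (hL : UPoly L) : UPoly (fun a => MM β (L a)) :=
  UPoly.mul (UPoly.add (upoly_hh β hL) (UPoly.const 2))
    (UPoly.add (UPoly.mul (UPoly.const 2) hL) (UPoly.const 2))

theorem upoly_K1 (β : ℤ) {L : α → ℕ} (hL : UPoly L) : UPoly (fun a => K1 β (L a)) :=
  UPoly.add (UPoly.add (upoly_hh β hL) (upoly_MM β hL)) (UPoly.const 1)

theorem upoly_I1 (β : ℤ) {L : α → ℕ} (hL : UPoly L) : UPoly (fun a => I1 β (L a)) :=
  UPoly.add (UPoly.add (upoly_hh β hL) (UPoly.mul (UPoly.mul (UPoly.const _) (upoly_K1 β hL))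
    (UPoly.mul (UPoly.const 2) hL))) (UPoly.const 1)

theorem upoly_Z1 (β : ℤ) {L : α → ℕ} (hL : UPoly L) : UPoly (fun a => Z1 β (L a)) :=
  UPoly.add (UPoly.add (UPoly.add (UPoly.mul (UPoly.const 2) hL) (upoly_MM β hL))
    (upoly_hh β hL)) (UPoly.const 1)

theorem take_eq {β : Type} (l : List β) : ∀ j k : ℕ, ((l.zipIdx k).filter fun p =>
    decide (p.2 < k + j)).map Prod.fst = l.take j := by
  induction l with
  | nil => intro j k; simp
  | cons v l ih =>
    intro j k
    rw [List.zipIdx_cons]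
    cases j with
    | zero =>
      rw [List.take_zero, List.map_eq_nil_iff, List.filter_eq_nil_iff]
      intro p hp
      have : k ≤ p.2 := by
        rcases List.mem_cons.1 hp with rfl | hp
        · exact le_rfl
        · have := (List.mem_zipIdx hp).1
          omega
      simp only [add_zero, decide_eq_true_eq, not_lt]
      exact this
    | succ j =>
      rw [List.filter_cons, if_pos (by simp), List.map_cons, List.take_succ_cons, ← ih j (k + 1)]
      congr 2
      ext p
      rw [show k + 1 + j = k + (j + 1) by omega]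

theorem poly_take {β : Type} [TEnc β] {l : α → List β} {n : α → ℕ} (hl : NPC.Poly l)
    (hn : NPC.Poly n) : NPC.Poly (fun a => (l a).take (n a)) := by
  refine (NPC.Poly.map (F := fun _ (p : β × ℕ) => p.1) (Poly.filter (p := fun a (p : β × ℕ) =>
    decide (p.2 < n a)) (Poly.zipIdx hl) (Poly.decide_lt (Poly.snd (Poly.snd Poly.id))
      (hn.comp (Poly.fst Poly.id)))) (Poly.fst (Poly.snd Poly.id))).congr fun a => ?_
  rw [← take_eq (l a) (n a) 0]
  simp

theorem poly_count {w : α → List Let} (hw : NPC.Poly w) {i : α → ℕ} (hi : NPC.Poly i) (l : Let) :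
    NPC.Poly (fun a => ((w a).take (i a)).count l) := by
  have h1 : NPC.Poly (fun a => (((w a).take (i a)).filter (fun x => decide (x = l))).length) :=
    Poly.length (Poly.filter (p := fun _ (x : Let) => decide (x = l)) (poly_take hw hi)
      (Poly.decide_eq (Poly.snd Poly.id) (NPC.Poly.const l)))
  refine h1.congr fun a => ?_
  rw [List.count, List.countP_eq_length_filter]
  congr 1
  refine List.filter_congr fun x _ => ?_
  rw [Bool.eq_iff_iff]
  simp

theorem poly_cN {w : α → List Let} (hw : NPC.Poly w) {i : α → ℕ} (hi : NPC.Poly i) :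
    NPC.Poly (fun a => cN (w a) (i a)) :=
  Poly.sub (Poly.add (Poly.length hw) (poly_count hw hi _)) (poly_count hw hi _)

theorem poly_eN {w : α → List Let} (hw : NPC.Poly w) {i : α → ℕ} (hi : NPC.Poly i) :
    NPC.Poly (fun a => eN (w a) (i a)) :=
  Poly.sub (Poly.add (Poly.length hw) (poly_count hw hi _)) (poly_count hw hi _)

theorem upoly_cN {w : α → List Let} (hw : NPC.Poly w) {i : α → ℕ} (hi : NPC.Poly i) :
    UPoly (fun a => cN (w a) (i a)) :=
  UPoly.of_le (poly_cN hw hi) (UPoly.mul (UPoly.const 2) (UPoly.length hw)) fun a => cN_le _ _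

theorem upoly_eN {w : α → List Let} (hw : NPC.Poly w) {i : α → ℕ} (hi : NPC.Poly i) :
    UPoly (fun a => eN (w a) (i a)) :=
  UPoly.of_le (poly_eN hw hi) (UPoly.mul (UPoly.const 2) (UPoly.length hw)) fun a => eN_le _ _

theorem poly_sX {l : α → Let} (hl : NPC.Poly l) : NPC.Poly (fun a => sX (l a)) := by
  unfold sX
  exact Poly.ite (p := fun a => (l a).1 = none) (Poly.dec_eq (Poly.fst hl) (NPC.Poly.const none))
    (Poly.ite (p := fun a => (l a).2 = true) (Poly.decide_bool (Poly.snd hl)) (NPC.Poly.const 1)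
      (NPC.Poly.const (-1))) (NPC.Poly.const 0)

theorem poly_sA {l : α → Let} (hl : NPC.Poly l) : NPC.Poly (fun a => sA (l a)) := by
  unfold sA
  exact Poly.ite (p := fun a => (l a).1 = some 0)
    (Poly.dec_eq (Poly.fst hl) (NPC.Poly.const (some 0)))
    (Poly.ite (p := fun a => (l a).2 = true) (Poly.decide_bool (Poly.snd hl)) (NPC.Poly.const 1)
      (NPC.Poly.const (-1))) (NPC.Poly.const 0)

theorem poly_iX {w : α → List Let} (hw : NPC.Poly w) {i : α → ℕ} (hi : NPC.Poly i) :
    NPC.Poly (fun a => iX (w a) (i a)) := by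
  unfold iX
  exact Poly.ite (p := fun a => ((w a).getD (i a) l0).2 = true)
    (Poly.decide_bool (Poly.snd (Poly.getD hw hi (NPC.Poly.const l0)))) hi (Poly.succ hi)

theorem sum_range_eq (f : ℕ → ℤ) (n : ℕ) :
    ∑ i ∈ Finset.range n, f i = ((List.range n).map f).sum := by
  induction n with
  | zero => simp
  | succ n ih =>
    rw [Finset.sum_range_succ, ih, List.range_succ, List.map_append, List.sum_append]
    simp

theorem poly_PV (β : ℤ) {w : α → List Let} (hw : NPC.Poly w) {z : α → ℤ} (hz : NPC.Poly z) :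
    NPC.Poly (fun a => PV β (w a) (z a)) := by
  have h1 : NPC.Poly (fun a => ((List.range (w a).length).map (fun i =>
      sX ((w a).getD i l0) * β ^ cN (w a) i * z a ^ eN (w a) (iX (w a) i))).sum) := by
    refine Poly.isum (NPC.Poly.map (F := fun a i => sX ((w a).getD i l0) * β ^ cN (w a) i *
      z a ^ eN (w a) (iX (w a) i)) (Poly.range_length hw) ?_)
    have hw' : NPC.Poly (fun p : α × ℕ => w p.1) := hw.comp (Poly.fst Poly.id)
    have hi : NPC.Poly (fun p : α × ℕ => p.2) := Poly.snd Poly.id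
    exact Poly.imul (Poly.imul (poly_sX (Poly.getD hw' hi (NPC.Poly.const l0)))
      (Poly.ipow (NPC.Poly.const β) (upoly_cN hw' hi)))
      (Poly.ipow (hz.comp (Poly.fst Poly.id)) (upoly_eN hw' (poly_iX hw' hi)))
  refine h1.congr fun a => ?_
  rw [← sum_range_eq]
  rfl

theorem poly_QV (β : ℤ) {w : α → List Let} (hw : NPC.Poly w) {z : α → ℤ} (hz : NPC.Poly z) :
    NPC.Poly (fun a => QV β (w a) (z a)) := by
  have h1 : NPC.Poly (fun a => ((List.range (w a).length).map (fun i =>
      sA ((w a).getD i l0) * β ^ cN (w a) i * z a ^ eN (w a) i)).sum) := by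
    refine Poly.isum (NPC.Poly.map (F := fun a i => sA ((w a).getD i l0) * β ^ cN (w a) i *
      z a ^ eN (w a) i) (Poly.range_length hw) ?_)
    have hw' : NPC.Poly (fun p : α × ℕ => w p.1) := hw.comp (Poly.fst Poly.id)
    have hi : NPC.Poly (fun p : α × ℕ => p.2) := Poly.snd Poly.id
    exact Poly.imul (Poly.imul (poly_sA (Poly.getD hw' hi (NPC.Poly.const l0)))
      (Poly.ipow (NPC.Poly.const β) (upoly_cN hw' hi)))
      (Poly.ipow (hz.comp (Poly.fst Poly.id)) (upoly_eN hw' hi))
  refine h1.congr fun a => ?_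
  rw [← sum_range_eq]
  rfl

theorem poly_evalL {S : α → List ℤ} (hS : NPC.Poly S) {y : α → ℤ} (hy : NPC.Poly y) :
    NPC.Poly (fun a => evalL (S a) (y a)) := by
  have h1 : NPC.Poly (fun a => ((List.range (S a).length).map (fun i =>
      (S a).getD i 0 * y a ^ min i (S a).length)).sum) := by
    refine Poly.isum (NPC.Poly.map (F := fun a i => (S a).getD i 0 * y a ^ min i (S a).length)
      (Poly.range_length hS) ?_)
    have hS' : NPC.Poly (fun p : α × ℕ => S p.1) := hS.comp (Poly.fst Poly.id)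
    have hi : NPC.Poly (fun p : α × ℕ => p.2) := Poly.snd Poly.id
    exact Poly.imul (Poly.getD hS' hi (NPC.Poly.const 0))
      (Poly.ipow (hy.comp (Poly.fst Poly.id)) (upoly_min (UPoly.length hS') hi))
  refine h1.congr fun a => ?_
  rw [← sum_range_eq]
  unfold evalL
  refine Finset.sum_congr rfl fun i hi => ?_
  rw [min_eq_left (Finset.mem_range.1 hi).le]

theorem poly_pmod {b D : α → ℕ} {l : α → List Bool} (hb : NPC.Poly b) (hD : NPC.Poly D)
    (hl : NPC.Poly l) : NPC.Poly (fun a => pmod (b a) (D a + 1) (l a)) := by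
  obtain ⟨r, hr⟩ := (Poly.succ hD).sz_le
  unfold pmod
  refine Poly.foldr (s := fun a => 1 % (D a + 1))
    (F := fun a c s => s * s * (if c = true then b a else 1) % (D a + 1)) hl
    (Poly.mod (NPC.Poly.const 1) (Poly.succ hD)) ?_ (Polynomial.C 2 * r) ?_
  · have hs : NPC.Poly (fun p : α × Bool × ℕ => p.2.2) := Poly.snd (Poly.snd Poly.id)
    exact Poly.mod (Poly.mul (Poly.mul hs hs)
      (Poly.ite (p := fun p : α × Bool × ℕ => p.2.1 = true)
        (Poly.decide_bool (Poly.fst (Poly.snd Poly.id))) (hb.comp (Poly.fst Poly.id))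
        (NPC.Poly.const 1))) (Poly.succ (hD.comp (Poly.fst Poly.id)))
  · intro a k hk
    have h1 : ((l a).drop k).foldr
        (fun c s => s * s * (if c = true then b a else 1) % (D a + 1)) (1 % (D a + 1)) ≤ D a + 1 :=
      (pmod_lt (b := b a) (Nat.succ_pos (D a)) ((l a).drop k)).le
    have h2 := sz_nat_mono_le h1
    have h3 := hr a
    simp only [Polynomial.eval_mul, Polynomial.eval_C]
    omega

theorem poly_rsd (β : ℤ) {D : α → ℕ} (hD : NPC.Poly D) : NPC.Poly (fun a => rsd β (D a + 1)) := by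
  unfold rsd
  have h1 := Poly.idiv (NPC.Poly.const (α := α) β) (Poly.succ hD)
  exact Poly.toNat (Poly.isub (NPC.Poly.const β) (Poly.imul h1 (Poly.natCast (Poly.succ hD))))

theorem poly_prd (β : ℤ) {w : α → List Let} (hw : NPC.Poly w) {k D : α → ℕ} (hk : NPC.Poly k)
    (hD : NPC.Poly D) {S : α → List ℤ} (hS : NPC.Poly S) :
    NPC.Poly (fun a => prd β (w a) (k a) (D a) (S a)) := by
  unfold prd
  exact Poly.imul (Poly.ipow (NPC.Poly.const β) (upoly_MM β (UPoly.length hw)))
    (poly_evalL hS (Poly.natCast (poly_pmod (poly_rsd β hD) hD (Poly.natBits hk))))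

theorem poly_verA (β : ℤ) {w : α → List Let} (hw : NPC.Poly w) {k : α → ℕ} (hk : NPC.Poly k)
    {j : α → ℤ} (hj : NPC.Poly j) : NPC.Poly (fun a => verA β (w a) (k a) (j a)) := by
  unfold verA
  have hL := UPoly.length hw
  have hL' := Poly.length hw
  have hmk : UPoly (fun a => min (k a) (K1 β (w a).length)) := upoly_min (upoly_K1 β hL) hk
  have hz : NPC.Poly (fun a => β ^ min (k a) (K1 β (w a).length)) :=
    Poly.ipow (NPC.Poly.const β) hmk
  refine Poly.and (Poly.dec_eq (Poly.add (poly_cN hw hL') (Poly.mul hmk.toPoly (poly_eN hw hL')))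
    (Poly.add hL' (Poly.mul hmk.toPoly hL'))) (Poly.dec_eq (Poly.iadd (Poly.imul (poly_PV β hw hz) hj)
    (Poly.imul (Poly.ipow (NPC.Poly.const β) (upoly_I1 β hL)) (poly_QV β hw hz)))
    (NPC.Poly.const 0))

theorem poly_verB (β : ℤ) {w : α → List Let} (hw : NPC.Poly w) {k D v : α → ℕ} (hk : NPC.Poly k)
    (hD : NPC.Poly D) (hv : NPC.Poly v) {S : α → List ℤ} (hS : NPC.Poly S) :
    NPC.Poly (fun a => verB β (w a) (k a) (D a) (v a) (S a)) := by
  unfold verB
  have hL := UPoly.length hw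
  have hL' := Poly.length hw
  have hM : NPC.Poly (fun a => 2 ^ MM β (w a).length) := poly_upow (upoly_MM β hL) 2
  have hz : NPC.Poly (fun a => β ^ Z1 β (w a).length) :=
    Poly.ipow (NPC.Poly.const β) (upoly_Z1 β hL)
  have hmv : UPoly (fun a => min (v a) (2 * (w a).length)) :=
    upoly_min (UPoly.mul (UPoly.const 2) hL) hv
  have hD1 : NPC.Poly (fun a => ((D a + 1 : ℕ) : ℤ)) := Poly.natCast (Poly.succ hD)
  have hp := poly_prd β hw hk hD hS
  refine Poly.and (Poly.dec_eq (poly_cN hw hL') hL') (Poly.and (Poly.dec_eq (poly_eN hw hL') hL')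
    (Poly.and (Poly.decide_lt hD hM) (Poly.and (Poly.decide_le (Poly.length hS)
      (Poly.succ (Poly.mul (NPC.Poly.const 2) hL'))) (Poly.and ?_ (Poly.and ?_ ?_)))))
  · exact Poly.all (p := fun a (s : ℤ) => decide (s.natAbs < 2 ^ MM β (w a).length)) hS
      (Poly.decide_lt (Poly.natAbs (Poly.snd Poly.id)) (hM.comp (Poly.fst Poly.id)))
  · exact Poly.dec_eq (Poly.imul hD1 (Poly.imul (Poly.ipow hz hmv) (poly_QV β hw hz)))
      (Poly.imul (poly_evalL hS hz) (poly_PV β hw hz))
  · exact Poly.dec_eq (Poly.imul (Poly.idiv hp (Poly.succ hD)) hD1) hp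

theorem poly_flipx {w : α → List Let} (hw : NPC.Poly w) : NPC.Poly (fun a => flipx (w a)) := by
  unfold flipx
  refine NPC.Poly.map (F := fun _ (l : Let) => if l.1 = none then (none, !l.2) else l) hw ?_
  have h1 : NPC.Poly (fun p : α × Let => p.2) := Poly.snd Poly.id
  exact Poly.ite (p := fun p : α × Let => p.2.1 = none)
    (Poly.dec_eq (Poly.fst h1) (NPC.Poly.const none))
    (Poly.pair (NPC.Poly.const none) (Poly.not (Poly.snd h1))) h1

theorem poly_wsel {w : α → List Let} (hw : NPC.Poly w) {b : α → Bool} (hb : NPC.Poly b) :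
    NPC.Poly (fun a => wsel (b a) (w a)) := by
  unfold wsel
  exact Poly.ite (p := fun a => b a = true) (Poly.decide_bool hb) (poly_flipx hw) hw

theorem poly_ver (β : ℤ) : NPC.Poly (ver β) := by
  unfold ver
  have hc : NPC.Poly (fun p : List Let × Cert => p.2) := Poly.snd Poly.id
  have hw : NPC.Poly (fun p : List Let × Cert => wsel p.2.1 p.1) :=
    poly_wsel (Poly.fst Poly.id) (Poly.fst hc)
  have h2 := Poly.snd hc
  have h3 := Poly.snd h2
  have h4 := Poly.snd h3
  have h5 := Poly.snd h4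
  have h6 := Poly.snd h5
  exact Poly.ite (p := fun p : List Let × Cert => p.2.2.1 = true)
    (Poly.decide_bool (Poly.fst h2))
    (poly_verA β hw (Poly.fst h3) (Poly.fst h4))
    (poly_verB β hw (Poly.fst h3) (Poly.fst h5) (Poly.fst h6) (Poly.snd h6))

end poly

/-! ### The size of the certificates -/

theorem sz_int_bound {z : ℤ} {m : ℕ} (h : z.natAbs < 2 ^ m) : sz z ≤ 4 * m + 5 := by
  have h1 := sz_int_le z
  have h2 := Nat.size_le.2 h
  omega

theorem sz_nat_bound {z m : ℕ} (h : z < 2 ^ m) : sz z ≤ 4 * m + 1 := by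
  have h1 := sz_nat_le z
  have h2 := Nat.size_le.2 h
  omega

/-- bound for the size of the certificates -/
def csz (β : ℤ) (L : ℕ) : ℕ :=
  (4 * (K1 β L + MM β L + 1) + 1) + (4 * ((s0 β + 1) * I1 β L) + 5) + (4 * MM β L + 1) +
    (4 * (2 * L + 1) + 1) + ((2 * L + 1) * (4 * MM β L + 6) + 1) + 20

theorem sz_cert {β : ℤ} {L : ℕ} {c : Cert} (h : GoodC β L c) : sz c ≤ csz β L := by
  obtain ⟨fl, ty, k, j, D, v, S⟩ := c
  obtain ⟨h1, h2, h3, h4, h5, h6⟩ := h
  simp only at h1 h2 h3 h4 h5 h6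
  have e1 : sz k ≤ 4 * (K1 β L + MM β L + 1) + 1 := by
    apply sz_nat_bound
    have a1 : K1 β L < 2 ^ K1 β L := Nat.lt_two_pow_self
    have a2 : 2 ^ K1 β L ≤ 2 ^ (K1 β L + MM β L) := Nat.pow_le_pow_right (by norm_num) (by omega)
    have a3 : 2 ^ MM β L ≤ 2 ^ (K1 β L + MM β L) := Nat.pow_le_pow_right (by norm_num) (by omega)
    have a4 : 2 ^ (K1 β L + MM β L + 1) = 2 * 2 ^ (K1 β L + MM β L) := by rw [pow_succ]; ring
    omega
  have e2 := sz_int_bound h2
  have e3 := sz_nat_bound h3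
  have e4 : sz v ≤ 4 * (2 * L + 1) + 1 := by
    apply sz_nat_bound
    have a1 : 2 * L < 2 ^ (2 * L) := Nat.lt_two_pow_self
    have a2 : 2 ^ (2 * L + 1) = 2 * 2 ^ (2 * L) := by rw [pow_succ]; ring
    omega
  have e5 : sz S ≤ (2 * L + 1) * (4 * MM β L + 6) + 1 := by
    refine (sz_le_length_mul S (4 * MM β L + 5) fun s hs => sz_int_bound (h6 s hs)).trans ?_
    have := Nat.mul_le_mul_right (4 * MM β L + 6) h5
    linarith
  have e6 := sz_bool_le fl
  have e7 := sz_bool_le ty
  simp only [sz_pair]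
  unfold csz
  omega

/-- the bound as a polynomial -/
noncomputable def cpol (β : ℤ) : Polynomial ℕ :=
  let X : Polynomial ℕ := Polynomial.X
  let H : Polynomial ℕ := Polynomial.C (1 + 2 * s0 β) * X
  let M : Polynomial ℕ := (H + Polynomial.C 2) * (Polynomial.C 2 * X + Polynomial.C 2)
  let K : Polynomial ℕ := H + M + Polynomial.C 1
  let I : Polynomial ℕ := H + Polynomial.C (s0 β) * K * (Polynomial.C 2 * X) + Polynomial.C 1
  (Polynomial.C 4 * (K + M + Polynomial.C 1) + Polynomial.C 1) +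
    (Polynomial.C 4 * (Polynomial.C (s0 β + 1) * I) + Polynomial.C 5) +
    (Polynomial.C 4 * M + Polynomial.C 1) +
    (Polynomial.C 4 * (Polynomial.C 2 * X + Polynomial.C 1) + Polynomial.C 1) +
    ((Polynomial.C 2 * X + Polynomial.C 1) * (Polynomial.C 4 * M + Polynomial.C 6) +
      Polynomial.C 1) + Polynomial.C 20

theorem cpol_eval (β : ℤ) (L : ℕ) : (cpol β).eval L = csz β L := by
  unfold cpol csz I1 K1 MM hh
  simp only [Polynomial.eval_add, Polynomial.eval_mul, Polynomial.eval_C, Polynomial.eval_X]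

/-- Let `|β| ≥ 2`. The single one-variable equation problem of `BS(1, β)` is in `NP`. -/
theorem inNP {β : ℤ} (hβ : 2 ≤ |β|) : InNPP (OneVarEq (relBS β 0)) := by
  refine inNPP_of (β := Cert) (poly_ver β) (cpol β) fun w => ⟨fun h => ?_, fun h => ?_⟩
  · obtain ⟨c, hc, hv⟩ := ver_complete hβ h
    refine ⟨c, ?_, hv⟩
    refine (sz_cert hc).trans ?_
    rw [← cpol_eval]
    exact eval_mono _ (length_lt_sz w).le
  · obtain ⟨c, _, hv⟩ := h
    exact ver_sound hβ hv

end Pool.Agent.N582.BS
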