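import Pool.Agent.R542.Base

/-!
# Core and nucleus of a finite graph
-/

set_option autoImplicit false

namespace Pool.Agent.N582.CN

open Pool.Agent.NPC Pool.Agent.H692R2

variable {V : Type} [Fintype V]

/-- `S` is a maximum independent set of `G`. -/
def IsMaximumIndep (G : SimpleGraph V) (S : Finset V) : Prop :=
  G.IsIndepSet S ∧ ∀ T : Finset V, G.IsIndepSet T → T.card ≤ S.card

/-- `core(G)`: the intersection of all maximum independent sets. -/
def core (G : SimpleGraph V) : Set V := {v | ∀ S : Finset V, IsMaximumIndep G S → v ∈ S}

open Classical in
/-- `N(X)`: the vertices adjacent to some vertex of `X`. -/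
noncomputable def nbhd (G : SimpleGraph V) (X : Finset V) : Finset V :=
  Finset.univ.filter fun v => ∃ u ∈ X, G.Adj u v

/-- `d_G(X) = |X| - |N(X)|`. -/
noncomputable def diff (G : SimpleGraph V) (X : Finset V) : ℤ :=
  (X.card : ℤ) - ((nbhd G X).card : ℤ)

/-- `I` is a critical independent set. -/
def IsCritical (G : SimpleGraph V) (I : Finset V) : Prop :=
  G.IsIndepSet I ∧ ∀ J : Finset V, G.IsIndepSet J → diff G J ≤ diff G I

/-- `I` is a maximum critical independent set: a critical independent set of largest
cardinality. -/
def IsMaximumCritical (G : SimpleGraph V) (I : Finset V) : Prop :=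
  IsCritical G I ∧ ∀ J : Finset V, IsCritical G J → J.card ≤ I.card

/-- `nucleus(G)`: the intersection of all maximum critical independent sets. -/
def nucleus (G : SimpleGraph V) : Set V := {v | ∀ I : Finset V, IsMaximumCritical G I → v ∈ I}

/-- The recognition problem: given a finite simple graph, encoded by its adjacency matrix, does
`core(G) = nucleus(G)` hold? -/
def CoreEqNucleus (G : FinGraph) : Prop := core G.graph = nucleus G.graph

end Pool.Agent.N582.CN
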