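import Pool.Agent.N582.CNDefs
import Pool.Agent.NPC.Sat2

/-!
# Core equal to nucleus: hardness
-/

set_option autoImplicit false

namespace Pool.Agent.N582.CN

open Pool.Agent.NPC Pool.Agent.H692R2 Pool.Agent.NPC.R542 Pool.Agent.H673R2

section General

variable {V : Type} [Fintype V] [DecidableEq V]

theorem nbhd_empty (G : SimpleGraph V) : nbhd G ∅ = ∅ := by
  classical
  ext v; simp [nbhd]

theorem diff_empty (G : SimpleGraph V) : diff G ∅ = 0 := by
  simp [diff, nbhd_empty]

/-- If every nonempty independent set has more neighbours than elements, the nucleus is empty. -/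
theorem nucleus_eq_empty (G : SimpleGraph V)
    (h : ∀ I : Finset V, G.IsIndepSet I → I.Nonempty → I.card < (nbhd G I).card) :
    nucleus G = ∅ := by
  have hneg : ∀ I : Finset V, G.IsIndepSet I → I.Nonempty → diff G I < 0 := by
    intro I hI hne
    have := h I hI hne
    unfold diff
    omega
  have h0 : IsMaximumCritical G ∅ := by
    refine ⟨⟨by simp [SimpleGraph.IsIndepSet], fun J hJ => ?_⟩, fun J hJ => ?_⟩
    · rw [diff_empty]
      rcases J.eq_empty_or_nonempty with rfl | hne
      · rw [diff_empty]
      · exact (hneg J hJ hne).le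
    · rcases J.eq_empty_or_nonempty with rfl | hne
      · exact le_rfl
      · have h1 := hJ.2 ∅ (by simp [SimpleGraph.IsIndepSet])
        rw [diff_empty] at h1
        have := hneg J hJ.1 hne
        omega
  ext v
  simp only [nucleus, Set.mem_setOf_eq, Set.mem_empty_iff_false, iff_false, not_forall]
  exact ⟨∅, h0, by simp⟩

/-- There is a maximum independent set. -/
theorem exists_max (G : SimpleGraph V) : ∃ S : Finset V, IsMaximumIndep G S := by
  classical
  have hne : (Finset.univ.filter fun S : Finset V => G.IsIndepSet S).Nonempty :=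
    ⟨∅, by simp [SimpleGraph.IsIndepSet]⟩
  obtain ⟨S, hS, hmax⟩ := Finset.exists_max_image _ Finset.card hne
  exact ⟨S, (Finset.mem_filter.1 hS).2, fun T hT => hmax T (Finset.mem_filter.2 ⟨Finset.mem_univ _, hT⟩)⟩

theorem max_of_card_ge {G : SimpleGraph V} {S T : Finset V} (hS : IsMaximumIndep G S)
    (hT : G.IsIndepSet T) (h : S.card ≤ T.card) : IsMaximumIndep G T :=
  ⟨hT, fun U hU => (hS.2 U hU).trans h⟩

/-- A set of independent vertices in a join lies on one side. -/
theorem join_side {G : SimpleGraph V} {p : V → Prop} (hj : ∀ u v, p u → ¬ p v → G.Adj u v)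
    {I : Finset V} (hI : G.IsIndepSet I) : (∀ v ∈ I, p v) ∨ (∀ v ∈ I, ¬ p v) := by
  classical
  by_contra hcon
  push Not at hcon
  obtain ⟨⟨u, hu, hpu⟩, v, hv, hpv⟩ := hcon
  have hadj := hj v u hpv hpu
  exact hI (Finset.mem_coe.2 hv) (Finset.mem_coe.2 hu) hadj.ne hadj

/-- The nucleus of a join of two parts, each of which is bigger than the independence number of the
other one, is empty. -/
theorem join_nucleus {G : SimpleGraph V} {p : V → Prop} [DecidablePred p] (hj : ∀ u v, p u → ¬ p v → G.Adj u v)
    (h1 : ∀ I : Finset V, G.IsIndepSet I → (∀ v ∈ I, p v) →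
      I.card < (Finset.univ.filter fun v => ¬ p v).card)
    (h2 : ∀ I : Finset V, G.IsIndepSet I → (∀ v ∈ I, ¬ p v) →
      I.card < (Finset.univ.filter fun v => p v).card) : nucleus G = ∅ := by
  refine nucleus_eq_empty G fun I hI hne => ?_
  obtain ⟨x, hx⟩ := hne
  rcases join_side hj hI with h | h
  · refine (h1 I hI h).trans_le (Finset.card_le_card fun v hv => ?_)
    simp only [Finset.mem_filter, Finset.mem_univ, true_and] at hv
    simp only [nbhd, Finset.mem_filter, Finset.mem_univ, true_and]
    exact ⟨x, hx, hj x v (h x hx) hv⟩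
  · refine (h2 I hI h).trans_le (Finset.card_le_card fun v hv => ?_)
    simp only [Finset.mem_filter, Finset.mem_univ, true_and] at hv
    simp only [nbhd, Finset.mem_filter, Finset.mem_univ, true_and]
    exact ⟨x, hx, (hj v x hv (h x hx)).symm⟩

end General

/-! ### First reduction -/

/-- The adjacency of the first graph.  The vertices below `2 n + 2` are the vertices of `G` and an
isolated vertex, doubled; the other ones are `j` isolated vertices and a clique with `n + 2`
vertices. -/
noncomputable def adj1 (G : FinGraph) (j x y : ℕ) : Bool :=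
  !(decide (x = y)) &&
    ((decide (x < 2 * G.n + 2) && decide (y < 2 * G.n + 2) &&
        (decide (x / 2 = y / 2) || adjB G (x / 2) (y / 2))) ||
      (decide (x < 2 * G.n + 2) && !(decide (y < 2 * G.n + 2))) ||
      (!(decide (x < 2 * G.n + 2)) && decide (y < 2 * G.n + 2)) ||
      (decide (2 * G.n + 2 + j ≤ x) && decide (2 * G.n + 2 + j ≤ y)))

/-- number of vertices of the first graph -/
def size1 (G : FinGraph) (j : ℕ) : ℕ := 2 * G.n + 2 + j + (G.n + 2)

end Pool.Agent.N582.CN
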