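import Pool.Agent.N582.CNMain

/-!
# Core equal to nucleus: the first reduction (from independent sets)
-/

set_option autoImplicit false

namespace Pool.Agent.N582.CN

open Pool.Agent.NPC Pool.Agent.H692R2 Pool.Agent.NPC.R542 Pool.Agent.H673R2

theorem adjB_lt {G : FinGraph} {i j : ℕ} (h : adjB G i j = true) : i < G.n ∧ j < G.n := by
  classical
  unfold adjB at h
  have h1 : i < G.n := by
    by_contra hi
    have e : G.matrix.getD i [] = [] :=
      List.getD_eq_default _ _ (by rw [matrix_length]; omega)
    rw [e] at h
    simp at h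
  refine ⟨h1, ?_⟩
  by_contra hj
  have h2 : (G.matrix.getD i []).length = G.n := by
    unfold FinGraph.matrix
    rw [List.getD_eq_getElem _ _ (by simpa using h1)]
    simp
  have e : (G.matrix.getD i []).getD j false = false :=
    List.getD_eq_default _ _ (by rw [h2]; omega)
  rw [e] at h
  simp at h

theorem adjB_comm (G : FinGraph) (i j : ℕ) : adjB G i j = adjB G j i := by
  cases h : adjB G i j with
  | true =>
    have h1 := adjB_lt h
    rw [← adjB_symm G i j h1.1 h1.2, h]
  | false =>
    cases h' : adjB G j i with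
    | true =>
      have h1 := adjB_lt h'
      rw [adjB_symm G j i h1.1 h1.2, h] at h'
      exact h'
    | false => rfl

theorem adj1_iff {G : FinGraph} {j x y : ℕ} : adj1 G j x y = true ↔ x ≠ y ∧
    ((x < 2 * G.n + 2 ∧ y < 2 * G.n + 2 ∧ (x / 2 = y / 2 ∨ adjB G (x / 2) (y / 2) = true)) ∨
      (x < 2 * G.n + 2 ∧ 2 * G.n + 2 ≤ y) ∨ (2 * G.n + 2 ≤ x ∧ y < 2 * G.n + 2) ∨
      (2 * G.n + 2 + j ≤ x ∧ 2 * G.n + 2 + j ≤ y)) := by
  unfold adj1
  simp only [Bool.and_eq_true, Bool.not_eq_true', decide_eq_false_iff_not, Bool.or_eq_true,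
    decide_eq_true_eq, not_lt, ne_eq]
  tauto

/-- the first graph -/
def graph1 (G : FinGraph) (j : ℕ) : SimpleGraph (Fin (size1 G j)) where
  Adj x y := adj1 G j x y = true
  symm := ⟨fun x y h => by
    rw [adj1_iff] at h ⊢
    rw [adjB_comm G (y / 2) (x / 2)]
    obtain ⟨h1, h2⟩ := h
    refine ⟨h1.symm, ?_⟩
    rcases h2 with ⟨h3, h4, h5⟩ | h3 | h3 | h3
    · exact Or.inl ⟨h4, h3, h5.imp Eq.symm id⟩
    · right; right; left; omega
    · right; left; omega
    · right; right; right; omega⟩
  loopless := ⟨fun x h => by
    rw [adj1_iff] at h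
    exact h.1 rfl⟩

theorem adj_iff {G : FinGraph} {j : ℕ} {x y : Fin (size1 G j)} : (graph1 G j).Adj x y ↔
    (x : ℕ) ≠ y ∧
    (((x : ℕ) < 2 * G.n + 2 ∧ (y : ℕ) < 2 * G.n + 2 ∧
        ((x : ℕ) / 2 = y / 2 ∨ adjB G (x / 2) (y / 2) = true)) ∨
      ((x : ℕ) < 2 * G.n + 2 ∧ 2 * G.n + 2 ≤ (y : ℕ)) ∨
      (2 * G.n + 2 ≤ (x : ℕ) ∧ (y : ℕ) < 2 * G.n + 2) ∨
      (2 * G.n + 2 + j ≤ (x : ℕ) ∧ 2 * G.n + 2 + j ≤ (y : ℕ))) := adj1_iff

theorem join1 (G : FinGraph) (j : ℕ) (u v : Fin (size1 G j)) (hu : (u : ℕ) < 2 * G.n + 2)
    (hv : ¬ (v : ℕ) < 2 * G.n + 2) : (graph1 G j).Adj u v := by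
  rw [adj_iff]
  omega

/-- An independent set in the first part gives an independent set of `G`. -/
theorem left_bound {G : FinGraph} {j : ℕ} {I : Finset (Fin (size1 G j))}
    (hI : (graph1 G j).IsIndepSet I) (hP : ∀ v ∈ I, (v : ℕ) < 2 * G.n + 2) :
    ∃ T : Finset (Fin G.n), G.graph.IsIndepSet T ∧ I.card ≤ T.card + 1 := by
  classical
  refine ⟨Finset.univ.filter fun i : Fin G.n => ∃ x ∈ I, (x : ℕ) / 2 = i, ?_, ?_⟩
  · intro a ha b hb hab hadj
    simp only [Finset.coe_filter, Finset.mem_univ, true_and, Set.mem_ofPred_eq] at ha hb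
    obtain ⟨x, hx, hxa⟩ := ha
    obtain ⟨y, hy, hyb⟩ := hb
    have hne : x ≠ y := by
      rintro rfl
      exact hab (Fin.ext (by omega))
    refine hI hx hy hne ?_
    rw [adj_iff]
    refine ⟨fun h => hne (Fin.ext h), Or.inl ⟨hP x hx, hP y hy, Or.inr ?_⟩⟩
    rw [hxa, hyb, adjB_iff]
    exact hadj
  · set T := Finset.univ.filter fun i : Fin G.n => ∃ x ∈ I, (x : ℕ) / 2 = i with hT
    have h1 : I.card ≤ (T.image (fun i : Fin G.n => (i : ℕ)) ∪ {G.n}).card := by
      refine Finset.card_le_card_of_injOn (fun x => (x : ℕ) / 2) ?_ ?_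
      · intro x hx
        have hx' := hP x hx
        simp only [Finset.coe_union, Finset.coe_image, Finset.coe_singleton, Set.union_singleton,
          Set.mem_insert_iff, Set.mem_image]
        by_cases h : (x : ℕ) / 2 = G.n
        · exact Or.inl h
        · right
          refine ⟨⟨(x : ℕ) / 2, by omega⟩, ?_, rfl⟩
          rw [Finset.mem_coe, hT, Finset.mem_filter]
          exact ⟨Finset.mem_univ _, x, hx, rfl⟩
      · intro x hx y hy hxy
        by_contra hne
        refine hI hx hy hne ?_
        rw [adj_iff]
        exact ⟨fun h => hne (Fin.ext h), Or.inl ⟨hP x hx, hP y hy, Or.inl hxy⟩⟩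
    have h2 := Finset.card_union_le (T.image (fun i : Fin G.n => (i : ℕ))) {G.n}
    have h3 : (T.image (fun i : Fin G.n => (i : ℕ))).card ≤ T.card := Finset.card_image_le
    simp only [Finset.card_singleton] at h2
    omega

/-- An independent set in the second part has at most `j + 1` vertices. -/
theorem right_bound {G : FinGraph} {j : ℕ} {I : Finset (Fin (size1 G j))}
    (hI : (graph1 G j).IsIndepSet I) (hP : ∀ v ∈ I, ¬ (v : ℕ) < 2 * G.n + 2) :
    I.card ≤ j + 1 := by
  classical
  have h1 : I.card ≤ (Finset.range (j + 1)).card := by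
    refine Finset.card_le_card_of_injOn (fun x => min ((x : ℕ) - (2 * G.n + 2)) j) ?_ ?_
    · intro x hx
      simp only [Finset.coe_range, Set.mem_Iio]
      omega
    · intro x hx y hy hxy
      simp only at hxy
      by_contra hne
      have h3 := hP x hx
      have h4 := hP y hy
      have hne' : (x : ℕ) ≠ y := fun h => hne (Fin.ext h)
      refine hI hx hy hne ?_
      rw [adj_iff]
      omega
  simpa using h1

theorem mem_size {G : FinGraph} {j x : ℕ} (h : x < 2 * G.n + 2 + j + (G.n + 2)) :
    x < size1 G j := h

theorem nucleus1 (G : FinGraph) (j : ℕ) (h : j ≤ 2 * G.n) : nucleus (graph1 G j) = ∅ := by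
  refine join_nucleus (p := fun v => (v : ℕ) < 2 * G.n + 2) (join1 G j) ?_ ?_
  · intro I hI hP
    obtain ⟨T, -, hT⟩ := left_bound hI hP
    have h1 : T.card ≤ G.n := by simpa using Finset.card_le_univ T
    have h2 : (Finset.Ico (2 * G.n + 2) (size1 G j)).card ≤
        (Finset.univ.filter fun v : Fin (size1 G j) => ¬ (v : ℕ) < 2 * G.n + 2).card := by
      refine Finset.card_le_card_of_surjOn (fun v => (v : ℕ)) ?_
      intro x hx
      simp only [Finset.coe_Ico, Set.mem_Ico] at hx
      refine ⟨⟨x, hx.2⟩, ?_, rfl⟩
      simp only [Finset.coe_filter, Finset.mem_univ, true_and, Set.mem_ofPred_eq]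
      omega
    rw [Nat.card_Ico] at h2
    have hs : size1 G j = 2 * G.n + 2 + j + (G.n + 2) := rfl
    omega
  · intro I hI hP
    have h1 := right_bound hI hP
    have h2 : (Finset.range (2 * G.n + 2)).card ≤
        (Finset.univ.filter fun v : Fin (size1 G j) => (v : ℕ) < 2 * G.n + 2).card := by
      refine Finset.card_le_card_of_surjOn (fun v => (v : ℕ)) ?_
      intro x hx
      simp only [Finset.coe_range, Set.mem_Iio] at hx
      refine ⟨⟨x, mem_size (by omega)⟩, ?_, rfl⟩
      simp only [Finset.coe_filter, Finset.mem_univ, true_and, Set.mem_ofPred_eq]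
      exact hx
    rw [Finset.card_range] at h2
    omega

/-- If `G` has an independent set with `j` elements then the core of the first graph is empty. -/
theorem core1_of (G : FinGraph) (j : ℕ) (h : HasIndep (G, j)) : core (graph1 G j) = ∅ := by
  classical
  obtain ⟨S, hS, hcard⟩ := h
  simp only at S hS hcard
  ext x
  simp only [core, Set.mem_ofPred_eq, Set.mem_empty_iff_false, iff_false]
  intro hx
  obtain ⟨M, hM⟩ := exists_max (graph1 G j)
  have hxM := hx M hM
  rcases join_side (join1 G j) hM.1 with hP | hP
  · -- replace `x` by its twin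
    have hxP := hP x hxM
    let x' : Fin (size1 G j) := ⟨x / 2 * 2 + (1 - x % 2), mem_size (by omega)⟩
    have hx'2 : (x' : ℕ) / 2 = x / 2 := by
      simp only [x']
      omega
    have hx'P : (x' : ℕ) < 2 * G.n + 2 := by
      simp only [x']
      omega
    have hx'ne : (x' : ℕ) ≠ x := by
      simp only [x']
      omega
    have hx'M : x' ∉ M := by
      intro hmem
      refine hM.1 hmem hxM (fun h => hx'ne (congrArg Fin.val h)) ?_
      rw [adj_iff]
      exact ⟨hx'ne, Or.inl ⟨hx'P, hxP, Or.inl hx'2⟩⟩
    have key : ∀ y ∈ M, y ≠ x → ¬ (graph1 G j).Adj x' y := by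
      intro y hy hyx hadj
      refine hM.1 hxM hy hyx.symm ?_
      rw [adj_iff] at hadj ⊢
      rw [hx'2] at hadj
      refine ⟨fun h => hyx (Fin.ext h).symm, Or.inl ⟨hxP, hP y hy, ?_⟩⟩
      have hyP := hP y hy
      rcases hadj.2 with h1 | h1 | h1 | h1
      · exact h1.2.2
      · omega
      · omega
      · omega
    have hM' : (graph1 G j).IsIndepSet (insert x' (M.erase x) : Finset _) := by
      intro a ha b hb hab
      simp only [Finset.coe_insert, Finset.coe_erase, Set.mem_insert_iff, Set.mem_sdiff,
        Finset.mem_coe, Set.mem_singleton_iff] at ha hb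
      rcases ha with rfl | ⟨ha, ha'⟩ <;> rcases hb with rfl | ⟨hb, hb'⟩
      · exact absurd rfl hab
      · exact key b hb hb'
      · exact fun h => key a ha ha' h.symm
      · exact hM.1 ha hb hab
    have hc : M.card ≤ (insert x' (M.erase x)).card := by
      rw [Finset.card_insert_of_notMem (fun h => hx'M (Finset.mem_of_mem_erase h)),
        Finset.card_erase_add_one hxM]
    have := hx _ (max_of_card_ge hM hM' hc)
    rw [Finset.mem_insert] at this
    rcases this with h1 | h1
    · exact hx'ne (congrArg Fin.val h1).symm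
    · exact absurd rfl (Finset.ne_of_mem_erase h1)
  · -- an independent set in the first part
    have h1 := right_bound hM.1 hP
    let f : Option (Fin G.n) → Fin (size1 G j) := fun o =>
      ⟨2 * (o.elim G.n (fun i => (i : ℕ))), mem_size (by
        cases o with
        | none => simp only [Option.elim_none]; omega
        | some i => have := i.2; simp only [Option.elim_some]; omega)⟩
    have hf : Function.Injective f := by
      intro a b hab
      have := congrArg Fin.val hab
      simp only [f] at this
      cases a with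
      | none =>
        cases b with
        | none => rfl
        | some b => have := b.2; simp only [Option.elim_none, Option.elim_some] at *; omega
      | some a =>
        cases b with
        | none => have := a.2; simp only [Option.elim_none, Option.elim_some] at *; omega
        | some b =>
          simp only [Option.elim_some] at this
          exact congrArg some (Fin.ext (by omega))
    let T : Finset (Option (Fin G.n)) := insert none (S.image some)
    have hT : T.card = j + 1 := by
      rw [Finset.card_insert_of_notMem (by simp), Finset.card_image_of_injective _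
        (Option.some_injective _), hcard]
    have hfP : ∀ o, (f o : ℕ) < 2 * G.n + 2 := by
      intro o
      cases o with
      | none => simp only [f, Option.elim_none]; omega
      | some i => have := i.2; simp only [f, Option.elim_some]; omega
    have hind : (graph1 G j).IsIndepSet (T.image f : Finset _) := by
      intro a ha b hb hab hadj
      rw [Finset.mem_coe, Finset.mem_image] at ha hb
      obtain ⟨o, ho, rfl⟩ := ha
      obtain ⟨o', ho', rfl⟩ := hb
      rw [adj_iff] at hadj
      have h3 := hfP o
      have h4 := hfP o'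
      rcases hadj.2 with h5 | h5 | h5 | h5
      · have h6 := hadj.1
        have h7 := h5.2.2
        have e : ∀ o, (f o : ℕ) / 2 = o.elim G.n (fun i => (i : ℕ)) := by
          intro o; simp only [f]; omega
        rw [e, e] at h7
        have e2 : ∀ o, (f o : ℕ) = 2 * o.elim G.n (fun i => (i : ℕ)) := by
          intro o; rfl
        rw [e2, e2] at h6
        rcases h7 with h7 | h7
        · omega
        · have h8 := adjB_lt h7
          cases o with
          | none => simp only [Option.elim_none] at h8; omega
          | some i =>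
            cases o' with
            | none => simp only [Option.elim_none] at h8; omega
            | some i' =>
              simp only [Option.elim_some] at h7 h6
              rw [adjB_iff] at h7
              simp only [T, Finset.mem_insert, reduceCtorEq, Finset.mem_image, Option.some.injEq,
                exists_eq_right, false_or] at ho ho'
              exact hS ho ho' (fun h => h6 (by rw [h])) h7
      · omega
      · omega
      · omega
    have h2 : M.card ≤ (T.image f).card := by
      rw [Finset.card_image_of_injective _ hf, hT]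
      exact h1
    have h3 := hx _ (max_of_card_ge hM hind h2)
    rw [Finset.mem_image] at h3
    obtain ⟨o, -, ho⟩ := h3
    exact hP x hxM (ho ▸ hfP o)

/-- If `G` has no independent set with `j` elements then the core of the first graph is not
empty. -/
theorem core1_not (G : FinGraph) (j : ℕ) (h : ¬ HasIndep (G, j)) : core (graph1 G j) ≠ ∅ := by
  classical
  have hlt : ∀ S : Finset (Fin G.n), G.graph.IsIndepSet S → S.card < j := by
    intro S hS
    by_contra hcon
    obtain ⟨T, hT, hTc⟩ := Finset.exists_subset_card_eq (by omega : j ≤ S.card)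
    exact h ⟨T, fun a ha b hb hab => hS (hT ha) (hT hb) hab, hTc⟩
  have hj : 0 < j := by
    have := hlt ∅ (by simp [SimpleGraph.IsIndepSet])
    simpa using this
  let q : Fin (size1 G j) := ⟨2 * G.n + 2, mem_size (by omega)⟩
  have hq : q ∈ core (graph1 G j) := by
    intro M hM
    have hR : j + 1 ≤ M.card := by
      let g : Fin (j + 1) → Fin (size1 G j) := fun i => ⟨2 * G.n + 2 + i, mem_size (by omega)⟩
      have hg : Function.Injective g := by
        intro a b hab
        have := congrArg Fin.val hab
        simp only [g] at this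
        exact Fin.ext (by omega)
      have h1 := hM.2 (Finset.univ.image g) (by
        intro a ha b hb hab hadj
        rw [Finset.mem_coe, Finset.mem_image] at ha hb
        obtain ⟨i, -, rfl⟩ := ha
        obtain ⟨i', -, rfl⟩ := hb
        rw [adj_iff] at hadj
        simp only [g] at hadj
        have := i.2
        have := i'.2
        omega)
      rw [Finset.card_image_of_injective _ hg, Finset.card_univ, Fintype.card_fin] at h1
      exact h1
    rcases join_side (join1 G j) hM.1 with hP | hP
    · obtain ⟨T, hT, hTc⟩ := left_bound hM.1 hP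
      have := hlt T hT
      omega
    · by_contra hqM
      have hins : (graph1 G j).IsIndepSet (insert q M : Finset _) := by
        have key : ∀ y ∈ M, ¬ (graph1 G j).Adj q y := by
          intro y hy hadj
          rw [adj_iff] at hadj
          have := hP y hy
          simp only [q] at hadj
          omega
        intro a ha b hb hab
        simp only [Finset.coe_insert, Set.mem_insert_iff, Finset.mem_coe] at ha hb
        rcases ha with rfl | ha <;> rcases hb with rfl | hb
        · exact absurd rfl hab
        · exact key b hb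
        · exact fun h => key a ha h.symm
        · exact hM.1 ha hb hab
      have := hM.2 _ hins
      rw [Finset.card_insert_of_notMem hqM] at this
      omega
  intro he
  rw [he] at hq
  exact hq

theorem correct1 (G : FinGraph) (j : ℕ) (hj : j ≤ 2 * G.n) :
    HasIndep (G, j) ↔ CoreEqNucleus ⟨size1 G j, graph1 G j⟩ := by
  unfold CoreEqNucleus
  simp only
  rw [nucleus1 G j hj]
  constructor
  · exact core1_of G j
  · intro h
    by_contra hcon
    exact core1_not G j hcon h

theorem poly_adj1 {α : Type} [TEnc α] {G : α → FinGraph} {j x y : α → ℕ} (hG : NPC.Poly G)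
    (hj : NPC.Poly j) (hx : NPC.Poly x) (hy : NPC.Poly y) :
    NPC.Poly (fun a => adj1 (G a) (j a) (x a) (y a)) := by
  have h2n : NPC.Poly (fun a => 2 * (G a).n + 2) :=
    NPC.Poly.add (NPC.Poly.mul (NPC.Poly.const 2) (poly_n hG)) (NPC.Poly.const 2)
  have h2nj : NPC.Poly (fun a => 2 * (G a).n + 2 + j a) := NPC.Poly.add h2n hj
  have hx2 : NPC.Poly (fun a => x a / 2) := NPC.Poly.div hx (NPC.Poly.const 2)
  have hy2 : NPC.Poly (fun a => y a / 2) := NPC.Poly.div hy (NPC.Poly.const 2)
  unfold adj1
  refine NPC.Poly.and (NPC.Poly.not (NPC.Poly.decide_eq hx hy)) (NPC.Poly.or (NPC.Poly.or (NPC.Poly.or (NPC.Poly.and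
    (NPC.Poly.and (NPC.Poly.decide_lt hx h2n) (NPC.Poly.decide_lt hy h2n)) (NPC.Poly.or (NPC.Poly.decide_eq hx2 hy2)
      (poly_adjB hG hx2 hy2))) (NPC.Poly.and (NPC.Poly.decide_lt hx h2n) (NPC.Poly.not
        (NPC.Poly.decide_lt hy h2n)))) (NPC.Poly.and (NPC.Poly.not (NPC.Poly.decide_lt hx h2n))
          (NPC.Poly.decide_lt hy h2n))) (NPC.Poly.and (NPC.Poly.decide_le h2nj hx) (NPC.Poly.decide_le h2nj hy)))

/-- The number of vertices of the first graph, bounded for instances with large `j`. -/
theorem poly1 : NPC.Poly (fun I : FinGraph × ℕ =>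
    (⟨size1 I.1 (min I.2 I.1.n), graph1 I.1 (min I.2 I.1.n)⟩ : FinGraph)) := by
  have hG : NPC.Poly (fun I : FinGraph × ℕ => I.1) := NPC.Poly.fst NPC.Poly.id
  have hn : UPoly (fun I : FinGraph × ℕ => I.1.n) := upoly_n hG
  have hmin : NPC.Poly (fun I : FinGraph × ℕ => min I.2 I.1.n) :=
    NPC.Poly.min (NPC.Poly.snd NPC.Poly.id) (poly_n hG)
  have hminU : UPoly (fun I : FinGraph × ℕ => min I.2 I.1.n) :=
    UPoly.of_le hmin hn fun _ => min_le_right _ _
  refine poly_finGraph (b := fun I x y => adj1 I.1 (min I.2 I.1.n) x y) ?_ ?_ ?_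
  · unfold size1
    exact UPoly.add (UPoly.add (UPoly.add (UPoly.mul (UPoly.const 2) hn) (UPoly.const 2)) hminU)
      (UPoly.add hn (UPoly.const 2))
  · have h3 : NPC.Poly (fun p : ((FinGraph × ℕ) × ℕ) × ℕ => p.1.1) := NPC.Poly.fst (NPC.Poly.fst NPC.Poly.id)
    exact poly_adj1 (NPC.Poly.fst h3) (hmin.comp h3) (NPC.Poly.snd (NPC.Poly.fst NPC.Poly.id)) (NPC.Poly.snd NPC.Poly.id)
  · intro I x y
    exact Iff.rfl

end Pool.Agent.N582.CN
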