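import Pool.Agent.N582.CNRed1

/-!
# Core equal to nucleus: the second reduction (from the complement of independent sets)
-/

set_option autoImplicit false

namespace Pool.Agent.N582.CN

open Pool.Agent.NPC Pool.Agent.H692R2 Pool.Agent.NPC.R542 Pool.Agent.H673R2

/-- number of vertices of the second graph -/
def size2 (G : FinGraph) (j : ℕ) : ℕ := G.n + 1 + 3 * j

/-- The adjacency of the second graph.  The vertices below `n + 1` are the vertices of `G` and an
isolated vertex; the other ones form `j` triangles. -/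
noncomputable def adj2 (G : FinGraph) (x y : ℕ) : Bool :=
  !(decide (x = y)) &&
    ((decide (x < G.n + 1) && decide (y < G.n + 1) && adjB G x y) ||
      (decide (x < G.n + 1) && !(decide (y < G.n + 1))) ||
      (!(decide (x < G.n + 1)) && decide (y < G.n + 1)) ||
      (!(decide (x < G.n + 1)) && !(decide (y < G.n + 1)) &&
        decide ((x - (G.n + 1)) / 3 = (y - (G.n + 1)) / 3)))

theorem adj2_iff {G : FinGraph} {x y : ℕ} : adj2 G x y = true ↔ x ≠ y ∧
    ((x < G.n + 1 ∧ y < G.n + 1 ∧ adjB G x y = true) ∨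
      (x < G.n + 1 ∧ G.n + 1 ≤ y) ∨ (G.n + 1 ≤ x ∧ y < G.n + 1) ∨
      (G.n + 1 ≤ x ∧ G.n + 1 ≤ y ∧ (x - (G.n + 1)) / 3 = (y - (G.n + 1)) / 3)) := by
  unfold adj2
  simp only [Bool.and_eq_true, Bool.not_eq_true', decide_eq_false_iff_not, Bool.or_eq_true,
    decide_eq_true_eq, not_lt, ne_eq]
  tauto

/-- the second graph -/
def graph2 (G : FinGraph) (j : ℕ) : SimpleGraph (Fin (size2 G j)) where
  Adj x y := adj2 G x y = true
  symm := ⟨fun x y h => by
    rw [adj2_iff] at h ⊢
    rw [adjB_comm G y x]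
    obtain ⟨h1, h2⟩ := h
    refine ⟨h1.symm, ?_⟩
    rcases h2 with ⟨h3, h4, h5⟩ | h3 | h3 | h3
    · exact Or.inl ⟨h4, h3, h5⟩
    · right; right; left; omega
    · right; left; omega
    · right; right; right; omega⟩
  loopless := ⟨fun x h => by
    rw [adj2_iff] at h
    exact h.1 rfl⟩

theorem gadj_iff {G : FinGraph} {j : ℕ} {x y : Fin (size2 G j)} : (graph2 G j).Adj x y ↔
    (x : ℕ) ≠ y ∧
    (((x : ℕ) < G.n + 1 ∧ (y : ℕ) < G.n + 1 ∧ adjB G x y = true) ∨
      ((x : ℕ) < G.n + 1 ∧ G.n + 1 ≤ (y : ℕ)) ∨ (G.n + 1 ≤ (x : ℕ) ∧ (y : ℕ) < G.n + 1) ∨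
      (G.n + 1 ≤ (x : ℕ) ∧ G.n + 1 ≤ (y : ℕ) ∧
        ((x : ℕ) - (G.n + 1)) / 3 = ((y : ℕ) - (G.n + 1)) / 3)) := adj2_iff

theorem join2 (G : FinGraph) (j : ℕ) (u v : Fin (size2 G j)) (hu : (u : ℕ) < G.n + 1)
    (hv : ¬ (v : ℕ) < G.n + 1) : (graph2 G j).Adj u v := by
  rw [gadj_iff]
  omega

theorem left_bound2 {G : FinGraph} {j : ℕ} {I : Finset (Fin (size2 G j))}
    (hI : (graph2 G j).IsIndepSet I) (hP : ∀ v ∈ I, (v : ℕ) < G.n + 1) :
    ∃ T : Finset (Fin G.n), G.graph.IsIndepSet T ∧ I.card ≤ T.card + 1 := by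
  classical
  refine ⟨Finset.univ.filter fun i : Fin G.n => ∃ x ∈ I, (x : ℕ) = i, ?_, ?_⟩
  · intro a ha b hb hab hadj
    simp only [Finset.coe_filter, Finset.mem_univ, true_and, Set.mem_ofPred_eq] at ha hb
    obtain ⟨x, hx, hxa⟩ := ha
    obtain ⟨y, hy, hyb⟩ := hb
    have hne : x ≠ y := by
      rintro rfl
      exact hab (Fin.ext (by omega))
    refine hI hx hy hne ?_
    rw [gadj_iff]
    refine ⟨fun h => hne (Fin.ext h), Or.inl ⟨hP x hx, hP y hy, ?_⟩⟩
    rw [hxa, hyb, adjB_iff]
    exact hadj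
  · set T := Finset.univ.filter fun i : Fin G.n => ∃ x ∈ I, (x : ℕ) = i with hT
    have h1 : I.card ≤ (T.image (fun i : Fin G.n => (i : ℕ)) ∪ {G.n}).card := by
      refine Finset.card_le_card_of_injOn (fun x => (x : ℕ)) ?_ ?_
      · intro x hx
        have hx' := hP x hx
        simp only [Finset.coe_union, Finset.coe_image, Finset.coe_singleton, Set.union_singleton,
          Set.mem_insert_iff, Set.mem_image]
        by_cases h : (x : ℕ) = G.n
        · exact Or.inl h
        · right
          refine ⟨⟨(x : ℕ), by omega⟩, ?_, rfl⟩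
          rw [Finset.mem_coe, hT, Finset.mem_filter]
          exact ⟨Finset.mem_univ _, x, hx, rfl⟩
      · intro x hx y hy hxy
        exact Fin.ext hxy
    have h2 := Finset.card_union_le (T.image (fun i : Fin G.n => (i : ℕ))) {G.n}
    have h3 : (T.image (fun i : Fin G.n => (i : ℕ))).card ≤ T.card := Finset.card_image_le
    simp only [Finset.card_singleton] at h2
    omega

theorem right_bound2 {G : FinGraph} {j : ℕ} {I : Finset (Fin (size2 G j))}
    (hI : (graph2 G j).IsIndepSet I) (hP : ∀ v ∈ I, ¬ (v : ℕ) < G.n + 1) : I.card ≤ j := by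
  classical
  have h1 : I.card ≤ (Finset.range j).card := by
    refine Finset.card_le_card_of_injOn (fun x => ((x : ℕ) - (G.n + 1)) / 3) ?_ ?_
    · intro x hx
      have h2 : (x : ℕ) < G.n + 1 + 3 * j := x.2
      have h3 := hP x hx
      simp only [Finset.coe_range, Set.mem_Iio]
      omega
    · intro x hx y hy hxy
      simp only at hxy
      by_contra hne
      have h3 := hP x hx
      have h4 := hP y hy
      have hne' : (x : ℕ) ≠ y := fun h => hne (Fin.ext h)
      refine hI hx hy hne ?_
      rw [gadj_iff]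
      omega
  simpa using h1

theorem mem_size2 {G : FinGraph} {j x : ℕ} (h : x < G.n + 1 + 3 * j) : x < size2 G j := h

theorem nucleus2 (G : FinGraph) (j : ℕ) (hb : Bounded (G, j)) (hn : G.n = 3 * j) (hj : 1 ≤ j) :
    nucleus (graph2 G j) = ∅ := by
  classical
  refine join_nucleus (p := fun v => (v : ℕ) < G.n + 1) (join2 G j) ?_ ?_
  · intro I hI hP
    obtain ⟨T, hT, hTc⟩ := left_bound2 hI hP
    have h1 : T.card ≤ j := hb T hT
    have h2 : (Finset.Ico (G.n + 1) (size2 G j)).card ≤
        (Finset.univ.filter fun v : Fin (size2 G j) => ¬ (v : ℕ) < G.n + 1).card := by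
      refine Finset.card_le_card_of_surjOn (fun v => (v : ℕ)) ?_
      intro x hx
      simp only [Finset.coe_Ico, Set.mem_Ico] at hx
      refine ⟨⟨x, hx.2⟩, ?_, rfl⟩
      simp only [Finset.coe_filter, Finset.mem_univ, true_and, Set.mem_ofPred_eq]
      omega
    rw [Nat.card_Ico] at h2
    have hs : size2 G j = G.n + 1 + 3 * j := rfl
    omega
  · intro I hI hP
    have h1 := right_bound2 hI hP
    have h2 : (Finset.range (G.n + 1)).card ≤
        (Finset.univ.filter fun v : Fin (size2 G j) => (v : ℕ) < G.n + 1).card := by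
      refine Finset.card_le_card_of_surjOn (fun v => (v : ℕ)) ?_
      intro x hx
      simp only [Finset.coe_range, Set.mem_Iio] at hx
      refine ⟨⟨x, mem_size2 (by omega)⟩, ?_, rfl⟩
      simp only [Finset.coe_filter, Finset.mem_univ, true_and, Set.mem_ofPred_eq]
      exact hx
    rw [Finset.card_range] at h2
    omega

/-- If `G` has an independent set with `j` elements then the core of the second graph is not
empty. -/
theorem core2_of (G : FinGraph) (j : ℕ) (h : HasIndep (G, j)) : core (graph2 G j) ≠ ∅ := by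
  classical
  obtain ⟨S, hS, hcard⟩ := h
  simp only at S hS hcard
  let w : Fin (size2 G j) := ⟨G.n, mem_size2 (by omega)⟩
  have hw : w ∈ core (graph2 G j) := by
    intro M hM
    let f : Fin G.n → Fin (size2 G j) := fun i => ⟨i, mem_size2 (by have := i.2; omega)⟩
    have hf : Function.Injective f := by
      intro a b hab
      have := congrArg Fin.val hab
      exact Fin.ext this
    have hwS : w ∉ S.image f := by
      rw [Finset.mem_image]
      rintro ⟨i, -, hi⟩
      have h1 : (i : ℕ) = G.n := congrArg Fin.val hi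
      have := i.2
      omega
    have hw0 : ∀ y : Fin (size2 G j), (y : ℕ) < G.n + 1 → ¬ (graph2 G j).Adj w y := by
      intro y hy hadj
      rw [gadj_iff] at hadj
      obtain ⟨h1, h2⟩ := hadj
      have h3 : (w : ℕ) = G.n := rfl
      rcases h2 with ⟨-, -, h4⟩ | h4 | h4 | h4
      · have := (adjB_lt h4).1
        omega
      · omega
      · omega
      · omega
    have hind : (graph2 G j).IsIndepSet (insert w (S.image f) : Finset _) := by
      have hfP : ∀ i, (f i : ℕ) < G.n + 1 := fun i => by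
        have := i.2
        simp only [f]
        omega
      intro a ha b hb hab
      simp only [Finset.coe_insert, Finset.coe_image, Set.mem_insert_iff, Set.mem_image,
        Finset.mem_coe] at ha hb
      rcases ha with rfl | ⟨i, hi, rfl⟩ <;> rcases hb with rfl | ⟨i', hi', rfl⟩
      · exact absurd rfl hab
      · exact hw0 _ (hfP i')
      · exact fun h => hw0 _ (hfP i) h.symm
      · intro hadj
        rw [gadj_iff] at hadj
        have h3 := hfP i
        have h4 := hfP i'
        rcases hadj.2 with ⟨-, -, h5⟩ | h5 | h5 | h5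
        · have h6 : adjB G i i' = true := h5
          rw [adjB_iff] at h6
          exact hS hi hi' (fun h => hab (by rw [h])) h6
        · omega
        · omega
        · omega
    have h1 := hM.2 _ hind
    rw [Finset.card_insert_of_notMem hwS, Finset.card_image_of_injective _ hf, hcard] at h1
    rcases join_side (join2 G j) hM.1 with hP | hP
    · by_contra hwM
      have hins : (graph2 G j).IsIndepSet (insert w M : Finset _) := by
        intro a ha b hb hab
        simp only [Finset.coe_insert, Set.mem_insert_iff, Finset.mem_coe] at ha hb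
        rcases ha with rfl | ha <;> rcases hb with rfl | hb
        · exact absurd rfl hab
        · exact hw0 b (hP b hb)
        · exact fun h => hw0 a (hP a ha) h.symm
        · exact hM.1 ha hb hab
      have := hM.2 _ hins
      rw [Finset.card_insert_of_notMem hwM] at this
      omega
    · have := right_bound2 hM.1 hP
      omega
  intro he
  rw [he] at hw
  exact hw

/-- If `G` has no independent set with `j` elements then the core of the second graph is
empty. -/
theorem core2_not (G : FinGraph) (j : ℕ) (h : ¬ HasIndep (G, j)) : core (graph2 G j) = ∅ := by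
  classical
  have hlt : ∀ S : Finset (Fin G.n), G.graph.IsIndepSet S → S.card < j := by
    intro S hS
    by_contra hcon
    obtain ⟨T, hT, hTc⟩ := Finset.exists_subset_card_eq (by omega : j ≤ S.card)
    exact h ⟨T, fun a ha b hb hab => hS (hT ha) (hT hb) hab, hTc⟩
  ext x
  simp only [core, Set.mem_ofPred_eq, Set.mem_empty_iff_false, iff_false]
  intro hx
  let f : Fin j → Fin (size2 G j) := fun a =>
    ⟨G.n + 1 + 3 * a + (if (x : ℕ) = G.n + 1 + 3 * a then 1 else 0), mem_size2 (by
      have := a.2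
      split_ifs <;> omega)⟩
  have hf3 : ∀ a, (f a : ℕ) = G.n + 1 + 3 * a + (if (x : ℕ) = G.n + 1 + 3 * a then 1 else 0) :=
    fun a => rfl
  have hf : Function.Injective f := by
    intro a b hab
    have h1 := congrArg Fin.val hab
    rw [hf3, hf3] at h1
    refine Fin.ext ?_
    split_ifs at h1 <;> omega
  have hR : IsMaximumIndep (graph2 G j) (Finset.univ.image f) := by
    constructor
    · intro a ha b hb hab hadj
      rw [Finset.mem_coe, Finset.mem_image] at ha hb
      obtain ⟨i, -, rfl⟩ := ha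
      obtain ⟨i', -, rfl⟩ := hb
      rw [gadj_iff, hf3, hf3] at hadj
      have hne : (i : ℕ) ≠ i' := fun h => hab (by rw [Fin.ext h])
      split_ifs at hadj <;> omega
    · intro T hT
      rw [Finset.card_image_of_injective _ hf, Finset.card_univ, Fintype.card_fin]
      rcases join_side (join2 G j) hT with hP | hP
      · obtain ⟨U, hU, hUc⟩ := left_bound2 hT hP
        have := hlt U hU
        omega
      · exact right_bound2 hT hP
  have h1 := hx _ hR
  rw [Finset.mem_image] at h1
  obtain ⟨a, -, ha⟩ := h1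
  have h2 := congrArg Fin.val ha
  rw [hf3] at h2
  split_ifs at h2 <;> omega

theorem correct2 (G : FinGraph) (j : ℕ) (hb : Bounded (G, j)) (hn : G.n = 3 * j) (hj : 1 ≤ j) :
    HasIndep (G, j) ↔ ¬ CoreEqNucleus ⟨size2 G j, graph2 G j⟩ := by
  unfold CoreEqNucleus
  simp only
  rw [nucleus2 G j hb hn hj]
  constructor
  · exact core2_of G j
  · intro h
    by_contra hcon
    exact h (core2_not G j hcon)

theorem poly_adj2 {α : Type} [TEnc α] {G : α → FinGraph} {x y : α → ℕ} (hG : NPC.Poly G)
    (hx : NPC.Poly x) (hy : NPC.Poly y) : NPC.Poly (fun a => adj2 (G a) (x a) (y a)) := by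
  have hn : NPC.Poly (fun a => (G a).n + 1) := NPC.Poly.add (poly_n hG) (NPC.Poly.const 1)
  have h3 : ∀ {z : α → ℕ}, NPC.Poly z → NPC.Poly (fun a => (z a - ((G a).n + 1)) / 3) :=
    fun hz => NPC.Poly.div (NPC.Poly.sub hz hn) (NPC.Poly.const 3)
  have hxP := NPC.Poly.decide_lt hx hn
  have hyP := NPC.Poly.decide_lt hy hn
  unfold adj2
  exact NPC.Poly.and (NPC.Poly.not (NPC.Poly.decide_eq hx hy)) (NPC.Poly.or (NPC.Poly.or
    (NPC.Poly.or (NPC.Poly.and (NPC.Poly.and hxP hyP) (poly_adjB hG hx hy))
      (NPC.Poly.and hxP (NPC.Poly.not hyP))) (NPC.Poly.and (NPC.Poly.not hxP) hyP))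
        (NPC.Poly.and (NPC.Poly.and (NPC.Poly.not hxP) (NPC.Poly.not hyP))
          (NPC.Poly.decide_eq (h3 hx) (h3 hy))))

theorem poly2 : NPC.Poly (fun I : FinGraph × ℕ =>
    (⟨size2 I.1 (min I.2 I.1.n), graph2 I.1 (min I.2 I.1.n)⟩ : FinGraph)) := by
  have hG : NPC.Poly (fun I : FinGraph × ℕ => I.1) := NPC.Poly.fst NPC.Poly.id
  have hn : UPoly (fun I : FinGraph × ℕ => I.1.n) := upoly_n hG
  have hmin : NPC.Poly (fun I : FinGraph × ℕ => min I.2 I.1.n) :=
    NPC.Poly.min (NPC.Poly.snd NPC.Poly.id) (poly_n hG)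
  have hminU : UPoly (fun I : FinGraph × ℕ => min I.2 I.1.n) :=
    UPoly.of_le hmin hn fun _ => min_le_right _ _
  refine poly_finGraph (b := fun I x y => adj2 I.1 x y) ?_ ?_ ?_
  · unfold size2
    exact UPoly.add (UPoly.add hn (UPoly.const 1)) (UPoly.mul (UPoly.const 3) hminU)
  · have h3 : NPC.Poly (fun p : ((FinGraph × ℕ) × ℕ) × ℕ => p.1.1) :=
      NPC.Poly.fst (NPC.Poly.fst NPC.Poly.id)
    exact poly_adj2 (NPC.Poly.fst h3) (NPC.Poly.snd (NPC.Poly.fst NPC.Poly.id))
      (NPC.Poly.snd NPC.Poly.id)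
  · intro I x y
    exact Iff.rfl

/-- The independent set problem is hard for instances `(G, k)` with independence number at most `k`,
`3 k` vertices, and `k ≥ 1`. -/
theorem hardPr_indep' : HardPr (fun I : FinGraph × ℕ => Bounded I ∧ I.1.n = 3 * I.2 ∧ 1 ≤ I.2)
    HasIndep := by
  refine HardPr.trans hardPr_SAT3b (f := fun φ : F3 =>
    ((⟨3 * φ.length, fgraph φ⟩ : FinGraph), φ.length)) ?_ ?_ ?_
  · exact NPC.Poly.pair poly_fgraph (NPC.Poly.length NPC.Poly.id)
  · intro φ hφ
    exact ⟨fun S hS => fgraph_card_le φ S hS, rfl, List.length_pos_iff.2 hφ.2.2⟩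
  · intro φ _
    exact fgraph_sat φ

theorem npHard : NPHardP CoreEqNucleus := by
  refine HardI.toNPHardP (HardPr.toHardI (Pr := fun _ => True)
    (HardPr.trans hardPr_indep' poly1 (fun _ _ => trivial) ?_))
  rintro ⟨G, j⟩ ⟨-, hn, -⟩
  simp only at hn
  have key : ∀ m, m = j → (HasIndep (G, j) ↔ CoreEqNucleus ⟨size1 G m, graph1 G m⟩) := by
    rintro m rfl
    exact correct1 G m (by omega)
  exact key _ (by simp only; omega)

theorem coNPHard : CoNPHardP CoreEqNucleus := by
  refine CoNPHardOn.toCoNPHardP (Pr := fun _ => True)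
    (coNPHardOn_of hardPr_indep' poly2 (fun _ _ => trivial) ?_)
  rintro ⟨G, j⟩ ⟨hb, hn, hj⟩
  simp only at hn hj
  have key : ∀ m, m = j → (HasIndep (G, j) ↔ ¬ CoreEqNucleus ⟨size2 G m, graph2 G m⟩) := by
    rintro m rfl
    exact correct2 G m hb hn hj
  exact key _ (by simp only; omega)

end Pool.Agent.N582.CN
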