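import Pool.Agent.N582.ESDefs

/-!
# Equitable list colourings of disjoint unions of stars: general lemmas
-/

set_option autoImplicit false

namespace Pool.Agent.N582.ES

open Finset

/-! ### Completion -/

theorem two_classes {V : Type} [Fintype V] (f : V → ℕ) {c c' : ℕ} (h : c ≠ c') :
    #{v | f v = c} + #{v | f v = c'} ≤ Fintype.card V := by
  classical
  rw [← card_union_of_disjoint]
  · exact card_le_univ _
  · rw [disjoint_left]
    intro v hv hv'
    rw [mem_filter] at hv hv'
    exact h (hv.2.symm.trans hv'.2)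

theorem completion {V : Type} [Fintype V] (L : V → Finset ℕ)
    (hL : ∀ v, (L v).Nonempty) (cap : ℕ) (hN : Fintype.card V ≤ 2 * cap)
    (hF : ∀ c, #{v | L v = {c}} ≤ cap) :
    ∃ f : V → ℕ, (∀ v, f v ∈ L v) ∧ ∀ c, #{v | f v = c} ≤ cap := by
  classical
  have step : ∀ k : ℕ, ∀ c, ∀ f : V → ℕ, (∀ v, f v ∈ L v) → #{v | f v = c} ≤ cap + k →
      (∀ c', c' ≠ c → #{v | f v = c'} ≤ cap) →
      ∃ g : V → ℕ, (∀ v, g v ∈ L v) ∧ ∀ c, #{v | g v = c} ≤ cap := by
    intro k
    induction k with
    | zero =>
      intro c f hf h1 h2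
      refine ⟨f, hf, fun c' => ?_⟩
      by_cases h : c' = c
      · subst h
        exact h1
      · exact h2 c' h
    | succ k ih =>
      intro c f hf h1 h2
      by_cases h3 : #{v | f v = c} ≤ cap + k
      · exact ih c f hf h3 h2
      · push Not at h3
        have h4 : ∃ v, f v = c ∧ L v ≠ {c} := by
          by_contra h
          push Not at h
          have h5 : #{v | f v = c} ≤ #{v | L v = {c}} :=
            card_le_card (fun v hv => by
              rw [mem_filter] at hv ⊢
              exact ⟨hv.1, h v hv.2⟩)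
          have h6 := hF c
          omega
        obtain ⟨v, hv, hv2⟩ := h4
        obtain ⟨c', hc', hne⟩ : ∃ c' ∈ L v, c' ≠ c := by
          by_contra h
          push Not at h
          apply hv2
          ext x
          rw [mem_singleton]
          refine ⟨h x, ?_⟩
          rintro rfl
          exact hv ▸ hf v
        have hcard : #{u | Function.update f v c' u = c} + 1 = #{u | f u = c} := by
          have : (univ.filter fun u => f u = c) =
              insert v (univ.filter fun u => Function.update f v c' u = c) := by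
            ext u
            rw [mem_insert, mem_filter, mem_filter]
            by_cases hu : u = v
            · subst hu
              simp [hv]
            · simp [Function.update_of_ne hu, hu]
          rw [this, card_insert_of_notMem]
          rw [mem_filter]
          simp [hne]
        refine ih c (Function.update f v c') ?_ ?_ ?_
        · intro u
          by_cases hu : u = v
          · subst hu
            rw [Function.update_self]
            exact hc'
          · rw [Function.update_of_ne hu]
            exact hf u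
        · omega
        · intro c'' hc''
          have := two_classes (Function.update f v c') hc''
          omega
  choose f hf using hL
  by_cases h : ∃ c, cap < #{v | f v = c}
  · obtain ⟨c, hc⟩ := h
    refine step (#{v | f v = c}) c f hf (by omega) ?_
    intro c' hc'
    have := two_classes f hc'
    omega
  · push Not at h
    exact ⟨f, hf, h⟩

/-! ### Balancing -/

theorem balance {ι : Type} [DecidableEq ι] (C : Finset ℕ) (d : ι → ℕ → ℤ) (s : Finset ι) :
    ∃ ε : ι → ℤ, (∀ i, ε i = 1 ∨ ε i = -1) ∧
      ∑ c ∈ C, (∑ i ∈ s, ε i * d i c) ^ 2 ≤ ∑ i ∈ s, ∑ c ∈ C, (d i c) ^ 2 := by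
  induction s using Finset.induction_on with
  | empty =>
    refine ⟨fun _ => 1, fun _ => Or.inl rfl, ?_⟩
    simp
  | insert x s hx ih =>
    obtain ⟨ε, h1, h2⟩ := ih
    obtain ⟨δ, hδ, h3⟩ : ∃ δ : ℤ, (δ = 1 ∨ δ = -1) ∧
        δ * ∑ c ∈ C, (∑ i ∈ s, ε i * d i c) * d x c ≤ 0 := by
      rcases le_total (∑ c ∈ C, (∑ i ∈ s, ε i * d i c) * d x c) 0 with h | h
      · exact ⟨1, Or.inl rfl, by linarith⟩
      · exact ⟨-1, Or.inr rfl, by linarith⟩
    refine ⟨Function.update ε x δ, ?_, ?_⟩
    · intro i
      by_cases hi : i = x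
      · subst hi
        rw [Function.update_self]
        exact hδ
      · rw [Function.update_of_ne hi]
        exact h1 i
    · have h4 : ∀ c, ∑ i ∈ insert x s, Function.update ε x δ i * d i c =
          (∑ i ∈ s, ε i * d i c) + δ * d x c := by
        intro c
        rw [sum_insert hx, Function.update_self, add_comm]
        congr 1
        refine sum_congr rfl fun i hi => ?_
        rw [Function.update_of_ne (fun h : i = x => hx (h ▸ hi))]
      have h5 : δ ^ 2 = 1 := by
        rcases hδ with h | h <;> rw [h] <;> norm_num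
      calc ∑ c ∈ C, (∑ i ∈ insert x s, Function.update ε x δ i * d i c) ^ 2
          = ∑ c ∈ C, ((∑ i ∈ s, ε i * d i c) ^ 2 +
              2 * (δ * ((∑ i ∈ s, ε i * d i c) * d x c)) + (d x c) ^ 2) := by
            refine sum_congr rfl fun c _ => ?_
            rw [h4]
            have : (∑ i ∈ s, ε i * d i c + δ * d x c) ^ 2 = (∑ i ∈ s, ε i * d i c) ^ 2 +
              2 * (δ * ((∑ i ∈ s, ε i * d i c) * d x c)) + δ ^ 2 * (d x c) ^ 2 := by ring
            rw [this, h5, one_mul]
        _ = ∑ c ∈ C, (∑ i ∈ s, ε i * d i c) ^ 2 +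
              2 * (δ * ∑ c ∈ C, (∑ i ∈ s, ε i * d i c) * d x c) + ∑ c ∈ C, (d x c) ^ 2 := by
            rw [sum_add_distrib, sum_add_distrib, ← mul_sum, ← mul_sum]
        _ ≤ ∑ i ∈ s, ∑ c ∈ C, (d i c) ^ 2 + ∑ c ∈ C, (d x c) ^ 2 := by linarith
        _ = ∑ i ∈ insert x s, ∑ c ∈ C, (d i c) ^ 2 := by
            rw [sum_insert hx, add_comm]

/-! ### Forced vertices -/

section Star

variable {ι : Type} {m : ι → ℕ}

/-- the number of vertices of the star `i` whose colour has to be `c` if the centre of this star
gets the colour `x` -/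
def h (L : Vtx m → Finset ℕ) (i : ι) (x c : ℕ) : ℕ :=
  (if c = x then 1 else 0) + #{j : Fin (m i) | L ⟨i, j.succ⟩ = {x, c}}

theorem pair_inj {x c c' : ℕ} (h : ({x, c} : Finset ℕ) = {x, c'}) : c = c' := by
  have h1 : c ∈ ({x, c'} : Finset ℕ) := h ▸ (by simp)
  have h2 : c' ∈ ({x, c} : Finset ℕ) := h ▸ (by simp)
  simp only [mem_insert, mem_singleton] at h1 h2
  omega

theorem pair_eq {x y u v : ℕ} (h : ({x, y} : Finset ℕ) = {u, v}) :
    (x = u ∧ y = v) ∨ (x = v ∧ y = u) := by
  have h1 : x ∈ ({u, v} : Finset ℕ) := h ▸ (by simp)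
  have h2 : y ∈ ({u, v} : Finset ℕ) := h ▸ (by simp)
  have h3 : u ∈ ({x, y} : Finset ℕ) := h ▸ (by simp)
  have h4 : v ∈ ({x, y} : Finset ℕ) := h ▸ (by simp)
  simp only [mem_insert, mem_singleton] at h1 h2 h3 h4
  omega

theorem h_eq (L : Vtx m → Finset ℕ) (i : ι) (x c : ℕ) :
    h L i x c = (if c = x then 1 else 0) +
      ∑ j : Fin (m i), if L ⟨i, j.succ⟩ = {x, c} then 1 else 0 := by
  unfold h
  rw [card_filter]

theorem sum_h_le (L : Vtx m → Finset ℕ) (i : ι) (x : ℕ) (C : Finset ℕ) :
    ∑ c ∈ C, h L i x c ≤ m i + 1 := by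
  simp only [h_eq]
  rw [sum_add_distrib, sum_comm, add_comm]
  refine Nat.add_le_add ?_ ?_
  · calc ∑ j : Fin (m i), ∑ c ∈ C, (if L ⟨i, j.succ⟩ = {x, c} then 1 else 0)
        ≤ ∑ j : Fin (m i), 1 := by
          refine sum_le_sum fun j _ => ?_
          rw [← card_filter, card_le_one]
          intro c hc c' hc'
          rw [mem_filter] at hc hc'
          exact pair_inj (hc.2.symm.trans hc'.2)
      _ = m i := by simp
  · rw [← card_filter, card_le_one]
    intro c hc c' hc'
    rw [mem_filter] at hc hc'
    exact hc.2.trans hc'.2.symm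

theorem h_add_le (L : Vtx m → Finset ℕ) (i : ι) {x y : ℕ} (hxy : x ≠ y)
    (c : ℕ) : h L i x c + h L i y c ≤ m i + 1 := by
  simp only [h_eq]
  have h1 : (∑ j : Fin (m i), if L ⟨i, j.succ⟩ = {x, c} then 1 else 0) +
      (∑ j : Fin (m i), if L ⟨i, j.succ⟩ = {y, c} then 1 else 0) ≤ m i := by
    rw [← sum_add_distrib]
    calc _ ≤ ∑ j : Fin (m i), 1 := by
            refine sum_le_sum fun j _ => ?_
            by_cases h1 : L ⟨i, j.succ⟩ = {x, c}
            · by_cases h2 : L ⟨i, j.succ⟩ = {y, c}
              · exfalso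
                rw [h1] at h2
                rw [pair_comm x c, pair_comm y c] at h2
                exact hxy (pair_inj h2)
              · rw [if_pos h1, if_neg h2]
            · rw [if_neg h1]
              split_ifs <;> omega
      _ = m i := by simp
  have h2 : (if c = x then 1 else 0) + (if c = y then 1 else 0) ≤ 1 := by
    split_ifs <;> omega
  omega

theorem h_four_le (L : Vtx m → Finset ℕ) (hL : ∀ v, #(L v) = 2) (i : ι) {x y : ℕ} (hxy : x ≠ y)
    {c1 c2 : ℕ} (hc : c1 ≠ c2) (hne : ({x, y} : Finset ℕ) ≠ {c1, c2}) :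
    (h L i x c1 + h L i x c2) + (h L i y c1 + h L i y c2) ≤ m i + 1 := by
  simp only [h_eq]
  have hn1 : ¬ (x = c1 ∧ y = c2) := by
    rintro ⟨rfl, rfl⟩
    exact hne rfl
  have hn2 : ¬ (x = c2 ∧ y = c1) := by
    rintro ⟨rfl, rfl⟩
    exact hne (pair_comm _ _)
  have h1 : (∑ j : Fin (m i), if L ⟨i, j.succ⟩ = {x, c1} then 1 else 0) +
      (∑ j : Fin (m i), if L ⟨i, j.succ⟩ = {x, c2} then 1 else 0) +
      ((∑ j : Fin (m i), if L ⟨i, j.succ⟩ = {y, c1} then 1 else 0) +
      (∑ j : Fin (m i), if L ⟨i, j.succ⟩ = {y, c2} then 1 else 0)) ≤ m i := by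
    rw [← sum_add_distrib, ← sum_add_distrib, ← sum_add_distrib]
    calc _ ≤ ∑ j : Fin (m i), 1 := by
            refine sum_le_sum fun j _ => ?_
            obtain ⟨u, v, huv, hj⟩ := card_eq_two.1 (hL ⟨i, j.succ⟩)
            rw [hj]
            have e : ∀ p q : ℕ, ({u, v} : Finset ℕ) = {p, q} → (u = p ∧ v = q) ∨ (u = q ∧ v = p) :=
              fun p q h => pair_eq h
            have e1 := e x c1
            have e2 := e x c2
            have e3 := e y c1
            have e4 := e y c2
            clear hj
            by_cases g1 : ({u, v} : Finset ℕ) = {x, c1}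
            · have g1' := e1 g1
              rw [if_pos g1, if_neg (fun g => by have := e2 g; omega),
                if_neg (fun g => by have := e3 g; omega), if_neg (fun g => by have := e4 g; omega)]
              omega
            · rw [if_neg g1]
              by_cases g2 : ({u, v} : Finset ℕ) = {x, c2}
              · have g2' := e2 g2
                rw [if_pos g2, if_neg (fun g => by have := e3 g; omega),
                  if_neg (fun g => by have := e4 g; omega)]
                omega
              · rw [if_neg g2]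
                by_cases g3 : ({u, v} : Finset ℕ) = {y, c1}
                · have g3' := e3 g3
                  rw [if_pos g3, if_neg (fun g => by have := e4 g; omega)]
                  omega
                · rw [if_neg g3]
                  split_ifs <;> omega
      _ = m i := by simp
  have h2 : (if c1 = x then 1 else 0) + (if c2 = x then 1 else 0) +
      ((if c1 = y then 1 else 0) + (if c2 = y then 1 else 0)) ≤ 1 := by
    split_ifs <;> omega
  omega

/-- a choice of the colours of the centres can be completed if no colour is forced too often -/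
theorem finish [Fintype ι] (L : Vtx m → Finset ℕ) (hL : ∀ v, #(L v) = 2) (p : ι → ℕ)
    (hp : ∀ i, p i ∈ L ⟨i, 0⟩) (cap : ℕ) (hN : Fintype.card (Vtx m) ≤ 2 * cap)
    (hF : ∀ c, ∑ i, h L i (p i) c ≤ cap) :
    ∃ f : Vtx m → ℕ, (∀ v, f v ∈ L v) ∧ (∀ u v, (stars m).Adj u v → f u ≠ f v) ∧
      ∀ c, #{v | f v = c} ≤ cap := by
  classical
  set L' : Vtx m → Finset ℕ := fun v => if v.2 = 0 then {p v.1} else (L v).erase (p v.1) with hL'
  have hne : ∀ v, (L' v).Nonempty := by
    rintro ⟨i, j⟩
    by_cases hj : j = 0
    · simp [hL', hj]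
    · simp only [hL', if_neg hj]
      rw [← card_pos]
      have := pred_card_le_card_erase (s := L ⟨i, j⟩) (a := p i)
      rw [hL] at this
      omega
  have hF' : ∀ c, #{v | L' v = {c}} ≤ cap := by
    intro c
    refine le_trans ?_ (hF c)
    rw [card_filter, Fintype.sum_sigma]
    refine sum_le_sum fun i _ => ?_
    rw [Fin.sum_univ_succ, h_eq]
    refine Nat.add_le_add ?_ ?_
    · simp only [hL', if_true, singleton_inj]
      split_ifs with g1 g2
      · exact le_rfl
      · exact absurd g1.symm g2
      · omega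
      · exact le_rfl
    · refine sum_le_sum fun j _ => ?_
      simp only [hL', Fin.succ_ne_zero, if_false]
      split_ifs with g1 g2
      · exact le_rfl
      · exfalso
        apply g2
        have h3 : p i ∈ L ⟨i, j.succ⟩ := by
          by_contra h4
          rw [erase_eq_of_notMem h4] at g1
          have := hL ⟨i, j.succ⟩
          rw [g1] at this
          simp at this
        rw [← g1, insert_erase h3]
      · omega
      · exact le_rfl
  obtain ⟨f, h1, h2⟩ := completion L' hne cap hN hF'
  have h0 : ∀ i, f ⟨i, 0⟩ = p i := by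
    intro i
    have := h1 ⟨i, 0⟩
    simpa [hL'] using this
  have h3 : ∀ i (j : Fin (m i + 1)), j ≠ 0 → f ⟨i, j⟩ ∈ L ⟨i, j⟩ ∧ f ⟨i, j⟩ ≠ p i := by
    intro i j hj
    have := h1 ⟨i, j⟩
    simp only [hL', if_neg hj] at this
    exact ⟨mem_of_mem_erase this, ne_of_mem_erase this⟩
  refine ⟨f, ?_, ?_, h2⟩
  · rintro ⟨i, j⟩
    by_cases hj : j = 0
    · subst hj
      rw [h0]
      exact hp i
    · exact (h3 i j hj).1
  · rintro ⟨i, j⟩ ⟨i', j'⟩ ⟨hi, hj⟩
    simp only at hi hj
    subst hi
    by_cases hj0 : j = 0
    · subst hj0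
      have hj' : j' ≠ 0 := by
        rintro rfl
        exact absurd rfl (hj.1 rfl)
      rw [h0]
      exact (h3 i j' hj').2.symm
    · have hj' : j' = 0 := by
        by_contra hne
        apply hj0
        apply Fin.ext
        exact hj.2 (fun h => hne (Fin.ext h))
      subst hj'
      rw [h0]
      exact (h3 i j hj0).2

end Star

end Pool.Agent.N582.ES
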