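import Mathlib

/-!
# Equitable choosability and disjoint unions of stars: definitions
-/

set_option autoImplicit false

namespace Pool.Agent.N582.ES

open Finset

/-- The vertices of the disjoint union of the stars `K_{1, m i}`: the centre of the star `i` is
`⟨i, 0⟩`, and its leaves are `⟨i, 1⟩, …, ⟨i, m i⟩`. -/
abbrev Vtx {ι : Type} (m : ι → ℕ) : Type := Σ i : ι, Fin (m i + 1)

/-- The disjoint union of the stars `K_{1, m i}`: two vertices are adjacent if they belong to the
same star and exactly one of them is the centre of this star. -/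
def stars {ι : Type} (m : ι → ℕ) : SimpleGraph (Vtx m) where
  Adj u v := u.1 = v.1 ∧ ((u.2 : ℕ) = 0 ↔ (v.2 : ℕ) ≠ 0)
  symm := by
    constructor
    rintro u v ⟨h1, h2⟩
    exact ⟨h1.symm, by tauto⟩
  loopless := ⟨fun u h => by have := h.2; tauto⟩

/-- `G` is equitably `k`-choosable: for every assignment of a set `L v` of exactly `k` colours to
each vertex `v` there is a proper colouring `f` with `f v ∈ L v` in which each colour is used at most
`⌈|V(G)| / k⌉` times. -/
def EquitablyChoosable {V : Type} [Fintype V] (G : SimpleGraph V) (k : ℕ) : Prop :=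
  ∀ L : V → Finset ℕ, (∀ v, #(L v) = k) →
    ∃ f : V → ℕ, (∀ v, f v ∈ L v) ∧ (∀ u v, G.Adj u v → f u ≠ f v) ∧
      ∀ c, #{v | f v = c} ≤ ⌈(Fintype.card V : ℚ) / k⌉₊

/-- The decision problem STARS EQUITABLE 2-CHOOSABILITY: given a tuple `(m_1, …, m_n)`, is
`K_{1, m_1} + … + K_{1, m_n}` equitably 2-choosable? -/
def StarsEq2Choosable (m : List ℕ) : Prop :=
  EquitablyChoosable (stars m.get) 2

end Pool.Agent.N582.ES
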