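import Pool.Agent.N582.VLCore

/-!
# Scheduling a single vehicle on a line: from schedules to subset sums
-/

set_option autoImplicit false

namespace Pool.Agent.N582.VL

open Finset

variable {a : List ℕ} {T : ℕ}

theorem two_L_ge (a : List ℕ) : 2 * a.sum ≤ 2 * L a := by
  unfold L
  omega

/-- processing a small job -/
theorem inv_O (ho : Ok a) {j : ℕ} {f : Bool} {D : Finset ℕ} {x t t' i : ℕ}
    (h : Inv a T j f D x t) (hi : i < a.length) (hji : j ≤ i) (hD : a.length + 2 * i + 1 ∉ D)
    (ht : t + (((i + 1) * L a + itm a i - x) + (x - ((i + 1) * L a + itm a i))) + 2 * itm a i ≤ t') :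
    Inv a T j f (insert (a.length + 2 * i + 1) D) ((i + 1) * L a + itm a i) t' := by
  obtain ⟨hj, hA, hC, hDr, hsum, m, ρ, h1, h2, h3, h4, h5⟩ := h
  refine ⟨hj, ?_, ?_, ?_, ?_, max m ((i + 1) * L a + itm a i), ρ + 2 * itm a i, ?_, ?_, ?_, ?_, ?_⟩
  · intro k hk
    rw [mem_insert, ← hA k hk]
    constructor
    · rintro (h | h)
      · omega
      · exact h
    · exact Or.inr
  · intro k hk
    rw [mem_insert, ← hC k hk]
    constructor
    · rintro (h | h)
      · omega
      · exact h
    · exact Or.inr
  · intro v hv
    rcases mem_insert.1 hv with rfl | hv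
    · rw [mem_range]
      omega
    · exact hDr hv
  · rw [sum_insert hD, hsum, hand_O ho hi, W_insert_O hi hD]
    ring
  · rw [W_insert_O hi hD]
    omega
  · exact le_max_right _ _
  · intro hf
    exact (h3 hf).trans (le_max_left _ _)
  · right
    rcases Nat.lt_or_eq_of_le hji with hlt | rfl
    · right
      have h6 : (j + 2) * L a ≤ (i + 1) * L a := Nat.mul_le_mul_right _ (by omega)
      exact (h6.trans (Nat.le_add_right _ _)).trans (le_max_right _ _)
    · rcases h4 with h4 | h4 | h4
      · left
        refine ⟨mem_insert_self _ _, ?_⟩
        have := le_max_right m ((j + 1) * L a + itm a j)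
        omega
      · exact absurd h4.1 hD
      · right
        exact h4.trans (le_max_left _ _)
  · rw [W_insert_O hi hD]
    rcases le_total m ((i + 1) * L a + itm a i) with h6 | h6
    · rw [max_eq_right h6]
      omega
    · rw [max_eq_left h6]
      omega

/-- processing the big job of the current item -/
theorem inv_A {j : ℕ} {D : Finset ℕ} {x t t' : ℕ}
    (h : Inv a T j false D x t)
    (ht : t + (((j + 1) * L a - x) + (x - (j + 1) * L a)) + M a T ≤ t') :
    Inv a T j true (insert (a.length + 2 * j) D) ((j + 1) * L a) t' := by
  obtain ⟨hj, hA, hC, hDr, hsum, m, ρ, h1, h2, h3, h4, h5⟩ := h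
  have hD : a.length + 2 * j ∉ D := by
    rw [hA j hj.le]
    simp
  refine ⟨hj, ?_, ?_, ?_, ?_, max m ((j + 1) * L a), ρ, ?_, ?_, ?_, ?_, ?_⟩
  · intro k hk
    rw [mem_insert, hA k hk]
    simp only [Bool.false_eq_true, and_false, or_false, and_true]
    omega
  · intro k hk
    rw [mem_insert, ← hC k hk]
    constructor
    · rintro (h | h)
      · omega
      · exact h
    · exact Or.inr
  · intro v hv
    rcases mem_insert.1 hv with rfl | hv
    · rw [mem_range]
      omega
    · exact hDr hv
  · rw [sum_insert hD, hsum, hand_A, W_insert_A]
    simp only [Bool.toNat_true, Bool.toNat_false]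
    ring
  · rw [W_insert_A]
    exact h1
  · exact le_max_right _ _
  · intro _
    exact le_max_right _ _
  · rcases h4 with h4 | h4 | h4
    · exact Or.inl h4
    · right; left
      refine ⟨mem_insert_of_mem h4.1, ?_⟩
      have := le_max_left m ((j + 1) * L a)
      omega
    · right; right
      exact h4.trans (le_max_left _ _)
  · rw [W_insert_A]
    simp only [Bool.toNat_true, Bool.toNat_false, Nat.zero_mul, Nat.one_mul] at h5 ⊢
    rcases le_total m ((j + 1) * L a) with h6 | h6
    · rw [max_eq_right h6]
      omega
    · rw [max_eq_left h6]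
      omega

/-- the time at the end of a round -/
theorem inv_C_time {j : ℕ} {D : Finset ℕ} {x t t' : ℕ}
    (h : Inv a T j true D x t) (ht : t + x + M a T ≤ t') :
    E a T j + 2 * W a D ≤ t' := by
  obtain ⟨hj, hA, hC, hDr, hsum, m, ρ, h1, h2, h3, h4, h5⟩ := h
  rw [E_succ hj]
  have h6 := h3 rfl
  have h7 := W_le (a := a) D
  have h8 := two_L_ge a
  have h9 : 2 * (j + 1) * L a = 2 * ((j + 1) * L a) := by ring
  have h10 : (j + 2) * L a = (j + 1) * L a + L a := by ring
  simp only [Bool.toNat_true, Nat.one_mul] at h5
  rw [h9]
  rw [h10] at h4
  rcases h4 with h4 | h4 | h4 <;> omega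

/-- the big job at home -/
theorem inv_C {j : ℕ} {D : Finset ℕ} {x t t' : ℕ}
    (h : Inv a T (j + 1) true D x t) (ht : t + x + M a T ≤ t') :
    Inv a T j false (insert (j + 1) D) 0 t' := by
  have htime := inv_C_time h ht
  obtain ⟨hj, hA, hC, hDr, hsum, -⟩ := h
  have hD : j + 1 ∉ D := by
    rw [hC _ hj]
    omega
  refine ⟨by omega, ?_, ?_, ?_, ?_, 0, 0, ?_, le_rfl, by simp, Or.inl rfl, ?_⟩
  · intro k hk
    rw [mem_insert, hA k hk]
    simp only [Bool.false_eq_true, and_false, or_false, and_true]
    omega
  · intro k hk
    rw [mem_insert, hC k hk]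
    omega
  · intro v hv
    rcases mem_insert.1 hv with rfl | hv
    · rw [mem_range]
      omega
    · exact hDr hv
  · rw [sum_insert hD, hsum, hand_C hj, W_insert_C hj]
    obtain ⟨q, hq⟩ := Nat.exists_eq_add_of_lt hj
    have e1 : a.length - 1 - (j + 1) = q := by omega
    have e2 : a.length - 1 - j = q + 1 := by omega
    rw [e1, e2]
    simp only [Bool.toNat_true, Bool.toNat_false]
    ring
  · exact Nat.zero_le _
  · rw [W_insert_C hj]
    simp only [Bool.toNat_false]
    omega

/-- A fast schedule gives a solution of the subset sum problem. -/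
theorem back (ho : Ok a) (l : List ℕ) : ∀ (D : Finset ℕ) (x t j : ℕ) (f : Bool),
    Inv a T j f D x t → Rest a D l →
      fin (pos a) (rel a T) (hand a T) x t l ≤ K a T → Sol a T := by
  induction l with
  | nil =>
    intro D x t j f hI hR _
    exfalso
    have h1 := (hR.2 (3 * a.length)).not.1 (by simp)
    have h2 := hI.hA a.length le_rfl
    have h3 : a.length + 2 * a.length = 3 * a.length := by ring
    rw [h3] at h2
    apply h1
    refine ⟨by omega, ?_⟩
    rw [h2]
    omega
  | cons v l ih =>
    intro D x t j f hI hR hf
    obtain ⟨hR', hvD, hv⟩ := hR.cons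
    have hb := key_bound ho hI.hD hI.hsum hR hf
    have hj := hI.hj
    have hfb : f.toNat ≤ 1 := Bool.toNat_le f
    simp only [fin] at hf
    rcases Nat.lt_or_ge v a.length with hvn | hvn
    · -- a big job at home
      rw [rel_C hvn] at hb
      have h1 := E_ge (a := a) (T := T) (v + 1)
      have h2 : (2 * (a.length - (v + 1)) + 1) * M a T =
          2 * (a.length - (v + 1)) * M a T + M a T := by ring
      have h3 := lt_of_level (d := 2 * (a.length - (v + 1)) + 1) (by rw [h2]; omega) hb
      have h4 : ¬ j < v := fun h => hvD ((hI.hC v hvn).2 h)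
      have h5 : v = j := by omega
      subst h5
      have h6 : f = true := by
        cases f
        · simp only [Bool.toNat_false] at h3
          omega
        · rfl
      subst h6
      rw [pos_C hvn, hand_C hvn] at hf
      have h7 : t + x + M a T ≤ max (t + ((0 - x) + (x - 0))) (rel a T v) + M a T := by
        have := le_max_left (t + ((0 - x) + (x - 0))) (rel a T v)
        omega
      rcases Nat.eq_zero_or_pos v with rfl | hpos
      · -- the end of the last round
        have h8 := inv_C_time hI h7
        have h9 : E a T 0 + 4 * T ≤
            max (t + ((0 - x) + (x - 0))) (rel a T 0) + M a T := by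
          have h10 := le_max_right (t + ((0 - x) + (x - 0))) (rel a T 0)
          rw [rel_C hvn, if_pos rfl] at h10
          rw [rel_C hvn, if_pos rfl, E_succ hvn]
          omega
        refine final ho (D := insert 0 D) (l := l) ?_ ?_ hR' ?_ ?_ h9 hf
        · intro u hu
          rcases mem_insert.1 hu with rfl | hu
          · rw [mem_range]
            omega
          · exact hI.hD hu
        · rw [sum_insert hvD, hI.hsum, hand_C hvn, W_insert_C hvn]
          obtain ⟨q, hq⟩ := Nat.exists_eq_add_of_lt hvn
          have e1 : a.length - 1 - 0 = q := by omega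
          have e2 : a.length = q + 1 := by omega
          rw [e1, e2]
          simp only [Bool.toNat_true]
          ring
        · rw [mem_insert]
          rintro (h | h)
          · omega
          · have h2 := hI.hA a.length le_rfl
            have h3 : a.length + 2 * a.length = 3 * a.length := by ring
            rw [h3] at h2
            have := h2.1 h
            omega
        · rw [W_insert_C hvn]
          exact h8
      · obtain ⟨j', rfl⟩ : ∃ j', v = j' + 1 := ⟨v - 1, by omega⟩
        exact ih _ _ _ _ _ (inv_C hI h7) hR' hf
    · obtain ⟨i, hi | hi⟩ : ∃ i, v = a.length + 2 * i ∨ v = a.length + 2 * i + 1 :=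
        ⟨(v - a.length) / 2, by omega⟩
      · subst hi
        rcases Nat.lt_or_ge i a.length with hin | hin
        · -- a big job
          rw [rel_A hin] at hb
          have h1 := E_ge (a := a) (T := T) (i + 1)
          have h3 := lt_of_level (d := 2 * (a.length - (i + 1))) (by omega) hb
          have h4 := (hI.hA i hin.le).not.1 hvD
          have h5 : i = j ∧ f = false := by
            cases f
            · simp only [Bool.toNat_false, Bool.false_eq_true, and_false, or_false] at h3 h4
              exact ⟨by omega, rfl⟩
            · simp only [Bool.toNat_true, and_true] at h3 h4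
              omega
          obtain ⟨rfl, rfl⟩ := h5
          rw [pos_A, hand_A] at hf
          refine ih _ _ _ _ _ (inv_A hI ?_) hR' hf
          have := le_max_left (t + (((i + 1) * L a - x) + (x - (i + 1) * L a)))
            (rel a T (a.length + 2 * i))
          omega
        · -- the final job is not yet released
          exfalso
          have h0 : a.length + 2 * i = 3 * a.length := by omega
          rw [h0, rel_F] at hb
          have h1 := E_ge (a := a) (T := T) 0
          have h3 := lt_of_level (d := 2 * (a.length - 0)) (by omega) hb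
          omega
      · subst hi
        have hin : i < a.length := by omega
        rw [rel_O hin] at hb
        have h1 := E_ge (a := a) (T := T) (i + 1)
        have h3 := lt_of_level (d := 2 * (a.length - (i + 1))) (by omega) hb
        rw [pos_O, hand_O ho hin] at hf
        refine ih _ _ _ _ _ (inv_O ho hI hin (by omega) hvD ?_) hR' hf
        have := le_max_left (t + (((i + 1) * L a + itm a i - x) + (x - ((i + 1) * L a + itm a i))))
          (rel a T (a.length + 2 * i + 1))
        omega

end Pool.Agent.N582.VL
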