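import Pool.Agent.N582.VLCore

/-!
# Scheduling a single vehicle on a line: from subset sums to schedules
-/

set_option autoImplicit false

namespace Pool.Agent.N582.VL

open Finset

variable {a : List ℕ} {T : ℕ}

/-- the round for the item `j` -/
def round (a : List ℕ) (S : Finset ℕ) (j : ℕ) : List ℕ :=
  (a.length + 2 * j) :: ((if j ∈ S then [a.length + 2 * j + 1] else []) ++ [j])

/-- the rounds for the items below `k` -/
def rounds (a : List ℕ) (S : Finset ℕ) : ℕ → List ℕ
  | 0 => []
  | k + 1 => round a S k ++ rounds a S k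

/-- the items which are not in `S` -/
def rest (a : List ℕ) (S : Finset ℕ) : List ℕ := (List.range a.length).filter fun j => j ∉ S

/-- the schedule -/
def sched (a : List ℕ) (S : Finset ℕ) : List ℕ :=
  rounds a S a.length ++ ((rest a S).map (fun j => a.length + 2 * j + 1) ++ [3 * a.length])

/-- the chosen items with number at least `k` -/
def cho (a : List ℕ) (S : Finset ℕ) (k : ℕ) : ℕ := ∑ i ∈ Ico k a.length, if i ∈ S then itm a i else 0

theorem cho_succ {S : Finset ℕ} {k : ℕ} (hk : k < a.length) :
    cho a S k = (if k ∈ S then itm a k else 0) + cho a S (k + 1) := by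
  unfold cho
  rw [sum_eq_sum_Ico_succ_bot hk]

theorem cho_top {S : Finset ℕ} : cho a S a.length = 0 := by
  unfold cho
  simp

theorem cho_zero {S : Finset ℕ} (hS : S ⊆ range a.length) : cho a S 0 = ∑ i ∈ S, itm a i := by
  unfold cho
  rw [← range_eq_Ico, ← sum_filter]
  congr 1
  ext i
  rw [mem_filter]
  exact ⟨fun h => h.2, fun h => ⟨hS h, h⟩⟩

theorem fin_round (ho : Ok a) {S : Finset ℕ} {k : ℕ} (hk : k < a.length) (l : List ℕ)
    (hS : k = 0 → cho a S 0 = T) :
    fin (pos a) (rel a T) (hand a T) 0 (E a T (k + 1) + 4 * cho a S (k + 1)) (round a S k ++ l) ≤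
      fin (pos a) (rel a T) (hand a T) 0 (E a T k + 4 * cho a S k) l := by
  have h1 : (if k = 0 then 4 * T else 0) ≤ 4 * cho a S k := by
    split_ifs with h
    · rw [h, hS h]
    · exact Nat.zero_le _
  have h2 : 2 * (k + 1) * L a = (k + 1) * L a + (k + 1) * L a := by ring
  unfold round
  rw [cho_succ hk] at h1 ⊢
  rw [E_succ hk]
  by_cases hkS : k ∈ S
  · simp only [if_pos hkS] at h1 ⊢
    simp only [List.cons_append, List.nil_append, fin]
    rw [pos_A, pos_O, pos_C hk, rel_A hk, rel_O hk, rel_C hk, hand_A, hand_O ho hk, hand_C hk]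
    refine fin_mono _ _ _ _ _ _ _ ?_
    omega
  · simp only [if_neg hkS] at h1 ⊢
    simp only [List.cons_append, List.nil_append, fin]
    rw [pos_A, pos_C hk, rel_A hk, rel_C hk, hand_A, hand_C hk]
    refine fin_mono _ _ _ _ _ _ _ ?_
    omega

theorem fin_rounds (ho : Ok a) {S : Finset ℕ} (hS : cho a S 0 = T) (l : List ℕ) :
    ∀ k ≤ a.length, fin (pos a) (rel a T) (hand a T) 0 (E a T k + 4 * cho a S k)
      (rounds a S k ++ l) ≤ fin (pos a) (rel a T) (hand a T) 0 (E a T 0 + 4 * cho a S 0) l := by
  intro k
  induction k with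
  | zero => intro _; exact le_rfl
  | succ k ih =>
    intro hk
    refine le_trans ?_ (ih (by omega))
    rw [rounds, List.append_assoc]
    exact fin_round ho hk _ (fun _ => hS)

theorem E_anti (j : ℕ) (hj : j ≤ a.length) : E a T j ≤ E a T 0 := by
  induction j with
  | zero => exact le_rfl
  | succ j ih =>
    have := ih (by omega)
    rw [E_succ (by omega)] at this
    omega

theorem fin_rest (ho : Ok a) (l : List ℕ) : ∀ (x t : ℕ), l.Pairwise (· < ·) →
    (∀ j ∈ l, j < a.length ∧ x ≤ (j + 1) * L a + itm a j) → x ≤ (a.length + 1) * L a →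
    E a T 0 ≤ t →
    fin (pos a) (rel a T) (hand a T) x t (l.map (fun j => a.length + 2 * j + 1) ++
      [3 * a.length]) ≤ max (t + ((a.length + 1) * L a - x) + (l.map fun j => 2 * itm a j).sum)
        (rel a T (3 * a.length)) + M a T + (a.length + 1) * L a := by
  have hp : pos a (3 * a.length) = (a.length + 1) * L a := by
    have : 3 * a.length = a.length + 2 * a.length := by ring
    rw [this, pos_A]
  have hh : hand a T (3 * a.length) = M a T := by
    have : 3 * a.length = a.length + 2 * a.length := by ring
    rw [this, hand_A]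
  induction l with
  | nil =>
    intro x t _ _ hx ht
    simp only [List.map_nil, List.nil_append, fin, List.sum_nil]
    rw [hp, hh]
    omega
  | cons j l ih =>
    intro x t hl hj hx ht
    rw [List.pairwise_cons] at hl
    obtain ⟨hj1, hj2⟩ := hj j List.mem_cons_self
    have hLs : ∀ i < a.length, itm a i < L a := fun i hi => by
      have := itm_le hi
      unfold L
      omega
    have hE : E a T (j + 1) + (j + 1) * L a ≤ E a T 0 := by
      have h1 := E_anti (a := a) (T := T) j hj1.le
      rw [E_succ hj1] at h1
      have h2 : 2 * (j + 1) * L a = (j + 1) * L a + (j + 1) * L a := by ring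
      omega
    have hz : (j + 1) * L a + itm a j ≤ (a.length + 1) * L a := by
      have h1 := hLs j hj1
      have h2 : (j + 2) * L a ≤ (a.length + 1) * L a := Nat.mul_le_mul_right _ (by omega)
      have h3 : (j + 2) * L a = (j + 1) * L a + L a := by ring
      omega
    simp only [List.map_cons, List.cons_append, fin, List.sum_cons]
    rw [pos_O, rel_O hj1, hand_O ho hj1]
    refine le_trans (ih _ _ hl.2 ?_ hz ?_) ?_
    · intro i hi
      refine ⟨(hj i (List.mem_cons_of_mem _ hi)).1, ?_⟩
      have h1 := hl.1 i hi
      have h2 : (j + 2) * L a ≤ (i + 1) * L a := Nat.mul_le_mul_right _ (by omega)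
      have h3 : (j + 2) * L a = (j + 1) * L a + L a := by ring
      have h4 := hLs j hj1
      omega
    · omega
    · omega

theorem sum_rest (S : Finset ℕ) (hS : S ⊆ range a.length) :
    ((rest a S).map fun j => 2 * itm a j).sum + 2 * ∑ i ∈ S, itm a i = 2 * a.sum := by
  have h1 : (rest a S).Nodup := List.nodup_range.filter _
  rw [← List.sum_toFinset _ h1, ← sum_itm (a := a), ← mul_sum, ← mul_add]
  congr 1
  have h2 : (rest a S).toFinset = range a.length \ S := by
    ext i
    simp [rest]
  rw [h2, sum_sdiff hS]

/-- The schedule is fast. -/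
theorem fin_sched (ho : Ok a) {S : Finset ℕ} (hS : S ⊆ range a.length)
    (hT : ∑ i ∈ S, itm a i = T) :
    fin (pos a) (rel a T) (hand a T) 0 0 (sched a S) ≤ K a T := by
  have h0 : cho a S 0 = T := by rw [cho_zero hS, hT]
  have h1 := fin_rounds (T := T) ho h0
    ((rest a S).map (fun j => a.length + 2 * j + 1) ++ [3 * a.length]) a.length le_rfl
  rw [cho_top, E_top, h0] at h1
  refine h1.trans ?_
  have h2 : (rest a S).Pairwise (· < ·) := List.pairwise_lt_range.filter _
  have h3 := fin_rest (T := T) ho (rest a S) 0 (E a T 0 + 4 * T) h2 (by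
    intro j hj
    simp only [rest, List.mem_filter, List.mem_range] at hj
    exact ⟨hj.1, Nat.zero_le _⟩) (Nat.zero_le _) (by omega)
  refine h3.trans ?_
  have h4 := sum_rest S hS
  rw [hT] at h4
  rw [rel_F]
  have h6 : K a T = E a T 0 + M a T + 2 * a.sum + 2 * T + 2 * (a.length + 1) * L a := rfl
  have h7 : 2 * (a.length + 1) * L a = (a.length + 1) * L a + (a.length + 1) * L a := by ring
  omega

theorem mem_rounds {S : Finset ℕ} {k v : ℕ} : v ∈ rounds a S k ↔
    ∃ j < k, v = a.length + 2 * j ∨ (j ∈ S ∧ v = a.length + 2 * j + 1) ∨ v = j := by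
  induction k with
  | zero => simp [rounds]
  | succ k ih =>
    rw [rounds, List.mem_append, ih]
    have h1 : v ∈ round a S k ↔
        (v = a.length + 2 * k ∨ (k ∈ S ∧ v = a.length + 2 * k + 1) ∨ v = k) := by
      unfold round
      by_cases h : k ∈ S <;> simp [h]
    rw [h1]
    constructor
    · rintro (h | ⟨j, hj, h⟩)
      · exact ⟨k, by omega, h⟩
      · exact ⟨j, by omega, h⟩
    · rintro ⟨j, hj, h⟩
      rcases Nat.lt_succ_iff_lt_or_eq.1 hj with hj | rfl
      · exact Or.inr ⟨j, hj, h⟩
      · exact Or.inl h

theorem mem_sched {S : Finset ℕ} {v : ℕ} :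
    v ∈ sched a S ↔ v < 3 * a.length + 1 := by
  unfold sched rest
  simp only [List.mem_append, mem_rounds, List.mem_map, List.mem_filter, List.mem_range,
    List.mem_singleton, decide_eq_true_eq]
  constructor
  · rintro (⟨j, hj, h⟩ | ⟨j, ⟨hj, h⟩, rfl⟩ | rfl) <;> omega
  · intro hv
    rcases Nat.lt_or_ge v a.length with h | h
    · exact Or.inl ⟨v, h, Or.inr (Or.inr rfl)⟩
    · obtain ⟨i, hi | hi⟩ : ∃ i, v = a.length + 2 * i ∨ v = a.length + 2 * i + 1 :=
        ⟨(v - a.length) / 2, by omega⟩
      · rcases Nat.lt_or_ge i a.length with h' | h'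
        · exact Or.inl ⟨i, h', Or.inl hi⟩
        · right; right
          omega
      · by_cases hiS : i ∈ S
        · exact Or.inl ⟨i, by omega, Or.inr (Or.inl ⟨hiS, hi⟩)⟩
        · right; left
          exact ⟨i, ⟨by omega, hiS⟩, hi.symm⟩

theorem length_rounds {S : Finset ℕ} {k : ℕ} :
    (rounds a S k).length = 2 * k + ((List.range k).filter fun j => j ∈ S).length := by
  induction k with
  | zero => simp [rounds]
  | succ k ih =>
    rw [rounds, List.length_append, ih, List.range_succ, List.filter_append, List.length_append]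
    unfold round
    by_cases h : k ∈ S <;> simp [h] <;> omega

theorem length_sched {S : Finset ℕ} : (sched a S).length = 3 * a.length + 1 := by
  unfold sched rest
  rw [List.length_append, List.length_append, length_rounds, List.length_map,
    List.length_singleton]
  have h1 := List.length_eq_length_filter_add (l := List.range a.length) (fun j => decide (j ∈ S))
  rw [List.length_range] at h1
  have h2 : (List.filter (fun x => !decide (x ∈ S)) (List.range a.length)) =
      (List.filter (fun j => decide (j ∉ S)) (List.range a.length)) := by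
    refine List.filter_congr fun x _ => ?_
    simp
  rw [h2] at h1
  omega

theorem nodup_sched {S : Finset ℕ} : (sched a S).Nodup := by
  have h1 : (sched a S).toFinset = range (3 * a.length + 1) := by
    ext v
    rw [List.mem_toFinset, mem_sched, mem_range]
  have h2 : (sched a S).toFinset.card = (sched a S).length := by
    rw [h1, card_range, length_sched]
  exact Multiset.coe_nodup.1 (Multiset.toFinset_card_eq_card_iff_nodup.1 h2)

end Pool.Agent.N582.VL
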