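import Pool.Agent.N582.VLDefs
import Pool.Agent.N582.VLBack
import Pool.Agent.N582.VLFwd
import Pool.Agent.H671R2.SubsetSum

/-!
# Scheduling a single vehicle on a line: the reduction from subset sum
-/

set_option autoImplicit false

namespace Pool.Agent.N582.VL

open Finset Pool.Agent.NPC Pool.Agent.NPC.R671 Pool.Agent.NPC.R671.SS

theorem L_pos (a : List ℕ) : 0 < L a := by unfold L; omega

theorem M_pos (a : List ℕ) (T : ℕ) : 0 < M a T := by unfold M; omega

/-- the instance -/
def inst (x : List ℕ × ℕ) : Inst where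
  n := 3 * x.1.length
  right i := pos x.1 (i + 1) - pos x.1 i
  left i := pos x.1 (i + 1) - pos x.1 i
  start := 0
  release v := rel x.1 x.2 v
  handling v := hand x.1 x.2 v
  handling_pos v := by
    have := M_pos x.1 x.2
    unfold hand
    split_ifs <;> omega
  bound := K x.1 x.2

theorem pos_mono {a : List ℕ} {v : ℕ} (hv : v < 3 * a.length) : pos a v ≤ pos a (v + 1) := by
  rcases Nat.lt_or_ge v a.length with h | h
  · rw [pos_C h]
    exact Nat.zero_le _
  · obtain ⟨i, hi | hi⟩ : ∃ i, v = a.length + 2 * i ∨ v = a.length + 2 * i + 1 :=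
      ⟨(v - a.length) / 2, by omega⟩
    · subst hi
      rw [pos_A, pos_O]
      omega
    · subst hi
      have e : a.length + 2 * i + 1 + 1 = a.length + 2 * (i + 1) := by ring
      rw [e, pos_A, pos_O]
      have h1 := itm_le (a := a) (j := i) (by omega)
      have h2 : (i + 1 + 1) * L a = (i + 1) * L a + L a := by ring
      unfold L at *
      omega

/-- telescoping -/
theorem tele (f : ℕ → ℕ) (u v : ℕ) : ∀ m, (∀ i < m, f i ≤ f (i + 1)) →
    ∑ i ∈ range m, (if u ≤ i ∧ i + 1 ≤ v then f (i + 1) - f i else 0) =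
      f (min m v) - f (min m u) := by
  intro m
  induction m with
  | zero => intro _; simp
  | succ m ih =>
    intro hf
    have hmono : ∀ i j, i ≤ j → j ≤ m + 1 → f i ≤ f j := by
      intro i j hij
      induction j, hij using Nat.le_induction with
      | base => intro _; exact le_rfl
      | succ j hij ih => intro hj; exact (ih (by omega)).trans (hf j (by omega))
    rw [sum_range_succ, ih (fun i hi => hf i (by omega))]
    by_cases h1 : u ≤ m
    · by_cases h2 : m + 1 ≤ v
      · rw [if_pos ⟨h1, h2⟩, min_eq_left (by omega), min_eq_right h1, min_eq_left h2,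
          min_eq_right (by omega)]
        have h3 := hmono u m h1 (by omega)
        have h4 := hmono m (m + 1) (by omega) le_rfl
        omega
      · rw [if_neg (fun h => h2 h.2), min_eq_right (by omega : v ≤ m), min_eq_right h1,
          min_eq_right (by omega : v ≤ m + 1), min_eq_right (by omega : u ≤ m + 1), add_zero]
    · rw [if_neg (fun h => h1 h.1), min_eq_left (by omega : m ≤ u),
        min_eq_left (by omega : m + 1 ≤ u), add_zero]
      have h3 := hmono (min m v) m (min_le_left _ _) (by omega)
      have h4 := hmono (min (m + 1) v) (m + 1) (min_le_left _ _) le_rfl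
      omega

theorem travel_inst (x : List ℕ × ℕ) (u v : Fin ((inst x).n + 1)) :
    (inst x).travel u v = (pos x.1 v - pos x.1 u) + (pos x.1 u - pos x.1 v) := by
  have key : ∀ u v : Fin ((inst x).n + 1), ∑ i : Fin (inst x).n with u ≤ i.castSucc ∧ i.succ ≤ v,
      (pos x.1 (i + 1) - pos x.1 i) = pos x.1 v - pos x.1 u := by
    intro u v
    rw [sum_filter]
    have h1 := tele (pos x.1) u v (inst x).n (fun i hi => pos_mono hi)
    rw [min_eq_right (by omega), min_eq_right (by omega)] at h1
    rw [← h1, ← Fin.sum_univ_eq_sum_range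
      (fun i => if (u : ℕ) ≤ i ∧ i + 1 ≤ (v : ℕ) then pos x.1 (i + 1) - pos x.1 i else 0)]
    refine sum_congr rfl fun i _ => if_congr ?_ rfl rfl
    rw [Fin.le_def, Fin.le_def]
    simp
  unfold Inst.travel
  exact congrArg₂ (· + ·) (key u v) (key v u)

theorem finish_inst (x : List ℕ × ℕ) (hx : 0 < x.1.length) (l : List (Fin ((inst x).n + 1))) :
    ∀ (u : Fin ((inst x).n + 1)) (t : ℕ), (inst x).finish u t l =
      fin (pos x.1) (rel x.1 x.2) (hand x.1 x.2) (pos x.1 u) t (l.map Fin.val) := by
  induction l with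
  | nil =>
    intro u t
    have h0 : pos x.1 ((inst x).start : ℕ) = 0 := pos_C hx
    simp only [Inst.finish, List.map_nil, fin]
    rw [travel_inst, h0]
    omega
  | cons v l ih =>
    intro u t
    simp only [Inst.finish, List.map_cons, fin]
    rw [ih, travel_inst]
    rfl

theorem ok_of_nice {x : List ℕ × ℕ} (h : Nice x) : Ok x.1 := by
  obtain ⟨h1, h2⟩ := h
  refine ⟨?_, ?_⟩
  · intro j hj
    unfold itm
    rw [List.getD_eq_getElem _ _ hj]
    exact (h1 _ (List.getElem_mem hj)).1
  · rw [List.length_pos_iff]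
    rintro h3
    rw [h3] at h2
    simp at h2

theorem sol_iff (x : List ℕ × ℕ) : Sol x.1 x.2 ↔ SubsetSum x := by
  have hr : ∀ a : List ℕ, (List.range a.length).map (itm a) = a := by
    intro a
    apply List.ext_getElem
    · simp
    · intro i h1 h2
      simp [itm, h2]
  constructor
  · rintro ⟨S, hS, hsum⟩
    refine ⟨((List.range x.1.length).filter fun i => i ∈ S).map (itm x.1), ?_, ?_⟩
    · have h1 : (((List.range x.1.length).filter fun i => i ∈ S).map (itm x.1)).Sublist
          ((List.range x.1.length).map (itm x.1)) := List.filter_sublist.map _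
      rwa [hr] at h1
    · rw [← List.sum_toFinset _ (List.nodup_range.filter _), ← hsum]
      congr 1
      ext i
      rw [List.mem_toFinset, List.mem_filter, List.mem_range, decide_eq_true_iff]
      exact ⟨fun h => h.2, fun h => ⟨mem_range.1 (hS h), h⟩⟩
  · rintro ⟨s, hs, hsum⟩
    rw [← hr x.1] at hs
    obtain ⟨s', hs', rfl⟩ := List.sublist_map_iff.1 hs
    refine ⟨s'.toFinset, ?_, ?_⟩
    · intro i hi
      exact mem_range.2 (List.mem_range.1 (hs'.subset (List.mem_toFinset.1 hi)))
    · rw [List.sum_toFinset _ (List.nodup_range.sublist hs'), hsum]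

theorem correct (x : List ℕ × ℕ) (hx : Nice x) : SubsetSum x ↔ Schedulable (inst x) := by
  have ho := ok_of_nice hx
  rw [← sol_iff]
  constructor
  · rintro ⟨S, hS, hT⟩
    have h1 : ∀ v ∈ sched x.1 S, v < (inst x).n + 1 := fun v hv => mem_sched.1 hv
    refine ⟨(sched x.1 S).pmap Fin.mk h1, ?_, ?_, ?_⟩
    · exact List.Nodup.pmap (fun a ha b hb h => congrArg Fin.val h) nodup_sched
    · intro v
      rw [List.mem_pmap]
      exact ⟨v, mem_sched.2 v.2, rfl⟩
    · rw [finish_inst x ho.2, List.map_pmap]
      have h2 : (sched x.1 S).pmap (fun a h => Fin.val (⟨a, h⟩ : Fin ((inst x).n + 1))) h1 =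
          sched x.1 S := by
        rw [List.pmap_eq_map, List.map_id']
      rw [h2]
      have h3 : pos x.1 ((inst x).start : ℕ) = 0 := pos_C ho.2
      rw [h3]
      exact fin_sched ho hS hT
  · rintro ⟨π, h1, h2, h3⟩
    rw [finish_inst x ho.2] at h3
    have h4 : pos x.1 ((inst x).start : ℕ) = 0 := pos_C ho.2
    rw [h4] at h3
    refine back ho _ _ _ _ _ _ (inv_start ho.2) ?_ h3
    refine ⟨h1.map Fin.val_injective, fun v => ?_⟩
    rw [List.mem_map]
    constructor
    · rintro ⟨w, -, rfl⟩
      exact ⟨w.2, by simp⟩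
    · rintro ⟨hv, -⟩
      exact ⟨⟨v, hv⟩, h2 _, rfl⟩

/-! ### The reduction is computable in polynomial time -/

section Poly

variable {α : Type} [TEnc α] {a : α → List ℕ} {T v : α → ℕ}

theorem poly_L (ha : NPC.Poly a) : NPC.Poly (fun x => L (a x)) := by
  unfold L
  fun_prop

theorem poly_M (ha : NPC.Poly a) (hT : NPC.Poly T) : NPC.Poly (fun x => M (a x) (T x)) := by
  have h := poly_L ha
  unfold M N
  fun_prop

theorem poly_itm (ha : NPC.Poly a) (hv : NPC.Poly v) : NPC.Poly (fun x => itm (a x) (v x)) := by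
  unfold itm
  fun_prop

theorem poly_E (ha : NPC.Poly a) (hT : NPC.Poly T) (hv : NPC.Poly v) :
    NPC.Poly (fun x => E (a x) (T x) (v x)) := by
  have h := poly_L ha
  have h2 := poly_M ha hT
  unfold E
  fun_prop

theorem poly_pos (ha : NPC.Poly a) (hv : NPC.Poly v) : NPC.Poly (fun x => pos (a x) (v x)) := by
  have h := poly_L ha
  have h1 := poly_itm ha (v := fun x => (v x - (a x).length) / 2) (by fun_prop)
  unfold pos
  fun_prop

theorem poly_rel (ha : NPC.Poly a) (hT : NPC.Poly T) (hv : NPC.Poly v) :
    NPC.Poly (fun x => rel (a x) (T x) (v x)) := by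
  have h := poly_L ha
  have h2 := poly_M ha hT
  have h3 := poly_E ha hT (v := fun x => v x + 1) (by fun_prop)
  have h4 := poly_E ha hT (v := fun x => (v x - (a x).length) / 2 + 1) (by fun_prop)
  have h5 := poly_E ha hT (v := fun x => 0) (by fun_prop)
  unfold rel
  fun_prop

theorem poly_hand (ha : NPC.Poly a) (hT : NPC.Poly T) (hv : NPC.Poly v) :
    NPC.Poly (fun x => hand (a x) (T x) (v x)) := by
  have h2 := poly_M ha hT
  have h1 := poly_itm ha (v := fun x => (v x - (a x).length) / 2) (by fun_prop)
  unfold hand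
  fun_prop

theorem poly_K (ha : NPC.Poly a) (hT : NPC.Poly T) : NPC.Poly (fun x => K (a x) (T x)) := by
  have h := poly_L ha
  have h2 := poly_M ha hT
  have h5 := poly_E ha hT (v := fun x => 0) (by fun_prop)
  unfold K
  fun_prop

end Poly

theorem ofFn_eq {β : Type} (n : ℕ) (f : ℕ → β) :
    List.ofFn (fun i : Fin n => f i) = (List.range n).map f := by
  apply List.ext_getElem
  · simp
  · intro i h1 h2
    simp

theorem poly_inst : NPC.Poly inst := by
  have hlen : UPoly (fun x : List ℕ × ℕ => 3 * x.1.length) :=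
    (UPoly.const 3).mul (UPoly.length (NPC.Poly.fst NPC.Poly.id))
  have h : NPC.Poly (fun x : List ℕ × ℕ => (inst x).code) := by
    refine NPC.Poly.pair ?_ (NPC.Poly.pair ?_ (NPC.Poly.pair (NPC.Poly.const 0) ?_))
    · refine (NPC.Poly.map (l := fun x : List ℕ × ℕ => List.range (3 * x.1.length))
        (F := fun x i => (pos x.1 (i + 1) - pos x.1 i, pos x.1 (i + 1) - pos x.1 i))
        hlen.range ?_).congr fun x => (ofFn_eq _ _).symm
      have h1 : NPC.Poly (fun p : (List ℕ × ℕ) × ℕ => pos p.1.1 (p.2 + 1)) :=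
        poly_pos (by fun_prop) (by fun_prop)
      have h2 : NPC.Poly (fun p : (List ℕ × ℕ) × ℕ => pos p.1.1 p.2) :=
        poly_pos (by fun_prop) (by fun_prop)
      fun_prop
    · refine (NPC.Poly.map (l := fun x : List ℕ × ℕ => List.range (3 * x.1.length + 1))
        (F := fun x v => (rel x.1 x.2 v, hand x.1 x.2 v))
        (hlen.add (UPoly.const 1)).range ?_).congr fun x => (ofFn_eq _ _).symm
      have h1 : NPC.Poly (fun p : (List ℕ × ℕ) × ℕ => rel p.1.1 p.1.2 p.2) :=
        poly_rel (by fun_prop) (by fun_prop) (by fun_prop)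
      have h2 : NPC.Poly (fun p : (List ℕ × ℕ) × ℕ => hand p.1.1 p.1.2 p.2) :=
        poly_hand (by fun_prop) (by fun_prop) (by fun_prop)
      fun_prop
    · exact poly_K (by fun_prop) (by fun_prop)
  exact h

theorem npHard : NPHardP Schedulable := by
  refine HardI.toNPHardP (HardPr.toHardI (Pr := fun _ => True)
    (HardPr.trans hardPr_SubsetSum poly_inst (fun _ _ => trivial) ?_))
  intro x hx
  exact correct x hx

/-- the problem for symmetric travel times and a vehicle which starts at the left end -/
theorem npHard_sym : NPHardP (fun I : Inst =>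
    (∀ i, I.right i = I.left i) ∧ I.start = 0 ∧ Schedulable I) := by
  refine HardI.toNPHardP (HardPr.toHardI (Pr := fun _ => True)
    (HardPr.trans hardPr_SubsetSum poly_inst (fun _ _ => trivial) ?_))
  intro x hx
  rw [correct x hx]
  exact ⟨fun h => ⟨fun _ => rfl, rfl, h⟩, fun h => h.2.2⟩

end Pool.Agent.N582.VL
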