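import Pool.Agent.N582.ESSuff
import Pool.Agent.N582.VLMain

/-!
# Equitable 2-choosability of disjoint unions of stars: the reduction from subset sum
-/

set_option autoImplicit false

namespace Pool.Agent.N582.ES

open Finset Pool.Agent.NPC Pool.Agent.NPC.R671 Pool.Agent.NPC.R671.SS
open Pool.Agent.N582.VL (itm poly_itm ofFn_eq sol_iff Sol)

/-- the items of the partition problem -/
def c (a : List ℕ) (t i : ℕ) : ℕ :=
  if i = 0 then 2 * a.sum - t else if i = 1 then a.sum + t else itm a (i - 2)

/-- the size of a unit -/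
def X (a : List ℕ) : ℕ := 4 * a.sum + 1

/-- the weights of the stars (the number of their leaves minus one) -/
def wt (a : List ℕ) (t i : ℕ) : ℕ :=
  (if i < 1001 * (a.length + 2) then 2 else 3) * X a + c a t i

theorem wt_lo {a : List ℕ} {t i : ℕ} (hi : i < 1001 * (a.length + 2)) :
    wt a t i = 2 * X a + c a t i := by
  unfold wt
  rw [if_pos hi]

theorem wt_hi {a : List ℕ} {t i : ℕ} (hi : 1001 * (a.length + 2) ≤ i) :
    wt a t i = 3 * X a + c a t i := by
  unfold wt
  rw [if_neg (not_lt.2 hi)]

/-- the instance -/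
def inst (x : List ℕ × ℕ) : List ℕ :=
  (List.range (2001 * (x.1.length + 2))).map fun i => wt x.1 x.2 i + 1

theorem inst_length (x : List ℕ × ℕ) : (inst x).length = 2001 * (x.1.length + 2) := by
  simp [inst]

theorem inst_get (x : List ℕ × ℕ) (i : Fin (inst x).length) :
    (inst x).get i = wt x.1 x.2 i + 1 := by
  unfold inst
  rw [List.get_eq_getElem, List.getElem_map, List.getElem_range]

theorem c_zero {a : List ℕ} {t i : ℕ} (hi : a.length + 2 ≤ i) : c a t i = 0 := by
  unfold c
  rw [if_neg (by omega), if_neg (by omega)]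
  unfold itm
  rw [List.getD_eq_default _ _ (by omega)]

theorem sum_itm (a : List ℕ) : ∑ i ∈ range a.length, itm a i = a.sum := by
  induction a with
  | nil => simp
  | cons x a ih =>
    rw [List.length_cons, sum_range_succ']
    simp only [itm, List.getD_cons_succ, List.getD_cons_zero, List.sum_cons]
    simp only [itm] at ih
    omega

theorem sum_c {a : List ℕ} {t : ℕ} (ht : t ≤ a.sum) :
    ∑ i ∈ range (a.length + 2), c a t i = 4 * a.sum := by
  rw [sum_range_succ', sum_range_succ']
  have h1 : ∀ i, c a t (i + 1 + 1) = itm a i := by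
    intro i
    unfold c
    rw [if_neg (by omega), if_neg (by omega)]
    rfl
  simp only [h1, sum_itm]
  unfold c
  rw [if_neg (by norm_num), if_pos (by norm_num), if_pos rfl]
  omega

theorem part_iff {a : List ℕ} {t : ℕ} (ht : t ≤ a.sum) (ha : 0 < a.sum) :
    (∃ J ⊆ range (a.length + 2), ∑ i ∈ J, c a t i = 2 * a.sum) ↔ Sol a t := by
  have h1 : ∀ i, c a t (i + 1 + 1) = itm a i := by
    intro i
    unfold c
    rw [if_neg (by omega), if_neg (by omega)]
    rfl
  have hc0 : c a t 0 = 2 * a.sum - t := rfl
  have hc1 : c a t (0 + 1) = a.sum + t := by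
    unfold c
    rw [if_neg (by norm_num), if_pos (by norm_num)]
  have key : ∀ J ⊆ range (a.length + 2), ∑ i ∈ J, c a t i =
      ∑ i ∈ (range a.length).filter (fun i => i + 1 + 1 ∈ J), itm a i +
        (if 1 ∈ J then a.sum + t else 0) + (if 0 ∈ J then 2 * a.sum - t else 0) := by
    intro J hJ
    have e : ∑ i ∈ J, c a t i = ∑ i ∈ range (a.length + 2), if i ∈ J then c a t i else 0 := by
      rw [← sum_filter]
      congr 1
      ext i
      rw [mem_filter]
      exact ⟨fun h => ⟨hJ h, h⟩, fun h => h.2⟩
    rw [e, sum_range_succ', sum_range_succ', hc0, hc1, sum_filter]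
    simp only [h1]
  constructor
  · rintro ⟨J, hJ, hs⟩
    rw [key J hJ] at hs
    set J' := (range a.length).filter (fun i => i + 1 + 1 ∈ J)
    have hJ' : J' ⊆ range a.length := filter_subset _ _
    have h2 : ∑ i ∈ range a.length \ J', itm a i + ∑ i ∈ J', itm a i = a.sum := by
      rw [sum_sdiff hJ', sum_itm]
    by_cases h0 : 0 ∈ J
    · rw [if_pos h0] at hs
      by_cases h3 : 1 ∈ J
      · rw [if_pos h3] at hs
        omega
      · rw [if_neg h3] at hs
        exact ⟨J', hJ', by omega⟩
    · rw [if_neg h0] at hs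
      by_cases h3 : 1 ∈ J
      · rw [if_pos h3] at hs
        exact ⟨range a.length \ J', sdiff_subset, by omega⟩
      · rw [if_neg h3] at hs
        omega
  · rintro ⟨I, hI, hs⟩
    refine ⟨insert 0 (I.image (fun i => i + 1 + 1)), ?_, ?_⟩
    · intro i hi
      rw [mem_insert, mem_image] at hi
      rw [mem_range]
      rcases hi with rfl | ⟨j, hj, rfl⟩
      · omega
      · have := mem_range.1 (hI hj)
        omega
    · rw [sum_insert, sum_image (fun i _ j _ h => by omega)]
      · simp only [h1, hs, hc0]
        omega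
      · rw [mem_image]
        rintro ⟨j, -, hj⟩
        omega

theorem card_fin_filter (n : ℕ) (p : ℕ → Prop) [DecidablePred p] :
    #(univ.filter fun i : Fin n => p i) = #((range n).filter p) := by
  rw [card_filter, card_filter, Fin.sum_univ_eq_sum_range (fun i => if p i then 1 else 0)]

theorem sum_fin_filter (n : ℕ) (p : ℕ → Prop) [DecidablePred p] (f : ℕ → ℕ) :
    ∑ i ∈ (univ.filter fun i : Fin n => p i), f i = ∑ i ∈ (range n).filter p, f i := by
  rw [sum_filter, sum_filter, Fin.sum_univ_eq_sum_range (fun i => if p i then f i else 0)]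

theorem sum_wt {a : List ℕ} {t : ℕ} (ht : t ≤ a.sum) :
    ∑ i ∈ range (2001 * (a.length + 2)), wt a t i =
      10 * (500 * (a.length + 2) * X a) + 2 * ((a.length + 2) * X a) + 4 * a.sum := by
  have e : 2001 * (a.length + 2) = 1001 * (a.length + 2) + 1000 * (a.length + 2) := by ring
  have e2 : 1001 * (a.length + 2) = (a.length + 2) + 1000 * (a.length + 2) := by ring
  have h1 : ∑ i ∈ range (1001 * (a.length + 2)), c a t i = 4 * a.sum := by
    rw [e2, sum_range_add, sum_c ht, add_eq_left]
    exact sum_eq_zero fun i _ => c_zero (Nat.le_add_right _ _)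
  have h2 : ∑ i ∈ range (1001 * (a.length + 2)), wt a t i =
      1001 * (a.length + 2) * (2 * X a) + 4 * a.sum := by
    have h3 : ∀ i ∈ range (1001 * (a.length + 2)), wt a t i = 2 * X a + c a t i :=
      fun i hi => wt_lo (mem_range.1 hi)
    rw [sum_congr rfl h3, sum_add_distrib, h1, sum_const, card_range, smul_eq_mul]
  have h4 : ∀ i ∈ range (1000 * (a.length + 2)),
      wt a t (1001 * (a.length + 2) + i) = 3 * X a := by
    intro i _
    rw [wt_hi (Nat.le_add_right _ _), c_zero (by omega), add_zero]
  rw [e, sum_range_add, h2, sum_congr rfl h4, sum_const, card_range, smul_eq_mul]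
  ring

theorem correct (x : List ℕ × ℕ) (hx : Nice x) : SubsetSum x ↔ StarsEq2Choosable (inst x) := by
  obtain ⟨a, t⟩ := x
  obtain ⟨hx1, hx2⟩ := hx
  simp only at hx1 hx2
  rw [← sol_iff, ← part_iff (by simp only; omega) (by simp only; omega)]
  simp only
  set r := a.length + 2 with hr
  set n := (inst (a, t)).length with hn
  have hn' : n = 2001 * r := inst_length (a, t)
  have hw : ∀ i : Fin n, (inst (a, t)).get i = wt a t i + 1 := inst_get (a, t)
  have hsum : ∑ i : Fin n, wt a t i = 10 * (500 * r * X a) + 2 * (r * X a) + 4 * a.sum := by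
    rw [Fin.sum_univ_eq_sum_range (fun i => wt a t i), hn']
    exact sum_wt hx2.le
  have hcle : ∀ i, c a t i ≤ 4 * a.sum := by
    intro i
    rcases Nat.lt_or_ge i r with h | h
    · rw [← sum_c hx2.le]
      exact single_le_sum (f := fun i => c a t i) (fun _ _ => Nat.zero_le _) (mem_range.2 h)
    · rw [c_zero h]
      exact Nat.zero_le _
  have hX : 4 * a.sum < X a := Nat.lt_succ_self _
  constructor
  · rintro ⟨J, hJ, hs⟩
    have hJc : #J ≤ r := by
      have := card_le_card hJ
      rwa [card_range] at this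
    -- the fillers
    set P2 : Finset (Fin n) := univ.filter fun i => r ≤ (i : ℕ) ∧ (i : ℕ) < 1001 * r with hP2d
    set P3 : Finset (Fin n) := univ.filter fun i => 1001 * r ≤ (i : ℕ) with hP3d
    have hd : Disjoint P2 P3 := by
      rw [disjoint_left]
      intro i h1 h2
      rw [mem_filter] at h1 h2
      omega
    have hP2 : #P2 = 2 * (500 * r) := by
      rw [hP2d, card_fin_filter n (fun i => r ≤ i ∧ i < 1001 * r)]
      have : (range n).filter (fun i => r ≤ i ∧ i < 1001 * r) = Ico r (1001 * r) := by
        ext i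
        rw [mem_filter, mem_range, mem_Ico]
        omega
      rw [this, Nat.card_Ico]
      omega
    have hP3 : #P3 = 2 * (500 * r) := by
      rw [hP3d, card_fin_filter n (fun i => 1001 * r ≤ i)]
      have : (range n).filter (fun i => 1001 * r ≤ i) = Ico (1001 * r) n := by
        ext i
        rw [mem_filter, mem_range, mem_Ico]
        omega
      rw [this, Nat.card_Ico]
      omega
    have hw2 : ∀ i ∈ P2, wt a t i = 2 * X a := by
      intro i hi
      rw [hP2d, mem_filter] at hi
      rw [wt_lo hi.2.2, c_zero hi.2.1, add_zero]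
    have hw3 : ∀ i ∈ P3, wt a t i = 3 * X a := by
      intro i hi
      rw [hP3d, mem_filter] at hi
      rw [wt_hi hi.2, c_zero (by omega), add_zero]
    have hlo : ∀ i : Fin n, 2 * X a ≤ wt a t i := by
      intro i
      rcases Nat.lt_or_ge (i : ℕ) (1001 * r) with h1 | h1
      · rw [wt_lo h1]
        omega
      · rw [wt_hi h1]
        omega
    have hhi : ∀ i : Fin n, wt a t i ≤ 3 * X a := by
      intro i
      have := hcle i
      rcases Nat.lt_or_ge (i : ℕ) (1001 * r) with h1 | h1
      · rw [wt_lo h1]
        omega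
      · rw [wt_hi h1, c_zero (by omega), add_zero]
    -- the partition
    obtain ⟨I, hI, hI2⟩ := fill (w := fun i : Fin n => wt a t i) (X := X a) hd hw2 hw3
      (k := 5 * (500 * r) + r - 2 * #J) (by omega) (by omega) (by omega) (by omega)
    set J0 : Finset (Fin n) := univ.filter fun i => (i : ℕ) ∈ J with hJ0
    have hJs : ∑ i ∈ J0, wt a t i = #J * (2 * X a) + 2 * a.sum := by
      rw [hJ0, sum_fin_filter n (fun i => i ∈ J)]
      have : (range n).filter (fun i => i ∈ J) = J := by
        ext i
        rw [mem_filter, mem_range]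
        refine ⟨fun h => h.2, fun h => ⟨?_, h⟩⟩
        have := mem_range.1 (hJ h)
        omega
      have h3 : ∀ i ∈ J, wt a t i = 2 * X a + c a t i := by
        intro i hi
        have := mem_range.1 (hJ hi)
        exact wt_lo (by omega)
      rw [this, ← hs, sum_congr rfl h3, sum_add_distrib, sum_const, smul_eq_mul]
    have hdis : Disjoint J0 I := by
      rw [disjoint_left]
      intro i h1 h2
      rw [hJ0, mem_filter] at h1
      have h3 := mem_range.1 (hJ h1.2)
      rcases mem_union.1 (hI h2) with h4 | h4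
      · rw [hP2d, mem_filter] at h4
        omega
      · rw [hP3d, mem_filter] at h4
        omega
    have hr1 : 1 ≤ r := by omega
    have hcd : Fintype.card (Fin n) = 4 * (500 * r) + r := by
      rw [Fintype.card_fin, hn']
      ring
    obtain ⟨F, hF⟩ : ∃ F, F = 500 * r := ⟨_, rfl⟩
    rw [← hF] at hcd hP2 hP3 hsum hI2
    refine suff (fun i : Fin n => wt a t i) hw (X a) F r a.sum hr1 hF hX P2 P3 hd
      hP2 hP3 hw2 hw3 hlo hhi hsum hcd (J0 ∪ I) ?_
    rw [hsum, sum_union hdis, hJs, hI2, Nat.sub_mul, Nat.add_mul]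
    have e1 : #J * (2 * X a) ≤ r * (2 * X a) := Nat.mul_le_mul_right _ hJc
    have e2 : r * X a ≤ F * X a := Nat.mul_le_mul_right _ (by omega)
    have e3 : 2 * #J * X a = #J * (2 * X a) := by ring
    have e4 : 5 * F * X a = 5 * (F * X a) := by ring
    have e5 : r * (2 * X a) = 2 * (r * X a) := by ring
    rw [e3, e4]
    omega
  · intro hE
    obtain ⟨I, hI⟩ := nec (fun i : Fin n => wt a t i) hw
      (5 * (500 * r * X a) + r * X a + 2 * a.sum) (by omega) hE
    have hsp : ∑ i ∈ I, wt a t i = (∑ i ∈ I, (if (i : ℕ) < 1001 * r then 2 else 3)) * X a +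
        ∑ i ∈ I, c a t i := by
      rw [sum_mul, ← sum_add_distrib]
      rfl
    have hcI : ∑ i ∈ I, c a t i ≤ 4 * a.sum := by
      calc ∑ i ∈ I, c a t i ≤ ∑ i : Fin n, c a t i := sum_le_univ_sum_of_nonneg (fun _ => Nat.zero_le _)
        _ = ∑ i ∈ range n, c a t i := Fin.sum_univ_eq_sum_range (fun i => c a t i) n
        _ = 4 * a.sum := by
            rw [hn', show 2001 * r = r + 2000 * r by ring, sum_range_add, sum_c hx2.le,
              add_eq_left]
            exact sum_eq_zero fun i _ => c_zero (by omega)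
    set U := ∑ i ∈ I, (if (i : ℕ) < 1001 * r then 2 else 3)
    set Cs := ∑ i ∈ I, c a t i
    have hmod : Cs = 2 * a.sum := by
      have h1 : (U * X a + Cs) % X a = Cs := by
        rw [Nat.mul_comm, Nat.mul_add_mod, Nat.mod_eq_of_lt (by omega)]
      have h2 : ((2501 * r) * X a + 2 * a.sum) % X a = 2 * a.sum := by
        rw [Nat.mul_comm, Nat.mul_add_mod, Nat.mod_eq_of_lt (by omega)]
      have h3 : U * X a + Cs = (2501 * r) * X a + 2 * a.sum := by
        rw [← hsp, hI]
        ring
      rw [← h1, h3, h2]
    refine ⟨(I.image Fin.val).filter (· < r), ?_, ?_⟩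
    · intro i hi
      rw [mem_filter] at hi
      exact mem_range.2 hi.2
    · rw [sum_filter_of_ne]
      · rw [sum_image (fun i _ j _ h => Fin.ext h)]
        exact hmod
      · intro i _ hne
        by_contra h
        exact hne (c_zero (by omega))

/-! ### The reduction is computable in polynomial time -/

theorem poly_inst : NPC.Poly inst := by
  have hlen : UPoly (fun x : List ℕ × ℕ => 2001 * (x.1.length + 2)) :=
    (UPoly.const 2001).mul ((UPoly.length (NPC.Poly.fst NPC.Poly.id)).add (UPoly.const 2))
  unfold inst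
  refine NPC.Poly.map hlen.range ?_
  have h1 : NPC.Poly (fun p : (List ℕ × ℕ) × ℕ => itm p.1.1 (p.2 - 2)) :=
    poly_itm (by fun_prop) (by fun_prop)
  have h2 : NPC.Poly (fun p : (List ℕ × ℕ) × ℕ => c p.1.1 p.1.2 p.2) := by
    unfold c
    fun_prop
  have h3 : NPC.Poly (fun p : (List ℕ × ℕ) × ℕ => X p.1.1) := by
    unfold X
    fun_prop
  unfold wt
  fun_prop

theorem npHard : NPHardP StarsEq2Choosable := by
  refine HardI.toNPHardP (HardPr.toHardI (Pr := fun _ => True)
    (HardPr.trans hardPr_SubsetSum poly_inst (fun _ _ => trivial) ?_))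
  intro x hx
  exact correct x hx

/-- the problem for stars with at least one leaf -/
theorem npHard_pos : NPHardP (fun m : List ℕ => (∀ k ∈ m, 0 < k) ∧ StarsEq2Choosable m) := by
  refine HardI.toNPHardP (HardPr.toHardI (Pr := fun _ => True)
    (HardPr.trans hardPr_SubsetSum poly_inst (fun _ _ => trivial) ?_))
  intro x hx
  rw [correct x hx]
  refine ⟨fun h => ⟨fun k hk => ?_, h⟩, fun h => h.2⟩
  unfold inst at hk
  rw [List.mem_map] at hk
  obtain ⟨i, -, rfl⟩ := hk
  exact Nat.succ_pos _

end Pool.Agent.N582.ES
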