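import Pool.Agent.N582.ESCore

/-!
# Equitable list colourings of disjoint unions of stars: the two cases
-/

set_option autoImplicit false

namespace Pool.Agent.N582.ES

open Finset

section

variable {ι : Type} [Fintype ι] {m : ι → ℕ}

theorem card_vtx : Fintype.card (Vtx m) = ∑ i, (m i + 1) := by
  rw [Fintype.card_sigma]
  simp

theorem h_zero (L : Vtx m → Finset ℕ) (C : Finset ℕ) (hC : ∀ v, L v ⊆ C) (i : ι) {x c : ℕ}
    (hx : x ∈ C) (hc : c ∉ C) : h L i x c = 0 := by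
  unfold h
  rw [if_neg (fun e : c = x => hc (e ▸ hx)), zero_add, card_eq_zero, filter_eq_empty_iff]
  intro j _ hj
  apply hc
  apply hC ⟨i, j.succ⟩
  rw [hj]
  simp

/-- the number of forced vertices of colour `c` for both choices of the colours of the centres -/
def T (L : Vtx m → Finset ℕ) (a b : ι → ℕ) (c : ℕ) : ℕ :=
  ∑ i, (h L i (a i) c + h L i (b i) c)

theorem T_le (L : Vtx m → Finset ℕ) (a b : ι → ℕ) (hab : ∀ i, a i ≠ b i) (c : ℕ) :
    T L a b c ≤ ∑ i, (m i + 1) :=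
  sum_le_sum fun i _ => h_add_le L i (hab i) c

theorem exists_signs [DecidableEq ι] (L : Vtx m → Finset ℕ) (a b : ι → ℕ)
    (hab : ∀ i, a i ≠ b i) (M K : ℕ)
    (hM : ∀ i, m i + 1 ≤ M) (hK : 2 * Fintype.card ι * M ^ 2 ≤ K ^ 2) (C : Finset ℕ) (c0 : ℕ) :
    ∃ ε : ι → ℤ, (∀ i, ε i = 1 ∨ ε i = -1) ∧
      ∑ i, ε i * ((h L i (a i) c0 : ℤ) - h L i (b i) c0) ≤ 0 ∧
      ∀ c ∈ C, ∑ i, ε i * ((h L i (a i) c : ℤ) - h L i (b i) c) ≤ K := by
  obtain ⟨ε, h1, h2⟩ := balance C (fun i c => (h L i (a i) c : ℤ) - h L i (b i) c) univ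
  have h3 : ∑ i : ι, ∑ c ∈ C, ((h L i (a i) c : ℤ) - h L i (b i) c) ^ 2 ≤ (K : ℤ) ^ 2 := by
    calc _ ≤ ∑ i : ι, (2 * (M : ℤ) ^ 2) := by
            refine sum_le_sum fun i _ => ?_
            calc ∑ c ∈ C, ((h L i (a i) c : ℤ) - h L i (b i) c) ^ 2
                ≤ ∑ c ∈ C, (M : ℤ) * ((h L i (a i) c : ℤ) + h L i (b i) c) := by
                  refine sum_le_sum fun c _ => ?_
                  have h4 := h_add_le L i (hab i) c
                  have h5 := hM i
                  have h6 : (h L i (a i) c : ℤ) + h L i (b i) c ≤ M := by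
                    have : h L i (a i) c + h L i (b i) c ≤ M := h4.trans h5
                    exact_mod_cast this
                  have h7 : (0 : ℤ) ≤ h L i (a i) c := Int.natCast_nonneg _
                  have h8 : (0 : ℤ) ≤ h L i (b i) c := Int.natCast_nonneg _
                  nlinarith
              _ = (M : ℤ) * ((∑ c ∈ C, h L i (a i) c : ℕ) + (∑ c ∈ C, h L i (b i) c : ℕ)) := by
                  rw [← mul_sum, sum_add_distrib]
                  push_cast
                  rfl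
              _ ≤ (M : ℤ) * (M + M) := by
                  refine mul_le_mul_of_nonneg_left (add_le_add ?_ ?_) (Int.natCast_nonneg _)
                  · exact_mod_cast (sum_h_le L i (a i) C).trans (hM i)
                  · exact_mod_cast (sum_h_le L i (b i) C).trans (hM i)
              _ = 2 * (M : ℤ) ^ 2 := by ring
      _ = 2 * (Fintype.card ι : ℤ) * (M : ℤ) ^ 2 := by
            rw [sum_const, card_univ, nsmul_eq_mul]
            ring
      _ ≤ (K : ℤ) ^ 2 := by exact_mod_cast hK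
  have h4 : ∀ c ∈ C, |∑ i, ε i * ((h L i (a i) c : ℤ) - h L i (b i) c)| ≤ K := by
    intro c hc
    apply abs_le_of_sq_le_sq _ (Int.natCast_nonneg _)
    refine le_trans ?_ h3
    refine le_trans ?_ h2
    exact single_le_sum (f := fun c => (∑ i, ε i * ((h L i (a i) c : ℤ) - h L i (b i) c)) ^ 2)
      (fun _ _ => sq_nonneg _) hc
  rcases le_total (∑ i, ε i * ((h L i (a i) c0 : ℤ) - h L i (b i) c0)) 0 with h5 | h5
  · exact ⟨ε, h1, h5, fun c hc => (le_abs_self _).trans (h4 c hc)⟩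
  · refine ⟨fun i => - ε i, ?_, ?_, ?_⟩
    · intro i
      rcases h1 i with h | h <;> simp [h]
    · simp only [neg_mul, sum_neg_distrib]
      linarith
    · intro c hc
      simp only [neg_mul, sum_neg_distrib]
      exact (neg_le_abs _).trans (h4 c hc)

theorem caseA [DecidableEq ι] (L : Vtx m → Finset ℕ) (a b : ι → ℕ)
    (ha : ∀ i, a i ∈ L ⟨i, 0⟩) (hb : ∀ i, b i ∈ L ⟨i, 0⟩)
    (hab : ∀ i, a i ≠ b i) (M K cap : ℕ)
    (hM : ∀ i, m i + 1 ≤ M) (hK : 2 * Fintype.card ι * M ^ 2 ≤ K ^ 2)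
    (hcap : ∑ i, (m i + 1) ≤ 2 * cap)
    (c0 : ℕ) (hT : ∀ c, c ≠ c0 → T L a b c + K ≤ 2 * cap) :
    ∃ p : ι → ℕ, (∀ i, p i ∈ L ⟨i, 0⟩) ∧ ∀ c, ∑ i, h L i (p i) c ≤ cap := by
  obtain ⟨ε, h1, h2, h3⟩ := exists_signs L a b hab M K hM hK (insert c0 (univ.biUnion L)) c0
  have hp : ∀ i, (if ε i = 1 then a i else b i) ∈ L ⟨i, 0⟩ := by
    intro i
    split_ifs
    · exact ha i
    · exact hb i
  have hC : ∀ v, L v ⊆ insert c0 (univ.biUnion L) := by
    intro v
    exact (subset_biUnion_of_mem L (mem_univ v)).trans (subset_insert _ _)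
  refine ⟨fun i => if ε i = 1 then a i else b i, hp, ?_⟩
  intro c
  change ∑ i, h L i (if ε i = 1 then a i else b i) c ≤ cap
  by_cases hc : c ∈ insert c0 (univ.biUnion L)
  · have key : 2 * ((∑ i, h L i (if ε i = 1 then a i else b i) c : ℕ) : ℤ) =
        (T L a b c : ℤ) + ∑ i, ε i * ((h L i (a i) c : ℤ) - h L i (b i) c) := by
      unfold T
      push_cast
      rw [mul_sum, ← sum_add_distrib]
      refine sum_congr rfl fun i _ => ?_
      rcases h1 i with e | e
      · rw [e, if_pos rfl]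
        ring
      · rw [e, if_neg (by norm_num)]
        ring
    by_cases hc0 : c = c0
    · subst hc0
      have := T_le L a b hab c
      have h4 : (T L a b c : ℤ) ≤ 2 * cap := by exact_mod_cast this.trans hcap
      have : 2 * ((∑ i, h L i (if ε i = 1 then a i else b i) c : ℕ) : ℤ) ≤ 2 * cap := by
        rw [key]
        linarith
      have h5 : 2 * (∑ i, h L i (if ε i = 1 then a i else b i) c) ≤ 2 * cap := by
        exact_mod_cast this
      omega
    · have h4 : (T L a b c : ℤ) + K ≤ 2 * cap := by exact_mod_cast hT c hc0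
      have h6 := h3 c hc
      have : 2 * ((∑ i, h L i (if ε i = 1 then a i else b i) c : ℕ) : ℤ) ≤ 2 * cap := by
        rw [key]
        linarith
      have h5 : 2 * (∑ i, h L i (if ε i = 1 then a i else b i) c) ≤ 2 * cap := by
        exact_mod_cast this
      omega
  · rw [sum_eq_zero]
    · exact Nat.zero_le _
    · intro i _
      exact h_zero L _ hC i (hC _ (hp i)) hc

/-! ### The second case -/

/-- the choices in the second case -/
theorem caseB_choice [DecidableEq ι] (L : Vtx m → Finset ℕ) (hL : ∀ v, #(L v) = 2)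
    (a b : ι → ℕ) (hA : ∀ i, L ⟨i, 0⟩ = {a i, b i})
    (w : ι → ℕ) (hw : ∀ i, m i = w i + 1) (cap : ℕ)
    (c1 c2 : ℕ) (hc : c1 ≠ c2) (hT : ∀ c, c ≠ c1 → c ≠ c2 → T L a b c ≤ cap)
    (R I : Finset ι) (hR : ∀ i, i ∈ R ↔ ({a i, b i} : Finset ℕ) ≠ {c1, c2})
    (hI : I ⊆ Rᶜ)
    (q : ι → ℕ) (hq : ∀ i, q i = a i ∨ q i = b i)
    (h1 : ∑ i ∈ R, h L i (q i) c1 + (#Rᶜ + ∑ i ∈ I, w i) ≤ cap)
    (h2 : ∑ i ∈ R, h L i (q i) c2 + (#Rᶜ + ∑ i ∈ Rᶜ \ I, w i) ≤ cap) :
    ∃ p : ι → ℕ, (∀ i, p i ∈ L ⟨i, 0⟩) ∧ ∀ c, ∑ i, h L i (p i) c ≤ cap := by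
  set p : ι → ℕ := fun i => if i ∈ R then q i else if i ∈ I then c2 else c1 with hp
  have hpR : ∀ i ∈ R, p i = q i := fun i hi => by simp [hp, hi]
  have hpI : ∀ i ∈ I, p i = c2 := fun i hi => by
    have : i ∉ R := mem_compl.1 (hI hi)
    simp [hp, hi, this]
  have hpJ : ∀ i ∈ Rᶜ \ I, p i = c1 := fun i hi => by
    rw [mem_sdiff, mem_compl] at hi
    simp [hp, hi.1, hi.2]
  have hab' : ∀ i, i ∉ R → ({a i, b i} : Finset ℕ) = {c1, c2} := by
    intro i hi
    by_contra h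
    exact hi ((hR i).2 h)
  have hmem : ∀ i, p i = a i ∨ p i = b i := by
    intro i
    by_cases hi : i ∈ R
    · rw [hpR i hi]
      exact hq i
    · have h3 := hab' i hi
      have h4 : p i = c1 ∨ p i = c2 := by
        by_cases hi' : i ∈ I
        · exact Or.inr (hpI i hi')
        · exact Or.inl (hpJ i (by rw [mem_sdiff, mem_compl]; exact ⟨hi, hi'⟩))
      have h5 : p i ∈ ({a i, b i} : Finset ℕ) := by
        rw [h3]
        simpa using h4
      simpa using h5
  have hsplit : ∀ f : ι → ℕ, ∑ i, f i = ∑ i ∈ R, f i + (∑ i ∈ I, f i + ∑ i ∈ Rᶜ \ I, f i) := by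
    intro f
    rw [← sum_add_sum_compl R f, ← sum_sdiff hI (f := f), add_comm (∑ i ∈ Rᶜ \ I, f i)]
  have hcard : #Rᶜ = #I + #(Rᶜ \ I) := by
    have := card_sdiff_add_card_eq_card hI
    omega
  refine ⟨p, ?_, ?_⟩
  · intro i
    rw [hA i]
    simpa using hmem i
  · intro c
    by_cases hc1 : c = c1
    · subst hc1
      rw [hsplit]
      have e1 : ∑ i ∈ R, h L i (p i) c = ∑ i ∈ R, h L i (q i) c :=
        sum_congr rfl fun i hi => by rw [hpR i hi]
      have e2 : ∑ i ∈ I, h L i (p i) c ≤ ∑ i ∈ I, (w i + 1) := by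
        refine sum_le_sum fun i hi => ?_
        rw [hpI i hi, ← hw i]
        unfold h
        rw [if_neg hc, zero_add]
        exact (card_le_univ _).trans (by simp)
      have e3 : ∑ i ∈ Rᶜ \ I, h L i (p i) c = ∑ i ∈ Rᶜ \ I, 1 := by
        refine sum_congr rfl fun i hi => ?_
        rw [hpJ i hi]
        unfold h
        rw [if_pos rfl, add_eq_left, card_eq_zero, filter_eq_empty_iff]
        intro j _ hj
        have := hL ⟨i, j.succ⟩
        rw [hj] at this
        simp at this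
      rw [sum_add_distrib] at e2
      simp only [sum_const, smul_eq_mul, mul_one] at e2 e3
      omega
    · by_cases hc2 : c = c2
      · subst hc2
        rw [hsplit]
        have e1 : ∑ i ∈ R, h L i (p i) c = ∑ i ∈ R, h L i (q i) c :=
          sum_congr rfl fun i hi => by rw [hpR i hi]
        have e2 : ∑ i ∈ Rᶜ \ I, h L i (p i) c ≤ ∑ i ∈ Rᶜ \ I, (w i + 1) := by
          refine sum_le_sum fun i hi => ?_
          rw [hpJ i hi, ← hw i]
          unfold h
          rw [if_neg hc1, zero_add]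
          exact (card_le_univ _).trans (by simp)
        have e3 : ∑ i ∈ I, h L i (p i) c = ∑ i ∈ I, 1 := by
          refine sum_congr rfl fun i hi => ?_
          rw [hpI i hi]
          unfold h
          rw [if_pos rfl, add_eq_left, card_eq_zero, filter_eq_empty_iff]
          intro j _ hj
          have := hL ⟨i, j.succ⟩
          rw [hj] at this
          simp at this
        rw [sum_add_distrib] at e2
        simp only [sum_const, smul_eq_mul, mul_one] at e2 e3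
        omega
      · refine le_trans ?_ (hT c hc1 hc2)
        unfold T
        refine sum_le_sum fun i _ => ?_
        rcases hmem i with e | e
        · rw [e]
          omega
        · rw [e]
          omega

theorem coins {p2 p3 k : ℕ} (h2 : 2 ≤ p2) (h3 : 2 ≤ p3) (hk : 2 ≤ k)
    (hk' : k + 3 ≤ 2 * p2 + 3 * p3) : ∃ x y, x ≤ p2 ∧ y ≤ p3 ∧ 2 * x + 3 * y = k := by
  rcases Nat.lt_or_ge p3 (k / 3) with h | h
  · rcases Nat.even_or_odd' (k - 3 * p3) with ⟨z, hz | hz⟩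
    · exact ⟨z, p3, by omega, le_rfl, by omega⟩
    · exact ⟨z + 2, p3 - 1, by omega, by omega, by omega⟩
  · have : k % 3 < 3 := Nat.mod_lt _ (by norm_num)
    rcases (by omega : k % 3 = 0 ∨ k % 3 = 1 ∨ k % 3 = 2) with h4 | h4 | h4
    · exact ⟨0, k / 3, by omega, h, by omega⟩
    · exact ⟨2, k / 3 - 1, by omega, by omega, by omega⟩
    · exact ⟨1, k / 3, by omega, h, by omega⟩

theorem fill [DecidableEq ι] {w : ι → ℕ} {X : ℕ} {P2 P3 : Finset ι} (hd : Disjoint P2 P3)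
    (hw2 : ∀ i ∈ P2, w i = 2 * X) (hw3 : ∀ i ∈ P3, w i = 3 * X) {k : ℕ}
    (h2 : 2 ≤ #P2) (h3 : 2 ≤ #P3) (hk : 2 ≤ k) (hk' : k + 3 ≤ 2 * #P2 + 3 * #P3) :
    ∃ I ⊆ P2 ∪ P3, ∑ i ∈ I, w i = k * X := by
  obtain ⟨x, y, hx, hy, hxy⟩ := coins h2 h3 hk hk'
  obtain ⟨I2, h4, h5⟩ := exists_subset_card_eq hx
  obtain ⟨I3, h6, h7⟩ := exists_subset_card_eq hy
  refine ⟨I2 ∪ I3, union_subset_union h4 h6, ?_⟩
  rw [sum_union (disjoint_of_subset_left h4 (disjoint_of_subset_right h6 hd)),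
    sum_congr rfl (fun i hi => hw2 i (h4 hi)), sum_congr rfl (fun i hi => hw3 i (h6 hi)),
    sum_const, sum_const, h5, h7, smul_eq_mul, smul_eq_mul, ← hxy]
  ring

theorem caseB [DecidableEq ι] (L : Vtx m → Finset ℕ) (hL : ∀ v, #(L v) = 2)
    (a b : ι → ℕ) (hab : ∀ i, a i ≠ b i) (hA : ∀ i, L ⟨i, 0⟩ = {a i, b i})
    (w : ι → ℕ) (hw : ∀ i, m i = w i + 1) (X F R S cap : ℕ) (hR1 : 1 ≤ R) (hF : F = 500 * R)
    (hX : 4 * S < X) (P2 P3 : Finset ι) (hd : Disjoint P2 P3) (hP2 : #P2 = 2 * F)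
    (hP3 : #P3 = 2 * F) (hw2 : ∀ i ∈ P2, w i = 2 * X) (hw3 : ∀ i ∈ P3, w i = 3 * X)
    (hlo : ∀ i, 2 * X ≤ w i) (hsum : ∑ i, w i = 10 * (F * X) + 2 * (R * X) + 4 * S)
    (hcap : ∑ i, (m i + 1) = 2 * cap)
    (I0 : Finset ι) (hI0 : 2 * ∑ i ∈ I0, w i = ∑ i, w i)
    (c1 c2 : ℕ) (hc : c1 ≠ c2) (hT1 : 2 * cap < T L a b c1 + F * X)
    (hT2 : 2 * cap < T L a b c2 + F * X) :
    ∃ p : ι → ℕ, (∀ i, p i ∈ L ⟨i, 0⟩) ∧ ∀ c, ∑ i, h L i (p i) c ≤ cap := by
  set Rs : Finset ι := univ.filter fun i => ({a i, b i} : Finset ℕ) ≠ {c1, c2} with hRs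
  have hRmem : ∀ i, i ∈ Rs ↔ ({a i, b i} : Finset ℕ) ≠ {c1, c2} := by
    intro i
    rw [hRs, mem_filter]
    simp
  have hsplit : ∀ f : ι → ℕ, ∑ i, f i = ∑ i ∈ Rs, f i + ∑ i ∈ Rsᶜ, f i :=
    fun f => (sum_add_sum_compl Rs f).symm
  have hmw : ∑ i ∈ Rs, (m i + 1) = ∑ i ∈ Rs, w i + 2 * #Rs := by
    rw [sum_congr rfl (fun i _ => by rw [hw i] : ∀ i ∈ Rs, m i + 1 = w i + 1 + 1)]
    simp only [sum_add_distrib, sum_const, smul_eq_mul]
    omega
  have hmw' : ∑ i ∈ Rsᶜ, (m i + 1) = ∑ i ∈ Rsᶜ, w i + 2 * #Rsᶜ := by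
    rw [sum_congr rfl (fun i _ => by rw [hw i] : ∀ i ∈ Rsᶜ, m i + 1 = w i + 1 + 1)]
    simp only [sum_add_distrib, sum_const, smul_eq_mul]
    omega
  have hWs := hsplit w
  have hMs := hsplit (fun i => m i + 1)
  -- the other colours
  have hT : ∀ c, c ≠ c1 → c ≠ c2 → T L a b c ≤ cap := by
    intro c h1 h2
    have h3 : T L a b c + (T L a b c1 + T L a b c2) ≤ 2 * ∑ i, (m i + 1) := by
      unfold T
      rw [← sum_add_distrib, ← sum_add_distrib, mul_sum]
      refine sum_le_sum fun i _ => ?_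
      have h4 := sum_h_le L i (a i) {c, c1, c2}
      have h5 := sum_h_le L i (b i) {c, c1, c2}
      rw [sum_insert (by simp [h1, h2]), sum_insert (by simp [hc]), sum_singleton] at h4 h5
      omega
    omega
  -- the exceptional stars are few
  have hNR : ∑ i ∈ Rs, (m i + 1) < 2 * (F * X) := by
    have h3 : T L a b c1 + T L a b c2 ≤ 2 * ∑ i ∈ Rsᶜ, (m i + 1) + ∑ i ∈ Rs, (m i + 1) := by
      unfold T
      rw [← sum_add_distrib, hsplit, add_comm, mul_sum]
      refine add_le_add (sum_le_sum fun i _ => ?_) (sum_le_sum fun i hi => ?_)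
      · have h4 := sum_h_le L i (a i) {c1, c2}
        have h5 := sum_h_le L i (b i) {c1, c2}
        rw [sum_insert (by simp [hc]), sum_singleton] at h4 h5
        omega
      · have h4 := h_four_le L hL i (hab i) hc ((hRmem i).1 hi)
        omega
    omega
  have hex : ∀ i, ∃ q, (q = a i ∨ q = b i) ∧ (i ∈ Rs → 2 * (h L i q c1 + h L i q c2) ≤ m i + 1) := by
    intro i
    by_cases hi : i ∈ Rs
    · have h4 := h_four_le L hL i (hab i) hc ((hRmem i).1 hi)
      by_cases h5 : 2 * (h L i (a i) c1 + h L i (a i) c2) ≤ m i + 1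
      · exact ⟨a i, Or.inl rfl, fun _ => h5⟩
      · exact ⟨b i, Or.inr rfl, fun _ => by omega⟩
    · exact ⟨a i, Or.inl rfl, fun h => absurd h hi⟩
  choose q hq hq2 using hex
  have hAA : 2 * (∑ i ∈ Rs, h L i (q i) c1 + ∑ i ∈ Rs, h L i (q i) c2) ≤
      ∑ i ∈ Rs, (m i + 1) := by
    rw [← sum_add_distrib, mul_sum]
    exact sum_le_sum fun i hi => hq2 i hi
  rcases Rs.eq_empty_or_nonempty with hE | hE
  · refine caseB_choice L hL a b hA w hw cap c1 c2 hc hT Rs I0 hRmem ?_ q hq ?_ ?_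
    · rw [hE]
      simp
    · rw [hE, sum_empty, compl_empty]
      rw [hE, sum_empty, compl_empty] at hMs
      rw [hE, compl_empty] at hmw'
      omega
    · have h6 := sum_sdiff (subset_univ I0) (f := w)
      rw [hE, sum_empty, compl_empty]
      rw [hE, sum_empty, compl_empty] at hMs
      rw [hE, compl_empty] at hmw'
      omega
  · set A1 := ∑ i ∈ Rs, h L i (q i) c1
    set A2 := ∑ i ∈ Rs, h L i (q i) c2
    set NR := ∑ i ∈ Rs, (m i + 1)
    set Wq := ∑ i ∈ Rsᶜ, w i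
    set Wr := ∑ i ∈ Rs, w i
    have hFX : 500 * X ≤ F * X := Nat.mul_le_mul_right _ (by omega)
    -- one exceptional star is big
    have hNR2 : 2 * X + 2 ≤ NR := by
      obtain ⟨i, hi⟩ := hE
      have h6 : m i + 1 ≤ NR := single_le_sum (f := fun i => m i + 1) (fun _ _ => Nat.zero_le _) hi
      have h7 := hlo i
      have h8 := hw i
      omega
    -- the fillers which are not exceptional
    have hf2 := card_sdiff_add_card_inter P2 Rs
    have hf3 := card_sdiff_add_card_inter P3 Rs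
    have hd' : Disjoint (P2 ∩ Rs) (P3 ∩ Rs) :=
      disjoint_of_subset_left inter_subset_left (disjoint_of_subset_right inter_subset_left hd)
    have hr : (2 * #(P2 ∩ Rs) + 3 * #(P3 ∩ Rs)) * X ≤ Wr := by
      have h6 : ∑ i ∈ (P2 ∩ Rs) ∪ (P3 ∩ Rs), w i ≤ Wr :=
        sum_le_sum_of_subset (union_subset inter_subset_right inter_subset_right)
      rw [sum_union hd', sum_congr rfl (fun i hi => hw2 i (mem_inter.1 hi).1),
        sum_congr rfl (fun i hi => hw3 i (mem_inter.1 hi).1), sum_const, sum_const,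
        smul_eq_mul, smul_eq_mul] at h6
      refine le_trans (le_of_eq ?_) h6
      ring
    have hr' : 2 * #(P2 ∩ Rs) + 3 * #(P3 ∩ Rs) < 2 * F := by
      have h6 : (2 * #(P2 ∩ Rs) + 3 * #(P3 ∩ Rs)) * X < (2 * F) * X := by
        rw [mul_assoc]
        omega
      exact Nat.lt_of_mul_lt_mul_right h6
    -- the number of units
    obtain ⟨k, hk1, hk2⟩ : ∃ k, Wq + 2 * A2 ≤ NR + 2 * (k * X) ∧
        2 * (k * X) + NR < Wq + 2 * A2 + 2 * X := by
      refine ⟨(Wq + 2 * A2 - NR + 2 * X - 1) / (2 * X), ?_, ?_⟩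
      · have h6 := Nat.lt_div_mul_add (a := Wq + 2 * A2 - NR + 2 * X - 1) (b := 2 * X) (by omega)
        have h7 : (Wq + 2 * A2 - NR + 2 * X - 1) / (2 * X) * (2 * X) =
          2 * ((Wq + 2 * A2 - NR + 2 * X - 1) / (2 * X) * X) := by ring
        omega
      · have h6 := Nat.div_mul_le_self (Wq + 2 * A2 - NR + 2 * X - 1) (2 * X)
        have h7 : (Wq + 2 * A2 - NR + 2 * X - 1) / (2 * X) * (2 * X) =
          2 * ((Wq + 2 * A2 - NR + 2 * X - 1) / (2 * X) * X) := by ring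
        omega
    have hk3 : 2 * k < 10 * F + 2 * R + 3 := by
      have h6 : (2 * k) * X < (10 * F + 2 * R + 3) * X := by
        have e1 : (2 * k) * X = 2 * (k * X) := by ring
        have e2 : (10 * F + 2 * R + 3) * X = 10 * (F * X) + 2 * (R * X) + 3 * X := by ring
        rw [e1, e2]
        omega
      exact Nat.lt_of_mul_lt_mul_right h6
    have hk4 : 2 ≤ k := by
      by_contra h6
      have h7 : k * X ≤ 1 * X := Nat.mul_le_mul_right _ (by omega)
      omega
    obtain ⟨I, hI, hI2⟩ := fill (w := w) (X := X) (P2 := P2 \ Rs) (P3 := P3 \ Rs) (k := k)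
      (disjoint_of_subset_left sdiff_subset (disjoint_of_subset_right sdiff_subset hd))
      (fun i hi => hw2 i (mem_sdiff.1 hi).1) (fun i hi => hw3 i (mem_sdiff.1 hi).1)
      (by omega) (by omega) hk4 (by omega)
    have hIR : I ⊆ Rsᶜ := by
      intro i hi
      rw [mem_compl]
      rcases mem_union.1 (hI hi) with h6 | h6
      · exact (mem_sdiff.1 h6).2
      · exact (mem_sdiff.1 h6).2
    have h6 : ∑ i ∈ Rsᶜ \ I, w i + ∑ i ∈ I, w i = Wq := sum_sdiff hIR
    refine caseB_choice L hL a b hA w hw cap c1 c2 hc hT Rs I hRmem hIR q hq ?_ ?_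
    · rw [hI2]
      change A1 + (#Rsᶜ + k * X) ≤ cap
      omega
    · change A2 + (#Rsᶜ + ∑ i ∈ Rsᶜ \ I, w i) ≤ cap
      omega

theorem suff [DecidableEq ι] (w : ι → ℕ) (hw : ∀ i, m i = w i + 1) (X F R S : ℕ)
    (hR1 : 1 ≤ R) (hF : F = 500 * R)
    (hX : 4 * S < X) (P2 P3 : Finset ι) (hd : Disjoint P2 P3) (hP2 : #P2 = 2 * F)
    (hP3 : #P3 = 2 * F) (hw2 : ∀ i ∈ P2, w i = 2 * X) (hw3 : ∀ i ∈ P3, w i = 3 * X)
    (hlo : ∀ i, 2 * X ≤ w i) (hhi : ∀ i, w i ≤ 3 * X)
    (hsum : ∑ i, w i = 10 * (F * X) + 2 * (R * X) + 4 * S)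
    (hcard : Fintype.card ι = 4 * F + R)
    (I0 : Finset ι) (hI0 : 2 * ∑ i ∈ I0, w i = ∑ i, w i) :
    EquitablyChoosable (stars m) 2 := by
  intro L hL
  have hcap : ∑ i, (m i + 1) = 2 * (5 * (F * X) + R * X + 2 * S + (4 * F + R)) := by
    rw [sum_congr rfl (fun i _ => by rw [hw i] : ∀ i ∈ univ, m i + 1 = w i + 1 + 1)]
    simp only [sum_add_distrib, sum_const, smul_eq_mul, card_univ]
    omega
  set cap := 5 * (F * X) + R * X + 2 * S + (4 * F + R) with hcapdef
  have hceil : ⌈(Fintype.card (Vtx m) : ℚ) / (2 : ℕ)⌉₊ = cap := by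
    rw [card_vtx, hcap]
    push_cast
    rw [mul_div_cancel_left₀ _ (by norm_num : (2 : ℚ) ≠ 0)]
    exact_mod_cast Nat.ceil_natCast cap
  rw [hceil]
  have hpair : ∀ i, ∃ a b, a ≠ b ∧ L ⟨i, 0⟩ = {a, b} := fun i => card_eq_two.1 (hL ⟨i, 0⟩)
  choose a b hab hA using hpair
  have ha : ∀ i, a i ∈ L ⟨i, 0⟩ := fun i => by rw [hA i]; simp
  have hb : ∀ i, b i ∈ L ⟨i, 0⟩ := fun i => by rw [hA i]; simp
  have hK : 2 * Fintype.card ι * (3 * X + 2) ^ 2 ≤ (F * X) ^ 2 := by
    rw [hcard, hF]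
    have h1 : (3 * X + 2) ^ 2 ≤ (5 * X) ^ 2 := Nat.pow_le_pow_left (by omega) 2
    calc 2 * (4 * (500 * R) + R) * (3 * X + 2) ^ 2 ≤ 2 * (4 * (500 * R) + R) * (5 * X) ^ 2 :=
          Nat.mul_le_mul_left _ h1
      _ = 100050 * (R * X ^ 2) := by ring
      _ ≤ 250000 * (R * (R * X ^ 2)) := by
          have : 1 * (R * X ^ 2) ≤ R * (R * X ^ 2) := Nat.mul_le_mul_right _ hR1
          omega
      _ = (500 * R * X) ^ 2 := by ring
  suffices hp : ∃ p : ι → ℕ, (∀ i, p i ∈ L ⟨i, 0⟩) ∧ ∀ c, ∑ i, h L i (p i) c ≤ cap by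
    obtain ⟨p, hp1, hp2⟩ := hp
    exact finish L hL p hp1 cap (by rw [card_vtx, hcap]) hp2
  by_cases hcase : ∃ c0, ∀ c, c ≠ c0 → T L a b c + F * X ≤ 2 * cap
  · obtain ⟨c0, hc0⟩ := hcase
    exact caseA L a b ha hb hab (3 * X + 2) (F * X) cap
      (fun i => by have := hw i; have := hhi i; omega) hK hcap.le c0 hc0
  · push Not at hcase
    obtain ⟨c1, -, hT1⟩ := hcase 0
    obtain ⟨c2, hc2, hT2⟩ := hcase c1
    exact caseB L hL a b hab hA w hw X F R S cap hR1 hF hX P2 P3 hd hP2 hP3 hw2 hw3 hlo hsum hcap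
      I0 hI0 c1 c2 hc2.symm hT1 hT2

/-- if the disjoint union of stars is equitably 2-choosable, then the numbers `m i - 1` have a
partition into two sets with the same sum (if the sum is even) -/
theorem nec [DecidableEq ι] (w : ι → ℕ) (hw : ∀ i, m i = w i + 1) (W : ℕ)
    (hsum : ∑ i, w i = 2 * W) (hE : EquitablyChoosable (stars m) 2) :
    ∃ I : Finset ι, ∑ i ∈ I, w i = W := by
  obtain ⟨f, h1, h2, h3⟩ := hE (fun _ => {0, 1}) (fun _ => by simp)
  have hcap : ∑ i, (m i + 1) = 2 * (W + Fintype.card ι) := by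
    rw [sum_congr rfl (fun i _ => by rw [hw i] : ∀ i ∈ univ, m i + 1 = w i + 1 + 1)]
    simp only [sum_add_distrib, sum_const, smul_eq_mul, card_univ]
    omega
  have hceil : ⌈(Fintype.card (Vtx m) : ℚ) / (2 : ℕ)⌉₊ = W + Fintype.card ι := by
    rw [card_vtx, hcap]
    push_cast
    rw [mul_div_cancel_left₀ _ (by norm_num : (2 : ℚ) ≠ 0)]
    exact_mod_cast Nat.ceil_natCast (W + Fintype.card ι)
  rw [hceil] at h3
  have h01 : ∀ v, f v = 0 ∨ f v = 1 := fun v => by simpa using h1 v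
  have htot : #{v | f v = 0} + #{v | f v = 1} = 2 * (W + Fintype.card ι) := by
    rw [← hcap, ← card_vtx, ← card_univ]
    rw [← card_union_of_disjoint]
    · congr 1
      ext v
      simp [h01 v]
    · rw [disjoint_left]
      intro v hv hv'
      rw [mem_filter] at hv hv'
      omega
  have h0 : #{v | f v = 0} = W + Fintype.card ι := by
    have := h3 0
    have := h3 1
    omega
  refine ⟨univ.filter fun i => f ⟨i, 0⟩ ≠ 0, ?_⟩
  have h4 : #{v | f v = 0} = ∑ i, (1 + if f ⟨i, 0⟩ ≠ 0 then w i else 0) := by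
    rw [card_filter, Fintype.sum_sigma]
    refine sum_congr rfl fun i _ => ?_
    rw [Fin.sum_univ_succ]
    have hadj : ∀ j : Fin (m i), f ⟨i, 0⟩ ≠ f ⟨i, j.succ⟩ := fun j =>
      h2 _ _ ⟨rfl, by simp⟩
    rcases h01 ⟨i, 0⟩ with h5 | h5
    · rw [if_pos h5, if_neg (by rw [h5]; simp)]
      congr 1
      refine sum_eq_zero fun j _ => ?_
      rw [if_neg]
      exact fun h => hadj j (h5.trans h.symm)
    · rw [if_neg (by rw [h5]; simp), if_pos (by rw [h5]; simp)]
      have h7 : ∀ j : Fin (m i), (if f ⟨i, j.succ⟩ = 0 then 1 else 0) = 1 := by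
        intro j
        rw [if_pos]
        have := hadj j
        rcases h01 ⟨i, j.succ⟩ with h6 | h6
        · exact h6
        · exact absurd (h5.trans h6.symm) this
      rw [sum_congr rfl (fun j _ => h7 j)]
      rw [sum_const, card_univ, Fintype.card_fin, smul_eq_mul, hw i]
      omega
  rw [sum_add_distrib, sum_const, card_univ, smul_eq_mul, mul_one] at h4
  rw [sum_filter]
  omega

end

end Pool.Agent.N582.ES
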