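import Mathlib

/-!
# The exploration of a comb with rare labels

The vertices of the comb are the numbers below `2 N`: the vertices `2 k` form a path, and `2 k + 1`
is a leaf joined to `2 k`. The edges of the path are always present, and the edge of the leaf
`2 k + 1` is present at the times `K τ` with `lab k τ`.
-/

set_option autoImplicit false

namespace Pool.Agent.N582.PT

variable {N K : ℕ} {lab : ℕ → ℕ → Prop}

/-- the steps of the agent at time `θ` -/
inductive Step (N K : ℕ) (lab : ℕ → ℕ → Prop) (θ : ℕ) : ℕ → ℕ → Prop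
  | stay (u : ℕ) : Step N K lab θ u u
  | right (k : ℕ) (hk : k + 1 < N) : Step N K lab θ (2 * k) (2 * (k + 1))
  | left (k : ℕ) (hk : k + 1 < N) : Step N K lab θ (2 * (k + 1)) (2 * k)
  | enter (k τ : ℕ) (hk : k < N) (hτ : θ = K * τ) (h : lab k τ) : Step N K lab θ (2 * k) (2 * k + 1)
  | exit (k τ : ℕ) (hk : k < N) (hτ : θ = K * τ) (h : lab k τ) : Step N K lab θ (2 * k + 1) (2 * k)

/-- there is a movement from `u` at time `t` to `u'` at time `t'` which visits the leaves in `S` -/
def Go (N K : ℕ) (lab : ℕ → ℕ → Prop) (t u t' u' : ℕ) (S : Set ℕ) : Prop :=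
  t ≤ t' ∧ ∃ x : ℕ → ℕ, x t = u ∧ x t' = u' ∧
    (∀ τ, t ≤ τ → τ < t' → Step N K lab τ (x τ) (x (τ + 1))) ∧
      ∀ k ∈ S, ∃ τ, t ≤ τ ∧ τ ≤ t' ∧ x τ = 2 * k + 1

theorem Go.trans {t u t' u' t'' u'' : ℕ} {S S' : Set ℕ} (h1 : Go N K lab t u t' u' S)
    (h2 : Go N K lab t' u' t'' u'' S') : Go N K lab t u t'' u'' (S ∪ S') := by
  obtain ⟨h1, x, hx1, hx2, hx3, hx4⟩ := h1
  obtain ⟨h2, y, hy1, hy2, hy3, hy4⟩ := h2
  have key : ∀ τ, t' ≤ τ → (if τ ≤ t' then x τ else y τ) = y τ := by
    intro τ hτ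
    split_ifs with h
    · have : τ = t' := by omega
      subst this
      rw [hx2, hy1]
    · rfl
  refine ⟨h1.trans h2, fun τ => if τ ≤ t' then x τ else y τ, ?_, ?_, ?_, ?_⟩
  · change (if t ≤ t' then x t else y t) = u
    rw [if_pos h1, hx1]
  · change (if t'' ≤ t' then x t'' else y t'') = u''
    rw [key _ h2, hy2]
  · intro τ hτ1 hτ2
    change Step N K lab τ (if τ ≤ t' then x τ else y τ) (if τ + 1 ≤ t' then x (τ + 1) else y (τ + 1))
    rcases Nat.lt_or_ge τ t' with h | h
    · rw [if_pos h.le, if_pos (by omega)]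
      exact hx3 τ hτ1 h
    · rw [key τ h, key (τ + 1) (by omega)]
      exact hy3 τ h hτ2
  · intro k hk
    rcases hk with hk | hk
    · obtain ⟨τ, h3, h4, h5⟩ := hx4 k hk
      refine ⟨τ, h3, h4.trans h2, ?_⟩
      change (if τ ≤ t' then x τ else y τ) = _
      rw [if_pos h4, h5]
    · obtain ⟨τ, h3, h4, h5⟩ := hy4 k hk
      refine ⟨τ, h1.trans h3, h4, ?_⟩
      change (if τ ≤ t' then x τ else y τ) = _
      rw [key τ h3, h5]

theorem Go.mono {t u t' u' : ℕ} {S S' : Set ℕ} (h : Go N K lab t u t' u' S) (hS : S' ⊆ S) :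
    Go N K lab t u t' u' S' := by
  obtain ⟨h1, x, hx1, hx2, hx3, hx4⟩ := h
  exact ⟨h1, x, hx1, hx2, hx3, fun k hk => hx4 k (hS hk)⟩

theorem go_wait {t t' : ℕ} (u : ℕ) (h : t ≤ t') : Go N K lab t u t' u ∅ :=
  ⟨h, fun _ => u, rfl, rfl, fun _ _ _ => .stay u, fun k hk => absurd hk (Set.notMem_empty k)⟩

theorem go_step {t u u' : ℕ} (h : Step N K lab t u u') : Go N K lab t u (t + 1) u' ∅ := by
  refine ⟨by omega, fun τ => if τ = t then u else u', by simp, by simp, fun τ h1 h2 => ?_,
    fun k hk => absurd hk (Set.notMem_empty k)⟩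
  have : τ = t := by omega
  subst this
  simpa using h

theorem go_right {t a : ℕ} (b : ℕ) (hab : a + b < N) :
    Go N K lab t (2 * a) (t + b) (2 * (a + b)) ∅ := by
  induction b with
  | zero => exact go_wait _ le_rfl
  | succ b ih =>
    have h := (ih (by omega)).trans (go_step (lab := lab) (K := K) (t := t + b)
      (Step.right (a + b) (by omega)))
    exact h.mono (Set.empty_subset _)

theorem go_left {t a : ℕ} (b : ℕ) (hab : a + b < N) :
    Go N K lab t (2 * (a + b)) (t + b) (2 * a) ∅ := by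
  induction b generalizing a with
  | zero => exact go_wait _ le_rfl
  | succ b ih =>
    have h := (ih (a := a + 1) (by omega)).trans (go_step (lab := lab) (K := K) (t := t + b)
      (Step.left a (by omega)))
    rw [show a + 1 + b = a + (b + 1) by omega] at h
    exact h.mono (Set.empty_subset _)

theorem go_move {t t' a b : ℕ} (ha : a < N) (hb : b < N) (h : t + N ≤ t' + 1) :
    Go N K lab t (2 * a) t' (2 * b) ∅ := by
  rcases le_total a b with hab | hab
  · obtain ⟨c, rfl⟩ := Nat.exists_eq_add_of_le hab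
    have h1 := (go_right (N := N) (K := K) (lab := lab) (t := t) c hb).trans
      (go_wait (2 * (a + c)) (show t + c ≤ t' by omega))
    exact h1.mono (Set.empty_subset _)
  · obtain ⟨c, rfl⟩ := Nat.exists_eq_add_of_le hab
    have h1 := (go_left (N := N) (K := K) (lab := lab) (t := t) c ha).trans
      (go_wait (2 * b) (show t + c ≤ t' by omega))
    exact h1.mono (Set.empty_subset _)

/-- there is a movement from `u` at time `t` to `u'` at time `t'` which visits the leaf at its end -/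
theorem go_enter {t k τ : ℕ} (hk : k < N) (hτ : t = K * τ) (h : lab k τ) :
    Go N K lab t (2 * k) (t + 1) (2 * k + 1) {k} := by
  obtain ⟨h1, x, hx1, hx2, hx3, -⟩ := go_step (N := N) (Step.enter (lab := lab) k τ hk hτ h)
  exact ⟨h1, x, hx1, hx2, hx3, fun j hj => ⟨t + 1, by omega, le_rfl, by
    rw [hx2, Set.mem_singleton_iff.1 hj]⟩⟩

/-- from any place right after the time `K α` one gets to some place right after the time `K β`,
visiting the leaves in `S` -/
def Ph (N K : ℕ) (lab : ℕ → ℕ → Prop) (α β : ℕ) (S : Set ℕ) : Prop :=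
  ∀ a < N, ∃ b < N, Go N K lab (K * α + 1) (2 * a) (K * β + 1) (2 * b) S

theorem Ph.trans {α β γ : ℕ} {S S' : Set ℕ} (h1 : Ph N K lab α β S) (h2 : Ph N K lab β γ S') :
    Ph N K lab α γ (S ∪ S') := by
  intro a ha
  obtain ⟨b, hb, h3⟩ := h1 a ha
  obtain ⟨c, hc, h4⟩ := h2 b hb
  exact ⟨c, hc, h3.trans h4⟩

theorem Ph.mono {α β : ℕ} {S S' : Set ℕ} (h : Ph N K lab α β S) (hS : S' ⊆ S) :
    Ph N K lab α β S' := by
  intro a ha
  obtain ⟨b, hb, h1⟩ := h a ha
  exact ⟨b, hb, h1.mono hS⟩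

theorem ph_wait {α β : ℕ} (h : α ≤ β) : Ph N K lab α β ∅ :=
  fun a ha => ⟨a, ha, go_wait _ (by gcongr)⟩

theorem ph_visit (hNK : N ≤ K) {α σ σ' β k : ℕ} (h1 : α < σ) (h2 : σ < σ') (h3 : σ' ≤ β)
    (hk : k < N) (h4 : lab k σ) (h5 : lab k σ') : Ph N K lab α β {k} := by
  intro a ha
  refine ⟨k, hk, ?_⟩
  have e1 : K * α + K ≤ K * σ := by
    rw [← Nat.mul_succ]
    exact Nat.mul_le_mul le_rfl h1
  have e2 : K * σ + K ≤ K * σ' := by
    rw [← Nat.mul_succ]
    exact Nat.mul_le_mul le_rfl h2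
  have e3 : K * σ' ≤ K * β := Nat.mul_le_mul le_rfl h3
  have g1 : Go N K lab (K * α + 1) (2 * a) (K * σ) (2 * k) ∅ := go_move ha hk (by omega)
  have g2 := go_enter (N := N) (K := K) (t := K * σ) hk rfl h4
  have g3 : Go N K lab (K * σ + 1) (2 * k + 1) (K * σ') (2 * k + 1) ∅ := go_wait _ (by omega)
  have g4 : Go N K lab (K * σ') (2 * k + 1) (K * σ' + 1) (2 * k) ∅ :=
    go_step (Step.exit k σ' hk rfl h5)
  have g5 : Go N K lab (K * σ' + 1) (2 * k) (K * β + 1) (2 * k) ∅ := go_wait _ (by omega)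
  exact ((((g1.trans g2).trans g3).trans g4).trans g5).mono (by simp)

theorem go_final (hNK : N ≤ K) {α σ k a : ℕ} (h1 : α < σ) (ha : a < N) (hk : k < N)
    (h4 : lab k σ) : Go N K lab (K * α + 1) (2 * a) (K * σ + 1) (2 * k + 1) {k} := by
  have e1 : K * α + K ≤ K * σ := by
    rw [← Nat.mul_succ]
    exact Nat.mul_le_mul le_rfl h1
  have g1 : Go N K lab (K * α + 1) (2 * a) (K * σ) (2 * k) ∅ := go_move ha hk (by omega)
  have g2 := go_enter (N := N) (K := K) (t := K * σ) hk rfl h4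
  exact (g1.trans g2).mono (by simp)

/-- before the agent is at a leaf it has entered it -/
theorem entered {x : ℕ → ℕ} {t : ℕ} (hx : ∀ τ < t, Step N K lab τ (x τ) (x (τ + 1))) {k : ℕ}
    (h0 : x 0 ≠ 2 * k + 1) : ∀ θ ≤ t, x θ = 2 * k + 1 →
      ∃ σ, lab k σ ∧ K * σ < θ ∧ x (K * σ) = 2 * k ∧
        ∀ τ, K * σ < τ → τ ≤ θ → x τ = 2 * k + 1 := by
  intro θ
  induction θ with
  | zero => intro _ h; exact absurd h h0
  | succ θ ih =>
    intro hθ h
    by_cases h1 : x θ = 2 * k + 1
    · obtain ⟨σ, h2, h3, h4, h5⟩ := ih (by omega) h1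
      refine ⟨σ, h2, by omega, h4, fun τ h6 h7 => ?_⟩
      rcases Nat.lt_or_ge θ τ with h8 | h8
      · rw [show τ = θ + 1 by omega, h]
      · exact h5 τ h6 h8
    · have hs := hx θ (by omega)
      rw [h] at hs
      generalize hu : x θ = u at hs h1
      generalize hv : 2 * k + 1 = v at hs h1
      cases hs with
      | stay => exact absurd rfl h1
      | right j hj => omega
      | left j hj => omega
      | enter j τ hj hτ hl =>
        have : j = k := by omega
        subst this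
        refine ⟨τ, hl, by omega, by rw [← hτ, hu], fun τ' h6 h7 => ?_⟩
        rw [show τ' = θ + 1 by omega, h, hv]
      | exit j τ hj hτ hl => omega

/-- the agent leaves a leaf only if its edge is present -/
theorem exited {x : ℕ → ℕ} {t : ℕ} (hx : ∀ τ < t, Step N K lab τ (x τ) (x (τ + 1))) {k t' : ℕ}
    (ht' : t' ≤ t) (h' : x t' ≠ 2 * k + 1) : ∀ d θ, θ + d = t' → x θ = 2 * k + 1 →
      ∃ σ, lab k σ ∧ θ ≤ K * σ ∧ K * σ < t' ∧ ∀ τ, θ ≤ τ → τ ≤ K * σ → x τ = 2 * k + 1 := by
  intro d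
  induction d with
  | zero =>
    intro θ h1 h2
    rw [show θ = t' by omega] at h2
    exact absurd h2 h'
  | succ d ih =>
    intro θ h1 h2
    by_cases h3 : x (θ + 1) = 2 * k + 1
    · obtain ⟨σ, h4, h5, h6, h7⟩ := ih (θ + 1) (by omega) h3
      refine ⟨σ, h4, by omega, h6, fun τ h8 h9 => ?_⟩
      rcases Nat.lt_or_ge θ τ with h10 | h10
      · exact h7 τ h10 h9
      · rw [show τ = θ by omega, h2]
    · have hs := hx θ (by omega)
      rw [h2] at hs
      generalize hu : x (θ + 1) = u at hs h3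
      generalize hv : 2 * k + 1 = v at hs h3
      cases hs with
      | stay => exact absurd rfl h3
      | right j hj => omega
      | left j hj => omega
      | enter j τ hj hτ hl => omega
      | exit j τ hj hτ hl =>
        have : j = k := by omega
        subst this
        refine ⟨τ, hl, by omega, by omega, fun τ' h8 h9 => ?_⟩
        rw [show τ' = θ by omega, h2]

end Pool.Agent.N582.PT
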