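import Mathlib

/-!
# Periodic temporal trees and the exploration by a single agent: definitions
-/

set_option autoImplicit false

namespace Pool.Agent.N582.PT

/-- An instance: the list of the vertices, the list of the edges, the list of the snapshots for the
times `0, 1, …, p - 1` (each one lists the edges present at this time; the length `p` of the list is
the period), the start vertex, and the bound for the cover time. -/
abbrev Inst : Type := List ℕ × List (ℕ × ℕ) × List (List (ℕ × ℕ)) × ℕ × ℕ

/-- the vertices of the graph -/
abbrev Inst.V (I : Inst) : Type := {v : ℕ // v ∈ I.1}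

/-- the underlying graph -/
def Inst.graph (I : Inst) : SimpleGraph I.V where
  Adj u v := u ≠ v ∧ (((u : ℕ), (v : ℕ)) ∈ I.2.1 ∨ ((v : ℕ), (u : ℕ)) ∈ I.2.1)
  symm := ⟨fun _ _ h => ⟨h.1.symm, h.2.symm⟩⟩
  loopless := ⟨fun _ h => h.1 rfl⟩

/-- the snapshots -/
abbrev Inst.snapshots (I : Inst) : List (List (ℕ × ℕ)) := I.2.2.1

/-- the period: the number of snapshots -/
abbrev Inst.period (I : Inst) : ℕ := I.snapshots.length

/-- The edge `u v` is present at time `τ`: it is an edge of the graph listed in the snapshot with
the number `τ mod p`. -/
def Inst.Present (I : Inst) (τ : ℕ) (u v : I.V) : Prop :=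
  I.graph.Adj u v ∧ (((u : ℕ), (v : ℕ)) ∈ I.snapshots.getD (τ % I.period) [] ∨
    ((v : ℕ), (u : ℕ)) ∈ I.snapshots.getD (τ % I.period) [])

/-- The instance is a periodic temporal tree: the graph is a tree, the period is positive, and every
edge is present at least once per period. -/
structure Inst.IsPeriodicTree (I : Inst) : Prop where
  isTree : I.graph.IsTree
  period_pos : 0 < I.period
  present : ∀ u v, I.graph.Adj u v → ∃ τ < I.period, I.Present τ u v

/-- All degrees are at most `d`. -/
def Inst.MaxDegreeLE (I : Inst) (d : ℕ) : Prop :=
  ∀ u, {v | I.graph.Adj u v}.ncard ≤ d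

/-- The cover time from `s` is at most `t`: some movement of the agent, which is at the vertex `s` at
time `0`, and which in every time step stays at its vertex or crosses an edge that is present, has
visited all vertices by time `t`. -/
def Inst.CoverTimeLE (I : Inst) (s : I.V) (t : ℕ) : Prop :=
  ∃ x : ℕ → I.V, x 0 = s ∧ (∀ τ < t, x (τ + 1) = x τ ∨ I.Present τ (x τ) (x (τ + 1))) ∧
    ∀ v, ∃ τ ≤ t, x τ = v

/-- The decision version of DMVP for periodic temporal trees, the period being part of the input: is
the cover time from the given start vertex at most the given bound? -/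
def DMVP (I : Inst) : Prop :=
  I.IsPeriodicTree ∧ ∃ s : I.V, (s : ℕ) = I.2.2.2.1 ∧ I.CoverTimeLE s I.2.2.2.2

/-- The same problem for periodic temporal trees of maximum degree at most `d`. -/
def DMVPDeg (d : ℕ) (I : Inst) : Prop :=
  I.MaxDegreeLE d ∧ DMVP I

end Pool.Agent.N582.PT
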