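import Pool.Agent.N582.PTRed

/-!
# The exploration of periodic temporal trees: NP-hardness
-/

set_option autoImplicit false

namespace Pool.Agent.N582.PT

open Pool.Agent.NPC

/-- A graph on the numbers `0, …, M` in which `i + 1` is joined to `par i ≤ i`, for `i < M`, is a
tree. -/
theorem isTree_of_parent {M : ℕ} (par : ℕ → ℕ) (hpar : ∀ i, par i ≤ i) {L : List ℕ}
    (hL : ∀ v, v ∈ L ↔ v ≤ M) (G : SimpleGraph {v : ℕ // v ∈ L})
    (hG : ∀ u v, G.Adj u v ↔ ∃ i < M, ((u : ℕ) = par i ∧ (v : ℕ) = i + 1) ∨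
      ((v : ℕ) = par i ∧ (u : ℕ) = i + 1)) : G.IsTree := by
  classical
  have hfin : Finite {v : ℕ // v ∈ L} := inferInstance
  rw [SimpleGraph.isTree_iff_connected_and_card]
  have z : {v : ℕ // v ∈ L} := ⟨0, (hL 0).2 (Nat.zero_le _)⟩
  refine ⟨?_, ?_⟩
  · have key : ∀ n, ∀ v : {v : ℕ // v ∈ L}, (v : ℕ) = n →
        G.Reachable v ⟨0, (hL 0).2 (Nat.zero_le _)⟩ := by
      intro n
      induction n using Nat.strong_induction_on with
      | _ n ih =>
        intro v hv
        rcases Nat.eq_zero_or_pos n with h0 | h0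
        · subst h0
          have : v = ⟨0, (hL 0).2 (Nat.zero_le _)⟩ := Subtype.ext hv
          rw [this]
        · have hvM := (hL v).1 v.2
          have hp := hpar (n - 1)
          have hadj : G.Adj v ⟨par (n - 1), (hL _).2 (by omega)⟩ := by
            rw [hG]
            exact ⟨n - 1, by omega, Or.inr ⟨rfl, by omega⟩⟩
          exact hadj.reachable.trans (ih (par (n - 1)) (by omega) _ rfl)
    haveI : Nonempty {v : ℕ // v ∈ L} := ⟨z⟩
    exact ⟨fun u v => (key _ u rfl).trans (key _ v rfl).symm⟩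
  · have e1 : Nat.card {v : ℕ // v ∈ L} = M + 1 := by
      let e : {v : ℕ // v ∈ L} ≃ Fin (M + 1) :=
        { toFun := fun v => ⟨v, by have := (hL v).1 v.2; omega⟩
          invFun := fun i => ⟨i, (hL _).2 (by omega)⟩
          left_inv := fun v => rfl
          right_inv := fun i => rfl }
      rw [Nat.card_congr e, Nat.card_eq_fintype_card, Fintype.card_fin]
    have e2 : Nat.card G.edgeSet = M := by
      let f : Fin M → G.edgeSet := fun i =>
        ⟨s(⟨par i, (hL _).2 (by have := hpar i; omega)⟩, ⟨i + 1, (hL _).2 (by omega)⟩), by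
          rw [SimpleGraph.mem_edgeSet, hG]
          exact ⟨i, i.2, Or.inl ⟨rfl, rfl⟩⟩⟩
      have hf : Function.Bijective f := by
        constructor
        · intro i j h
          have h1 := congrArg Subtype.val h
          change s(_, _) = s(_, _) at h1
          rw [Sym2.eq_iff] at h1
          have hi := hpar i
          have hj := hpar j
          rcases h1 with ⟨h2, h3⟩ | ⟨h2, h3⟩
          · have := congrArg Subtype.val h3
            apply Fin.ext
            change (i : ℕ) + 1 = (j : ℕ) + 1 at this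
            omega
          · have h4 := congrArg Subtype.val h2
            have h5 := congrArg Subtype.val h3
            change par i = (j : ℕ) + 1 at h4
            change (i : ℕ) + 1 = par j at h5
            omega
        · rintro ⟨e, he⟩
          induction e using Sym2.ind with
          | _ u v =>
            have he' := he
            rw [SimpleGraph.mem_edgeSet, hG] at he'
            obtain ⟨i, hi, ⟨h1, h2⟩ | ⟨h1, h2⟩⟩ := he'
            · refine ⟨⟨i, hi⟩, Subtype.ext ?_⟩
              change s(_, _) = s(_, _)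
              rw [Sym2.eq_iff]
              exact Or.inl ⟨Subtype.ext h1.symm, Subtype.ext h2.symm⟩
            · refine ⟨⟨i, hi⟩, Subtype.ext ?_⟩
              change s(_, _) = s(_, _)
              rw [Sym2.eq_iff]
              exact Or.inr ⟨Subtype.ext h1.symm, Subtype.ext h2.symm⟩
      rw [← Nat.card_eq_of_bijective f hf, Nat.card_eq_fintype_card, Fintype.card_fin]
    rw [e1, e2]

/-- the edges of the comb -/
def edges (φ : Fml) : List (ℕ × ℕ) :=
  (List.range (8 * φ.length + 1)).map fun i => (2 * (i / 2), i + 1)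

/-- the edges of the path -/
def spine (φ : Fml) : List (ℕ × ℕ) :=
  (List.range (4 * φ.length)).map fun k => (2 * k, 2 * k + 2)

/-- the edges of the leaves present at time `θ` -/
def pendant (φ : Fml) (θ : ℕ) : List (ℕ × ℕ) :=
  ((List.range (4 * φ.length + 1)).filter fun k =>
    decide (θ % (4 * φ.length + 1) = 0) && labB φ k (θ / (4 * φ.length + 1))).map
      fun k => (2 * k, 2 * k + 1)

/-- the period -/
def per (φ : Fml) : ℕ := (4 * φ.length + 1) * Z φ.length + 2

/-- the instance -/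
def inst (φ : Fml) : Inst :=
  (List.range (8 * φ.length + 2), edges φ,
    (List.range (per φ)).map (fun θ => spine φ ++ pendant φ θ), 0,
    (4 * φ.length + 1) * Z φ.length + 1)

theorem mem_V {φ : Fml} (v : ℕ) : v ∈ (inst φ).1 ↔ v ≤ 8 * φ.length + 1 := by
  change v ∈ List.range _ ↔ _
  rw [List.mem_range]
  omega

theorem mem_edges {φ : Fml} {u v : ℕ} :
    (u, v) ∈ edges φ ↔ ∃ i < 8 * φ.length + 1, u = 2 * (i / 2) ∧ v = i + 1 := by
  unfold edges
  simp only [List.mem_map, List.mem_range, Prod.mk.injEq]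
  constructor
  · rintro ⟨i, h1, rfl, rfl⟩
    exact ⟨i, h1, rfl, rfl⟩
  · rintro ⟨i, h1, rfl, rfl⟩
    exact ⟨i, h1, rfl, rfl⟩

theorem adj_iff {φ : Fml} (u v : (inst φ).V) : (inst φ).graph.Adj u v ↔
    ∃ i < 8 * φ.length + 1, ((u : ℕ) = 2 * (i / 2) ∧ (v : ℕ) = i + 1) ∨
      ((v : ℕ) = 2 * (i / 2) ∧ (u : ℕ) = i + 1) := by
  change (u ≠ v ∧ (((u : ℕ), (v : ℕ)) ∈ edges φ ∨ ((v : ℕ), (u : ℕ)) ∈ edges φ)) ↔ _
  rw [mem_edges, mem_edges]
  constructor
  · rintro ⟨-, ⟨i, hi, h⟩ | ⟨i, hi, h⟩⟩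
    · exact ⟨i, hi, Or.inl h⟩
    · exact ⟨i, hi, Or.inr h⟩
  · rintro ⟨i, hi, h | h⟩
    · refine ⟨?_, Or.inl ⟨i, hi, h⟩⟩
      rintro rfl
      omega
    · refine ⟨?_, Or.inr ⟨i, hi, h⟩⟩
      rintro rfl
      omega

theorem isTree (φ : Fml) : (inst φ).graph.IsTree :=
  isTree_of_parent (fun i => 2 * (i / 2)) (fun i => by change 2 * (i / 2) ≤ i; omega) mem_V _
    adj_iff

theorem maxDegree (φ : Fml) : (inst φ).MaxDegreeLE 3 := by
  classical
  intro u
  have hsub : (Subtype.val '' {v | (inst φ).graph.Adj u v}) ⊆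
      (({(u : ℕ) + 1, (u : ℕ) + 2, if (u : ℕ) % 2 = 0 then (u : ℕ) - 2 else (u : ℕ) - 1} :
        Finset ℕ) : Set ℕ) := by
    rintro w ⟨v, hv, rfl⟩
    change (inst φ).graph.Adj u v at hv
    rw [adj_iff] at hv
    simp only [Finset.coe_insert, Finset.coe_singleton, Set.mem_insert_iff,
      Set.mem_singleton_iff]
    obtain ⟨i, hi, ⟨h1, h2⟩ | ⟨h1, h2⟩⟩ := hv
    · omega
    · split_ifs <;> omega
  rw [← Set.ncard_image_of_injective _ Subtype.val_injective]
  refine (Set.ncard_le_ncard hsub (Finset.finite_toSet _)).trans ?_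
  rw [Set.ncard_coe_finset]
  exact Finset.card_le_three

theorem period_eq (φ : Fml) : (inst φ).period = per φ := by
  change ((List.range (per φ)).map _).length = _
  rw [List.length_map, List.length_range]

theorem snap {φ : Fml} {θ : ℕ} (h : θ < per φ) :
    (inst φ).snapshots.getD (θ % (inst φ).period) [] = spine φ ++ pendant φ θ := by
  rw [period_eq, Nat.mod_eq_of_lt h]
  change ((List.range (per φ)).map (fun θ => spine φ ++ pendant φ θ)).getD θ [] = _
  rw [List.getD_eq_getElem _ _ (by simpa using h)]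
  simp

theorem mem_snap {φ : Fml} {θ u v : ℕ} : (u, v) ∈ spine φ ++ pendant φ θ ↔
    (∃ k < 4 * φ.length, u = 2 * k ∧ v = 2 * k + 2) ∨
      ∃ k < 4 * φ.length + 1, (θ % (4 * φ.length + 1) = 0 ∧ lab φ k (θ / (4 * φ.length + 1))) ∧
        u = 2 * k ∧ v = 2 * k + 1 := by
  unfold spine pendant lab
  simp only [List.mem_append, List.mem_map, List.mem_range, List.mem_filter, Bool.and_eq_true,
    decide_eq_true_eq, Prod.mk.injEq]
  constructor
  · rintro (⟨k, h1, h2, h3⟩ | ⟨k, ⟨h1, h2⟩, h3, h4⟩)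
    · exact Or.inl ⟨k, h1, h2.symm, h3.symm⟩
    · exact Or.inr ⟨k, h1, h2, h3.symm, h4.symm⟩
  · rintro (⟨k, h1, h2, h3⟩ | ⟨k, h1, h2, h3, h4⟩)
    · exact Or.inl ⟨k, h1, h2.symm, h3.symm⟩
    · exact Or.inr ⟨k, ⟨h1, h2⟩, h3.symm, h4.symm⟩

theorem present_iff {φ : Fml} {θ : ℕ} (h : θ < per φ) (u v : (inst φ).V) :
    (inst φ).Present θ u v ↔ u ≠ v ∧ Step (NN φ) (NN φ) (lab φ) θ u v := by
  have hu := (mem_V (φ := φ) u).1 u.2
  have hv := (mem_V (φ := φ) v).1 v.2
  unfold Inst.Present
  rw [snap h, mem_snap, mem_snap, adj_iff]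
  constructor
  · rintro ⟨⟨i, hi, h1⟩, h2⟩
    have hne : u ≠ v := by
      rintro rfl
      omega
    refine ⟨hne, ?_⟩
    rcases h2 with (⟨k, hk, h2, h3⟩ | ⟨k, hk, ⟨h4, h5⟩, h2, h3⟩) |
      (⟨k, hk, h2, h3⟩ | ⟨k, hk, ⟨h4, h5⟩, h2, h3⟩)
    · rw [h2, h3]
      exact Step.right k (by change _ < 4 * φ.length + 1; omega)
    · rw [h2, h3]
      exact Step.enter k (θ / (4 * φ.length + 1)) hk
        (Nat.mul_div_cancel' (Nat.dvd_of_mod_eq_zero h4)).symm h5
    · rw [h2, h3]
      exact Step.left k (by change _ < 4 * φ.length + 1; omega)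
    · rw [h2, h3]
      exact Step.exit k (θ / (4 * φ.length + 1)) hk
        (Nat.mul_div_cancel' (Nat.dvd_of_mod_eq_zero h4)).symm h5
  · rintro ⟨hne, h1⟩
    have hne' : (u : ℕ) ≠ v := fun h => hne (Subtype.ext h)
    generalize (u : ℕ) = u' at *
    generalize (v : ℕ) = v' at *
    cases h1 with
    | stay => exact absurd rfl hne'
    | right k hk =>
      change k + 1 < 4 * φ.length + 1 at hk
      exact ⟨⟨2 * k + 1, by omega, Or.inl ⟨by omega, by omega⟩⟩,
        Or.inl (Or.inl ⟨k, by omega, rfl, by omega⟩)⟩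
    | left k hk =>
      change k + 1 < 4 * φ.length + 1 at hk
      exact ⟨⟨2 * k + 1, by omega, Or.inr ⟨by omega, by omega⟩⟩,
        Or.inr (Or.inl ⟨k, by omega, rfl, by omega⟩)⟩
    | enter k τ hk hτ hl =>
      change k < 4 * φ.length + 1 at hk
      change θ = (4 * φ.length + 1) * τ at hτ
      subst hτ
      refine ⟨⟨2 * k, by omega, Or.inl ⟨by omega, by omega⟩⟩,
        Or.inl (Or.inr ⟨k, hk, ⟨Nat.mul_mod_right _ _, ?_⟩, rfl, rfl⟩)⟩
      rw [Nat.mul_div_cancel_left _ (by omega)]
      exact hl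
    | exit k τ hk hτ hl =>
      change k < 4 * φ.length + 1 at hk
      change θ = (4 * φ.length + 1) * τ at hτ
      subst hτ
      refine ⟨⟨2 * k, by omega, Or.inr ⟨by omega, by omega⟩⟩,
        Or.inr (Or.inr ⟨k, hk, ⟨Nat.mul_mod_right _ _, ?_⟩, rfl, rfl⟩)⟩
      rw [Nat.mul_div_cancel_left _ (by omega)]
      exact hl

theorem exists_lab {φ : Fml} (hb : Bounded3 φ) {k : ℕ} (hk : k < 4 * φ.length + 1) :
    ∃ σ ≤ Z φ.length, lab φ k σ := by
  obtain ⟨m, hm⟩ : ∃ m, φ.length = m := ⟨_, rfl⟩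
  obtain ⟨L, hL⟩ : ∃ L, L = 4 * m + 3 := ⟨_, rfl⟩
  have hZ : Z φ.length = 3 * m * L + 1 := by unfold Z; rw [hm, hL]
  rw [hm] at hk
  rw [hZ]
  have hmul : ∀ v < 3 * m, v * L + (4 * m + 3) ≤ 3 * m * L := by
    intro v hv
    calc v * L + (4 * m + 3) = (v + 1) * L := by rw [hL]; ring
      _ ≤ 3 * m * L := Nat.mul_le_mul hv le_rfl
  rcases Nat.lt_or_ge k (3 * m) with h | h
  · have := hmul k h
    exact ⟨k * L + 1, by omega, (lab_var hm hL h).2 (Or.inl rfl)⟩
  · rcases Nat.lt_or_ge k (4 * m) with h' | h'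
    · obtain ⟨j, rfl⟩ := Nat.exists_eq_add_of_le h
      have hl : (lits φ j).getD 0 (true, 0) ∈ lits φ j := by
        unfold lits
        simp
      have h1 := lits_lt hb (j := j) (by omega) hl
      rw [hm] at h1
      have h2 := hmul _ h1
      refine ⟨_, ?_, (lab_cl hm hL (j := j) (by omega)).2 ⟨_, hl, Or.inl rfl⟩⟩
      split_ifs <;> omega
    · refine ⟨3 * m * L + 1, le_rfl, ?_⟩
      rw [show k = 4 * m by omega, lab_z hm hL]

theorem isPeriodicTree {φ : Fml} (hb : Bounded3 φ) : (inst φ).IsPeriodicTree where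
  isTree := isTree φ
  period_pos := by rw [period_eq]; unfold per; omega
  present := by
    rw [period_eq]
    intro u v h
    have hne := h.ne
    rw [adj_iff] at h
    obtain ⟨i, hi, h⟩ := h
    rcases Nat.even_or_odd' i with ⟨k, rfl | rfl⟩
    · obtain ⟨σ, hσ1, hσ2⟩ := exists_lab hb (k := k) (by omega)
      have hlt : (4 * φ.length + 1) * σ < per φ := by
        unfold per
        have := Nat.mul_le_mul (le_refl (4 * φ.length + 1)) hσ1
        omega
      refine ⟨_, hlt, ?_⟩
      rw [present_iff hlt]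
      refine ⟨hne, ?_⟩
      rcases h with ⟨h1, h2⟩ | ⟨h1, h2⟩
      · rw [h1, h2, show 2 * (2 * k / 2) = 2 * k by omega]
        exact Step.enter k σ (by change _ < 4 * φ.length + 1; omega) rfl hσ2
      · rw [h1, h2, show 2 * (2 * k / 2) = 2 * k by omega]
        exact Step.exit k σ (by change _ < 4 * φ.length + 1; omega) rfl hσ2
    · have hlt : 0 < per φ := by unfold per; omega
      refine ⟨0, hlt, ?_⟩
      rw [present_iff hlt]
      refine ⟨hne, ?_⟩
      rcases h with ⟨h1, h2⟩ | ⟨h1, h2⟩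
      · rw [h1, h2, show 2 * ((2 * k + 1) / 2) = 2 * k by omega,
          show 2 * k + 1 + 1 = 2 * (k + 1) by omega]
        exact Step.right k (by change _ < 4 * φ.length + 1; omega)
      · rw [h1, h2, show 2 * ((2 * k + 1) / 2) = 2 * k by omega,
          show 2 * k + 1 + 1 = 2 * (k + 1) by omega]
        exact Step.left k (by change _ < 4 * φ.length + 1; omega)

theorem step_lt {N K : ℕ} {lab : ℕ → ℕ → Prop} {θ u v : ℕ} (h : Step N K lab θ u v)
    (hu : u < 2 * N) : v < 2 * N := by
  cases h <;> omega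

theorem inst_iff {φ : Fml} (hb : Bounded3 φ) : DMVP (inst φ) ↔ SAT3 φ := by
  rw [← explorable_iff hb]
  have hper : ∀ τ, τ < (4 * φ.length + 1) * Z φ.length + 1 → τ < per φ := by
    intro τ h
    unfold per
    omega
  constructor
  · rintro ⟨-, s, hs, x, hx1, hx2, hx3⟩
    refine ⟨fun τ => x τ, ?_, ?_, ?_⟩
    · change ((x 0 : (inst φ).V) : ℕ) = 0
      rw [hx1, hs]
      rfl
    · intro τ hτ
      rcases hx2 τ hτ with h | h
      · change Step _ _ _ _ ((x τ : (inst φ).V) : ℕ) ((x (τ + 1) : (inst φ).V) : ℕ)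
        rw [h]
        exact Step.stay _
      · exact ((present_iff (hper τ hτ) _ _).1 h).2
    · intro v hv
      obtain ⟨τ, h1, h2⟩ := hx3 ⟨v, (mem_V v).2 (by
        change v < 2 * (4 * φ.length + 1) at hv
        omega)⟩
      exact ⟨τ, h1, congrArg Subtype.val h2⟩
  · rintro ⟨x, hx1, hx2, hx3⟩
    have hlt : ∀ τ ≤ (4 * φ.length + 1) * Z φ.length + 1, x τ < 2 * (4 * φ.length + 1) := by
      intro τ
      induction τ with
      | zero => intro _; rw [hx1]; omega
      | succ τ ih =>
        intro h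
        have h1 : τ < (4 * φ.length + 1) * Z φ.length + 1 := by omega
        exact step_lt (hx2 τ h1) (ih (by omega))
    have h0 : (0 : ℕ) ∈ (inst φ).1 := (mem_V 0).2 (by omega)
    refine ⟨isPeriodicTree hb, ⟨0, h0⟩, rfl,
      fun τ => if h : x τ < 2 * (4 * φ.length + 1) then ⟨x τ, (mem_V _).2 (by omega)⟩
        else ⟨0, h0⟩, ?_, ?_, ?_⟩
    · change (if h : x 0 < 2 * (4 * φ.length + 1) then _ else _) = _
      rw [dif_pos (by rw [hx1]; omega)]
      exact Subtype.ext hx1
    · intro τ hτ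
      change τ < (4 * φ.length + 1) * Z φ.length + 1 at hτ
      have h1 := hlt τ (by omega)
      have h2 := hlt (τ + 1) (by omega)
      change (if h : x (τ + 1) < 2 * (4 * φ.length + 1) then _ else _) =
        (if h : x τ < 2 * (4 * φ.length + 1) then _ else _) ∨ (inst φ).Present τ
          (if h : x τ < 2 * (4 * φ.length + 1) then _ else _)
          (if h : x (τ + 1) < 2 * (4 * φ.length + 1) then _ else _)
      rw [dif_pos h1, dif_pos h2, present_iff (hper τ hτ)]
      by_cases he : x (τ + 1) = x τ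
      · exact Or.inl (Subtype.ext he)
      · refine Or.inr ⟨fun h => he (congrArg Subtype.val h).symm, hx2 τ hτ⟩
    · intro v
      obtain ⟨τ, h1, h2⟩ := hx3 v (by
        have := (mem_V (φ := φ) v).1 v.2
        change (v : ℕ) < 2 * (4 * φ.length + 1)
        omega)
      refine ⟨τ, h1, ?_⟩
      change (if h : x τ < 2 * (4 * φ.length + 1) then _ else _) = _
      rw [dif_pos (hlt τ h1)]
      exact Subtype.ext h2

theorem poly_lits {α : Type} [TEnc α] {f : α → Fml} {j : α → ℕ} (hf : Poly f) (hj : Poly j) :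
    Poly (fun a => lits (f a) (j a)) := by
  unfold lits
  fun_prop

theorem poly_slot {α : Type} [TEnc α] {m : α → ℕ} {l : α → Bool × ℕ} {j : α → ℕ} (hm : Poly m)
    (hl : Poly l) (hj : Poly j) : Poly (fun a => slot (m a) (l a) (j a)) := by
  unfold slot
  fun_prop

theorem poly_labB {α : Type} [TEnc α] {f : α → Fml} {k τ : α → ℕ} (hf : Poly f)
    (hk : Poly k) (hτ : Poly τ) : Poly (fun a => labB (f a) (k a) (τ a)) := by
  have h1 : Poly (fun a => lits (f a) (k a - 3 * (f a).length)) :=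
    poly_lits hf (by fun_prop)
  have h2 : Poly (fun q : α × (Bool × ℕ) =>
      slot (f q.1).length q.2 (k q.1 - 3 * (f q.1).length)) :=
    poly_slot (by fun_prop) (by fun_prop) (by fun_prop)
  have h3 : Poly (fun a => Z (f a).length) := by
    unfold Z
    fun_prop
  unfold labB
  fun_prop

theorem poly_inst : Poly inst := by
  have hL : UPoly (fun φ : Fml => φ.length) := UPoly.length NPC.Poly.id
  have hZ : UPoly (fun φ : Fml => Z φ.length) :=
    (((UPoly.const 3).mul hL).mul (((UPoly.const 4).mul hL).add (UPoly.const 3))).add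
      (UPoly.const 1)
  have hN : UPoly (fun φ : Fml => 4 * φ.length + 1) :=
    ((UPoly.const 4).mul hL).add (UPoly.const 1)
  have hV : Poly (fun φ : Fml => List.range (8 * φ.length + 2)) :=
    (((UPoly.const 8).mul hL).add (UPoly.const 2)).range
  have hE : Poly (fun φ : Fml => List.range (8 * φ.length + 1)) :=
    (((UPoly.const 8).mul hL).add (UPoly.const 1)).range
  have hS : Poly (fun φ : Fml => List.range (4 * φ.length)) := ((UPoly.const 4).mul hL).range
  have hP : Poly (fun φ : Fml => List.range (per φ)) := ((hN.mul hZ).add (UPoly.const 2)).range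
  have hNr : Poly (fun φ : Fml => List.range (4 * φ.length + 1)) := hN.range
  have hZ' : Poly (fun φ : Fml => Z φ.length) := hZ.toPoly
  have h1 : Poly edges := by
    unfold edges
    fun_prop
  have h2 : Poly spine := by
    unfold spine
    fun_prop
  have h3 : Poly (fun q : (Fml × ℕ) × ℕ => labB q.1.1 q.2 (q.1.2 / (4 * q.1.1.length + 1))) :=
    poly_labB (by fun_prop) (by fun_prop) (by fun_prop)
  have h3' : Poly (fun q : (Fml × ℕ) × ℕ =>
      decide (q.1.2 % (4 * q.1.1.length + 1) = 0)) :=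
    NPC.Poly.dec_eq (by fun_prop) (by fun_prop)
  have h4 : Poly (fun q : Fml × ℕ => pendant q.1 q.2) := by
    unfold pendant
    exact NPC.Poly.map (NPC.Poly.filter (p := fun (q : Fml × ℕ) k =>
      decide (q.2 % (4 * q.1.length + 1) = 0) && labB q.1 k (q.2 / (4 * q.1.length + 1)))
      (hNr.comp (NPC.Poly.fst NPC.Poly.id)) (NPC.Poly.and h3' h3)) (by fun_prop)
  unfold inst
  fun_prop

/-- The exploration problem for periodic temporal trees is hard. -/
theorem hardI_dmvp : HardI DMVP :=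
  (hardPr_SAT3b.trans (Pr' := fun _ => True) poly_inst (fun _ _ => trivial)
    (fun _ h => (inst_iff h.2.1).symm)).toHardI

/-- The exploration problem for periodic temporal trees of maximum degree at most `d ≥ 3` is
hard. -/
theorem hardI_dmvpDeg {d : ℕ} (hd : 3 ≤ d) : HardI (DMVPDeg d) :=
  (hardPr_SAT3b.trans (Pr' := fun _ => True) poly_inst (fun _ _ => trivial)
    (fun φ h => by
      rw [← inst_iff h.2.1]
      exact ⟨fun h' => ⟨fun u => (maxDegree φ u).trans hd, h'⟩, fun h' => h'.2⟩)).toHardI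

end Pool.Agent.N582.PT
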