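import Pool.Agent.N582.PTDefs
import Pool.Agent.N582.PTCore
import Pool.Agent.NPC.Sat2
import Pool.Agent.H671R2.PolyAuto

/-!
# The exploration of periodic temporal trees: the reduction from 3SAT
-/

set_option autoImplicit false

namespace Pool.Agent.N582.PT

open Pool.Agent.NPC

/-- a formula with three literals per clause -/
abbrev Fml : Type := List (Lit ℕ × Lit ℕ × Lit ℕ)

/-- the literals of the clause `j` -/
def lits (φ : Fml) (j : ℕ) : List (Bool × ℕ) :=
  [(φ.getD j ((true, 0), (true, 0), (true, 0))).1,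
    (φ.getD j ((true, 0), (true, 0), (true, 0))).2.1,
    (φ.getD j ((true, 0), (true, 0), (true, 0))).2.2]

/-- the first of the two consecutive labels of the literal `l` in the clause `j` -/
def slot (m : ℕ) (l : Bool × ℕ) (j : ℕ) : ℕ :=
  l.2 * (4 * m + 3) + (if l.1 then 2 else 2 * m + 3) + 2 * j

/-- the last label -/
def Z (m : ℕ) : ℕ := 3 * m * (4 * m + 3) + 1

/-- the labels of the leaves -/
def labB (φ : Fml) (k τ : ℕ) : Bool :=
  if k < 3 * φ.length then
    (decide (τ = k * (4 * φ.length + 3) + 1) ||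
      (decide (τ = k * (4 * φ.length + 3) + (2 * φ.length + 2)) ||
        decide (τ = k * (4 * φ.length + 3) + (4 * φ.length + 3))))
  else if k < 4 * φ.length then
    (lits φ (k - 3 * φ.length)).any fun l =>
      (decide (τ = slot φ.length l (k - 3 * φ.length)) ||
        decide (τ = slot φ.length l (k - 3 * φ.length) + 1))
  else decide (τ = Z φ.length)

/-- the labels of the leaves -/
def lab (φ : Fml) (k τ : ℕ) : Prop := labB φ k τ = true

theorem lab_var {φ : Fml} {m L : ℕ} (hm : φ.length = m) (hL : L = 4 * m + 3) {k τ : ℕ}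
    (hk : k < 3 * m) :
    lab φ k τ ↔ τ = k * L + 1 ∨ τ = k * L + (2 * m + 2) ∨ τ = k * L + (4 * m + 3) := by
  unfold lab labB
  rw [hm, if_pos hk, ← hL]
  simp

theorem lab_cl {φ : Fml} {m L : ℕ} (hm : φ.length = m) (hL : L = 4 * m + 3) {j τ : ℕ}
    (hj : j < m) :
    lab φ (3 * m + j) τ ↔ ∃ l ∈ lits φ j,
      τ = l.2 * L + (if l.1 then 2 else 2 * m + 3) + 2 * j ∨
        τ = l.2 * L + (if l.1 then 2 else 2 * m + 3) + 2 * j + 1 := by
  unfold lab labB
  rw [hm, if_neg (by omega), if_pos (by omega), show 3 * m + j - 3 * m = j by omega]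
  simp only [slot, ← hL, List.any_eq_true, Bool.or_eq_true, decide_eq_true_eq]

theorem lab_z {φ : Fml} {m L : ℕ} (hm : φ.length = m) (hL : L = 4 * m + 3) {τ : ℕ} :
    lab φ (4 * m) τ ↔ τ = 3 * m * L + 1 := by
  unfold lab labB
  rw [hm, if_neg (by omega), if_neg (by omega), Z, ← hL]
  simp

theorem lits_mem {φ : Fml} {j : ℕ} (hj : j < φ.length) {l : Bool × ℕ} (hl : l ∈ lits φ j) :
    ∃ c ∈ φ, l = c.1 ∨ l = c.2.1 ∨ l = c.2.2 := by
  unfold lits at hl
  rw [List.getD_eq_getElem _ _ hj] at hl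
  refine ⟨φ[j], List.getElem_mem hj, ?_⟩
  simpa using hl

theorem lits_lt {φ : Fml} (hb : Bounded3 φ) {j : ℕ} (hj : j < φ.length) {l : Bool × ℕ}
    (hl : l ∈ lits φ j) : l.2 < 3 * φ.length := by
  obtain ⟨c, hc, h⟩ := lits_mem hj hl
  obtain ⟨h1, h2, h3⟩ := hb c hc
  rcases h with rfl | rfl | rfl
  · exact h1
  · exact h2
  · exact h3

theorem sat_iff {φ : Fml} : SAT3 φ ↔
    ∃ τ : ℕ → Bool, ∀ j < φ.length, ∃ l ∈ lits φ j, τ l.2 = l.1 := by
  constructor
  · rintro ⟨τ, h⟩
    refine ⟨τ, fun j hj => ?_⟩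
    unfold lits
    rw [List.getD_eq_getElem _ _ hj]
    have := h φ[j] (List.getElem_mem hj)
    simpa using this
  · rintro ⟨τ, h⟩
    refine ⟨τ, fun c hc => ?_⟩
    obtain ⟨j, hj, rfl⟩ := List.getElem_of_mem hc
    have := h j hj
    unfold lits at this
    rw [List.getD_eq_getElem _ _ hj] at this
    simpa using this

/-- the number of leaves, and the distance of two labels -/
abbrev NN (φ : Fml) : ℕ := 4 * φ.length + 1

/-- the abstract form of the exploration problem -/
def Explorable (φ : Fml) : Prop :=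
  ∃ x : ℕ → ℕ, x 0 = 0 ∧
    (∀ τ < NN φ * Z φ.length + 1, Step (NN φ) (NN φ) (lab φ) τ (x τ) (x (τ + 1))) ∧
      ∀ v < 2 * NN φ, ∃ τ ≤ NN φ * Z φ.length + 1, x τ = v

theorem explorable_def {φ : Fml} {m L K : ℕ} (hm : φ.length = m) (hL : L = 4 * m + 3)
    (hK : K = 4 * m + 1) : Explorable φ ↔ ∃ x : ℕ → ℕ, x 0 = 0 ∧
      (∀ τ < K * (3 * m * L + 1) + 1, Step K K (lab φ) τ (x τ) (x (τ + 1))) ∧
        ∀ v < 2 * K, ∃ τ ≤ K * (3 * m * L + 1) + 1, x τ = v := by
  subst hm hL hK
  rfl

theorem explorable_of_sat {φ : Fml} (hb : Bounded3 φ) (hs : SAT3 φ) : Explorable φ := by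
  rw [sat_iff] at hs
  obtain ⟨τ₀, h0⟩ := hs
  choose! ch hch1 hch2 using h0
  obtain ⟨m, hm⟩ : ∃ m, φ.length = m := ⟨_, rfl⟩
  obtain ⟨L, hL⟩ : ∃ L, L = 4 * m + 3 := ⟨_, rfl⟩
  obtain ⟨K, hK⟩ : ∃ K, K = 4 * m + 1 := ⟨_, rfl⟩
  rw [explorable_def hm hL hK]
  rw [hm] at hch1 hch2
  have hN : K ≤ K := le_rfl
  -- one variable
  have hvar : ∀ v < 3 * m, Ph K K (lab φ) (v * L) ((v + 1) * L)
      ({v} ∪ {k | ∃ j < m, k = 3 * m + j ∧ (ch j).2 = v}) := by
    intro v hv
    have hLv : (v + 1) * L = v * L + (4 * m + 3) := by rw [hL]; ring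
    cases htv : τ₀ v with
    | true =>
      have h1 : ∀ i ≤ m, Ph K K (lab φ) (v * L) (v * L + 1 + 2 * i)
          {k | ∃ j < i, k = 3 * m + j ∧ (ch j).2 = v} := by
        intro i
        induction i with
        | zero =>
          intro _
          exact (ph_wait (by omega)).mono (by intro k; simp)
        | succ i ih =>
          intro hi
          have h2 := ih (by omega)
          by_cases hc : (ch i).2 = v
          · have h3 : (ch i).1 = true := by rw [← hch2 i (by omega), hc, htv]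
            have h4 : lab φ (3 * m + i) (v * L + 2 + 2 * i) := by
              rw [lab_cl hm hL (by omega)]
              exact ⟨ch i, hch1 i (by omega), Or.inl (by
                rw [hc, h3, if_pos rfl])⟩
            have h5 : lab φ (3 * m + i) (v * L + 2 + 2 * i + 1) := by
              rw [lab_cl hm hL (by omega)]
              exact ⟨ch i, hch1 i (by omega), Or.inr (by
                rw [hc, h3, if_pos rfl])⟩
            have h6 := h2.trans (ph_visit hN (α := v * L + 1 + 2 * i)
              (β := v * L + 1 + 2 * (i + 1)) (k := 3 * m + i) (by omega) (Nat.lt_succ_self _)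
              (by omega) (by omega) h4 h5)
            refine h6.mono ?_
            rintro k ⟨j, hj, rfl, hj2⟩
            rcases Nat.lt_succ_iff_lt_or_eq.1 hj with h | rfl
            · exact Or.inl ⟨j, h, rfl, hj2⟩
            · exact Or.inr rfl
          · have h6 := h2.trans (ph_wait (β := v * L + 1 + 2 * (i + 1)) (by omega))
            refine h6.mono ?_
            rintro k ⟨j, hj, rfl, hj2⟩
            rcases Nat.lt_succ_iff_lt_or_eq.1 hj with h | rfl
            · exact Or.inl ⟨j, h, rfl, hj2⟩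
            · exact absurd hj2 hc
      have h2 : Ph K K (lab φ) (v * L + 1 + 2 * m) ((v + 1) * L) {v} :=
        ph_visit hN (σ := v * L + (2 * m + 2)) (σ' := v * L + (4 * m + 3)) (by omega) (by omega)
          (by omega) (by omega) ((lab_var hm hL hv).2 (Or.inr (Or.inl rfl)))
          ((lab_var hm hL hv).2 (Or.inr (Or.inr rfl)))
      refine ((h1 m le_rfl).trans h2).mono ?_
      rintro k (hk | hk)
      · exact Or.inr hk
      · exact Or.inl hk
    | false =>
      have h1 : ∀ i ≤ m, Ph K K (lab φ) (v * L + (2 * m + 2))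
          (v * L + (2 * m + 2) + 2 * i) {k | ∃ j < i, k = 3 * m + j ∧ (ch j).2 = v} := by
        intro i
        induction i with
        | zero =>
          intro _
          exact (ph_wait (by omega)).mono (by intro k; simp)
        | succ i ih =>
          intro hi
          have h2 := ih (by omega)
          by_cases hc : (ch i).2 = v
          · have h3 : (ch i).1 = false := by rw [← hch2 i (by omega), hc, htv]
            have h4 : lab φ (3 * m + i) (v * L + (2 * m + 3) + 2 * i) := by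
              rw [lab_cl hm hL (by omega)]
              exact ⟨ch i, hch1 i (by omega), Or.inl (by
                rw [hc, h3, if_neg (by simp)])⟩
            have h5 : lab φ (3 * m + i) (v * L + (2 * m + 3) + 2 * i + 1) := by
              rw [lab_cl hm hL (by omega)]
              exact ⟨ch i, hch1 i (by omega), Or.inr (by
                rw [hc, h3, if_neg (by simp)])⟩
            have h6 := h2.trans (ph_visit hN (α := v * L + (2 * m + 2) + 2 * i)
              (β := v * L + (2 * m + 2) + 2 * (i + 1)) (k := 3 * m + i) (by omega)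
              (Nat.lt_succ_self _) (by omega) (by omega) h4 h5)
            refine h6.mono ?_
            rintro k ⟨j, hj, rfl, hj2⟩
            rcases Nat.lt_succ_iff_lt_or_eq.1 hj with h | rfl
            · exact Or.inl ⟨j, h, rfl, hj2⟩
            · exact Or.inr rfl
          · have h6 := h2.trans (ph_wait (β := v * L + (2 * m + 2) + 2 * (i + 1)) (by omega))
            refine h6.mono ?_
            rintro k ⟨j, hj, rfl, hj2⟩
            rcases Nat.lt_succ_iff_lt_or_eq.1 hj with h | rfl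
            · exact Or.inl ⟨j, h, rfl, hj2⟩
            · exact absurd hj2 hc
      have h2 : Ph K K (lab φ) (v * L) (v * L + (2 * m + 2)) {v} :=
        ph_visit hN (σ := v * L + 1) (σ' := v * L + (2 * m + 2)) (by omega) (by omega)
          (by omega) (by omega) ((lab_var hm hL hv).2 (Or.inl rfl))
          ((lab_var hm hL hv).2 (Or.inr (Or.inl rfl)))
      have h3 := (h2.trans (h1 m le_rfl)).trans (ph_wait (β := (v + 1) * L) (by omega))
      refine h3.mono ?_
      rintro k (hk | hk)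
      · exact Or.inl (Or.inl hk)
      · exact Or.inl (Or.inr hk)
  have hall : ∀ v ≤ 3 * m, Ph K K (lab φ) 0 (v * L)
      {k | k < v ∨ ∃ j < m, k = 3 * m + j ∧ (ch j).2 < v} := by
    intro v
    induction v with
    | zero =>
      intro _
      exact (ph_wait (by omega)).mono (by intro k; simp)
    | succ v ih =>
      intro hv
      refine ((ih (by omega)).trans (hvar v (by omega))).mono ?_
      rintro k (hk | ⟨j, hj, rfl, hk⟩)
      · rcases Nat.lt_succ_iff_lt_or_eq.1 hk with h | rfl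
        · exact Or.inl (Or.inl h)
        · exact Or.inr (Or.inl rfl)
      · rcases Nat.lt_succ_iff_lt_or_eq.1 hk with h | h
        · exact Or.inl (Or.inr ⟨j, hj, rfl, h⟩)
        · exact Or.inr (Or.inr ⟨j, hj, rfl, h⟩)
  obtain ⟨b, hb1, hb2⟩ := hall (3 * m) le_rfl 0 (by omega)
  have hstart : Go K K (lab φ) 0 0 (K * 0 + 1) (2 * 0) ∅ := go_wait _ (by omega)
  have hfin : Go K K (lab φ) (K * (3 * m * L) + 1) (2 * b)
      (K * (3 * m * L + 1) + 1) (2 * (4 * m) + 1) {4 * m} :=
    go_final hN (by omega) hb1 (by omega) (by rw [lab_z hm hL])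
  obtain ⟨-, x, hx1, hx2, hx3, hx4⟩ := (hstart.trans hb2).trans hfin
  have hx5 : ∀ τ < K * (3 * m * L + 1) + 1, Step K K (lab φ) τ (x τ) (x (τ + 1)) :=
    fun τ hτ => hx3 τ (Nat.zero_le _) hτ
  have hleaf : ∀ k < 4 * m + 1, ∃ τ ≤ K * (3 * m * L + 1) + 1, x τ = 2 * k + 1 := by
    intro k hk
    obtain ⟨τ, -, h2, h3⟩ := hx4 k (by
      rcases Nat.lt_or_ge k (3 * m) with h | h
      · exact Or.inl (Or.inr (Or.inl h))
      · rcases Nat.lt_or_ge k (4 * m) with h' | h'
        · refine Or.inl (Or.inr (Or.inr ⟨k - 3 * m, by omega, by omega, ?_⟩))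
          rw [← hm]; exact lits_lt hb (by omega) (hch1 _ (by omega))
        · exact Or.inr (by rw [Set.mem_singleton_iff]; omega))
    exact ⟨τ, h2, h3⟩
  refine ⟨x, hx1, hx5, fun v hv => ?_⟩
  rcases Nat.even_or_odd' v with ⟨k, rfl | rfl⟩
  · obtain ⟨τ, h1, h2⟩ := hleaf k (by omega)
    obtain ⟨σ, -, h3, h4, -⟩ := entered hx5 (by rw [hx1]; omega) τ h1 h2
    exact ⟨K * σ, by omega, h4⟩
  · exact hleaf k (by omega)

theorem sat_of_explorable {φ : Fml} (hb : Bounded3 φ) (h : Explorable φ) : SAT3 φ := by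
  classical
  obtain ⟨m, hm⟩ : ∃ m, φ.length = m := ⟨_, rfl⟩
  obtain ⟨L, hL⟩ : ∃ L, L = 4 * m + 3 := ⟨_, rfl⟩
  obtain ⟨K, hK⟩ : ∃ K, K = 4 * m + 1 := ⟨_, rfl⟩
  rw [explorable_def hm hL hK] at h
  obtain ⟨x, hx1, hx2, hx3⟩ := h
  have h0 : ∀ k, x 0 ≠ 2 * k + 1 := fun k => by rw [hx1]; omega
  have hZ : ∀ {a b : ℕ}, a < b → K * a < K * b := fun h => Nat.mul_lt_mul_of_pos_left h (by omega)
  have hZ' : ∀ {a b : ℕ}, K * a < K * b → a < b := fun h => lt_of_mul_lt_mul_left h (Nat.zero_le _)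
  -- the last leaf
  obtain ⟨θ, hθ1, hθ2⟩ := hx3 (2 * (4 * m) + 1) (by omega)
  obtain ⟨σ, hσ1, hσ2, hσ3, hσ4⟩ := entered hx2 (h0 _) θ hθ1 hθ2
  rw [lab_z hm hL] at hσ1
  subst hσ1
  have hend : x (K * (3 * m * L + 1) + 1) = 2 * (4 * m) + 1 := hσ4 _ (by omega) (by omega)
  -- the variables
  have hvar : ∀ v < 3 * m,
      (∀ θ, K * (v * L + 1) < θ → θ ≤ K * (v * L + (2 * m + 2)) → x θ = 2 * v + 1) ∨
      (∀ θ, K * (v * L + (2 * m + 2)) < θ → θ ≤ K * (v * L + (4 * m + 3)) → x θ = 2 * v + 1) := by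
    intro v hv
    obtain ⟨θ, hθ1, hθ2⟩ := hx3 (2 * v + 1) (by omega)
    obtain ⟨α, ha1, ha2, -, ha4⟩ := entered hx2 (h0 _) θ hθ1 hθ2
    have hθ3 : θ ≠ K * (3 * m * L + 1) + 1 := by
      rintro rfl
      rw [hend] at hθ2
      omega
    have hθ4 : θ ≠ K * (3 * m * L + 1) := by
      rintro rfl
      rw [hσ3] at hθ2
      omega
    obtain ⟨β, hb1, hb2, hb3, hb4⟩ := exited hx2 (k := v) (t' := K * (3 * m * L + 1)) (by omega)
      (by rw [hσ3]; omega) (K * (3 * m * L + 1) - θ) θ (by omega) hθ2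
    have hab : α < β := hZ' (by omega)
    have hin : ∀ θ', K * α < θ' → θ' ≤ K * β → x θ' = 2 * v + 1 := by
      intro θ' h1 h2
      rcases Nat.lt_or_ge θ' θ with h3 | h3
      · exact ha4 θ' h1 h3.le
      · exact hb4 θ' h3 h2
    rw [lab_var hm hL hv] at ha1 hb1
    rcases ha1 with ha1 | ha1 | ha1
    · left
      intro θ' h1 h2
      refine hin θ' (by rw [ha1]; exact h1) (h2.trans ?_)
      refine Nat.mul_le_mul le_rfl ?_
      omega
    · right
      intro θ' h1 h2
      refine hin θ' (by rw [ha1]; exact h1) (h2.trans ?_)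
      refine Nat.mul_le_mul le_rfl ?_
      omega
    · omega
  rw [sat_iff]
  refine ⟨fun v => decide (¬ ∀ θ, K * (v * L + 1) < θ → θ ≤ K * (v * L + (2 * m + 2)) →
    x θ = 2 * v + 1), fun j hj => ?_⟩
  rw [hm] at hj
  obtain ⟨θ, hθ1, hθ2⟩ := hx3 (2 * (3 * m + j) + 1) (by omega)
  obtain ⟨σ, ha1, ha2, ha3, -⟩ := entered hx2 (h0 _) θ hθ1 hθ2
  rw [lab_cl hm hL hj] at ha1
  obtain ⟨l, hl, hs⟩ := ha1
  refine ⟨l, hl, ?_⟩
  have hlt := lits_lt hb (by omega) hl
  rw [hm] at hlt
  cases hb : l.1 with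
  | true =>
    rw [hb, if_pos rfl] at hs
    rw [decide_eq_true_iff]
    intro hall
    have := hall (K * σ) (hZ (by omega)) (hZ (by omega)).le
    omega
  | false =>
    rw [hb, if_neg (by simp)] at hs
    rw [decide_eq_false_iff_not, not_not]
    rcases hvar l.2 hlt with h | h
    · exact h
    · have := h (K * σ) (hZ (by omega)) (hZ (by omega)).le
      omega

theorem explorable_iff {φ : Fml} (hb : Bounded3 φ) : Explorable φ ↔ SAT3 φ :=
  ⟨sat_of_explorable hb, explorable_of_sat hb⟩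

end Pool.Agent.N582.PT
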