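import Pool.Agent.R542.Base

/-!
# Red-blue cuts: definitions
-/

set_option autoImplicit false

namespace Pool.Agent.N582.RB

open Pool.Agent.NPC Pool.Agent.H692R2

/-- An instance of the unweighted red-blue `s`-`t` cut problem: a finite simple graph on
`{0, …, n - 1}` whose edges are coloured red or blue (`red` and `blue` are the graphs formed by the
red and by the blue edges, and no edge has both colours), two different vertices `s` and `t`, and
two numbers `r` and `b`. -/
structure Inst where
  /-- the number of vertices -/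
  n : ℕ
  /-- the red edges -/
  red : SimpleGraph (Fin n)
  /-- the blue edges -/
  blue : SimpleGraph (Fin n)
  /-- no edge is both red and blue -/
  disj : ∀ u v, ¬ (red.Adj u v ∧ blue.Adj u v)
  /-- the first terminal -/
  s : Fin n
  /-- the second terminal -/
  t : Fin n
  /-- the terminals are different -/
  ne : s ≠ t
  /-- the bound for the number of red edges of the cut -/
  r : ℕ
  /-- the bound for the number of blue edges of the cut -/
  b : ℕ

/-- The code of an instance: the adjacency matrices of the red and of the blue graph, and the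
numbers `s, t, r, b` in binary. -/
noncomputable def Inst.code (I : Inst) : FinGraph × FinGraph × ℕ × ℕ × ℕ × ℕ :=
  (⟨I.n, I.red⟩, ⟨I.n, I.blue⟩, I.s, I.t, I.r, I.b)

theorem Inst.code_injective : Function.Injective Inst.code := by
  rintro ⟨n, R, B, h, s, t, ne, r, b⟩ ⟨n', R', B', h', s', t', ne', r', b'⟩ he
  simp only [Inst.code, Prod.mk.injEq, FinGraph.mk.injEq] at he
  obtain ⟨⟨rfl, hR⟩, ⟨-, hB⟩, hs, ht, rfl, rfl⟩ := he
  obtain rfl := eq_of_heq hR
  obtain rfl := eq_of_heq hB
  obtain rfl := Fin.ext hs
  obtain rfl := Fin.ext ht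
  rfl

noncomputable instance : TEnc Inst := ⟨fun I => toT I.code, fun _ _ h =>
  Inst.code_injective (TEnc.inj h)⟩

/-- The number of edges of `H` with exactly one end in `X`: the size of `δ(X)`. -/
noncomputable def cutSize {n : ℕ} (H : SimpleGraph (Fin n)) (X : Set (Fin n)) : ℕ :=
  {e ∈ H.edgeSet | ∃ u v, e = s(u, v) ∧ u ∈ X ∧ v ∉ X}.ncard

/-- The unweighted red-blue `s`-`t` cut problem: there is a cut `δ(X)` with `s ∈ X`, `t ∉ X` which
contains at most `r` red and at most `b` blue edges. -/
def RedBlueCut (I : Inst) : Prop :=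
  ∃ X : Set (Fin I.n), I.s ∈ X ∧ I.t ∉ X ∧ cutSize I.red X ≤ I.r ∧ cutSize I.blue X ≤ I.b

end Pool.Agent.N582.RB
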