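import Pool.Agent.N582.RBRed

/-!
# Red-blue cuts: correctness of the reduction
-/

set_option autoImplicit false

namespace Pool.Agent.N582.RB

open Finset
open Pool.Agent.NPC Pool.Agent.H692R2 Pool.Agent.NPC.R542 Pool.Agent.H673R2
open Pool.Agent.N582.CN (adjB_lt adjB_comm)

/-- membership of a number in a set of vertices -/
def mem {N : ℕ} (X : Set (Fin N)) (x : ℕ) : Prop := ∃ h : x < N, (⟨x, h⟩ : Fin N) ∈ X

open Classical in
/-- the edges of a cut, with numbers -/
noncomputable def cutN (N : ℕ) (Y : ℕ → Prop) (r : ℕ → ℕ → Prop) : Finset (ℕ × ℕ) :=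
  ((range N) ×ˢ (range N)).filter fun p => Y p.1 ∧ ¬ Y p.2 ∧ r p.1 p.2

theorem mem_cutN {N : ℕ} {Y : ℕ → Prop} {r : ℕ → ℕ → Prop} {p : ℕ × ℕ} :
    p ∈ cutN N Y r ↔ p.1 < N ∧ p.2 < N ∧ Y p.1 ∧ ¬ Y p.2 ∧ r p.1 p.2 := by
  simp [cutN, and_assoc]

theorem cut_nat {N : ℕ} (H : SimpleGraph (Fin N)) (r : ℕ → ℕ → Prop)
    (h : ∀ x y : Fin N, H.Adj x y ↔ r x y) (X : Set (Fin N)) :
    cutSize H X = (cutN N (mem X) r).card := by
  classical
  rw [cutSize_eq]
  refine Finset.card_bij (fun p _ => ((p.1 : ℕ), (p.2 : ℕ))) ?_ ?_ ?_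
  · rintro ⟨x, y⟩ hp
    rw [mem_cutPairs] at hp
    rw [mem_cutN]
    exact ⟨x.2, y.2, ⟨x.2, hp.1⟩, fun ⟨_, hy⟩ => hp.2.1 hy, (h x y).1 hp.2.2⟩
  · rintro ⟨x, y⟩ - ⟨x', y'⟩ - he
    simp only [Prod.mk.injEq] at he
    exact Prod.ext (Fin.ext he.1) (Fin.ext he.2)
  · rintro ⟨x, y⟩ hp
    rw [mem_cutN] at hp
    obtain ⟨hx, hy, ⟨_, hxX⟩, hyX, hr⟩ := hp
    refine ⟨(⟨x, hx⟩, ⟨y, hy⟩), ?_, rfl⟩
    rw [mem_cutPairs]
    exact ⟨hxX, fun hyy => hyX ⟨hy, hyy⟩, (h _ _).2 hr⟩

/-- red adjacency of numbers -/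
def redN (G : FinGraph) (x y : ℕ) : Prop := halfR G x y = true ∨ halfR G y x = true

/-- Splitting a clique is expensive. -/
theorem split_clique {N lo L a b : ℕ} {Y : ℕ → Prop} {r : ℕ → ℕ → Prop} (hN : lo + L ≤ N)
    (hr : ∀ x y, lo ≤ x → x < lo + L → lo ≤ y → y < lo + L → x ≠ y → r x y)
    (ha : lo ≤ a) (ha' : a < lo + L) (hb : lo ≤ b) (hb' : b < lo + L) (hYa : Y a) (hYb : ¬ Y b) :
    L - 1 ≤ (cutN N Y r).card := by
  classical
  have h1 : ((Ico lo (lo + L)).erase b).card ≤ (cutN N Y r).card := by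
    refine Finset.card_le_card_of_injOn (fun z => if Y z then (z, b) else (a, z)) ?_ ?_
    · intro z hz
      simp only [coe_erase, coe_Ico, Set.mem_sdiff, Set.mem_Ico, Set.mem_singleton_iff] at hz
      rw [Finset.mem_coe, mem_cutN]
      beta_reduce
      by_cases hz' : Y z
      · rw [if_pos hz']
        exact ⟨by simp only; omega, by simp only; omega, hz', hYb,
          hr z b hz.1.1 hz.1.2 hb hb' hz.2⟩
      · rw [if_neg hz']
        exact ⟨by simp only; omega, by simp only; omega, hYa, hz',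
          hr a z ha ha' hz.1.1 hz.1.2 (fun h => hz' (h ▸ hYa))⟩
    · intro z hz z' hz' he
      simp only [coe_erase, coe_Ico, Set.mem_sdiff, Set.mem_Ico, Set.mem_singleton_iff] at hz hz'
      simp only at he
      split_ifs at he with h1 h2 h2 <;> simp only [Prod.mk.injEq] at he
      · exact he.1
      · exact absurd he.2.symm hz'.2
      · exact absurd he.2 hz.2
      · exact he.2
  rw [Finset.card_erase_of_mem (by simp; omega), Nat.card_Ico] at h1
  omega

section Count

variable (G : FinGraph) (Y : ℕ → Prop)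

open Classical in
/-- the chosen vertices -/
noncomputable def chosen : Finset ℕ := (range G.n).filter Y

open Classical in
/-- ordered pairs of different nonadjacent chosen vertices -/
noncomputable def freeP : Finset (ℕ × ℕ) :=
  (chosen G Y ×ˢ chosen G Y).filter fun p => p.1 ≠ p.2 ∧ ¬ adjB G p.2 p.1 = true

open Classical in
/-- the index set of the red cut edges -/
noncomputable def idx : Finset (ℕ × ℕ) :=
  (range G.n ×ˢ range (G.n + 1)).filter fun p =>
    ¬ Y p.1 ∨ (p.2 < G.n ∧ ¬ (Y p.2 ∧ p.1 ≠ p.2 ∧ ¬ adjB G p.2 p.1 = true))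

theorem card_idx : (idx G Y).card + (freeP G Y).card + (chosen G Y).card = G.n * (G.n + 1) := by
  classical
  have h1 : (range G.n ×ˢ range (G.n + 1)) = (idx G Y ∪ freeP G Y) ∪
      (chosen G Y).image (fun v => (v, G.n)) := by
    ext ⟨v, i⟩
    simp only [mem_product, mem_range, idx, freeP, chosen, mem_union, mem_filter, mem_image,
      Prod.mk.injEq]
    constructor
    · rintro ⟨hv, hi⟩
      by_cases h2 : Y v
      · by_cases h3 : i < G.n
        · by_cases h4 : Y i ∧ v ≠ i ∧ ¬ adjB G i v = true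
          · exact Or.inl (Or.inr ⟨⟨⟨hv, h2⟩, h3, h4.1⟩, h4.2⟩)
          · exact Or.inl (Or.inl ⟨⟨hv, hi⟩, Or.inr ⟨h3, h4⟩⟩)
        · exact Or.inr ⟨v, ⟨hv, h2⟩, rfl, by omega⟩
      · exact Or.inl (Or.inl ⟨⟨hv, hi⟩, Or.inl h2⟩)
    · rintro ((⟨h2, -⟩ | ⟨⟨⟨h2, -⟩, h3, -⟩, -⟩) | ⟨w, ⟨h2, -⟩, rfl, rfl⟩)
      · exact h2
      · exact ⟨h2, by omega⟩
      · exact ⟨h2, by omega⟩
  have h2 : (range G.n ×ˢ range (G.n + 1)).card = G.n * (G.n + 1) := by simp
  have hd1 : Disjoint (idx G Y) (freeP G Y) := by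
    rw [Finset.disjoint_left]
    rintro ⟨v, i⟩ h3 h4
    simp only [idx, freeP, chosen, mem_filter, mem_product, mem_range] at h3 h4
    rcases h3.2 with h5 | h5
    · exact h5 h4.1.1.2
    · exact h5.2 ⟨h4.1.2.2, h4.2⟩
  have hd2 : Disjoint (idx G Y ∪ freeP G Y) ((chosen G Y).image (fun v => (v, G.n))) := by
    rw [Finset.disjoint_left]
    rintro ⟨v, i⟩ h3 h4
    simp only [idx, freeP, chosen, mem_filter, mem_product, mem_range, mem_union, mem_image,
      Prod.mk.injEq] at h3 h4
    obtain ⟨w, ⟨h5, h6⟩, rfl, rfl⟩ := h4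
    rcases h3 with h3 | h3
    · rcases h3.2 with h7 | h7
      · exact h7 h6
      · exact absurd h7.1 (lt_irrefl _)
    · exact absurd h3.1.2.1 (lt_irrefl _)
  rw [← h2, h1, card_union_of_disjoint hd2, card_union_of_disjoint hd1,
    card_image_of_injective _ (fun a b h => (Prod.mk.inj h).1)]

theorem card_freeP_le : (freeP G Y).card + (chosen G Y).card ≤
    (chosen G Y).card * (chosen G Y).card := by
  classical
  have h1 : freeP G Y ∪ (chosen G Y).image (fun v => (v, v)) ⊆ chosen G Y ×ˢ chosen G Y := by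
    intro p hp
    simp only [freeP, mem_union, mem_filter, mem_image] at hp
    rcases hp with hp | ⟨v, hv, rfl⟩
    · exact hp.1
    · exact mem_product.2 ⟨hv, hv⟩
  have h2 : Disjoint (freeP G Y) ((chosen G Y).image (fun v => (v, v))) := by
    rw [Finset.disjoint_left]
    rintro ⟨v, i⟩ h3 h4
    simp only [freeP, mem_filter, mem_image, Prod.mk.injEq] at h3 h4
    obtain ⟨w, -, rfl, rfl⟩ := h4
    exact h3.2.1 rfl
  have h3 := card_le_card h1
  rw [card_union_of_disjoint h2, card_product,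
    card_image_of_injective _ (fun a b h => (Prod.mk.inj h).1)] at h3
  exact h3

/-- If the number of free pairs is maximal then the chosen vertices are independent. -/
theorem freeP_eq (h : (freeP G Y).card + (chosen G Y).card =
    (chosen G Y).card * (chosen G Y).card) {u v : ℕ} (hu : u ∈ chosen G Y) (hv : v ∈ chosen G Y)
    (huv : u ≠ v) : ¬ adjB G v u = true := by
  classical
  intro hadj
  have h1 : freeP G Y ∪ (chosen G Y).image (fun v => (v, v)) ⊆
      (chosen G Y ×ˢ chosen G Y).erase (u, v) := by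
    intro p hp
    simp only [freeP, mem_union, mem_filter, mem_image] at hp
    rw [mem_erase]
    rcases hp with hp | ⟨w, hw, rfl⟩
    · refine ⟨?_, hp.1⟩
      rintro rfl
      exact hp.2.2 hadj
    · refine ⟨?_, mem_product.2 ⟨hw, hw⟩⟩
      intro he
      exact huv ((Prod.mk.inj he).1.symm.trans (Prod.mk.inj he).2)
  have h2 : Disjoint (freeP G Y) ((chosen G Y).image (fun v => (v, v))) := by
    rw [Finset.disjoint_left]
    rintro ⟨v, i⟩ h3 h4
    simp only [freeP, mem_filter, mem_image, Prod.mk.injEq] at h3 h4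
    obtain ⟨w, -, rfl, rfl⟩ := h4
    exact h3.2.1 rfl
  have h3 := card_le_card h1
  have hmem : (u, v) ∈ chosen G Y ×ˢ chosen G Y := mem_product.2 ⟨hu, hv⟩
  have hpos : 0 < (chosen G Y ×ˢ chosen G Y).card := card_pos.2 ⟨_, hmem⟩
  rw [card_union_of_disjoint h2, card_erase_of_mem hmem, 
    card_image_of_injective _ (fun a b h => (Prod.mk.inj h).1)] at h3
  rw [card_product] at h3 hpos
  omega

theorem freeP_of_indep (h : ∀ u ∈ chosen G Y, ∀ v ∈ chosen G Y, u ≠ v → ¬ adjB G v u = true) :
    (freeP G Y).card + (chosen G Y).card = (chosen G Y).card * (chosen G Y).card := by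
  classical
  have h1 : freeP G Y ∪ (chosen G Y).image (fun v => (v, v)) = chosen G Y ×ˢ chosen G Y := by
    ext ⟨u, v⟩
    simp only [freeP, mem_union, mem_filter, mem_image, Prod.mk.injEq, mem_product]
    constructor
    · rintro (hp | ⟨w, hw, rfl, rfl⟩)
      · exact hp.1
      · exact ⟨hw, hw⟩
    · intro hp
      by_cases huv : u = v
      · exact Or.inr ⟨u, hp.1, rfl, huv⟩
      · exact Or.inl ⟨hp, huv, h u hp.1 v hp.2 huv⟩
  have h2 : Disjoint (freeP G Y) ((chosen G Y).image (fun v => (v, v))) := by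
    rw [Finset.disjoint_left]
    rintro ⟨v, i⟩ h3 h4
    simp only [freeP, mem_filter, mem_image, Prod.mk.injEq] at h3 h4
    obtain ⟨w, -, rfl, rfl⟩ := h4
    exact h3.2.1 rfl
  have h3 := congrArg Finset.card h1
  rw [card_union_of_disjoint h2, card_product,
    card_image_of_injective _ (fun a b h => (Prod.mk.inj h).1)] at h3
  exact h3

variable {G Y}

/-- The number of the red edges of a cut which separates the cliques. -/
theorem card_red (hs : ∀ x, G.n ≤ x → x < G.n + bigL G.n → Y x)
    (ht : ∀ x, G.n + bigL G.n ≤ x → x < size G.n → ¬ Y x) :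
    (cutN (size G.n) Y (redN G)).card = (idx G Y).card := by
  classical
  have hL := lt_bigL G.n
  have hsz : size G.n = G.n + bigL G.n + bigL G.n := rfl
  symm
  refine Finset.card_bij (fun p _ => if Y p.1 then (if p.2 = p.1 ∨ adjB G p.2 p.1 = true then
    (p.1, G.n + bigL G.n + 1 + p.2) else (p.1, p.2)) else (G.n + p.2, p.1)) ?_ ?_ ?_
  · rintro ⟨v, i⟩ hp
    simp only [idx, mem_filter, mem_product, mem_range] at hp
    obtain ⟨⟨hv, hi⟩, hp⟩ := hp
    simp only
    rw [mem_cutN]
    by_cases hYv : Y v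
    · rw [if_pos hYv]
      have hp' := hp.resolve_left (not_not.2 hYv)
      by_cases hc : i = v ∨ adjB G i v = true
      · rw [if_pos hc]
        refine ⟨by simp only; omega, by simp only; omega, hYv, ht _ (by simp only; omega)
          (by simp only; omega), Or.inl ?_⟩
        rw [halfR_iff]
        right; right; left
        refine ⟨hv, by simp only; omega, by simp only; omega, ?_⟩
        simp only [Nat.add_sub_cancel_left]
        exact hc
      · rw [if_neg hc]
        push Not at hc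
        have hYi : ¬ Y i := by
          intro hYi
          exact hp'.2 ⟨hYi, fun h => hc.1 h.symm, hc.2⟩
        refine ⟨by simp only; omega, by simp only; omega, hYv, hYi, Or.inl ?_⟩
        rw [halfR_iff]
        left
        refine ⟨hv, hp'.1, fun h => hc.1 h.symm, ?_⟩
        rw [adjB_comm]
        exact hc.2
    · rw [if_neg hYv]
      refine ⟨by simp only; omega, by simp only; omega, hs _ (by simp only; omega)
        (by simp only; omega), hYv, Or.inr ?_⟩
      rw [halfR_iff]
      right; left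
      exact ⟨hv, by simp only; omega, by simp only; omega⟩
  · rintro ⟨v, i⟩ hp ⟨v', i'⟩ hp' he
    simp only [idx, mem_filter, mem_product, mem_range] at hp hp'
    obtain ⟨⟨hv, hi⟩, -⟩ := hp
    obtain ⟨⟨hv', hi'⟩, -⟩ := hp'
    simp only at he
    split_ifs at he <;> simp only [Prod.mk.injEq] at he ⊢ <;> omega
  · rintro ⟨x, y⟩ hp
    rw [mem_cutN] at hp
    obtain ⟨hx, hy, hYx, hYy, hr⟩ := hp
    simp only at hx hy hYx hYy hr
    have hx' : x < G.n + bigL G.n := by
      by_contra hcon
      exact ht x (by omega) hx hYx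
    have hy' : y < G.n ∨ G.n + bigL G.n ≤ y := by
      by_contra hcon
      exact hYy (hs y (by omega) (by omega))
    unfold redN at hr
    rw [halfR_iff, halfR_iff] at hr
    rcases hr with (⟨h1, h2, h3, h4⟩ | ⟨h1, h2, h3⟩ | ⟨h1, h2, h3, h4⟩ | ⟨h1, h2, h3, h4, h5⟩ |
      ⟨h1, h2, h3⟩) | (⟨h1, h2, h3, h4⟩ | ⟨h1, h2, h3⟩ | ⟨h1, h2, h3, h4⟩ |
        ⟨h1, h2, h3, h4, h5⟩ | ⟨h1, h2, h3⟩)
    · refine ⟨(x, y), ?_, ?_⟩
      · simp only [idx, mem_filter, mem_product, mem_range]
        exact ⟨⟨h1, by omega⟩, Or.inr ⟨h2, fun h => hYy h.1⟩⟩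
      · simp only
        rw [if_pos hYx, if_neg]
        rintro (h5 | h5)
        · exact h3 h5.symm
        · rw [adjB_comm] at h5
          exact h4 h5
    · omega
    · refine ⟨(x, y - (G.n + bigL G.n + 1)), ?_, ?_⟩
      · simp only [idx, mem_filter, mem_product, mem_range]
        refine ⟨⟨h1, by omega⟩, Or.inr ⟨by omega, fun h => ?_⟩⟩
        rcases h4 with h4 | h4
        · exact h.2.1 h4.symm
        · exact h.2.2 h4
      · simp only
        rw [if_pos hYx, if_pos h4]
        simp only [Prod.mk.injEq, true_and]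
        omega
    · omega
    · omega
    · refine ⟨(x, y), ?_, ?_⟩
      · simp only [idx, mem_filter, mem_product, mem_range]
        exact ⟨⟨h2, by omega⟩, Or.inr ⟨h1, fun h => hYy h.1⟩⟩
      · simp only
        rw [if_pos hYx, if_neg]
        rintro (h5 | h5)
        · exact h3 h5
        · exact h4 h5
    · refine ⟨(y, x - G.n), ?_, ?_⟩
      · simp only [idx, mem_filter, mem_product, mem_range]
        exact ⟨⟨h1, by omega⟩, Or.inl hYy⟩
      · simp only
        rw [if_neg hYy]
        simp only [Prod.mk.injEq, and_true]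
        omega
    · omega
    · omega
    · omega

/-- The number of the blue edges of a cut which separates the cliques. -/
theorem card_blue (ht : ∀ x, G.n + bigL G.n ≤ x → x < size G.n → ¬ Y x) :
    (cutN (size G.n) Y fun x y => (x < G.n ∧ y = G.n + bigL G.n) ∨
      (y < G.n ∧ x = G.n + bigL G.n)).card = (chosen G Y).card := by
  classical
  have hL := lt_bigL G.n
  have hsz : size G.n = G.n + bigL G.n + bigL G.n := rfl
  symm
  refine Finset.card_bij (fun v _ => (v, G.n + bigL G.n)) ?_ ?_ ?_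
  · intro v hv
    simp only [chosen, mem_filter, mem_range] at hv
    rw [mem_cutN]
    exact ⟨by simp only; omega, by simp only; omega, hv.2, ht _ le_rfl (by omega),
      Or.inl ⟨hv.1, rfl⟩⟩
  · intro a _ b _ h
    exact (Prod.mk.inj h).1
  · rintro ⟨x, y⟩ hp
    rw [mem_cutN] at hp
    obtain ⟨hx, hy, hYx, hYy, hr⟩ := hp
    simp only at hx hy hYx hYy hr
    rcases hr with ⟨h1, rfl⟩ | ⟨h1, rfl⟩
    · exact ⟨x, by simp only [chosen, mem_filter, mem_range]; exact ⟨h1, hYx⟩, rfl⟩
    · exact absurd hYx (ht _ le_rfl hx)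

end Count

theorem correct (G : FinGraph) (j : ℕ) (hj : j ≤ G.n) :
    HasIndep (G, j) ↔ RedBlueCut (inst G j) := by
  classical
  have hL := lt_bigL G.n
  have hL2 : G.n * (G.n + 1) < bigL G.n - 1 := by
    have h1 : G.n * (G.n + 1) ≤ (G.n + 1) * (G.n + 1) := Nat.mul_le_mul_right _ (by omega)
    unfold bigL
    omega
  have hsz : size G.n = G.n + bigL G.n + bigL G.n := rfl
  have hjj : j * j ≤ G.n * (G.n + 1) := by nlinarith
  have hred : ∀ X : Set (Fin (size G.n)), cutSize (redG G) X =
      (cutN (size G.n) (mem X) (redN G)).card := fun X =>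
    cut_nat _ _ (fun _ _ => Iff.rfl) X
  have hblue : ∀ X : Set (Fin (size G.n)), cutSize (blueG G.n) X =
      (cutN (size G.n) (mem X) fun x y => (x < G.n ∧ y = G.n + bigL G.n) ∨
      (y < G.n ∧ x = G.n + bigL G.n)).card := fun X =>
    cut_nat _ _ (fun _ _ => Iff.rfl) X
  constructor
  · rintro ⟨S, hS, hcard⟩
    simp only at S hS hcard
    let X : Set (Fin (size G.n)) := {x | (∃ v ∈ S, (v : ℕ) = x) ∨
      (G.n ≤ (x : ℕ) ∧ (x : ℕ) < G.n + bigL G.n)}
    have hmem : ∀ x, mem X x ↔ (∃ v ∈ S, (v : ℕ) = x) ∨ (G.n ≤ x ∧ x < G.n + bigL G.n) := by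
      intro x
      constructor
      · rintro ⟨_, h⟩
        exact h
      · intro h
        refine ⟨?_, h⟩
        rcases h with ⟨v, -, rfl⟩ | h
        · have := v.2
          omega
        · omega
    have hs : ∀ x, G.n ≤ x → x < G.n + bigL G.n → mem X x := fun x h1 h2 =>
      (hmem x).2 (Or.inr ⟨h1, h2⟩)
    have ht : ∀ x, G.n + bigL G.n ≤ x → x < size G.n → ¬ mem X x := by
      intro x h1 h2 h3
      rcases (hmem x).1 h3 with ⟨v, -, rfl⟩ | h
      · have := v.2
        omega
      · omega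
    have hch : chosen G (mem X) = S.image (fun v : Fin G.n => (v : ℕ)) := by
      ext x
      simp only [chosen, mem_filter, mem_range, mem_image]
      rw [hmem]
      constructor
      · rintro ⟨h1, h2 | h2⟩
        · exact h2
        · omega
      · rintro ⟨v, hv, rfl⟩
        exact ⟨v.2, Or.inl ⟨v, hv, rfl⟩⟩
    have hchc : (chosen G (mem X)).card = j := by
      rw [hch, card_image_of_injective _ Fin.val_injective, hcard]
    have hfree : (freeP G (mem X)).card + j = j * j := by
      have := freeP_of_indep G (mem X) (by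
        intro u hu v hv huv hadj
        rw [hch, mem_image] at hu hv
        obtain ⟨a, ha, rfl⟩ := hu
        obtain ⟨b, hb, rfl⟩ := hv
        rw [adjB_iff] at hadj
        exact hS (mem_coe.2 hb) (mem_coe.2 ha) (fun h => huv (by rw [h])) hadj)
      rwa [hchc] at this
    have hidx := card_idx G (mem X)
    rw [hchc] at hidx
    refine ⟨X, ?_, ?_, ?_, ?_⟩
    · exact Or.inr ⟨le_rfl, by simp only [inst]; omega⟩
    · intro h
      exact ht (G.n + bigL G.n) le_rfl (by omega) ⟨by omega, h⟩
    · change cutSize (redG G) X ≤ G.n * (G.n + 1) - j * j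
      rw [hred, card_red hs ht]
      omega
    · change cutSize (blueG G.n) X ≤ j
      rw [hblue, card_blue ht, hchc]
  · rintro ⟨X, hsX, htX, hr, hb⟩
    change Set (Fin (size G.n)) at X
    change cutSize (redG G) X ≤ G.n * (G.n + 1) - j * j at hr
    change cutSize (blueG G.n) X ≤ j at hb
    rw [hred] at hr
    rw [hblue] at hb
    have hs : ∀ x, G.n ≤ x → x < G.n + bigL G.n → mem X x := by
      intro x h1 h2
      by_contra hcon
      have := split_clique (N := size G.n) (lo := G.n) (L := bigL G.n) (a := G.n) (b := x)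
        (Y := mem X) (r := redN G) (by omega) (by
          intro x y h3 h4 h5 h6 h7
          left
          rw [halfR_iff]
          right; right; right; left
          exact ⟨h3, h4, h5, h6, h7⟩) le_rfl (by omega) h1 h2 ⟨by omega, hsX⟩ hcon
      omega
    have ht : ∀ x, G.n + bigL G.n ≤ x → x < size G.n → ¬ mem X x := by
      intro x h1 h2 h3
      have := split_clique (N := size G.n) (lo := G.n + bigL G.n) (L := bigL G.n) (a := x)
        (b := G.n + bigL G.n)
        (Y := mem X) (r := redN G) (by omega) (by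
          intro x y h3 h4 h5 h6 h7
          left
          rw [halfR_iff]
          right; right; right; right
          exact ⟨h3, h5, h7⟩) h1 (by omega) le_rfl (by omega) h3 (fun ⟨_, h⟩ => htX h)
      omega
    rw [card_red hs ht] at hr
    rw [card_blue ht] at hb
    have hidx := card_idx G (mem X)
    have hle := card_freeP_le G (mem X)
    have hk : (chosen G (mem X)).card = j := by
      refine le_antisymm hb ?_
      by_contra hcon
      have : (chosen G (mem X)).card * (chosen G (mem X)).card < j * j := by nlinarith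
      omega
    rw [hk] at hidx hle
    have hfree : (freeP G (mem X)).card + (chosen G (mem X)).card =
        (chosen G (mem X)).card * (chosen G (mem X)).card := by
      rw [hk]
      omega
    refine ⟨Finset.univ.filter fun v : Fin G.n => mem X v, ?_, ?_⟩
    · intro u hu v hv huv hadj
      simp only [coe_filter, mem_univ, true_and, Set.mem_ofPred_eq] at hu hv
      refine freeP_eq G (mem X) hfree (u := v) (v := u) ?_ ?_ (fun h => huv (Fin.ext h.symm)) ?_
      · simp only [chosen, mem_filter, mem_range]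
        exact ⟨v.2, hv⟩
      · simp only [chosen, mem_filter, mem_range]
        exact ⟨u.2, hu⟩
      · rw [adjB_iff]
        exact hadj
    · simp only
      rw [← hk]
      refine Finset.card_bij (fun v _ => (v : ℕ)) ?_ ?_ ?_
      · intro v hv
        simp only [mem_filter, mem_univ, true_and] at hv
        simp only [chosen, mem_filter, mem_range]
        exact ⟨v.2, hv⟩
      · intro a _ b _ h
        exact Fin.ext h
      · intro x hx
        simp only [chosen, mem_filter, mem_range] at hx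
        exact ⟨⟨x, hx.1⟩, by simp only [mem_filter, mem_univ, true_and]; exact hx.2, rfl⟩

/-! ### The reduction is computable in polynomial time -/

theorem upoly_bigL {α : Type} [TEnc α] {n : α → ℕ} (hn : UPoly n) :
    UPoly (fun a => bigL (n a)) := by
  have h1 : UPoly (fun a => n a + 1) := UPoly.add hn (UPoly.const 1)
  unfold bigL
  exact UPoly.add (UPoly.mul (UPoly.const 4) (UPoly.mul h1 h1)) (UPoly.const 2)

theorem upoly_size {α : Type} [TEnc α] {n : α → ℕ} (hn : UPoly n) :
    UPoly (fun a => size (n a)) := by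
  unfold size
  exact UPoly.add (UPoly.add hn (upoly_bigL hn)) (upoly_bigL hn)

theorem poly_halfR {α : Type} [TEnc α] {G : α → FinGraph} {x y : α → ℕ} (hG : NPC.Poly G)
    (hx : NPC.Poly x) (hy : NPC.Poly y) : NPC.Poly (fun a => halfR (G a) (x a) (y a)) := by
  have hn := poly_n hG
  have hL : NPC.Poly (fun a => bigL (G a).n) := (upoly_bigL (upoly_n hG)).toPoly
  have hnL := NPC.Poly.add hn hL
  have hnL1 := NPC.Poly.add hnL (NPC.Poly.const 1)
  have hz := NPC.Poly.sub hy hnL1
  unfold halfR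
  exact NPC.Poly.or (NPC.Poly.or (NPC.Poly.or (NPC.Poly.or
    (NPC.Poly.and (NPC.Poly.and (NPC.Poly.and (NPC.Poly.decide_lt hx hn) (NPC.Poly.decide_lt hy hn))
      (NPC.Poly.not (NPC.Poly.decide_eq hx hy))) (NPC.Poly.not (poly_adjB hG hx hy)))
    (NPC.Poly.and (NPC.Poly.and (NPC.Poly.decide_lt hx hn) (NPC.Poly.decide_le hn hy))
      (NPC.Poly.decide_lt hy (NPC.Poly.add hn (NPC.Poly.add hn (NPC.Poly.const 1))))))
    (NPC.Poly.and (NPC.Poly.and (NPC.Poly.and (NPC.Poly.decide_lt hx hn)
      (NPC.Poly.decide_le hnL1 hy)) (NPC.Poly.decide_lt hy (NPC.Poly.add hnL1 hn)))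
        (NPC.Poly.or (NPC.Poly.decide_eq hz hx) (poly_adjB hG hz hx))))
    (NPC.Poly.and (NPC.Poly.and (NPC.Poly.and (NPC.Poly.and (NPC.Poly.decide_le hn hx)
      (NPC.Poly.decide_lt hx hnL)) (NPC.Poly.decide_le hn hy)) (NPC.Poly.decide_lt hy hnL))
        (NPC.Poly.not (NPC.Poly.decide_eq hx hy))))
    (NPC.Poly.and (NPC.Poly.and (NPC.Poly.decide_le hnL hx) (NPC.Poly.decide_le hnL hy))
      (NPC.Poly.not (NPC.Poly.decide_eq hx hy)))

theorem poly_redG : NPC.Poly (fun G : FinGraph => (⟨size G.n, redG G⟩ : FinGraph)) := by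
  refine poly_finGraph (b := fun G x y => halfR G x y || halfR G y x)
    (upoly_size (upoly_n NPC.Poly.id)) ?_ ?_
  · have hG : NPC.Poly (fun p : (FinGraph × ℕ) × ℕ => p.1.1) :=
      NPC.Poly.fst (NPC.Poly.fst NPC.Poly.id)
    have hx : NPC.Poly (fun p : (FinGraph × ℕ) × ℕ => p.1.2) :=
      NPC.Poly.snd (NPC.Poly.fst NPC.Poly.id)
    have hy : NPC.Poly (fun p : (FinGraph × ℕ) × ℕ => p.2) := NPC.Poly.snd NPC.Poly.id
    exact NPC.Poly.or (poly_halfR hG hx hy) (poly_halfR hG hy hx)
  · intro G x y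
    simp only [Bool.or_eq_true]
    exact Iff.rfl

theorem poly_blueG : NPC.Poly (fun G : FinGraph => (⟨size G.n, blueG G.n⟩ : FinGraph)) := by
  refine poly_finGraph (b := fun G x y => (decide (x < G.n) && decide (y = G.n + bigL G.n)) ||
    (decide (y < G.n) && decide (x = G.n + bigL G.n)))
    (upoly_size (upoly_n NPC.Poly.id)) ?_ ?_
  · have hG : NPC.Poly (fun p : (FinGraph × ℕ) × ℕ => p.1.1) :=
      NPC.Poly.fst (NPC.Poly.fst NPC.Poly.id)
    have hx : NPC.Poly (fun p : (FinGraph × ℕ) × ℕ => p.1.2) :=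
      NPC.Poly.snd (NPC.Poly.fst NPC.Poly.id)
    have hy : NPC.Poly (fun p : (FinGraph × ℕ) × ℕ => p.2) := NPC.Poly.snd NPC.Poly.id
    have hn := poly_n hG
    have hnL := NPC.Poly.add hn (upoly_bigL (upoly_n hG)).toPoly
    exact NPC.Poly.or (NPC.Poly.and (NPC.Poly.decide_lt hx hn) (NPC.Poly.decide_eq hy hnL))
      (NPC.Poly.and (NPC.Poly.decide_lt hy hn) (NPC.Poly.decide_eq hx hnL))
  · intro G x y
    simp only [Bool.or_eq_true, Bool.and_eq_true, decide_eq_true_eq]
    exact Iff.rfl

theorem poly_inst : NPC.Poly (fun I : FinGraph × ℕ => inst I.1 I.2) := by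
  have hG : NPC.Poly (fun I : FinGraph × ℕ => I.1) := NPC.Poly.fst NPC.Poly.id
  have hn := poly_n hG
  have hj : NPC.Poly (fun I : FinGraph × ℕ => I.2) := NPC.Poly.snd NPC.Poly.id
  have h : NPC.Poly (fun I : FinGraph × ℕ => (inst I.1 I.2).code) := by
    refine NPC.Poly.pair (poly_redG.comp hG) (NPC.Poly.pair (poly_blueG.comp hG)
      (NPC.Poly.pair hn (NPC.Poly.pair ?_ (NPC.Poly.pair ?_ hj))))
    · exact NPC.Poly.add hn (upoly_bigL (upoly_n hG)).toPoly
    · exact NPC.Poly.sub (NPC.Poly.mul hn (NPC.Poly.add hn (NPC.Poly.const 1)))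
        (NPC.Poly.mul hj hj)
  exact h

theorem npHard : NPHardP RedBlueCut := by
  refine HardI.toNPHardP (HardPr.toHardI (Pr := fun _ => True)
    (HardPr.trans hardPr_indep poly_inst (fun _ _ => trivial) ?_))
  rintro ⟨G, j⟩ ⟨-, hn⟩
  simp only at hn
  exact correct G j (by omega)

end Pool.Agent.N582.RB
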