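import Pool.Agent.N582.RBDefs
import Pool.Agent.N582.CNRed1

/-!
# Red-blue cuts: the reduction from independent sets
-/

set_option autoImplicit false

namespace Pool.Agent.N582.RB

open Pool.Agent.NPC Pool.Agent.H692R2 Pool.Agent.NPC.R542 Pool.Agent.H673R2
open Pool.Agent.N582.CN (adjB_lt adjB_comm)

open Classical in
/-- the ordered pairs representing the edges of a cut -/
noncomputable def cutPairs {n : ℕ} (H : SimpleGraph (Fin n)) (X : Set (Fin n)) :
    Finset (Fin n × Fin n) :=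
  Finset.univ.filter fun p => p.1 ∈ X ∧ p.2 ∉ X ∧ H.Adj p.1 p.2

theorem mem_cutPairs {n : ℕ} {H : SimpleGraph (Fin n)} {X : Set (Fin n)} {p : Fin n × Fin n} :
    p ∈ cutPairs H X ↔ p.1 ∈ X ∧ p.2 ∉ X ∧ H.Adj p.1 p.2 := by
  simp [cutPairs]

theorem cutSize_eq {n : ℕ} (H : SimpleGraph (Fin n)) (X : Set (Fin n)) :
    cutSize H X = (cutPairs H X).card := by
  classical
  unfold cutSize
  have h : {e ∈ H.edgeSet | ∃ u v, e = s(u, v) ∧ u ∈ X ∧ v ∉ X} =
      ((cutPairs H X).image fun p => s(p.1, p.2) : Finset (Sym2 (Fin n))) := by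
    ext e
    simp only [Set.mem_ofPred_eq, Finset.coe_image, Set.mem_image, Finset.mem_coe, mem_cutPairs,
      Prod.exists]
    constructor
    · rintro ⟨he, u, v, rfl, hu, hv⟩
      exact ⟨u, v, ⟨hu, hv, he⟩, rfl⟩
    · rintro ⟨u, v, ⟨hu, hv, hadj⟩, rfl⟩
      exact ⟨hadj, u, v, rfl, hu, hv⟩
  rw [h, Set.ncard_coe_finset, Finset.card_image_of_injOn]
  rintro ⟨u, v⟩ hp ⟨u', v'⟩ hq he
  rw [Finset.mem_coe, mem_cutPairs] at hp hq
  simp only [Sym2.eq, Sym2.rel_iff', Prod.mk.injEq, Prod.swap_prod_mk] at he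
  rcases he with ⟨rfl, rfl⟩ | ⟨rfl, rfl⟩
  · rfl
  · exact absurd hp.1 hq.2.1

/-- the size of the two big cliques -/
def bigL (n : ℕ) : ℕ := 4 * ((n + 1) * (n + 1)) + 2

/-- number of vertices -/
def size (n : ℕ) : ℕ := n + bigL n + bigL n

/-- Half of the red adjacency. The vertices below `n` are those of `G`, then come two cliques with
`bigL n` vertices each. -/
noncomputable def halfR (G : FinGraph) (x y : ℕ) : Bool :=
  (decide (x < G.n) && decide (y < G.n) && !(decide (x = y)) && !(adjB G x y)) ||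
  (decide (x < G.n) && decide (G.n ≤ y) && decide (y < G.n + (G.n + 1))) ||
  (decide (x < G.n) && decide (G.n + bigL G.n + 1 ≤ y) && decide (y < G.n + bigL G.n + 1 + G.n) &&
    (decide (y - (G.n + bigL G.n + 1) = x) || adjB G (y - (G.n + bigL G.n + 1)) x)) ||
  (decide (G.n ≤ x) && decide (x < G.n + bigL G.n) && decide (G.n ≤ y) &&
    decide (y < G.n + bigL G.n) && !(decide (x = y))) ||
  (decide (G.n + bigL G.n ≤ x) && decide (G.n + bigL G.n ≤ y) && !(decide (x = y)))

theorem halfR_iff {G : FinGraph} {x y : ℕ} : halfR G x y = true ↔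
    (x < G.n ∧ y < G.n ∧ x ≠ y ∧ ¬ adjB G x y = true) ∨
    (x < G.n ∧ G.n ≤ y ∧ y < G.n + (G.n + 1)) ∨
    (x < G.n ∧ G.n + bigL G.n + 1 ≤ y ∧ y < G.n + bigL G.n + 1 + G.n ∧
      (y - (G.n + bigL G.n + 1) = x ∨ adjB G (y - (G.n + bigL G.n + 1)) x = true)) ∨
    (G.n ≤ x ∧ x < G.n + bigL G.n ∧ G.n ≤ y ∧ y < G.n + bigL G.n ∧ x ≠ y) ∨
    (G.n + bigL G.n ≤ x ∧ G.n + bigL G.n ≤ y ∧ x ≠ y) := by
  unfold halfR
  simp only [Bool.and_eq_true, Bool.not_eq_true', decide_eq_false_iff_not, Bool.or_eq_true,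
    decide_eq_true_eq, ne_eq, Bool.not_eq_true]
  tauto

theorem halfR_ne {G : FinGraph} {x : ℕ} : ¬ halfR G x x = true := by
  rw [halfR_iff]
  have : G.n < bigL G.n := by unfold bigL; nlinarith
  rintro (h | h | h | h | h) <;> omega

/-- the graph of the red edges -/
def redG (G : FinGraph) : SimpleGraph (Fin (size G.n)) where
  Adj x y := halfR G x y = true ∨ halfR G y x = true
  symm := ⟨fun _ _ h => h.symm⟩
  loopless := ⟨fun _ h => h.elim halfR_ne halfR_ne⟩

/-- the graph of the blue edges -/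
def blueG (n : ℕ) : SimpleGraph (Fin (size n)) where
  Adj x y := ((x : ℕ) < n ∧ (y : ℕ) = n + bigL n) ∨ ((y : ℕ) < n ∧ (x : ℕ) = n + bigL n)
  symm := ⟨fun _ _ h => h.symm⟩
  loopless := ⟨fun _ h => by omega⟩

theorem lt_bigL (n : ℕ) : n + (n + 1) < bigL n := by unfold bigL; nlinarith

/-- the instance -/
def inst (G : FinGraph) (j : ℕ) : Inst where
  n := size G.n
  red := redG G
  blue := blueG G.n
  disj u v := by
    have := lt_bigL G.n
    simp only [redG, blueG, halfR_iff]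
    generalize bigL G.n = L at *
    generalize adjB G u v = a1 at *
    generalize adjB G v u = a2 at *
    rintro ⟨(h1 | h1 | h1 | h1 | h1) | (h1 | h1 | h1 | h1 | h1), h2 | h2⟩ <;> omega
  s := ⟨G.n, by unfold size bigL; omega⟩
  t := ⟨G.n + bigL G.n, by unfold size bigL; omega⟩
  ne := by
    intro h
    have := congrArg Fin.val h
    simp only at this
    unfold bigL at this
    omega
  r := G.n * (G.n + 1) - j * j
  b := j

end Pool.Agent.N582.RB
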