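import Pool.Agent.R550.TD.Main
import Pool.Agent.H671R2.PolyAuto

/-!
# Deciding the equality of the total and the sub-total domination number is NP-hard
-/

set_option autoImplicit false

namespace Pool.Agent.N582.TD

open Pool.Agent.NPC Pool.Agent.NPC.H632 Pool.Agent.H557R2.Tri
open Pool.Agent.R550.TD (NoIsolated gammaT subT graph)

/-- The decision problem TDS-EQ: given (the adjacency lists `A` of) a graph without isolated
vertices, decide whether `γ_t(G) = sub_t(G)`. -/
def TDSEq (A : List (List ℕ)) : Prop :=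
  NoIsolated (graph A) ∧ gammaT (graph A) = subT (graph A)

/-- The reduction, with the size cut off. -/
def red' (I : List (ℕ × ℕ × ℕ) × ℕ) : List (List ℕ) :=
  Pool.Agent.R550.TD.red (I.1, min I.2 I.1.length)

theorem poly_el {β : Type} [TEnc β] {f : β → ℕ × ℕ × ℕ} (hf : NPC.Poly f) :
    NPC.Poly (fun b => el (f b)) := by
  unfold el
  fun_prop

theorem poly_red' : NPC.Poly red' := by
  have hm : UPoly (fun I : List (ℕ × ℕ × ℕ) × ℕ => min I.2 I.1.length) :=
    UPoly.of_le (n := fun I : List (ℕ × ℕ × ℕ) × ℕ => I.1.length)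
      (NPC.Poly.min (NPC.Poly.snd NPC.Poly.id) (UPoly.length (NPC.Poly.fst NPC.Poly.id)).toPoly)
      (UPoly.length (NPC.Poly.fst NPC.Poly.id)) (fun p => Nat.min_le_right _ _)
  have ht : UPoly (fun I : List (ℕ × ℕ × ℕ) × ℕ => I.1.length) :=
    UPoly.length (NPC.Poly.fst NPC.Poly.id)
  have hs : UPoly (fun I : List (ℕ × ℕ × ℕ) × ℕ => I.1.length * (3 * min I.2 I.1.length)) :=
    ht.mul ((UPoly.const 3).mul hm)
  have hr := hs.range
  have hr1 : NPC.Poly (fun I : List (ℕ × ℕ × ℕ) × ℕ =>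
      List.range (1 + I.1.length * (3 * min I.2 I.1.length))) := ((UPoly.const 1).add hs).range
  unfold red' Pool.Agent.R550.TD.red
  simp only
  refine NPC.Poly.append ?_ ?_
  · refine NPC.Poly.map (NPC.Poly.fst NPC.Poly.id) ?_
    refine NPC.Poly.cons (ht.toPoly.comp (NPC.Poly.fst NPC.Poly.id)) ?_
    refine NPC.Poly.map (NPC.Poly.filter (hr.comp (NPC.Poly.fst NPC.Poly.id)) ?_) ?_
    · refine NPC.Poly.dec_mem ?_ (poly_el (NPC.Poly.snd (NPC.Poly.fst NPC.Poly.id)))
      fun_prop
    · fun_prop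
  · exact NPC.Poly.map hr1 (NPC.Poly.const _)

theorem npHard : NPHardP TDSEq := by
  refine HardI.toNPHardP (HardPr.toHardI (Pr := fun _ => True)
    (HardPr.trans hardPr_X3Cr poly_red' (fun _ _ => trivial) ?_))
  rintro I hI
  have h1 : red' I = Pool.Agent.R550.TD.red I := by
    unfold red'
    rw [min_eq_left (Pool.Agent.R550.TD.q_le hI)]
  rw [h1, Pool.Agent.R550.TD.main hI]
  exact ⟨fun h => ⟨Pool.Agent.R550.TD.noIsolated hI, h⟩, fun h => h.2⟩

end Pool.Agent.N582.TD
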