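import Mathlib

/-!
# Scheduling a single vehicle on a line: the combinatorial core of the reduction

The jobs are numbered `0, …, 3 n`.
-/

set_option autoImplicit false

namespace Pool.Agent.N582.VL

open Finset

/-- the finishing time for jobs with positions `p`, release times `r` and handling times `h`, for a
vehicle at position `x` at time `t` -/
def fin (p r h : ℕ → ℕ) : ℕ → ℕ → List ℕ → ℕ
  | x, t, [] => t + x
  | x, t, v :: l => fin p r h (p v) (max (t + ((p v - x) + (x - p v))) (r v) + h v) l

theorem fin_mono (p r h : ℕ → ℕ) (l : List ℕ) : ∀ x t t', t ≤ t' → fin p r h x t l ≤ fin p r h x t' l := by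
  induction l with
  | nil => intro x t t' ht; simp only [fin]; omega
  | cons v l ih =>
    intro x t t' ht
    simp only [fin]
    exact ih _ _ _ (by omega)

/-- a lower bound for the finishing time -/
theorem le_fin (p r h : ℕ → ℕ) (l : List ℕ) : ∀ x t, t + (l.map h).sum + x ≤ fin p r h x t l := by
  induction l with
  | nil => intro x t; simp [fin]
  | cons v l ih =>
    intro x t
    simp only [fin, List.map_cons, List.sum_cons]
    refine le_trans ?_ (ih _ _)
    omega

/-- a lower bound for the finishing time if a certain job has still to be processed -/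
theorem le_fin_of_mem (p r h : ℕ → ℕ) (w : ℕ) (l : List ℕ) : ∀ x t, w ∈ l →
    t + (l.map h).sum + (p w - x) + p w ≤ fin p r h x t l := by
  induction l with
  | nil => intro x t hw; simp at hw
  | cons v l ih =>
    intro x t hw
    simp only [fin, List.map_cons, List.sum_cons]
    rcases List.mem_cons.1 hw with rfl | hw
    · refine le_trans ?_ (le_fin p r h l _ _)
      omega
    · refine le_trans ?_ (ih _ _ hw)
      omega

variable (a : List ℕ) (T : ℕ)

/-- the items -/
def itm (j : ℕ) : ℕ := a.getD j 0

/-- the unit of length -/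
def L : ℕ := a.sum + 1

/-- the bound for the idle time -/
def N : ℕ := (a.length + 1) * (a.length + 2) * L a + 2 * T

/-- the big handling time -/
def M : ℕ := N a T + 2 * a.sum + 1

/-- the positions of the vertices -/
def pos (v : ℕ) : ℕ :=
  if v < a.length then 0
  else if (v - a.length) % 2 = 1 then ((v - a.length) / 2 + 1) * L a + itm a ((v - a.length) / 2)
  else ((v - a.length) / 2 + 1) * L a

/-- the time after the rounds for the items with number at least `j`, without detours -/
def E (j : ℕ) : ℕ :=
  2 * M a T * (a.length - j) + L a * (a.length * (a.length + 1) - j * (j + 1))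

/-- the release times -/
def rel (v : ℕ) : ℕ :=
  if v < a.length then
    E a T (v + 1) + 2 * (v + 1) * L a + M a T + (if v = 0 then 4 * T else 0)
  else if v < 3 * a.length then
    E a T ((v - a.length) / 2 + 1) + ((v - a.length) / 2 + 1) * L a
  else E a T 0 + 4 * T + (a.length + 1) * L a

/-- the handling times -/
def hand (v : ℕ) : ℕ :=
  if v < a.length then M a T
  else if (v - a.length) % 2 = 1 then max 1 (2 * itm a ((v - a.length) / 2))
  else M a T

/-- the bound for the completion time -/
def K : ℕ := E a T 0 + M a T + 2 * a.sum + 2 * T + 2 * (a.length + 1) * L a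

/-- the conditions on the subset sum instance -/
def Ok : Prop := (∀ j < a.length, 0 < itm a j) ∧ 0 < a.length

variable {a T}

theorem sum_itm : ∑ j ∈ range a.length, itm a j = a.sum := by
  unfold itm
  induction a using List.reverseRecOn with
  | nil => simp
  | append_singleton l x ih =>
    rw [List.length_append, List.length_singleton, sum_range_succ, List.sum_append,
      List.sum_singleton]
    congr 1
    · rw [← ih]
      refine sum_congr rfl fun j hj => ?_
      rw [mem_range] at hj
      rw [List.getD_append _ _ _ _ hj]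
    · simp

theorem itm_le {j : ℕ} (hj : j < a.length) : itm a j ≤ a.sum := by
  rw [← sum_itm]
  exact single_le_sum (f := fun j => itm a j) (fun _ _ => Nat.zero_le _) (mem_range.2 hj)

theorem pos_C {j : ℕ} (hj : j < a.length) : pos a j = 0 := by
  unfold pos
  rw [if_pos hj]

theorem pos_A (j : ℕ) : pos a (a.length + 2 * j) = (j + 1) * L a := by
  unfold pos
  rw [if_neg (by omega), if_neg (by omega)]
  congr 2
  omega

theorem pos_O (j : ℕ) : pos a (a.length + 2 * j + 1) = (j + 1) * L a + itm a j := by
  unfold pos
  have h : (a.length + 2 * j + 1 - a.length) / 2 = j := by omega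
  rw [if_neg (by omega), if_pos (by omega), h]

theorem hand_C {j : ℕ} (hj : j < a.length) : hand a T j = M a T := by
  unfold hand
  rw [if_pos hj]

theorem hand_A (j : ℕ) : hand a T (a.length + 2 * j) = M a T := by
  unfold hand
  rw [if_neg (by omega), if_neg (by omega)]

theorem hand_O (ho : Ok a) {j : ℕ} (hj : j < a.length) :
    hand a T (a.length + 2 * j + 1) = 2 * itm a j := by
  unfold hand
  have h : (a.length + 2 * j + 1 - a.length) / 2 = j := by omega
  rw [if_neg (by omega), if_pos (by omega), h]
  have := ho.1 j hj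
  omega

theorem rel_C {j : ℕ} (hj : j < a.length) : rel a T j =
    E a T (j + 1) + 2 * (j + 1) * L a + M a T + (if j = 0 then 4 * T else 0) := by
  unfold rel
  rw [if_pos hj]

theorem rel_A {j : ℕ} (hj : j < a.length) :
    rel a T (a.length + 2 * j) = E a T (j + 1) + (j + 1) * L a := by
  unfold rel
  have h : (a.length + 2 * j - a.length) / 2 = j := by omega
  rw [if_neg (by omega), if_pos (by omega), h]

theorem rel_O {j : ℕ} (hj : j < a.length) :
    rel a T (a.length + 2 * j + 1) = E a T (j + 1) + (j + 1) * L a := by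
  unfold rel
  have h : (a.length + 2 * j + 1 - a.length) / 2 = j := by omega
  rw [if_neg (by omega), if_pos (by omega), h]

theorem rel_F : rel a T (3 * a.length) = E a T 0 + 4 * T + (a.length + 1) * L a := by
  unfold rel
  by_cases h : a.length = 0
  · rw [if_neg (by omega), if_neg (by omega)]
  · rw [if_neg (by omega), if_neg (by omega)]

theorem E_succ {j : ℕ} (hj : j < a.length) :
    E a T j = E a T (j + 1) + 2 * M a T + 2 * (j + 1) * L a := by
  obtain ⟨q, hq⟩ := Nat.exists_eq_add_of_lt hj
  unfold E
  have h1 : a.length - j = (a.length - (j + 1)) + 1 := by omega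
  have h2 : a.length * (a.length + 1) - j * (j + 1) =
      (a.length * (a.length + 1) - (j + 1) * (j + 1 + 1)) + 2 * (j + 1) := by
    have h3 : (j + 1) * (j + 1 + 1) ≤ a.length * (a.length + 1) :=
      Nat.mul_le_mul hj (by omega)
    have h4 : (j + 1) * (j + 1 + 1) = j * (j + 1) + 2 * (j + 1) := by ring
    omega
  rw [h1, h2]
  ring

theorem E_ge (j : ℕ) : 2 * (a.length - j) * M a T ≤ E a T j := by
  unfold E
  have : 2 * (a.length - j) * M a T = 2 * M a T * (a.length - j) := by ring
  omega

theorem E_top : E a T a.length = 0 := by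
  unfold E
  simp

theorem E_zero : E a T 0 = 2 * M a T * a.length + L a * (a.length * (a.length + 1)) := by
  unfold E
  simp

/-- the weight of the small jobs of a set -/
def W (a : List ℕ) (D : Finset ℕ) : ℕ :=
  ∑ i ∈ range a.length, if a.length + 2 * i + 1 ∈ D then 2 * itm a i else 0

theorem W_le (D : Finset ℕ) : W a D ≤ 2 * a.sum := by
  unfold W
  rw [← sum_itm, mul_sum]
  refine sum_le_sum fun i _ => ?_
  split_ifs <;> omega

theorem W_insert_O {D : Finset ℕ} {j : ℕ} (hj : j < a.length) (h : a.length + 2 * j + 1 ∉ D) :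
    W a (insert (a.length + 2 * j + 1) D) = W a D + 2 * itm a j := by
  unfold W
  have h1 : ∀ i ∈ range a.length, (if a.length + 2 * i + 1 ∈ insert (a.length + 2 * j + 1) D
      then 2 * itm a i else 0) = (if a.length + 2 * i + 1 ∈ D then 2 * itm a i else 0) +
        (if i = j then 2 * itm a j else 0) := by
    intro i _
    by_cases hij : i = j
    · subst hij
      rw [if_pos (mem_insert_self _ _), if_neg h, if_pos rfl, zero_add]
    · rw [if_neg hij, add_zero]
      refine if_congr ?_ rfl rfl
      rw [mem_insert]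
      constructor
      · rintro (h2 | h2)
        · omega
        · exact h2
      · exact Or.inr
  rw [sum_congr rfl h1, sum_add_distrib, sum_ite_eq' (range a.length) j, if_pos (mem_range.2 hj)]

theorem W_insert_C {D : Finset ℕ} {j : ℕ} (hj : j < a.length) : W a (insert j D) = W a D := by
  unfold W
  refine sum_congr rfl fun i _ => if_congr ?_ rfl rfl
  rw [mem_insert]
  constructor
  · rintro (h2 | h2)
    · omega
    · exact h2
  · exact Or.inr

theorem W_insert_A {D : Finset ℕ} {j : ℕ} : W a (insert (a.length + 2 * j) D) = W a D := by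
  unfold W
  refine sum_congr rfl fun i _ => if_congr ?_ rfl rfl
  rw [mem_insert]
  constructor
  · rintro (h2 | h2)
    · omega
    · exact h2
  · exact Or.inr

/-- sum over all vertices -/
theorem sum_split (f : ℕ → ℕ) (n k : ℕ) : ∑ v ∈ range (n + 2 * k), f v =
    ∑ v ∈ range n, f v + ∑ j ∈ range k, (f (n + 2 * j) + f (n + 2 * j + 1)) := by
  induction k with
  | zero => simp
  | succ k ih =>
    have : n + 2 * (k + 1) = n + 2 * k + 1 + 1 := by ring
    rw [this, sum_range_succ, sum_range_succ, ih, sum_range_succ]
    ring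

theorem sum_hand (ho : Ok a) : ∑ v ∈ range (3 * a.length + 1), hand a T v =
    (2 * a.length + 1) * M a T + 2 * a.sum := by
  rw [sum_range_succ]
  have h1 : 3 * a.length = a.length + 2 * a.length := by ring
  rw [h1, sum_split, hand_A]
  have h2 : ∑ v ∈ range a.length, hand a T v = a.length * M a T := by
    rw [sum_congr rfl fun v hv => hand_C (mem_range.1 hv), sum_const, card_range, smul_eq_mul]
  have h3 : ∑ j ∈ range a.length, (hand a T (a.length + 2 * j) +
      hand a T (a.length + 2 * j + 1)) = a.length * M a T + 2 * a.sum := by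
    rw [sum_congr rfl fun j hj => by rw [hand_A, hand_O ho (mem_range.1 hj)], sum_add_distrib,
      sum_const, card_range, smul_eq_mul, ← mul_sum, sum_itm]
  rw [h2, h3]
  ring

theorem K_eq (ho : Ok a) : K a T = ∑ v ∈ range (3 * a.length + 1), hand a T v + N a T := by
  rw [sum_hand ho, K, E_zero, N]
  ring

/-! ### A fast schedule gives a solution of subset sum -/

/-- The states of the vehicle during the round for the item `j`: `f` tells whether the big job of
the item has been processed, `D` is the set of the processed jobs, `x` the position, `t` the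
time. -/
structure Inv (a : List ℕ) (T : ℕ) (j : ℕ) (f : Bool) (D : Finset ℕ) (x t : ℕ) : Prop where
  hj : j < a.length
  hA : ∀ i ≤ a.length, a.length + 2 * i ∈ D ↔ i < a.length ∧ (j < i ∨ (i = j ∧ f = true))
  hC : ∀ i < a.length, i ∈ D ↔ j < i
  hD : D ⊆ range (3 * a.length + 1)
  hsum : ∑ v ∈ D, hand a T v = (2 * (a.length - 1 - j) + f.toNat) * M a T + W a D
  time : ∃ m ρ, ρ ≤ W a D ∧ x ≤ m ∧ (f = true → (j + 1) * L a ≤ m) ∧
    (ρ = 0 ∨ (a.length + 2 * j + 1 ∈ D ∧ 2 * ((j + 1) * L a) + ρ ≤ 2 * m) ∨ (j + 2) * L a ≤ m) ∧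
    E a T (j + 1) + 2 * W a D + f.toNat * M a T + 2 * m ≤ t + x + ρ

theorem inv_start (h : 0 < a.length) : Inv a T (a.length - 1) false ∅ 0 0 := by
  refine ⟨by omega, ?_, ?_, by simp, ?_, 0, 0, by simp, le_rfl, by simp, Or.inl rfl, ?_⟩
  · intro i hi
    simp
    omega
  · intro i hi
    simp
    omega
  · simp [W]
  · have h1 : a.length - 1 + 1 = a.length := by omega
    rw [h1, E_top]
    simp [W]

/-- The remaining jobs. -/
def Rest (a : List ℕ) (D : Finset ℕ) (l : List ℕ) : Prop :=
  l.Nodup ∧ ∀ v, v ∈ l ↔ v < 3 * a.length + 1 ∧ v ∉ D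

theorem Rest.cons {D : Finset ℕ} {v : ℕ} {l : List ℕ} (h : Rest a D (v :: l)) :
    Rest a (insert v D) l ∧ v ∉ D ∧ v < 3 * a.length + 1 := by
  obtain ⟨h1, h2⟩ := h
  rw [List.nodup_cons] at h1
  have h3 := (h2 v).1 (List.mem_cons_self)
  refine ⟨⟨h1.2, fun u => ?_⟩, h3.2, h3.1⟩
  rw [mem_insert, not_or]
  constructor
  · intro hu
    have h4 := (h2 u).1 (List.mem_cons_of_mem _ hu)
    refine ⟨h4.1, ?_, h4.2⟩
    rintro rfl
    exact h1.1 hu
  · rintro ⟨h4, h5, h6⟩
    have := (h2 u).2 ⟨h4, h6⟩
    rcases List.mem_cons.1 this with h7 | h7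
    · exact absurd h7 h5
    · exact h7

theorem Rest.sum {D : Finset ℕ} {l : List ℕ} (h : Rest a D l) (hD : D ⊆ range (3 * a.length + 1))
    (f : ℕ → ℕ) : (l.map f).sum + ∑ v ∈ D, f v = ∑ v ∈ range (3 * a.length + 1), f v := by
  have h1 : l.toFinset = range (3 * a.length + 1) \ D := by
    ext v
    rw [List.mem_toFinset, h.2, mem_sdiff, mem_range]
  rw [← List.sum_toFinset f h.1, h1, sum_sdiff hD]

/-- The key estimate: with `c` big jobs processed, only jobs released before time `(c + 1) M` can be
processed. -/
theorem key_bound (ho : Ok a) {D : Finset ℕ} {x t v : ℕ} {l : List ℕ} {c : ℕ}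
    (hD : D ⊆ range (3 * a.length + 1)) (hs : ∑ v ∈ D, hand a T v = c * M a T + W a D)
    (hr : Rest a D (v :: l)) (hf : fin (pos a) (rel a T) (hand a T) x t (v :: l) ≤ K a T) :
    rel a T v < (c + 1) * M a T := by
  have h1 := le_fin (pos a) (rel a T) (hand a T) l (pos a v)
    (max (t + ((pos a v - x) + (x - pos a v))) (rel a T v) + hand a T v)
  have h2 := hr.sum hD (hand a T)
  rw [List.map_cons, List.sum_cons] at h2
  rw [K_eq ho] at hf
  simp only [fin] at hf
  have h3 : rel a T v ≤ max (t + ((pos a v - x) + (x - pos a v))) (rel a T v) := le_max_right _ _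
  have h4 := W_le (a := a) D
  have h5 : (c + 1) * M a T = c * M a T + M a T := by ring
  have h6 : M a T = N a T + 2 * a.sum + 1 := rfl
  omega

theorem lt_of_level {c d x : ℕ} (h1 : d * M a T ≤ x) (h2 : x < (c + 1) * M a T) : d ≤ c := by
  by_contra hcon
  have : (c + 1) * M a T ≤ d * M a T := Nat.mul_le_mul_right _ (by omega)
  omega

/-- the conclusion: a subset of the items with the right sum -/
def Sol (a : List ℕ) (T : ℕ) : Prop := ∃ S : Finset ℕ, S ⊆ range a.length ∧ ∑ i ∈ S, itm a i = T

theorem final {D : Finset ℕ} {t : ℕ} {l : List ℕ} (ho : Ok a)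
    (hD : D ⊆ range (3 * a.length + 1)) (hs : ∑ v ∈ D, hand a T v = 2 * a.length * M a T + W a D)
    (hr : Rest a D l) (hF : 3 * a.length ∉ D) (ht : E a T 0 + 2 * W a D ≤ t)
    (ht' : E a T 0 + 4 * T ≤ t)
    (hf : fin (pos a) (rel a T) (hand a T) 0 t l ≤ K a T) : Sol a T := by
  have h1 := le_fin_of_mem (pos a) (rel a T) (hand a T) (3 * a.length) l 0 t
    ((hr.2 _).2 ⟨by omega, hF⟩)
  have h2 := hr.sum hD (hand a T)
  have h3 : pos a (3 * a.length) = (a.length + 1) * L a := by
    have : 3 * a.length = a.length + 2 * a.length := by ring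
    rw [this, pos_A]
  rw [h3] at h1
  rw [sum_hand ho, hs] at h2
  have h4 := W_le (a := a) D
  have h5 : (2 * a.length + 1) * M a T = 2 * a.length * M a T + M a T := by ring
  have h6 : K a T = E a T 0 + M a T + 2 * a.sum + 2 * T + 2 * (a.length + 1) * L a := rfl
  have h7 : 2 * (a.length + 1) * L a = (a.length + 1) * L a + (a.length + 1) * L a := by ring
  have hW : W a D = 2 * T := by omega
  refine ⟨(range a.length).filter fun i => a.length + 2 * i + 1 ∈ D, filter_subset _ _, ?_⟩
  have h8 : W a D = 2 * ∑ i ∈ (range a.length).filter (fun i => a.length + 2 * i + 1 ∈ D),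
      itm a i := by
    rw [sum_filter, mul_sum]
    unfold W
    refine sum_congr rfl fun i _ => ?_
    split_ifs <;> rfl
  omega

end Pool.Agent.N582.VL
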