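import Pool.Agent.NPC.Num

/-!
# Scheduling a single vehicle on a line: definitions
-/

set_option autoImplicit false

namespace Pool.Agent.N582.VL

open Pool.Agent.NPC

/-- An instance of the single-vehicle scheduling problem on a line, with release and handling
times: a path with the vertices `0, 1, …, n` (in the order along the line), the travel times of its
`n` edges in both directions, the start vertex, the release time and the (positive) handling time of
the job of every vertex, and a bound for the completion time. All numbers are natural numbers. -/
structure Inst where
  /-- the number of edges of the path -/
  n : ℕ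
  /-- `right i` is the travel time from the vertex `i` to the vertex `i + 1` -/
  right : Fin n → ℕ
  /-- `left i` is the travel time from the vertex `i + 1` to the vertex `i` -/
  left : Fin n → ℕ
  /-- the start vertex of the vehicle -/
  start : Fin (n + 1)
  /-- the release times -/
  release : Fin (n + 1) → ℕ
  /-- the handling times -/
  handling : Fin (n + 1) → ℕ
  /-- the handling times are positive -/
  handling_pos : ∀ v, 0 < handling v
  /-- the bound for the completion time -/
  bound : ℕ

namespace Inst

/-- The code of an instance: the list of the travel times of the edges, the list of the release and
handling times of the vertices, the start vertex and the bound; all numbers are in binary. -/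
def code (I : Inst) : List (ℕ × ℕ) × List (ℕ × ℕ) × ℕ × ℕ :=
  (List.ofFn fun i => (I.right i, I.left i), List.ofFn fun v => (I.release v, I.handling v),
    (I.start : ℕ), I.bound)

theorem code_injective : Function.Injective code := by
  rintro ⟨n, ri, le, s, r, h, hp, K⟩ ⟨n', ri', le', s', r', h', hp', K'⟩ he
  simp only [code, Prod.mk.injEq] at he
  obtain ⟨h1, h2, h3, rfl⟩ := he
  have hn : n = n' := by
    have := congrArg List.length h1
    simpa using this
  subst hn
  have e1 := List.ofFn_injective h1
  have e2 := List.ofFn_injective h2
  have e3 : ri = ri' := funext fun i => (Prod.mk.inj (congrFun e1 i)).1
  have e4 : le = le' := funext fun i => (Prod.mk.inj (congrFun e1 i)).2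
  have e5 : r = r' := funext fun i => (Prod.mk.inj (congrFun e2 i)).1
  have e6 : h = h' := funext fun i => (Prod.mk.inj (congrFun e2 i)).2
  subst e3 e4 e5 e6
  obtain rfl := Fin.ext h3
  rfl

instance : TEnc Inst := ⟨fun I => toT I.code, fun _ _ h => code_injective (TEnc.inj h)⟩

/-- The time which the vehicle needs for moving from the vertex `u` to the vertex `v`: the sum of
the travel times of the edges between them, in the direction from `u` to `v`. -/
def travel (I : Inst) (u v : Fin (I.n + 1)) : ℕ :=
  (∑ i : Fin I.n with u ≤ i.castSucc ∧ i.succ ≤ v, I.right i) +
    ∑ i : Fin I.n with v ≤ i.castSucc ∧ i.succ ≤ u, I.left i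

/-- `finish u t π` is the time at which the vehicle is back at the start vertex, if at time `t` it
stands at the vertex `u` and then processes the jobs of the list `π` in this order: it moves to the
first vertex `v` of the list, waits for the release time of `v` if it is early, processes the job of
`v`, and so on; after the last job it returns to the start vertex. -/
def finish (I : Inst) : Fin (I.n + 1) → ℕ → List (Fin (I.n + 1)) → ℕ
  | u, t, [] => t + I.travel u I.start
  | u, t, v :: π => I.finish v (max (t + I.travel u v) (I.release v) + I.handling v) π

end Inst

/-- The decision problem: is there an order of all the jobs for which the vehicle, starting at time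
`0`, is back at the start vertex by the time `I.bound`? -/
def Schedulable (I : Inst) : Prop :=
  ∃ π : List (Fin (I.n + 1)), π.Nodup ∧ (∀ v, v ∈ π) ∧ I.finish I.start 0 π ≤ I.bound

end Pool.Agent.N582.VL
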